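import Pool.Agent.W920.FC.Stm

set_option autoImplicit false

/-!
# A feasible system has a solution close to the ladder
-/

namespace Pool.Agent.W920.FC

open Pool.Agent.NPC Pool.Agent.H558R2 Pool.Agent.H622R3.SM

namespace TBFS

lemma Rv_eq {m n : ℕ} (A : Matrix (Fin m) (Fin n) ℝ) (b : Fin m → ℝ) (i : Fin m)
    (t : Fin (m + (n + n))) : Rv m n (start A b) i t = wmat A b i (some t) := by
  obtain ⟨c, rfl⟩ := (colEquiv m n).surjective t
  have h0 : wmat A b i (some (colEquiv m n c)) = colEntry A i c := by
    simp [wmat]
  rw [h0]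
  rcases c with r | c | c
  · have hv : ((colEquiv m n (Sum.inl r) : Fin (m + (n + n))) : ℕ) = r := by
      simp [colEquiv]
    rw [hv]
    unfold Rv
    rw [if_pos r.2]
    simp only [colEntry, Fin.ext_iff]
  · have hv : ((colEquiv m n (Sum.inr (Sum.inl c)) : Fin (m + (n + n))) : ℕ) = m + c := by
      simp [colEquiv]
    rw [hv]
    unfold Rv
    have hc := c.2
    rw [if_neg (by omega), if_pos (by omega)]
    simp only [colEntry]
    have : m + (c : ℕ) - m = c := by omega
    rw [this]
    simp [start]
  · have hv : ((colEquiv m n (Sum.inr (Sum.inr c)) : Fin (m + (n + n))) : ℕ) = m + (n + c) := by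
      simp [colEquiv]
      try omega
    rw [hv]
    unfold Rv
    have hc := c.2
    rw [if_neg (by omega), if_neg (by omega), if_pos (by omega)]
    simp only [colEntry]
    have : m + (n + (c : ℕ)) - m - n = c := by omega
    rw [this]
    simp [start]

end TBFS

theorem t_BFS : S_CERT → S_MINOR → S_BFS := by
  intro hcert hminor k m n A b reps Lad hm hcov hlad hfeas
  classical
  obtain ⟨x0, hx0⟩ := hfeas
  obtain ⟨β, hd, hnn⟩ := hcert m n (A, b) ⟨x0, fun i => hx0 i⟩
  simp only at hd hnn
  set w := wmat A b with hw
  set d := dd w (fun j => some (β j)) with hdd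
  set e : Fin m → ℝ := fun j => dd w (Function.update (fun j => some (β j)) j none) with he
  have hinj : Function.Injective β := by
    intro i j hij
    by_contra hne
    exact hd (dd_eq_zero w _ hne (by simp [hij]))
  have hq : ∀ j, 0 ≤ e j / d := by
    intro j
    have : e j / d = e j * d / (d * d) := by field_simp
    rw [this]
    exact div_nonneg (hnn j) (mul_self_nonneg d)
  refine ⟨fun t => if t = m + (n + n) then 1 else ∑ j, if (β j : ℕ) = t then e j / d else 0,
    ?_, ?_, ?_, ?_⟩
  · intro t _
    show 0 ≤ if t = m + (n + n) then (1 : ℝ) else ∑ j, if (β j : ℕ) = t then e j / d else 0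
    split_ifs
    · exact zero_le_one
    · refine Finset.sum_nonneg fun j _ => ?_
      split_ifs
      · exact hq j
      · exact le_rfl
  · simp
  · intro i hi
    have hK : cK m n = m + (n + n) + 1 := rfl
    rw [hK, Finset.sum_range_succ]
    beta_reduce
    rw [if_pos rfl, mul_one]
    have hl : Rv m n (start A b) i (m + (n + n)) = b ⟨i, hi⟩ := by
      unfold Rv
      rw [if_neg (by omega), if_neg (by omega), if_neg (by omega)]
      simp [start, hi]
    rw [hl]
    have h1 : ∑ t ∈ Finset.range (m + (n + n)), Rv m n (start A b) i t *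
        (if t = m + (n + n) then 1 else ∑ j, if (β j : ℕ) = t then e j / d else 0) =
        ∑ j, e j / d * w ⟨i, hi⟩ (some (β j)) := by
      have h2 : ∀ t ∈ Finset.range (m + (n + n)), Rv m n (start A b) i t *
        (if t = m + (n + n) then 1 else ∑ j, if (β j : ℕ) = t then e j / d else 0) =
        ∑ j, if (β j : ℕ) = t then Rv m n (start A b) i t * (e j / d) else 0 := by
        intro t ht
        rw [if_neg (Finset.mem_range.1 ht).ne, Finset.mul_sum]
        refine Finset.sum_congr rfl fun j _ => ?_
        split_ifs <;> simp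
      rw [Finset.sum_congr rfl h2, Finset.sum_comm]
      refine Finset.sum_congr rfl fun j _ => ?_
      rw [Finset.sum_ite_eq, if_pos (Finset.mem_range.2 (β j).2), TBFS.Rv_eq A b ⟨i, hi⟩ (β j),
        mul_comm]
    rw [h1]
    have h3 := sum_dd w (fun j => some (β j)) none ⟨i, hi⟩
    have h4 : w ⟨i, hi⟩ none = - b ⟨i, hi⟩ := rfl
    rw [h4, ← hdd] at h3
    have h5 : ∑ j, e j / d * w ⟨i, hi⟩ (some (β j)) = (d * -b ⟨i, hi⟩) / d := by
      rw [h3, Finset.sum_div]
      refine Finset.sum_congr rfl fun j _ => ?_
      simp only [he]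
      ring
    rw [h5, mul_div_cancel_left₀ _ hd]
    ring
  · intro t ht
    show (if t = m + (n + n) then (1 : ℝ) else ∑ j, if (β j : ℕ) = t then e j / d else 0) = 0 ∨
      ∃ u ∈ Lad, rt (cN k m) (wv k m (start A b) reps) u / 2 <
        (if t = m + (n + n) then (1 : ℝ) else ∑ j, if (β j : ℕ) = t then e j / d else 0) ∧
        (if t = m + (n + n) then (1 : ℝ) else ∑ j, if (β j : ℕ) = t then e j / d else 0) ≤
        rt (cN k m) (wv k m (start A b) reps) u
    rw [if_neg ht.ne]
    by_cases hex : ∃ l, (β l : ℕ) = t
    · obtain ⟨l, hl⟩ := hex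
      have hs : (∑ j, if (β j : ℕ) = t then e j / d else 0) = e l / d := by
        rw [Finset.sum_eq_single l]
        · rw [if_pos hl]
        · intro j _ hj
          rw [if_neg]
          intro h
          exact hj (hinj (Fin.ext (h.trans hl.symm)))
        · intro h
          exact absurd (Finset.mem_univ _) h
      rw [hs]
      by_cases h0 : e l = 0
      · left
        rw [h0, zero_div]
      right
      obtain ⟨y, hy1, hy2⟩ := hminor k m n A b reps hm hcov
        (Function.update (fun j => some (β j)) l none) (by
          intro i j hi hj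
          have h : ∀ i, Function.update (fun j => some (β j)) l none i = none → i = l := by
            intro i hi
            by_contra hne
            rw [Function.update_of_ne hne] at hi
            exact absurd hi (by simp)
          rw [h i hi, h j hj])
      obtain ⟨y', hy1', hy2'⟩ := hminor k m n A b reps hm hcov (fun j => some (β j)) (by
        intro i j hi
        exact absurd hi (by simp))
      have hy3 : e l = ∑ l ∈ Finset.range (cN k m), (y l : ℝ) * wv k m (start A b) reps l := hy2
      have hy3' : d = ∑ l ∈ Finset.range (cN k m), (y' l : ℝ) * wv k m (start A b) reps l := hy2'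
      obtain ⟨u, hu, hu1, hu2⟩ := hlad y y' hy1 hy1' (by rw [← hy3]; exact h0)
        (by rw [← hy3']; exact hd)
      rw [← hy3, ← hy3', ← abs_div, abs_of_nonneg (hq l)] at hu1 hu2
      exact ⟨u, hu, hu1, hu2⟩
    · left
      refine Finset.sum_eq_zero fun j _ => ?_
      rw [if_neg]
      intro h
      exact hex ⟨j, h⟩

end Pool.Agent.W920.FC
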