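import Pool.Agent.W920.FC.Stm

set_option autoImplicit false

/-!
# The bisections

Project FC (owner helper920), part BIS, by helper215.
-/

namespace Pool.Agent.W920.FC

open Pool.Agent.NPC Pool.Agent.H558R2 Pool.Agent.H622R3.SM

namespace TBIS

theorem getD_map_range {β : Type} (N : ℕ) (f : ℕ → β) (l : ℕ) (d : β) :
    ((List.range N).map f).getD l d = if l < N then f l else d := by
  rw [List.getD_eq_getElem?_getD, List.getElem?_map]
  by_cases h : l < N
  · rw [List.getElem?_range h, if_pos h]; rfl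
  · rw [List.getElem?_eq_none (by rw [List.length_range]; omega), if_neg h]; rfl

theorem fst_eq (N P : ℕ) (x : ℕ → ℝ) (X : ℝ) : ∀ i ≤ P, (bisSt N P x X i).1 = 2 ^ (P - i)
  | 0, _ => rfl
  | i + 1, h => by
    have ih := fst_eq N P x X i (by omega)
    show (bisSt N P x X i).1 / 2 = _
    rw [ih, show P - i = (P - (i + 1)) + 1 by omega, pow_succ]
    omega

theorem snd_succ (N P : ℕ) (x : ℕ → ℝ) (X : ℝ) (i l : ℕ) :
    (bisSt N P x X (i + 1)).2.getD l 0 = if l < N then
      (if 2 ^ P * x l - (((bisSt N P x X i).2.getD l 0 + (bisSt N P x X i).1 / 2 : ℕ) : ℝ) * X < 0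
      then (bisSt N P x X i).2.getD l 0
      else (bisSt N P x X i).2.getD l 0 + (bisSt N P x X i).1 / 2) else 0 := by
  show ((List.range N).map _).getD l 0 = _
  rw [getD_map_range]
  by_cases h : l < N
  · rw [if_pos h, if_pos h, List.map_map, getD_map_range, if_pos h]
    simp only [Function.comp]
    have key : ∀ v : ℝ, (signOut v = some false) ↔ v < 0 := by
      intro v
      unfold signOut
      split_ifs with h1 h2
      · simp; linarith
      · simp [h2]
      · simp; exact not_lt.1 h2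
    simp only [key]
  · rw [if_neg h, if_neg h]

theorem snd_zero (N P : ℕ) (x : ℕ → ℝ) (X : ℝ) (l : ℕ) : (bisSt N P x X 0).2.getD l 0 = 0 := by
  show ((List.range N).map _).getD l 0 = _
  rw [getD_map_range]
  split_ifs <;> rfl

theorem half (P i : ℕ) (h : i + 1 ≤ P) : 2 ^ (P - i) / 2 = 2 ^ (P - (i + 1)) := by
  rw [show P - i = (P - (i + 1)) + 1 by omega, pow_succ]
  omega

theorem bd (N P : ℕ) (x : ℕ → ℝ) (X : ℝ) (l : ℕ) :
    ∀ i ≤ P, (bisSt N P x X i).2.getD l 0 + 2 ^ (P - i) ≤ 2 ^ P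
  | 0, _ => by rw [snd_zero]; simp
  | i + 1, h => by
    have ih := bd N P x X l i (by omega)
    rw [snd_succ, fst_eq N P x X i (by omega), half P i h]
    have h2 : 2 ^ (P - i) = 2 ^ (P - (i + 1)) + 2 ^ (P - (i + 1)) := by
      rw [show P - i = (P - (i + 1)) + 1 by omega, pow_succ]
      omega
    have h3 : 2 ^ (P - (i + 1)) ≤ 2 ^ P := Nat.pow_le_pow_right (by norm_num) (by omega)
    have h4 := Nat.two_pow_pos (P - (i + 1))
    split_ifs <;> omega

theorem inv (N P : ℕ) (x : ℕ → ℝ) (X : ℝ) (l : ℕ) (hl : l < N) (h0 : 0 ≤ x l)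
    (h1 : x l ≤ X) : ∀ i ≤ P, ((bisSt N P x X i).2.getD l 0 : ℝ) * X ≤ 2 ^ P * x l ∧
      2 ^ P * x l ≤ (((bisSt N P x X i).2.getD l 0 : ℝ) + 2 ^ (P - i)) * X
  | 0, _ => by
    rw [snd_zero]
    constructor
    · simp only [Nat.cast_zero, zero_mul]; positivity
    · simp only [Nat.cast_zero, zero_add, Nat.sub_zero]
      exact mul_le_mul_of_nonneg_left h1 (by positivity)
  | i + 1, h => by
    obtain ⟨ih1, ih2⟩ := inv N P x X l hl h0 h1 i (by omega)
    rw [snd_succ, fst_eq N P x X i (by omega), half P i h, if_pos hl]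
    have h2 : (2 : ℝ) ^ (P - i) = 2 ^ (P - (i + 1)) + 2 ^ (P - (i + 1)) := by
      rw [show P - i = (P - (i + 1)) + 1 by omega, pow_succ]
      ring
    rw [h2] at ih2
    split_ifs with hc
    · push_cast at hc
      exact ⟨ih1, by linarith⟩
    · push_cast at hc ⊢
      rw [not_lt] at hc
      refine ⟨by linarith, ?_⟩
      rw [add_assoc]
      exact ih2

end TBIS

theorem t_BIS : S_BIS := by
  intro N P x X
  refine ⟨fun i hi => ⟨?_, fun l => ?_⟩, fun _ l hl h0 h1 => ?_⟩
  · rw [TBIS.fst_eq N P x X i hi]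
    exact Nat.pow_le_pow_right (by norm_num) (by omega)
  · have h1 := TBIS.bd N P x X l i hi
    have h2 := Nat.two_pow_pos (P - i)
    omega
  · have h2 := TBIS.bd N P x X l P le_rfl
    have h3 := TBIS.inv N P x X l hl h0 h1 P le_rfl
    simp only [Nat.sub_self, pow_zero] at h2 h3
    exact ⟨by omega, h3⟩

end Pool.Agent.W920.FC
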