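import Pool.Agent.W920.FC.Stm

set_option autoImplicit false

/-!
# Encoding lengths
-/

namespace Pool.Agent.W920.FC

open Pool.Agent.NPC Pool.Agent.H558R2 Pool.Agent.H622R3.SM

namespace TBITS

theorem size_le {x β : ℕ} (h : x ≤ 2 ^ β) : Nat.size x ≤ β + 1 := by
  rw [Nat.size_le]
  exact lt_of_le_of_lt h (Nat.pow_lt_pow_right (by norm_num) (Nat.lt_succ_self β))

theorem le_pow_size (x : ℕ) : x ≤ 2 ^ Nat.size x := (Nat.lt_size_self x).le

theorem part1 (β : ℕ) (v : ℝ) (h : QB β v) :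
    ∃ q : ℚ, (q : ℝ) = v ∧ bitLength q ≤ 2 * β + 3 := by
  obtain ⟨E, z, h1, h2, h3, h4⟩ := h
  have hE : (E : ℤ) ≠ 0 := by exact_mod_cast (by omega : E ≠ 0)
  refine ⟨Rat.divInt z E, ?_, ?_⟩
  · have hE' : (E : ℝ) ≠ 0 := by exact_mod_cast (by omega : E ≠ 0)
    rw [Rat.divInt_eq_div]
    push_cast
    rw [← h4]
    field_simp
  · have hn : (Rat.divInt z E).num.natAbs ≤ 2 ^ β := by
      refine le_trans ?_ h3
      by_cases hz : z = 0
      · subst hz
        simp
      · exact Nat.le_of_dvd (Int.natAbs_pos.2 hz) (Int.natAbs_dvd_natAbs.2 (Rat.num_dvd z hE))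
    have hd : (Rat.divInt z E).den ≤ 2 ^ β := by
      refine le_trans ?_ h2
      exact Nat.le_of_dvd h1 (by exact_mod_cast Rat.den_dvd z E)
    have e1 := size_le hn
    have e2 := size_le hd
    unfold bitLength
    omega

/-- the entries -/
def ent {m n : ℕ} (A : Matrix (Fin m) (Fin n) ℚ) (b : Fin m → ℚ) :
    (Fin m × Fin n) ⊕ Fin m → ℚ
  | Sum.inl p => A p.1 p.2
  | Sum.inr i => b i

theorem len_eq {m n : ℕ} (A : Matrix (Fin m) (Fin n) ℚ) (b : Fin m → ℚ) :
    inputLength A b = ∑ x, bitLength (ent A b x) := by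
  unfold inputLength
  rw [Fintype.sum_sum_type, Fintype.sum_prod_type]
  rfl

theorem start_cases {m n : ℕ} (A : Matrix (Fin m) (Fin n) ℚ) (b : Fin m → ℚ) (r : Reg) :
    (∃ x, start (fun i j => ((A i j : ℚ) : ℝ)) (fun i => ((b i : ℚ) : ℝ)) r =
      ((ent A b x : ℚ) : ℝ)) ∨
    start (fun i j => ((A i j : ℚ) : ℝ)) (fun i => ((b i : ℚ) : ℝ)) r = 1 ∨
    start (fun i j => ((A i j : ℚ) : ℝ)) (fun i => ((b i : ℚ) : ℝ)) r = 0 := by
  unfold start
  split
  · split_ifs with h
    · exact Or.inl ⟨Sum.inl (⟨_, h.1⟩, ⟨_, h.2⟩), rfl⟩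
    · exact Or.inr (Or.inr rfl)
  · split_ifs with h
    · exact Or.inl ⟨Sum.inr ⟨_, h⟩, rfl⟩
    · exact Or.inr (Or.inr rfl)
  · exact Or.inr (Or.inl rfl)
  · exact Or.inr (Or.inr rfl)

end TBITS

open TBITS

theorem t_BITS : S_BITS := by
  classical
  refine ⟨part1, fun m n A b => ?_⟩
  have hpos : ∀ x, 1 ≤ (ent A b x).den := fun x => (ent A b x).pos
  have hD1 : 1 ≤ ∏ x, (ent A b x).den := Finset.one_le_prod' fun x _ => hpos x
  have hD2 : ∏ x, (ent A b x).den ≤ 2 ^ inputLength A b := by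
    rw [len_eq, ← Finset.prod_pow_eq_pow_sum]
    refine Finset.prod_le_prod' fun x _ => (le_pow_size _).trans ?_
    exact Nat.pow_le_pow_right (by norm_num) (by unfold bitLength; omega)
  refine ⟨∏ x, (ent A b x).den, hD1, hD2.trans
    (Nat.pow_le_pow_right (by norm_num) (by omega)), fun r _ => ?_⟩
  rcases start_cases A b r with ⟨x, hx⟩ | hx | hx
  · refine ⟨(ent A b x).num * ((∏ y ∈ Finset.univ.erase x, (ent A b y).den : ℕ) : ℤ), ?_, ?_⟩
    · rw [Int.natAbs_mul, Int.natAbs_natCast, two_mul, pow_add]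
      refine Nat.mul_le_mul ?_ ?_
      · refine (le_pow_size _).trans (Nat.pow_le_pow_right (by norm_num) ?_)
        rw [len_eq]
        have : bitLength (ent A b x) ≤ ∑ x, bitLength (ent A b x) :=
          Finset.single_le_sum (f := fun x => bitLength (ent A b x))
            (fun _ _ => Nat.zero_le _) (Finset.mem_univ x)
        refine le_trans ?_ this
        unfold bitLength
        omega
      · refine le_trans ?_ hD2
        exact Finset.prod_le_prod_of_subset_of_one_le' (Finset.erase_subset _ _)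
          fun y _ _ => hpos y
    · rw [hx, ← Finset.mul_prod_erase Finset.univ (fun x => (ent A b x).den)
        (Finset.mem_univ x)]
      push_cast
      have h1 : ((ent A b x : ℚ) : ℝ) * ((ent A b x).den : ℝ) = ((ent A b x).num : ℝ) := by
        have := Rat.mul_den_eq_num (ent A b x)
        exact_mod_cast this
      rw [← mul_assoc, h1]
  · refine ⟨((∏ x, (ent A b x).den : ℕ) : ℤ), ?_, ?_⟩
    · rw [Int.natAbs_natCast]
      exact hD2.trans (Nat.pow_le_pow_right (by norm_num) (by omega))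
    · rw [hx]
      push_cast
      ring
  · refine ⟨0, by simp, ?_⟩
    rw [hx]
    simp

end Pool.Agent.W920.FC
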