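import Pool.Agent.W920.FC.Stm

set_option autoImplicit false

/-!
# A feasible system has a feasible basis
-/

namespace Pool.Agent.W920.FC

open Pool.Agent.NPC Pool.Agent.H558R2 Pool.Agent.H622R3.SM

/-- A feasible system has a feasible basis. -/
theorem t_CERT : S_CERT := by
  intro m n a hfeas
  have hloc : LocReal (pat (m := m) (n := n)) (m + (m + (n + n)) + 3) (pat a) :=
    fun D _ => ⟨a, fun q _ => rfl⟩
  have h0 : pat a (fun j => some (slackBasis m n j)) ≠ 0 := by
    unfold pat chi
    rw [dd_slack]
    simp
  obtain ⟨β, hβ, -, hcase⟩ := exists_terminal (w := fun a : Inp m n => wmat a.1 a.2) le_rfl hloc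
    (m + (n + n)) le_rfl _ h0
  have hsg : ∀ i x, tau (pat a) β i x =
      SignType.sign (dd (wmat a.1 a.2) (Function.update (fun j => some (β j)) i x) *
        dd (wmat a.1 a.2) (fun j => some (β j))) := by
    intro i x
    unfold tau
    rw [sign_mul]
    rfl
  refine ⟨β, ?_, ?_⟩
  · intro h'
    apply hβ
    unfold pat chi
    rw [h', sign_zero]
  rcases hcase with hF | ⟨i, -, hi2, hi3⟩
  · intro j
    have := hF j (β j).2
    rw [hsg j none, Ne, sign_eq_neg_one_iff, not_lt] at this
    exact this
  · exfalso
    refine infeasible_of_cert a.1 a.2 β i ?_ ?_ hfeas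
    · rw [hsg i none, sign_eq_neg_one_iff] at hi2
      exact hi2
    · intro k
      have := hi3 k k.2
      rw [hsg i (some k), Ne, sign_eq_neg_one_iff, not_lt] at this
      exact this

end Pool.Agent.W920.FC
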