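import Pool.Agent.W920.FC.Stm

set_option autoImplicit false

/-! Comparison of absolute values (helper505). -/

namespace Pool.Agent.W920.FC

open Pool.Agent.NPC Pool.Agent.H558R2 Pool.Agent.H622R3.SM

namespace TCMP

theorem length_flat {β : Type*} (f : ℕ → List β) (K : ℕ) (hK : ∀ l, (f l).length = K) (N : ℕ) :
    ((List.range N).flatMap f).length = N * K := by
  induction N with
  | zero => simp
  | succ N ih =>
    rw [List.range_succ, List.flatMap_append, List.length_append, ih, List.flatMap_singleton, hK]
    ring

theorem flat_getD {β : Type*} (f : ℕ → List β) (K : ℕ) (hK : ∀ l, (f l).length = K) (d : β)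
    (N l r : ℕ) (hl : l < N) (hr : r < K) :
    ((List.range N).flatMap f).getD (l * K + r) d = (f l).getD r d := by
  induction N with
  | zero => omega
  | succ N ih =>
    rw [List.range_succ, List.flatMap_append, List.flatMap_singleton]
    have hlen := length_flat f K hK N
    rcases Nat.lt_succ_iff_lt_or_eq.1 hl with h | h
    · have h1 : l * K + r < ((List.range N).flatMap f).length := by
        rw [hlen]
        calc l * K + r < l * K + K := by omega
          _ = (l + 1) * K := by ring
          _ ≤ N * K := Nat.mul_le_mul_right K h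
      rw [List.getD_append _ _ _ _ h1, ih h]
    · subst h
      rw [List.getD_append_right _ _ _ _ (by rw [hlen]; omega), hlen, Nat.add_sub_cancel_left]

theorem map_range_getD {β : Type*} (f : ℕ → β) (d : β) (N l : ℕ) (hl : l < N) :
    ((List.range N).map f).getD l d = f l := by
  simp [List.getD_eq_getElem?_getD, List.getElem?_range, hl]

theorem signOut_zero : signOut 0 = none := by simp [signOut]

theorem getD_signOut (L : List ℝ) (i : ℕ) : (L.map signOut).getD i none = signOut (L.getD i 0) := by
  rw [← signOut_zero, List.getD_map]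

theorem osg_signOut (v : ℝ) : osg (signOut v) = (SignType.sign v : ℤ) := by
  unfold signOut
  rcases lt_trichotomy v 0 with h | h | h
  · rw [if_neg (not_lt.2 h.le), if_pos h, sign_neg h]
    rfl
  · subst h
    simp [osg]
  · rw [if_pos h, sign_pos h]
    rfl

variable (N : ℕ) (x : ℕ → ℝ)

theorem val1 (l : ℕ) (hl : l < N) : (cmpVals N x).getD l 0 = x l := by
  unfold cmpVals
  rw [List.getD_append _ _ _ _ (by simpa using hl), map_range_getD _ _ _ _ hl]

theorem len2 (l : ℕ) : ((List.range N).flatMap fun l' => [x l - x l', x l + x l']).length =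
    N * 2 := length_flat _ 2 (fun _ => rfl) N

theorem val2 (l l' r : ℕ) (hl : l < N) (hl' : l' < N) (hr : r < 2) :
    (cmpVals N x).getD (N + 2 * (l * N + l') + r) 0 = ([x l - x l', x l + x l'] : List ℝ).getD r 0 := by
  unfold cmpVals
  have hlen : ((List.range N).map fun l => x l).length = N := by simp
  rw [List.getD_append_right _ _ _ _ (by rw [hlen]; omega), hlen]
  have e : N + 2 * (l * N + l') + r - N = l * (N * 2) + (l' * 2 + r) := by
    have : 2 * (l * N + l') = l * (N * 2) + l' * 2 := by ring
    omega
  rw [e, flat_getD _ (N * 2) (fun l => len2 N x l) 0 N l _ hl (by omega),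
    flat_getD _ 2 (fun _ => rfl) 0 N l' r hl' hr]

theorem isMax_iff (l : ℕ) (hl : l < N) : isMax N ((cmpVals N x).map signOut) l = true ↔
    ∀ l' < N, |x l'| ≤ |x l| := by
  unfold isMax
  rw [List.all_eq_true]
  have key : ∀ l' < N, (decide (0 ≤ osg (((cmpVals N x).map signOut).getD
      (N + 2 * (l * N + l')) none) * osg (((cmpVals N x).map signOut).getD
      (N + 2 * (l * N + l') + 1) none)) = true ↔ |x l'| ≤ |x l|) := by
    intro l' hl'
    have h1 := val2 N x l l' 0 hl hl' (by norm_num)
    have h2 := val2 N x l l' 1 hl hl' (by norm_num)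
    rw [add_zero] at h1
    rw [getD_signOut, getD_signOut, h1, h2]
    have e1 : ([x l - x l', x l + x l'] : List ℝ).getD 0 0 = x l - x l' := rfl
    have e2 : ([x l - x l', x l + x l'] : List ℝ).getD 1 0 = x l + x l' := rfl
    rw [e1, e2, osg_signOut, osg_signOut, decide_eq_true_iff]
    have e3 : (SignType.sign (x l - x l') : ℤ) * (SignType.sign (x l + x l') : ℤ) =
        (SignType.sign ((x l - x l') * (x l + x l')) : ℤ) := by
      rw [sign_mul]
      push_cast
      rfl
    rw [e3, ← sq_le_sq]
    have e4 : (0 : ℤ) ≤ (SignType.sign ((x l - x l') * (x l + x l')) : ℤ) ↔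
        0 ≤ (x l - x l') * (x l + x l') := by
      rcases lt_trichotomy ((x l - x l') * (x l + x l')) 0 with h | h | h
      · rw [sign_neg h]
        constructor
        · intro h'; exact absurd h' (by decide)
        · intro h'; exact absurd h (not_lt.2 h')
      · rw [h]; simp
      · rw [sign_pos h]
        constructor
        · intro _; exact h.le
        · intro _; decide
    rw [e4]
    constructor <;> intro h <;> nlinarith
  constructor
  · intro h l' hl'
    exact (key l' hl').1 (h l' (List.mem_range.2 hl'))
  · intro h l' hl'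
    rw [List.mem_range] at hl'
    exact (key l' hl').2 (h l' hl')

end TCMP

theorem t_CMP : S_CMP := by
  intro N x hN
  refine ⟨by simp [sgOf], fun l hl => ?_, ?_⟩
  · unfold sgOf
    rw [TCMP.map_range_getD _ _ _ _ hl, TCMP.getD_signOut, TCMP.val1 N x l hl, TCMP.osg_signOut]
  · obtain ⟨b, hb, hbm⟩ := Finset.exists_max_image (Finset.range N) (fun l => |x l|)
      ⟨0, Finset.mem_range.2 (by omega)⟩
    rw [Finset.mem_range] at hb
    have hmem : b ∈ (List.range N).filter fun l => isMax N ((cmpVals N x).map signOut) l := by
      rw [List.mem_filter]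
      exact ⟨List.mem_range.2 hb, (TCMP.isMax_iff N x b hb).2 fun l' hl' =>
        hbm l' (Finset.mem_range.2 hl')⟩
    have key : ∃ c, bestOf N ((cmpVals N x).map signOut) = c ∧
        c ∈ (List.range N).filter fun l => isMax N ((cmpVals N x).map signOut) l := by
      unfold bestOf
      cases h : (List.range N).filter fun l => isMax N ((cmpVals N x).map signOut) l with
      | nil =>
        rw [h] at hmem
        simp at hmem
      | cons a t => exact ⟨a, rfl, List.mem_cons_self⟩
    obtain ⟨c, hc, hcm⟩ := key
    rw [List.mem_filter, List.mem_range] at hcm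
    rw [hc]
    exact ⟨hcm.1, (TCMP.isMax_iff N x c hcm.1).1 hcm.2⟩

end Pool.Agent.W920.FC
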