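import Pool.Agent.W920.FC.Stm

/-! Project FC, part DIR: simultaneous approximation by the pigeonhole principle. -/

set_option autoImplicit false

namespace Pool.Agent.W920.FC

namespace TDIR

/-- two numbers with the same integer part of `Q * r / M` are close -/
lemma close {Q M r1 r2 : ℕ} (hM : 1 ≤ M) (h : Q * r1 / M = Q * r2 / M) :
    Q * ((r2 : ℤ) - r1).natAbs ≤ M := by
  have hM' : 0 < M := hM
  have h1 : Q * r1 / M * M ≤ Q * r1 := Nat.div_mul_le_self _ _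
  have h2 : Q * r2 / M * M ≤ Q * r2 := Nat.div_mul_le_self _ _
  have h3 : Q * r1 < (Q * r1 / M + 1) * M := by
    have := Nat.lt_div_mul_add (a := Q * r1) hM'
    calc _ < _ := this
      _ = _ := by ring
  have h4 : Q * r2 < (Q * r2 / M + 1) * M := by
    have := Nat.lt_div_mul_add (a := Q * r2) hM'
    calc _ < _ := this
      _ = _ := by ring
  rw [← h] at h2 h4
  set k := Q * r1 / M
  have e : (Q * ((r2 : ℤ) - r1).natAbs : ℕ) = ((Q : ℤ) * r2 - Q * r1).natAbs := by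
    rw [← mul_sub, Int.natAbs_mul, Int.natAbs_natCast]
  rw [e]
  have h1' : (k : ℤ) * M ≤ Q * r1 := by exact_mod_cast h1
  have h2' : (k : ℤ) * M ≤ Q * r2 := by exact_mod_cast h2
  have h3' : (Q : ℤ) * r1 < (k + 1) * M := by exact_mod_cast h3
  have h4' : (Q : ℤ) * r2 < (k + 1) * M := by exact_mod_cast h4
  have : ((Q : ℤ) * r2 - Q * r1) ≤ M := by linarith
  have : -((Q : ℤ) * r2 - Q * r1) ≤ M := by linarith
  omega

end TDIR

theorem t_DIR : S_DIR := by
  intro N Q M a hQ hM ha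
  have hM' : 0 < M := hM
  have hlt : ∀ (q : ℕ) (l : ℕ), Q * ((q * a l) % M) / M < Q := by
    intro q l
    rw [Nat.div_lt_iff_lt_mul hM']
    exact Nat.mul_lt_mul_of_pos_left (Nat.mod_lt _ hM') hQ
  let f : Fin (Q ^ N + 1) → (Fin N → Fin Q) := fun q l => ⟨Q * ((q.1 * a l.1) % M) / M, hlt _ _⟩
  obtain ⟨p, p', hne, hf⟩ := Fintype.exists_ne_map_eq_of_card_lt f (by simp)
  obtain ⟨q1, q2, h12, hq2, hf12⟩ : ∃ q1 q2 : ℕ, q1 < q2 ∧ q2 ≤ Q ^ N ∧
      ∀ l < N, Q * ((q1 * a l) % M) / M = Q * ((q2 * a l) % M) / M := by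
    have hf' : ∀ l < N, Q * ((p.1 * a l) % M) / M = Q * ((p'.1 * a l) % M) / M := by
      intro l hl
      have := congrFun hf ⟨l, hl⟩
      simpa [f] using this
    rcases lt_or_gt_of_ne (fun h => hne (Fin.ext h) : p.1 ≠ p'.1) with h | h
    · exact ⟨p.1, p'.1, h, Nat.lt_succ_iff.1 p'.2, hf'⟩
    · exact ⟨p'.1, p.1, h, Nat.lt_succ_iff.1 p.2, fun l hl => (hf' l hl).symm⟩
  refine ⟨q2 - q1, fun l => (q2 * a l) / M - (q1 * a l) / M, by omega, by omega, fun l hl => ?_⟩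
  have hal := ha l hl
  have hmono : (q1 * a l) / M ≤ (q2 * a l) / M :=
    Nat.div_le_div_right (Nat.mul_le_mul_right _ h12.le)
  constructor
  · show q2 * a l / M - q1 * a l / M ≤ q2 - q1
    have h1 : q2 * a l ≤ q1 * a l + (q2 - q1) * M := by
      obtain ⟨d, rfl⟩ := Nat.exists_eq_add_of_lt h12
      have : q1 + d + 1 - q1 = d + 1 := by omega
      rw [this]
      nlinarith
    have h2 : q2 * a l / M ≤ (q1 * a l + (q2 - q1) * M) / M := Nat.div_le_div_right h1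
    rw [Nat.add_mul_div_right _ _ hM'] at h2
    omega
  · have e : (((q2 - q1 : ℕ) : ℤ) * a l - (M : ℤ) * ((q2 * a l / M - q1 * a l / M : ℕ) : ℤ)) =
        (((q2 * a l) % M : ℕ) : ℤ) - (((q1 * a l) % M : ℕ) : ℤ) := by
      have e1 : ((M : ℤ) * ((q2 * a l / M : ℕ) : ℤ) + (((q2 * a l) % M : ℕ) : ℤ)) =
          (q2 : ℤ) * a l := by exact_mod_cast Nat.div_add_mod (q2 * a l) M
      have e2 : ((M : ℤ) * ((q1 * a l / M : ℕ) : ℤ) + (((q1 * a l) % M : ℕ) : ℤ)) =
          (q1 : ℤ) * a l := by exact_mod_cast Nat.div_add_mod (q1 * a l) M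
      rw [Nat.cast_sub h12.le, Nat.cast_sub hmono]
      linear_combination e2 - e1
    show Q * (((q2 - q1 : ℕ) : ℤ) * a l - (M : ℤ) * ((q2 * a l / M - q1 * a l / M : ℕ) : ℤ)).natAbs ≤ M
    rw [e]
    exact TDIR.close hM (hf12 l hl)

end Pool.Agent.W920.FC
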