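import Pool.Agent.W920.FC.Stm

set_option autoImplicit false

/-!
# Equations of the programs: monomials, forms and ratios
-/

namespace Pool.Agent.W920.FC

open Pool.Agent.NPC Pool.Agent.H558R2 Pool.Agent.H622R3.SM

namespace TEQ12

theorem vr_one (p : Par) (h : Base p.g) : vr p [2] = 1 := by
  have : vr p [2] = p.g [2] := rfl
  rw [this, h.1]

theorem vr_zero (p : Par) (h : Base p.g) : vr p [3] = 0 := by
  have : vr p [3] = p.g [3] := rfl
  rw [this, h.2]

theorem vr_thr (p : Par) (r : ℕ) : vr p (thr p.reps r) = p.g (thr p.reps r) := rfl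

theorem vr_breg (p : Par) (d : ℕ) : vr p (breg d) = p.g (breg d) := by
  unfold breg
  split
  · rfl
  · rfl

theorem vr_30 (p : Par) (r s : ℕ) : vr p [30, r, s] = p.g (thr p.reps r) ^ s := rfl

theorem vr_31 (p : Par) (l r : ℕ) : vr p [31, l, r] =
    p.g (breg (((exps p.m (p.k + 1)).getD l []).getD 0 0)) *
      ∏ i ∈ Finset.range r, p.g (thr p.reps i) ^ ((exps p.m (p.k + 1)).getD l []).getD (i + 1) 0 :=
  rfl

theorem vr_31' (p : Par) (l : ℕ) : vr p [31, l, p.k] = p.w l := rfl

theorem vr_32 (p : Par) (c l : ℕ) : vr p [32, c, l] =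
    ∑ i ∈ Finset.range l, ((p.fm c).getD i 0 : ℝ) * p.w i := rfl

theorem vr_33 (p : Par) (c l t : ℕ) : vr p [33, c, l, t] = ((((p.fm c).getD l 0).natAbs /
      2 ^ ((((p.fm c).getD l 0).natAbs.bits).length - t) : ℕ) : ℝ) * p.w l := rfl

theorem vr_34 (p : Par) (c l t : ℕ) : vr p [34, c, l, t] =
    2 * (((((p.fm c).getD l 0).natAbs /
      2 ^ ((((p.fm c).getD l 0).natAbs.bits).length - t) : ℕ) : ℝ) * p.w l) := rfl

theorem vr_35 (p : Par) (j : ℕ) : vr p [35, j] = p.W j := rfl

theorem eqn_add {V : Reg → ℝ} {d a b : Reg} (h : V d = V a + V b) : Eqn V ⟨Op.add, d, a, b⟩ :=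
  ⟨h, fun h => by cases h⟩

theorem eqn_sub {V : Reg → ℝ} {d a b : Reg} (h : V d = V a - V b) : Eqn V ⟨Op.sub, d, a, b⟩ :=
  ⟨h, fun h => by cases h⟩

theorem eqn_mul {V : Reg → ℝ} {d a b : Reg} (h : V d = V a * V b) : Eqn V ⟨Op.mul, d, a, b⟩ :=
  ⟨h, fun h => by cases h⟩

theorem eqn_div {V : Reg → ℝ} {d a b : Reg} (h : V d = V a / V b) (h' : V b ≠ 0) :
    Eqn V ⟨Op.div, d, a, b⟩ := ⟨h, fun _ => h'⟩

theorem pow_eqs (p : Par) (h : Base p.g) : ∀ I ∈ powProg p.k p.m p.reps, Eqn (vr p) I := by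
  intro I hI
  unfold powProg at hI
  rw [List.mem_flatMap] at hI
  obtain ⟨r, -, hI⟩ := hI
  rw [List.mem_cons, List.mem_map] at hI
  rcases hI with rfl | ⟨s, -, rfl⟩
  · apply eqn_add
    rw [vr_30, vr_one p h, vr_zero p h]
    simp
  · apply eqn_mul
    rw [vr_30, vr_30, vr_thr, pow_succ]

theorem zipIdx_getD {α : Type} (l : List α) (d : α) (q : α × ℕ) (hq : q ∈ l.zipIdx) :
    q.2 < l.length ∧ l.getD q.2 d = q.1 := by
  obtain ⟨a, i⟩ := q
  rw [List.mk_mem_zipIdx_iff_getElem?] at hq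
  obtain ⟨h1, h2⟩ := List.getElem?_eq_some_iff.1 hq
  exact ⟨h1, by rw [List.getD_eq_getElem?_getD, hq]; rfl⟩

theorem mon_eqs (p : Par) (h : Base p.g) : ∀ I ∈ monProg p.k p.m, Eqn (vr p) I := by
  intro I hI
  unfold monProg at hI
  rw [List.mem_flatMap] at hI
  obtain ⟨q, hq, hI⟩ := hI
  have hq' := (zipIdx_getD _ [] q hq).2
  rw [List.mem_cons, List.mem_map] at hI
  rcases hI with rfl | ⟨r, -, rfl⟩
  · apply eqn_add
    rw [vr_31, vr_breg, vr_zero p h, hq']
    simp
  · apply eqn_mul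
    rw [vr_31, vr_31, vr_30, Finset.prod_range_succ, hq']
    ring

/-- The division step. -/
theorem div_step (a n t : ℕ) (ht : t < n) :
    a / 2 ^ (n - (t + 1)) = 2 * (a / 2 ^ (n - t)) + (a / 2 ^ (n - (t + 1))) % 2 := by
  have e : n - t = (n - (t + 1)) + 1 := by omega
  rw [e, pow_succ, ← Nat.div_div_eq_div_mul]
  omega

theorem mul_eqs (p : Par) (h : Base p.g) (c l : ℕ) :
    ∀ I ∈ mulProg p.k c l ((p.fm c).getD l 0), Eqn (vr p) I := by
  intro I hI
  unfold mulProg at hI
  rw [List.mem_cons, List.mem_flatMap] at hI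
  rcases hI with rfl | ⟨q, hq, hI⟩
  · apply eqn_add
    rw [vr_33, vr_zero p h, Nat.div_eq_of_lt]
    · simp
    · rw [Nat.sub_zero, Nat.size_eq_bits_len]
      exact Nat.lt_size_self _
  · obtain ⟨h1, h2⟩ := zipIdx_getD _ false q hq
    rw [List.length_reverse] at h1
    simp only [List.mem_cons, List.not_mem_nil, or_false] at hI
    rcases hI with rfl | rfl
    · apply eqn_add
      rw [vr_34, vr_33]
      ring
    · apply eqn_add
      have e1 : (q.1 = true) ↔ ((p.fm c).getD l 0).natAbs /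
          2 ^ ((((p.fm c).getD l 0).natAbs.bits).length - (q.2 + 1)) % 2 = 1 := by
        rw [← h2, List.getD_eq_getElem?_getD, List.getElem?_reverse h1]
        have e2 := Nat.testBit_eq_inth ((p.fm c).getD l 0).natAbs
          ((((p.fm c).getD l 0).natAbs.bits).length - 1 - q.2)
        have e4 : (((p.fm c).getD l 0).natAbs.bits).length - 1 - q.2 =
          (((p.fm c).getD l 0).natAbs.bits).length - (q.2 + 1) := by omega
        rw [e4] at e2 ⊢
        have e3 : ((((p.fm c).getD l 0).natAbs.bits)[(((p.fm c).getD l 0).natAbs.bits).length -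
          (q.2 + 1)]?).getD false = ((p.fm c).getD l 0).natAbs.bits.getI
            ((((p.fm c).getD l 0).natAbs.bits).length - (q.2 + 1)) := by
          rw [List.getI_eq_getElem?_getD]
          rfl
        rw [e3, ← e2, Nat.testBit_eq_decide_div_mod_eq, decide_eq_true_iff]
      have e5 := div_step ((p.fm c).getD l 0).natAbs (((p.fm c).getD l 0).natAbs.bits).length q.2 h1
      rw [vr_33, vr_34]
      rcases hb : q.1 with _ | _
      · have e6 : ¬ (((p.fm c).getD l 0).natAbs /
          2 ^ ((((p.fm c).getD l 0).natAbs.bits).length - (q.2 + 1)) % 2 = 1) := by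
          rw [← e1, hb]; simp
        rw [if_neg (by simp), vr_zero p h, e5]
        have e7 : (((p.fm c).getD l 0).natAbs /
          2 ^ ((((p.fm c).getD l 0).natAbs.bits).length - (q.2 + 1)) % 2) = 0 := by omega
        rw [e7]
        push_cast
        ring
      · have e7 := e1.1 hb
        rw [if_pos rfl, vr_31', e5, e7]
        push_cast
        ring

theorem form_eqs (p : Par) (h : Base p.g) (N c : ℕ) :
    ∀ I ∈ formProg p.k N c (p.fm c), Eqn (vr p) I := by
  intro I hI
  unfold formProg at hI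
  rw [List.mem_cons, List.mem_flatMap] at hI
  rcases hI with rfl | ⟨l, -, hI⟩
  · apply eqn_add
    rw [vr_32, vr_zero p h]
    simp
  · rw [List.mem_append] at hI
    rcases hI with hI | hI
    · exact mul_eqs p h c l I hI
    · rw [List.mem_singleton] at hI
      have e : vr p [33, c, l, ((p.fm c).getD l 0).natAbs.bits.length] =
        (((p.fm c).getD l 0).natAbs : ℝ) * p.w l := by
        rw [vr_33, Nat.sub_self, pow_zero, Nat.div_one]
      by_cases hn : (p.fm c).getD l 0 < 0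
      · rw [if_pos hn] at hI
        subst hI
        apply eqn_sub
        rw [e, vr_32, vr_32, Finset.sum_range_succ]
        have e1 : ((((p.fm c).getD l 0).natAbs : ℕ) : ℝ) = -(((p.fm c).getD l 0 : ℤ) : ℝ) := by
          have : ((((p.fm c).getD l 0).natAbs : ℕ) : ℤ) = -((p.fm c).getD l 0) := by omega
          rw [← Int.cast_neg, ← this, Int.cast_natCast]
        rw [e1]
        ring
      · rw [if_neg hn] at hI
        subst hI
        apply eqn_add
        rw [e, vr_32, vr_32, Finset.sum_range_succ]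
        have e1 : ((((p.fm c).getD l 0).natAbs : ℕ) : ℝ) = (((p.fm c).getD l 0 : ℤ) : ℝ) := by
          have : ((((p.fm c).getD l 0).natAbs : ℕ) : ℤ) = ((p.fm c).getD l 0) := by omega
          rw [← Int.cast_natCast, this]
        rw [e1]

theorem fm_even (p : Par) (j : ℕ) : p.fm (2 * j) = (p.L.getD j ([], [])).1 := by
  unfold Par.fm
  rw [if_pos (by omega), Nat.mul_div_cancel_left _ (by norm_num)]

theorem fm_odd (p : Par) (j : ℕ) : p.fm (2 * j + 1) = (p.L.getD j ([], [])).2 := by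
  unfold Par.fm
  have e : (2 * j + 1) / 2 = j := by omega
  rw [if_neg (by omega), e]

theorem rat_eqs (p : Par) (h : Base p.g) (h0 : ∀ u ∈ p.L, evF (cN p.k p.m) p.w u.2 ≠ 0) :
    ∀ I ∈ ratProg p.k (cN p.k p.m) p.L, Eqn (vr p) I := by
  intro I hI
  unfold ratProg at hI
  rw [List.mem_flatMap] at hI
  obtain ⟨q, hq, hI⟩ := hI
  obtain ⟨h1, h2⟩ := zipIdx_getD _ ([], []) q hq
  have hmem : q.1 ∈ p.L := by
    rw [← h2, List.getD_eq_getElem _ _ h1]
    exact List.getElem_mem h1
  rw [List.mem_append, List.mem_append, List.mem_singleton] at hI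
  have f1 : q.1.1 = p.fm (2 * q.2) := by rw [fm_even, h2]
  have f2 : q.1.2 = p.fm (2 * q.2 + 1) := by rw [fm_odd, h2]
  rcases hI with hI | hI | rfl
  · rw [f1] at hI
    exact form_eqs p h _ _ I hI
  · rw [f2] at hI
    exact form_eqs p h _ _ I hI
  · have e1 : vr p [32, 2 * q.2, cN p.k p.m] = evF (cN p.k p.m) p.w q.1.1 := by
      rw [vr_32, ← f1]; rfl
    have e2 : vr p [32, 2 * q.2 + 1, cN p.k p.m] = evF (cN p.k p.m) p.w q.1.2 := by
      rw [vr_32, ← f2]; rfl
    apply eqn_div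
    · rw [e1, e2, vr_35]
      unfold Par.W rt
      rw [h2]
    · rw [e2]
      exact h0 _ hmem

end TEQ12

theorem t_EQ12 : S_EQ1 ∧ S_EQ2 := by
  refine ⟨fun p h I hI => ?_, fun p h => ⟨fun c => TEQ12.form_eqs p h _ c, TEQ12.rat_eqs p h⟩⟩
  unfold baseProg at hI
  rw [List.mem_append] at hI
  rcases hI with hI | hI
  · exact TEQ12.pow_eqs p h I hI
  · exact TEQ12.mon_eqs p h I hI

end Pool.Agent.W920.FC
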