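import Pool.Agent.W920.FC.Stm

set_option autoImplicit false

/-!
# Project FC: the equations of the Gram matrix and of the scalar product (helper839)
-/

namespace Pool.Agent.W920.FC

open Pool.Agent.NPC Pool.Agent.H558R2 Pool.Agent.H622R3.SM

namespace TEQ35

section

variable (p : Par)

lemma v2 (h : Base p.g) : vr p [2] = 1 := h.1
lemma v3 (h : Base p.g) : vr p [3] = 0 := h.2
lemma v0 (i j : ℕ) : vr p [0, i, j] = p.g [0, i, j] := rfl
lemma v1 (i : ℕ) : vr p [1, i] = p.g [1, i] := rfl
lemma v35 (j : ℕ) : vr p [35, j] = p.W j := rfl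
lemma v36 (i j : ℕ) : vr p [36, i, j] = Rv p.m p.n p.g i j := rfl
lemma v37 (i j : ℕ) : vr p [37, i, j] = Rv p.m p.n p.g i j * p.W j := rfl
lemma v38 (j l i : ℕ) : vr p [38, j, l, i] =
    (Rv p.m p.n p.g i j * p.W j) * (Rv p.m p.n p.g i l * p.W l) := rfl
lemma v39 (j l i : ℕ) : vr p [39, j, l, i] = ∑ i' ∈ Finset.range i,
    (Rv p.m p.n p.g i' j * p.W j) * (Rv p.m p.n p.g i' l * p.W l) := rfl
lemma v4 (i j : ℕ) : vr p [4, i, j] = ent p.G i j := rfl
lemma v6 (k i j : ℕ) : vr p [6, k, i, j] = ent (flN p.G k) i j := rfl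
lemma v40 (t : ℕ) : vr p [40, t] = (t : ℝ) := rfl
lemma v41 (l : ℕ) : vr p [41, l] = ent (flN p.G p.r) p.j l * (p.y.getD l 0 : ℕ) := rfl
lemma v42 (l : ℕ) : vr p [42, l] =
    ∑ l' ∈ Finset.range l, ent (flN p.G p.r) p.j l' * (p.y.getD l' 0 : ℕ) := rfl

lemma good_ent (h : Base p.g) (i j : ℕ) : Eqn (vr p) (entProg p.m p.n i j) := by
  unfold entProg
  by_cases h1 : j < p.m
  · rw [if_pos h1]
    by_cases h2 : i = j
    · rw [if_pos h2]
      refine ⟨?_, by simp⟩
      simp only [Op.eval]
      rw [v36, v2 p h, v3 p h, Rv, if_pos h1, if_pos h2, add_zero]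
    · rw [if_neg h2]
      refine ⟨?_, by simp⟩
      simp only [Op.eval]
      rw [v36, v3 p h, Rv, if_pos h1, if_neg h2, add_zero]
  · rw [if_neg h1]
    by_cases h2 : j < p.m + p.n
    · rw [if_pos h2]
      refine ⟨?_, by simp⟩
      simp only [Op.eval]
      rw [v36, v3 p h, v0, Rv, if_neg h1, if_pos h2, zero_sub]
    · rw [if_neg h2]
      by_cases h3 : j < p.m + (p.n + p.n)
      · rw [if_pos h3]
        refine ⟨?_, by simp⟩
        simp only [Op.eval]
        rw [v36, v3 p h, v0, Rv, if_neg h1, if_neg h2, if_pos h3, add_zero]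
      · rw [if_neg h3]
        refine ⟨?_, by simp⟩
        simp only [Op.eval]
        rw [v36, v3 p h, v1, Rv, if_neg h1, if_neg h2, if_neg h3, add_zero]

lemma good_mat (h : Base p.g) : ∀ I ∈ matProg p.m p.n, Eqn (vr p) I := by
  intro I hI
  unfold matProg at hI
  simp only [List.mem_flatMap, List.mem_range, List.mem_cons, List.not_mem_nil, or_false] at hI
  obtain ⟨i, -, j, -, rfl | rfl⟩ := hI
  · exact good_ent p h i j
  · refine ⟨?_, by simp⟩
    simp only [Op.eval]
    rw [v37, v36, v35]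

lemma good_gram (h : Base p.g) : ∀ I ∈ gramProg p.m p.n p.drop, Eqn (vr p) I := by
  intro I hI
  unfold gramProg at hI
  simp only [List.mem_flatMap, List.mem_range, List.mem_cons, List.mem_append, List.not_mem_nil,
    or_false, List.cons_append] at hI
  obtain ⟨j, hj, l, hl, rfl | ⟨i, -, rfl | rfl⟩ | rfl⟩ := hI
  · refine ⟨?_, by simp⟩
    simp only [Op.eval]
    rw [v39, v3 p h, Finset.range_zero, Finset.sum_empty, add_zero]
  · refine ⟨?_, by simp⟩
    simp only [Op.eval]
    rw [v38, v37, v37]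
  · refine ⟨?_, by simp⟩
    simp only [Op.eval]
    rw [v39, v39, v38, Finset.sum_range_succ]
  · refine ⟨?_, by simp⟩
    simp only [Op.eval]
    have e : ent p.G j l = p.G ⟨j, hj⟩ ⟨l, hl⟩ := by
      unfold ent
      rw [dif_pos ⟨hj, hl⟩]
    rw [v4, v39, e, Par.G, GMat]
    congr 1
    by_cases hd : (decide (j = l) && p.drop.getD j false) = true
    · rw [if_pos hd, if_pos hd, v2 p h]
    · rw [if_neg hd, if_neg hd, v3 p h]

lemma good_num (h : Base p.g) (T : ℕ) : ∀ I ∈ numProg T, Eqn (vr p) I := by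
  intro I hI
  unfold numProg at hI
  simp only [List.mem_cons, List.mem_map, List.mem_range] at hI
  rcases hI with rfl | ⟨t, -, rfl⟩
  · refine ⟨?_, by simp⟩
    simp only [Op.eval]
    rw [v40, v3 p h, Nat.cast_zero, add_zero]
  · refine ⟨?_, by simp⟩
    simp only [Op.eval]
    rw [v40, v40, v2 p h, Nat.cast_succ]

lemma good_dot (h : Base p.g) : ∀ I ∈ dotProg (cK p.m p.n) p.r p.j p.y, Eqn (vr p) I := by
  intro I hI
  unfold dotProg at hI
  simp only [List.mem_cons, List.mem_flatMap, List.mem_range, List.not_mem_nil, or_false] at hI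
  rcases hI with rfl | ⟨l, -, rfl | rfl⟩
  · refine ⟨?_, by simp⟩
    simp only [Op.eval]
    rw [v42, v3 p h, Finset.range_zero, Finset.sum_empty, add_zero]
  · refine ⟨?_, by simp⟩
    simp only [Op.eval]
    rw [v41, v6, v40]
  · refine ⟨?_, by simp⟩
    simp only [Op.eval]
    rw [v42, v42, v41, Finset.sum_range_succ]

end

end TEQ35

/-- The equations of the Gram matrix and of the scalar product. -/
theorem t_EQ35 : S_EQ3 ∧ S_EQ5 := by
  constructor
  · intro p h I hI
    rcases List.mem_append.mp hI with hI | hI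
    · exact TEQ35.good_mat p h I hI
    · exact TEQ35.good_gram p h I hI
  · intro p h T I hI
    rcases List.mem_append.mp hI with hI | hI
    · exact TEQ35.good_num p h T I hI
    · exact TEQ35.good_dot p h I hI

end Pool.Agent.W920.FC
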