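import Pool.Agent.W920.FC.Stm

set_option autoImplicit false

/-!
# The intended values satisfy the equations of the program of Faddeev and LeVerrier
-/

namespace Pool.Agent.W920.FC

open Pool.Agent.NPC Pool.Agent.H558R2 Pool.Agent.H622R3.SM

namespace TEQ4

lemma ent_mk {K : ℕ} (M : Matrix (Fin K) (Fin K) ℝ) (i j : ℕ) (hi : i < K) (hj : j < K) :
    ent M i j = M ⟨i, hi⟩ ⟨j, hj⟩ := by
  unfold ent
  rw [dif_pos ⟨hi, hj⟩]

lemma ent_mul {K : ℕ} (A B : Matrix (Fin K) (Fin K) ℝ) (i j : ℕ) (hi : i < K) (hj : j < K) :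
    ∑ l ∈ Finset.range K, ent A i l * ent B l j = (A * B) ⟨i, hi⟩ ⟨j, hj⟩ := by
  rw [Finset.sum_range, Matrix.mul_apply]
  refine Finset.sum_congr rfl fun l _ => ?_
  rw [ent_mk A i l hi l.2, ent_mk B l j l.2 hj]

lemma sum_trace {K : ℕ} (A B : Matrix (Fin K) (Fin K) ℝ) :
    ∑ i ∈ Finset.range K, ∑ l ∈ Finset.range K, ent A i l * ent B l i =
      Matrix.trace (A * B) := by
  rw [Finset.sum_range]
  unfold Matrix.trace
  refine Finset.sum_congr rfl fun i _ => ?_
  rw [ent_mul A B i i i.2 i.2]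
  rfl

section

variable (p : Par) (hb : Base p.g)

include hb in
lemma v2 : vr p [2] = 1 := hb.1
include hb in
lemma v3 : vr p [3] = 0 := hb.2
lemma v4 (i j : ℕ) : vr p [4, i, j] = ent p.G i j := rfl
lemma v5 (k : ℕ) : vr p [5, k] = (k : ℝ) := rfl
lemma v6 (k i j : ℕ) : vr p [6, k, i, j] = ent (flN p.G k) i j := rfl
lemma v7 (k i j l : ℕ) : vr p [7, k, i, j, l] = ent p.G i l * ent (flN p.G k) l j := rfl
lemma v8 (k i j l : ℕ) : vr p [8, k, i, j, l] = ∑ l' ∈ Finset.range l,
    ent p.G i l' * ent (flN p.G k) l' j := rfl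
lemma v9 (k i : ℕ) : vr p [9, k, i] = ∑ i' ∈ Finset.range i,
    ∑ l ∈ Finset.range (cK p.m p.n), ent p.G i' l * ent (flN p.G k) l i' := rfl
lemma v10 (k : ℕ) : vr p [10, k] =
    (∑ i ∈ Finset.range (cK p.m p.n), ∑ l ∈ Finset.range (cK p.m p.n),
      ent p.G i l * ent (flN p.G k) l i) / ((k : ℝ) + 1) := rfl

include hb in
lemma good_initProg : ∀ I ∈ initProg (cK p.m p.n), Eqn (vr p) I := by
  intro I hI
  unfold initProg at hI
  simp only [List.mem_cons, List.mem_flatMap, List.mem_map, List.mem_range] at hI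
  rcases hI with rfl | ⟨i, hi, j, hj, rfl⟩
  · refine ⟨?_, by simp⟩
    simp only [Op.eval]
    rw [v5, v3 p hb]
    simp
  · refine ⟨?_, by simp⟩
    simp only [Op.eval]
    rw [v6, v3 p hb, ent_mk _ _ _ hi hj]
    have e : flN p.G 0 = 1 := rfl
    rw [e, Matrix.one_apply]
    by_cases hij : i = j
    · subst hij
      rw [if_pos rfl, if_pos rfl, v2 p hb]
      norm_num
    · rw [if_neg hij, if_neg (by simpa using hij), v3 p hb]
      norm_num

include hb in
lemma good_prodProg (k : ℕ) : ∀ I ∈ prodProg (cK p.m p.n) k, Eqn (vr p) I := by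
  intro I hI
  unfold prodProg at hI
  simp only [List.mem_cons, List.mem_flatMap, List.mem_range, List.not_mem_nil, or_false] at hI
  obtain ⟨i, hi, j, hj, rfl | ⟨l, hl, rfl | rfl⟩⟩ := hI
  · refine ⟨?_, by simp⟩
    simp only [Op.eval]
    rw [v8, v3 p hb]
    simp
  · refine ⟨?_, by simp⟩
    simp only [Op.eval]
    rw [v7, v4, v6]
  · refine ⟨?_, by simp⟩
    simp only [Op.eval]
    rw [v8, v8, v7, Finset.sum_range_succ]

include hb in
lemma good_traceProg (k : ℕ) : ∀ I ∈ traceProg (cK p.m p.n) k, Eqn (vr p) I := by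
  intro I hI
  unfold traceProg at hI
  simp only [List.mem_cons, List.mem_append, List.mem_map, List.mem_range, List.not_mem_nil,
    or_false, List.cons_append] at hI
  rcases hI with rfl | ⟨i, hi, rfl⟩ | rfl | rfl
  · refine ⟨?_, by simp⟩
    simp only [Op.eval]
    rw [v9, v3 p hb]
    simp
  · refine ⟨?_, by simp⟩
    simp only [Op.eval]
    rw [v9, v9, v8, Finset.sum_range_succ]
  · refine ⟨?_, by simp⟩
    simp only [Op.eval]
    rw [v5, v5, v2 p hb]
    push_cast
    ring
  · refine ⟨?_, fun _ => ?_⟩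
    · simp only [Op.eval]
      rw [v10, v9, v5]
      push_cast
      rfl
    · simp only
      rw [v5]
      positivity

include hb in
lemma good_nextProg (k : ℕ) : ∀ I ∈ nextProg (cK p.m p.n) k, Eqn (vr p) I := by
  intro I hI
  unfold nextProg at hI
  simp only [List.mem_flatMap, List.mem_map, List.mem_range] at hI
  obtain ⟨i, hi, j, hj, rfl⟩ := hI
  refine ⟨?_, by simp⟩
  simp only [Op.eval]
  rw [v6, v8, ent_mk _ _ _ hi hj, ent_mul _ _ i j hi hj]
  have e : flN p.G (k + 1) = p.G * flN p.G k -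
      (Matrix.trace (p.G * flN p.G k) / ((k : ℝ) + 1)) • 1 := rfl
  rw [e, Matrix.sub_apply, Matrix.smul_apply, smul_eq_mul, Matrix.one_apply]
  by_cases hij : i = j
  · subst hij
    rw [if_pos rfl, if_pos rfl, v10, sum_trace]
    ring
  · rw [if_neg hij, if_neg (by simpa using hij), v3 p hb]
    ring

end

end TEQ4

/-- The intended values satisfy the equations of the program of Faddeev and LeVerrier. -/
theorem t_EQ4 : S_EQ4 := by
  intro p hb I hI
  unfold flProg at hI
  simp only [List.mem_append, List.mem_flatMap, List.mem_range] at hI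
  rcases hI with hI | ⟨k, hk, hI | hI | hI⟩
  · exact TEQ4.good_initProg p hb I hI
  · exact TEQ4.good_prodProg p hb k I hI
  · exact TEQ4.good_traceProg p hb k I hI
  · exact TEQ4.good_nextProg p hb k I hI

end Pool.Agent.W920.FC
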