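import Pool.Agent.W920.FC.Stm

set_option autoImplicit false

/-!
# The homogeneous system and linear feasibility
-/

namespace Pool.Agent.W920.FC

open Pool.Agent.NPC Pool.Agent.H558R2 Pool.Agent.H622R3.SM

namespace TFEAS

theorem sum_split (m n : ℕ) (g : Reg → ℝ) (i : ℕ) (hi : i < m) (x : ℕ → ℝ) :
    ∑ j ∈ Finset.range (cK m n), Rv m n g i j * x j =
      x i - ∑ c ∈ Finset.range n, g [0, i, c] * x (m + c) +
        ∑ c ∈ Finset.range n, g [0, i, c] * x (m + n + c) + g [1, i] * x (m + (n + n)) := by
  have hc : cK m n = m + n + n + 1 := by unfold cK; omega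
  rw [hc, Finset.sum_range_succ, Finset.sum_range_add, Finset.sum_range_add]
  have e1 : ∑ j ∈ Finset.range m, Rv m n g i j * x j = x i := by
    rw [Finset.sum_eq_single_of_mem i (Finset.mem_range.2 hi)]
    · unfold Rv
      rw [if_pos hi, if_pos rfl, one_mul]
    · intro j hj hne
      unfold Rv
      rw [if_pos (Finset.mem_range.1 hj), if_neg (Ne.symm hne), zero_mul]
  have e2 : ∑ c ∈ Finset.range n, Rv m n g i (m + c) * x (m + c) =
      - ∑ c ∈ Finset.range n, g [0, i, c] * x (m + c) := by
    rw [← Finset.sum_neg_distrib]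
    refine Finset.sum_congr rfl fun c hc' => ?_
    have hc'' := Finset.mem_range.1 hc'
    unfold Rv
    rw [if_neg (by omega), if_pos (by omega), Nat.add_sub_cancel_left]
    ring
  have e3 : ∑ c ∈ Finset.range n, Rv m n g i (m + n + c) * x (m + n + c) =
      ∑ c ∈ Finset.range n, g [0, i, c] * x (m + n + c) := by
    refine Finset.sum_congr rfl fun c hc' => ?_
    have hc'' := Finset.mem_range.1 hc'
    unfold Rv
    rw [if_neg (by omega), if_neg (by omega), if_pos (by omega)]
    have : m + n + c - m - n = c := by omega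
    rw [this]
  have e4 : Rv m n g i (m + n + n) = g [1, i] := by
    unfold Rv
    rw [if_neg (by omega), if_neg (by omega), if_neg (by omega)]
  have e5 : m + (n + n) = m + n + n := by omega
  rw [e1, e2, e3, e4, e5]
  ring

theorem start0 {m n : ℕ} (A : Matrix (Fin m) (Fin n) ℝ) (b : Fin m → ℝ) (i : Fin m) (c : Fin n) :
    start A b [0, i, c] = A i c := by
  show (if h : (i : ℕ) < m ∧ (c : ℕ) < n then A ⟨i, h.1⟩ ⟨c, h.2⟩ else 0) = A i c
  rw [dif_pos ⟨i.2, c.2⟩]

theorem start1 {m n : ℕ} (A : Matrix (Fin m) (Fin n) ℝ) (b : Fin m → ℝ) (i : Fin m) :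
    start A b [1, i] = b i := by
  show (if h : (i : ℕ) < m then b ⟨i, h⟩ else 0) = b i
  rw [dif_pos i.2]

theorem sum_start {m n : ℕ} (A : Matrix (Fin m) (Fin n) ℝ) (b : Fin m → ℝ) (i : Fin m)
    (x : ℕ → ℝ) : ∑ j ∈ Finset.range (cK m n), Rv m n (start A b) i j * x j =
      x i - ∑ c : Fin n, A i c * x (m + c) + ∑ c : Fin n, A i c * x (m + n + c)
        + b i * x (m + (n + n)) := by
  rw [sum_split m n _ i i.2, start1, Finset.sum_range, Finset.sum_range]
  simp only [start0]

end TFEAS

open TFEAS in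
theorem t_FEAS : S_FEAS := by
  intro m n A b
  constructor
  · rintro ⟨x, h0, ht, hs⟩
    refine ⟨fun c => (x (m + c) - x (m + n + c)) / x (m + (n + n)), fun i => ?_⟩
    have h1 := hs i i.2
    rw [sum_start] at h1
    have h2 : 0 ≤ x i := h0 i (by unfold cK; omega)
    have h3 : A.mulVec (fun c : Fin n => (x (m + c) - x (m + n + c)) / x (m + (n + n))) i =
        (∑ c : Fin n, A i c * x (m + c) - ∑ c : Fin n, A i c * x (m + n + c)) /
          x (m + (n + n)) := by
      show ∑ c : Fin n, A i c * ((x (m + c) - x (m + n + c)) / x (m + (n + n))) = _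
      rw [← Finset.sum_sub_distrib, Finset.sum_div]
      refine Finset.sum_congr rfl fun c _ => ?_
      ring
    rw [h3, le_div_iff₀ ht]
    linarith
  · rintro ⟨X, hX⟩
    obtain ⟨XX, hXX⟩ : ∃ XX : ℕ → ℝ, XX = fun c => if h : c < n then X ⟨c, h⟩ else 0 := ⟨_, rfl⟩
    obtain ⟨SS, hSS⟩ : ∃ SS : ℕ → ℝ, SS = fun j => if h : j < m then A.mulVec X ⟨j, h⟩ - b ⟨j, h⟩
      else 0 := ⟨_, rfl⟩
    have hS0 : ∀ j, 0 ≤ SS j := by
      intro j
      rw [hSS]
      simp only
      split_ifs with h
      · exact sub_nonneg.2 (hX _)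
      · exact le_rfl
    obtain ⟨x, hx⟩ : ∃ x : ℕ → ℝ, x = fun j => if j < m then SS j
      else if j < m + n then max (XX (j - m)) 0
      else if j < m + (n + n) then max (-XX (j - m - n)) 0 else 1 := ⟨_, rfl⟩
    have x1 : ∀ i : Fin m, x i = A.mulVec X i - b i := by
      intro i
      rw [hx, hSS]
      simp only
      rw [if_pos i.2, dif_pos i.2]
    have x2 : ∀ c : Fin n, x (m + c) = max (X c) 0 := by
      intro c
      rw [hx, hXX]
      simp only
      rw [if_neg (by omega), if_pos (by omega), Nat.add_sub_cancel_left, dif_pos c.2]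
    have x3 : ∀ c : Fin n, x (m + n + c) = max (-X c) 0 := by
      intro c
      rw [hx, hXX]
      simp only
      have : m + n + (c : ℕ) - m - n = c := by omega
      rw [if_neg (by omega), if_neg (by omega), if_pos (by omega), this, dif_pos c.2]
    have x4 : x (m + (n + n)) = 1 := by
      rw [hx]
      simp only
      rw [if_neg (by omega), if_neg (by omega), if_neg (by omega)]
    refine ⟨x, fun j _ => ?_, by rw [x4]; exact one_pos, fun i hi => ?_⟩
    · rw [hx]
      simp only
      split_ifs
      · exact hS0 j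
      · exact le_max_right _ _
      · exact le_max_right _ _
      · exact zero_le_one
    · have h1 := sum_start A b ⟨i, hi⟩ x
      rw [x1, x4] at h1
      simp only [x2, x3] at h1
      have h2 : ∑ c : Fin n, A ⟨i, hi⟩ c * max (X c) 0 - ∑ c : Fin n, A ⟨i, hi⟩ c * max (-X c) 0 =
          A.mulVec X ⟨i, hi⟩ := by
        rw [← Finset.sum_sub_distrib]
        show _ = ∑ c : Fin n, A ⟨i, hi⟩ c * X c
        refine Finset.sum_congr rfl fun c _ => ?_
        have : max (X c) 0 - max (-X c) 0 = X c := by
          rcases le_total 0 (X c) with h | h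
          · rw [max_eq_left h, max_eq_right (by linarith)]; ring
          · rw [max_eq_right h, max_eq_left (by linarith)]; ring
        rw [← mul_sub, this]
      rw [h1]
      linarith

end Pool.Agent.W920.FC
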