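import Pool.Agent.W920.FC.Stm

set_option autoImplicit false

namespace Pool.Agent.W920.FC

namespace TFT

theorem swap (N r : ℕ) (lam : ℕ → ℝ) (v : ℕ → ℕ → ℤ) (y : ℕ → ℤ) :
    ∑ l ∈ Finset.range N, (y l : ℝ) * ∑ i ∈ Finset.range r, lam i * (v i l : ℝ) =
      ∑ i ∈ Finset.range r, lam i * ((∑ l ∈ Finset.range N, y l * v i l : ℤ) : ℝ) := by
  simp only [Finset.mul_sum, Int.cast_sum, Int.cast_mul]
  rw [Finset.sum_comm]
  refine Finset.sum_congr rfl fun i _ => Finset.sum_congr rfl fun l _ => ?_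
  ring

theorem sumabs (N h : ℕ) (y : ℕ → ℤ) (hy : ∑ l ∈ Finset.range N, (y l).natAbs ≤ 2 ^ h) :
    ∑ l ∈ Finset.range N, |(y l : ℝ)| ≤ 2 ^ h := by
  have h1 : ((∑ l ∈ Finset.range N, (y l).natAbs : ℕ) : ℝ) ≤ ((2 ^ h : ℕ) : ℝ) := by
    exact_mod_cast hy
  rw [Nat.cast_sum] at h1
  have h2 : ∀ l, (((y l).natAbs : ℕ) : ℝ) = |(y l : ℝ)| := fun l => by
    rw [Nat.cast_natAbs, Int.cast_abs]
  simp only [h2] at h1
  push_cast at h1
  exact h1

end TFT

open TFT in
theorem t_FT : S_FT := by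
  intro N h P r lam v w hlam hv hw happ y hy
  classical
  have hya := sumabs N h y hy
  set d : ℕ → ℤ := fun i => ∑ l ∈ Finset.range N, y l * v i l with hd
  by_cases hz : ∀ i < r, d i = 0
  · left
    have h1 : ∑ l ∈ Finset.range N, (y l : ℝ) * w l =
        ∑ l ∈ Finset.range N, (y l : ℝ) * ∑ i ∈ Finset.range r, lam i * (v i l : ℝ) :=
      Finset.sum_congr rfl fun l hl => by rw [hw l (Finset.mem_range.1 hl)]
    rw [h1, swap]
    refine Finset.sum_eq_zero fun i hi => ?_
    have := hz i (Finset.mem_range.1 hi)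
    simp only [hd] at this
    rw [this]; simp
  · right
    push Not at hz
    have hex : ∃ i, i < r ∧ d i ≠ 0 := hz
    obtain ⟨hir, hdi⟩ := Nat.find_spec hex
    set i := Nat.find hex with hi
    have hmin : ∀ j < i, d j = 0 := by
      intro j hj
      by_contra hne
      exact Nat.find_min hex hj ⟨lt_trans hj hir, hne⟩
    refine ⟨i, hir, ?_⟩
    have hli := hlam i hir
    -- decomposition
    have hdec : ∑ l ∈ Finset.range N, (y l : ℝ) * w l =
        ∑ l ∈ Finset.range N, (y l : ℝ) * (w l - ∑ i' ∈ Finset.range (i + 1), lam i' * v i' l) +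
          lam i * (d i : ℝ) := by
      have h2 : lam i * (d i : ℝ) =
          ∑ l ∈ Finset.range N, (y l : ℝ) * ∑ i' ∈ Finset.range (i + 1), lam i' * (v i' l : ℝ) := by
        rw [swap, Finset.sum_range_succ]
        rw [Finset.sum_eq_zero, zero_add]
        intro j hj
        have := hmin j (Finset.mem_range.1 hj)
        simp only [hd] at this
        rw [this]; simp
      rw [h2, ← Finset.sum_add_distrib]
      refine Finset.sum_congr rfl fun l _ => ?_
      ring
    set E := ∑ l ∈ Finset.range N, (y l : ℝ) *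
      (w l - ∑ i' ∈ Finset.range (i + 1), lam i' * v i' l) with hE
    have hEb : |E| ≤ lam i / 2 := by
      calc |E| ≤ ∑ l ∈ Finset.range N, |(y l : ℝ) *
            (w l - ∑ i' ∈ Finset.range (i + 1), lam i' * v i' l)| :=
            Finset.abs_sum_le_sum_abs _ _
        _ ≤ ∑ l ∈ Finset.range N, |(y l : ℝ)| * (lam i / 2 ^ (h + 1)) := by
            refine Finset.sum_le_sum fun l hl => ?_
            rw [abs_mul]
            exact mul_le_mul_of_nonneg_left (happ i hir l (Finset.mem_range.1 hl)) (abs_nonneg _)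
        _ = (∑ l ∈ Finset.range N, |(y l : ℝ)|) * (lam i / 2 ^ (h + 1)) := by
            rw [Finset.sum_mul]
        _ ≤ 2 ^ h * (lam i / 2 ^ (h + 1)) :=
            mul_le_mul_of_nonneg_right hya (by positivity)
        _ = lam i / 2 := by
            rw [pow_succ]; field_simp
    have hd1 : (1 : ℝ) ≤ |(d i : ℝ)| := by
      have : (1 : ℤ) ≤ |d i| := Int.one_le_abs hdi
      exact_mod_cast this
    have hd2 : |(d i : ℝ)| ≤ 2 ^ (h + P) := by
      have hvb : ∀ l < N, |(v i l : ℝ)| ≤ 2 ^ P := by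
        intro l hl
        have h3 := hv i hir l hl
        have h4 : (((v i l).natAbs : ℕ) : ℝ) ≤ ((2 ^ P : ℕ) : ℝ) := by exact_mod_cast h3
        rw [Nat.cast_natAbs, Int.cast_abs] at h4
        push_cast at h4
        exact h4
      have h5 : (d i : ℝ) = ∑ l ∈ Finset.range N, (y l : ℝ) * (v i l : ℝ) := by
        simp only [hd]; push_cast; rfl
      rw [h5]
      calc |∑ l ∈ Finset.range N, (y l : ℝ) * (v i l : ℝ)|
          ≤ ∑ l ∈ Finset.range N, |(y l : ℝ) * (v i l : ℝ)| := Finset.abs_sum_le_sum_abs _ _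
        _ ≤ ∑ l ∈ Finset.range N, |(y l : ℝ)| * 2 ^ P := by
            refine Finset.sum_le_sum fun l hl => ?_
            rw [abs_mul]
            exact mul_le_mul_of_nonneg_left (hvb l (Finset.mem_range.1 hl)) (abs_nonneg _)
        _ = (∑ l ∈ Finset.range N, |(y l : ℝ)|) * 2 ^ P := by rw [Finset.sum_mul]
        _ ≤ 2 ^ h * 2 ^ P := mul_le_mul_of_nonneg_right hya (by positivity)
        _ = 2 ^ (h + P) := by rw [pow_add]
    rw [hdec]
    have hab : |lam i * (d i : ℝ)| = lam i * |(d i : ℝ)| := by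
      rw [abs_mul, abs_of_pos hli]
    constructor
    · have h6 : |lam i * (d i : ℝ)| ≤ |E + lam i * (d i : ℝ)| + |E| := by
        have h7 := abs_sub (E + lam i * (d i : ℝ)) E
        rwa [add_sub_cancel_left] at h7
      rw [hab] at h6
      nlinarith
    · have h8 := abs_add_le E (lam i * (d i : ℝ))
      rw [hab] at h8
      have h9 : lam i * |(d i : ℝ)| ≤ lam i * 2 ^ (h + P) :=
        mul_le_mul_of_nonneg_left hd2 hli.le
      have h10 : (1 : ℝ) ≤ 2 ^ (h + P) := one_le_pow₀ (by norm_num)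
      have h11 : (2 : ℝ) ^ (h + P + 1) = 2 * 2 ^ (h + P) := by rw [pow_succ]; ring
      rw [h11]
      nlinarith

end Pool.Agent.W920.FC
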