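import Pool.Agent.W920.FC.Stm

set_option autoImplicit false

/-!
# Queries for forms and for ratios have their values
-/

namespace Pool.Agent.W920.FC

open Pool.Agent.NPC Pool.Agent.H558R2 Pool.Agent.H622R3.SM

namespace THVFR

lemma vr_base (p : Par) (r : Reg) (hr : r ∈ baseReg) : vr p r = p.g r := by
  have hr' : r.headD 0 < 4 := hr
  unfold vr
  split <;> first | rfl | (exfalso; simp at hr')

lemma QB_mono {β β' : ℕ} (h : β ≤ β') {v : ℝ} (hv : QB β v) : QB β' v := by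
  obtain ⟨E, z, h1, h2, h3, h4⟩ := hv
  have h5 : 2 ^ β ≤ 2 ^ β' := Nat.pow_le_pow_right (by norm_num) h
  exact ⟨E, z, h1, h2.trans h5, h3.trans h5, h4⟩

lemma QB_sub {β : ℕ} {x y : ℝ} (hx : QB β x) (hy : QB β y) : QB (2 * β + 1) (x - y) := by
  obtain ⟨E, z, h1, h2, h3, h4⟩ := hx
  obtain ⟨E', z', h1', h2', h3', h4'⟩ := hy
  have hp : 2 ^ β * 2 ^ β = 2 ^ (2 * β) := by rw [← pow_add]; congr 1; ring
  have hp' : 2 ^ (2 * β + 1) = 2 * (2 ^ β * 2 ^ β) := by rw [hp, pow_succ]; ring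
  refine ⟨E * E', z * E' - z' * E, Nat.mul_pos h1 h1', ?_, ?_, ?_⟩
  · have := Nat.mul_le_mul h2 h2'
    omega
  · have a1 : (z * E' - z' * E).natAbs ≤ (z * E').natAbs + (z' * E).natAbs := Int.natAbs_sub_le _ _
    rw [Int.natAbs_mul, Int.natAbs_mul, Int.natAbs_natCast, Int.natAbs_natCast] at a1
    have a2 := Nat.mul_le_mul h3 h2'
    have a3 := Nat.mul_le_mul h3' h2
    omega
  · push_cast
    linear_combination (E' : ℝ) * h4 - (E : ℝ) * h4'

/-- the common polynomial -/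
noncomputable def qq (qs pB qp : Polynomial ℕ) : Polynomial ℕ :=
  2 * qs.comp (Polynomial.X + pB) + 1 + qp

lemma qq_eval (qs pB qp : Polynomial ℕ) (x : ℕ) :
    (qq qs pB qp).eval x = 2 * qs.eval (x + pB.eval x) + 1 + qp.eval x := by
  unfold qq
  simp [Polynomial.eval_comp]

lemma qq_len (qs pB qp : Polynomial ℕ) (x : ℕ) : qp.eval x ≤ (qq qs pB qp).eval x := by
  rw [qq_eval]; omega

lemma qq_sm (qs pB qp : Polynomial ℕ) (S lam : ℕ) :
    2 * qs.eval (S + pB.eval S + lam) + 1 ≤ (qq qs pB qp).eval (S + lam) := by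
  rw [qq_eval]
  have h1 : pB.eval S ≤ pB.eval (S + lam) := eval_mono pB (by omega)
  have h2 : qs.eval (S + pB.eval S + lam) ≤ qs.eval (S + lam + pB.eval (S + lam)) :=
    eval_mono qs (by omega)
  omega

lemma ord_base (h : S_ORD1) (k m : ℕ) (reps : List (ℕ × ℕ)) :
    Ord baseReg (baseProg k m reps) ∧
      (∀ r ∈ baseReg ∪ wr (baseProg k m reps), r.headD 0 < 4 ∨ r.headD 0 = 30 ∨ r.headD 0 = 31) ∧
      ∀ l < cN k m, [31, l, k] ∈ baseReg ∪ wr (baseProg k m reps) := by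
  obtain ⟨h1, h2, h3⟩ := h.2.1 k m reps
  refine ⟨h1, ?_, fun l hl => Or.inr (h3 l hl)⟩
  rintro r (hr | hr)
  · exact Or.inl hr
  · exact Or.inr (h2 r hr)

theorem hvf (k : ℕ) (h1 : S_ORD1) (h2 : S_EQ1) (h3 : S_EQ2) (h4 : S_SM1 k) (h5 : S_PLEN k) :
    S_HVF k := by
  intro pB
  obtain ⟨qs, hqs⟩ := h4
  obtain ⟨qp, hqp⟩ := h5 pB
  refine ⟨qq qs pB qp, ?_⟩
  intro m n g reps C hg hC
  refine ⟨?_, ((hqp m n reps).1 C hC).trans (qq_len _ _ _ _)⟩
  set p : Par := ⟨k, m, n, g, reps, [(C, [])], [], [], 0, 0⟩ with hp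
  obtain ⟨b1, b2, b3⟩ := ord_base h1 k m reps
  obtain ⟨f1, f2, f3⟩ := h1.2.2.1 k (cN k m) 0 C (baseReg ∪ wr (baseProg k m reps))
    Set.subset_union_left b3 (by
      intro r hr t
      have := b2 r hr
      refine ⟨?_, ?_, ?_⟩ <;> rintro rfl <;> simp at this)
  have hSm : SmallP (pB.eval (m + n)) p.L := by
    intro u hu
    have : u = (C, []) := by simpa [hp] using hu
    subst this
    exact ⟨hC, fun x hx => by simp at hx⟩
  refine ⟨?_, vr p, fun r hr => vr_base p r hr, ?_, ?_, ?_⟩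
  · exact (h1.1 _ _ _).mpr ⟨b1, f1⟩
  · intro I hI
    have hE : Eqn (vr p) I ∧ ∀ lam, RB lam g →
        QB (qs.eval (m + n + pB.eval (m + n) + lam)) (vr p I.dst) := by
      rcases List.mem_append.mp hI with hI | hI
      · exact ⟨h2 p hg I hI, fun lam hl =>
          (hqs p (pB.eval (m + n)) lam rfl hg hl hSm).1 I hI⟩
      · exact ⟨(h3 p hg).1 0 I hI, fun lam hl =>
          (hqs p (pB.eval (m + n)) lam rfl hg hl hSm).2.1 0 I hI⟩
    refine ⟨hE.1.1, hE.1.2, ?_⟩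
    intro lam hl
    refine QB_mono ?_ (hE.2 lam hl)
    have := qq_sm qs pB qp (m + n) lam
    omega
  · obtain ⟨I, hI, e⟩ := f3
    exact Or.inr ⟨I, List.mem_append.mpr (Or.inr hI), e⟩
  · rfl

theorem hvr (k : ℕ) (h1 : S_ORD1) (h2 : S_EQ1) (h3 : S_EQ2) (h4 : S_SM1 k) (h5 : S_PLEN k) :
    S_HVR k := by
  intro pB
  obtain ⟨qs, hqs⟩ := h4
  obtain ⟨qp, hqp⟩ := h5 pB
  refine ⟨qq qs pB qp, ?_⟩
  intro m n g reps u v hg hC hu hv
  refine ⟨?_, ((hqp m n reps).2.1 u v hC).trans (qq_len _ _ _ _)⟩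
  set p : Par := ⟨k, m, n, g, reps, [u, v], [], [], 0, 0⟩ with hp
  obtain ⟨b1, b2, b3⟩ := ord_base h1 k m reps
  obtain ⟨f1, f2, f3⟩ := h1.2.2.2 k (cN k m) [u, v] (baseReg ∪ wr (baseProg k m reps))
    Set.subset_union_left b3 (by
      intro r hr
      have := b2 r hr
      omega)
  have hne : ∀ w ∈ p.L, evF (cN p.k p.m) p.w w.2 ≠ 0 := by
    intro w hw
    have : w = u ∨ w = v := by simpa [hp] using hw
    rcases this with rfl | rfl
    · exact hu
    · exact hv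
  have g0 := f3 0 (by simp)
  have g1 := f3 1 (by simp)
  have hW : ∀ lam, RB lam g → ∀ j < 2,
      QB (qs.eval (m + n + pB.eval (m + n) + lam)) (vr p [35, j]) := by
    intro lam hl j hj
    obtain ⟨I, hI, e⟩ := f3 j hj
    have := (hqs p (pB.eval (m + n)) lam rfl hg hl hC).2.2 hne I hI
    rw [e] at this
    exact this
  refine ⟨?_, vr p, fun r hr => vr_base p r hr, ?_, ?_, ?_⟩
  · refine (h1.1 _ _ _).mpr ⟨b1, (h1.1 _ _ _).mpr ⟨f1, ?_, ?_, ?_, trivial⟩⟩
    · exact Or.inr g0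
    · exact Or.inr g1
    · rintro (hr | hr)
      · have := b2 _ hr
        simp at this
      · have := f2 _ hr
        simp at this
  · intro I hI
    have hcase : (Eqn (vr p) I ∧ ∀ lam, RB lam g →
        QB (qs.eval (m + n + pB.eval (m + n) + lam)) (vr p I.dst)) ∨
        I = (⟨Op.sub, [20], [35, 0], [35, 1]⟩ : Instr) := by
      rcases List.mem_append.mp hI with hI | hI
      · exact Or.inl ⟨h2 p hg I hI, fun lam hl =>
          (hqs p (pB.eval (m + n)) lam rfl hg hl hC).1 I hI⟩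
      · rcases List.mem_append.mp hI with hI | hI
        · exact Or.inl ⟨(h3 p hg).2 hne I hI, fun lam hl =>
            (hqs p (pB.eval (m + n)) lam rfl hg hl hC).2.2 hne I hI⟩
        · exact Or.inr (List.mem_singleton.mp hI)
    rcases hcase with hE | rfl
    · refine ⟨hE.1.1, hE.1.2, ?_⟩
      intro lam hl
      refine QB_mono ?_ (hE.2 lam hl)
      have := qq_sm qs pB qp (m + n) lam
      omega
    · refine ⟨rfl, (fun h => by cases h), ?_⟩
      intro lam hl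
      exact QB_mono (qq_sm qs pB qp (m + n) lam)
        (QB_sub (hW lam hl 0 (by norm_num)) (hW lam hl 1 (by norm_num)))
  · refine Or.inr ⟨⟨Op.sub, [20], [35, 0], [35, 1]⟩, ?_, rfl⟩
    exact List.mem_append.mpr (Or.inr (List.mem_append.mpr (Or.inr (List.mem_singleton.mpr rfl))))
  · rfl

end THVFR

theorem t_HVFR : ∀ k, S_ORD1 → S_EQ1 → S_EQ2 → S_SM1 k → S_PLEN k → S_HVF k ∧ S_HVR k :=
  fun k h1 h2 h3 h4 h5 => ⟨THVFR.hvf k h1 h2 h3 h4 h5, THVFR.hvr k h1 h2 h3 h4 h5⟩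

end Pool.Agent.W920.FC
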