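import Pool.Agent.W920.FC.Stm

set_option autoImplicit false

/-!
# Part HVP (helper797): the queries of the perceptron algorithm have their values
-/

namespace Pool.Agent.W920.FC

open Pool.Agent.NPC Pool.Agent.H558R2 Pool.Agent.H622R3.SM

namespace THVP

theorem fa_map {α β γ : Type} (R : β → γ → Prop) (l : List α) (f : α → β) (g : α → γ)
    (h : ∀ x ∈ l, R (f x) (g x)) : List.Forall₂ R (l.map f) (l.map g) := by
  induction l with
  | nil => exact List.Forall₂.nil
  | cons a l ih =>
    exact List.Forall₂.cons (h a List.mem_cons_self) (ih fun x hx => h x (List.mem_cons_of_mem _ hx))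

theorem fa_app {β γ : Type} (R : β → γ → Prop) {a : List β} {b : List γ} {c : List β} {d : List γ}
    (h1 : List.Forall₂ R a b) (h2 : List.Forall₂ R c d) : List.Forall₂ R (a ++ c) (b ++ d) := by
  induction h1 with
  | nil => exact h2
  | cons h _ ih => exact List.Forall₂.cons h ih

theorem fa_flatMap {α β γ : Type} (R : β → γ → Prop) (l : List α) (f : α → List β) (g : α → List γ)
    (h : ∀ x ∈ l, List.Forall₂ R (f x) (g x)) : List.Forall₂ R (l.flatMap f) (l.flatMap g) := by
  induction l with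
  | nil => exact List.Forall₂.nil
  | cons a l ih =>
    rw [List.flatMap_cons, List.flatMap_cons]
    exact fa_app R (h a List.mem_cons_self) (ih fun x hx => h x (List.mem_cons_of_mem _ hx))

theorem wr_app (P Q : List Instr) : wr (P ++ Q) = wr P ∪ wr Q := by
  ext r
  constructor
  · rintro ⟨I, hI, h⟩
    rcases List.mem_append.mp hI with h1 | h1
    · exact Or.inl ⟨I, h1, h⟩
    · exact Or.inr ⟨I, h1, h⟩
  · rintro (⟨I, hI, h⟩ | ⟨I, hI, h⟩)
    · exact ⟨I, List.mem_append.mpr (Or.inl hI), h⟩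
    · exact ⟨I, List.mem_append.mpr (Or.inr hI), h⟩

theorem vr_base (p : Par) : ∀ r ∈ baseReg, vr p r = p.g r := by
  intro r hr
  have hr' : r.headD 0 < 4 := hr
  match r, hr' with
  | [], _ => rfl
  | a :: t, h =>
    have ha : a < 4 := h
    match t with
    | [] => interval_cases a <;> rfl
    | [b] => interval_cases a <;> rfl
    | [b, c] => interval_cases a <;> rfl
    | [b, c, d] => interval_cases a <;> rfl
    | [b, c, d, e] => interval_cases a <;> rfl
    | b :: c :: d :: e :: f :: t' => interval_cases a <;> rfl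

theorem qb_mono {β β' : ℕ} {v : ℝ} (h : β ≤ β') (hv : QB β v) : QB β' v := by
  obtain ⟨E, z, h1, h2, h3, h4⟩ := hv
  have : 2 ^ β ≤ 2 ^ β' := Nat.pow_le_pow_right (by norm_num) h
  exact ⟨E, z, h1, h2.trans this, h3.trans this, h4⟩

theorem rb_mono {β β' : ℕ} {g : Reg → ℝ} (h : β ≤ β') (hv : RB β g) : RB β' g := by
  obtain ⟨D, h1, h2, h3⟩ := hv
  have : 2 ^ β ≤ 2 ^ β' := Nat.pow_le_pow_right (by norm_num) h
  refine ⟨D, h1, h2.trans this, fun r hr => ?_⟩
  obtain ⟨z, hz1, hz2⟩ := h3 r hr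
  exact ⟨z, hz1.trans this, hz2⟩

theorem pe_mono (p : Polynomial ℕ) {a b : ℕ} (h : a ≤ b) : p.eval a ≤ p.eval b := by
  rw [Polynomial.eval_eq_sum, Polynomial.eval_eq_sum]
  unfold Polynomial.sum
  apply Finset.sum_le_sum
  intro i _
  exact Nat.mul_le_mul_left _ (Nat.pow_le_pow_left h i)

/-- the common part: order, and the registers written -/
theorem ord_per (hO1 : S_ORD1) (hO2 : S_ORD2) (k m n : ℕ) (reps : List (ℕ × ℕ))
    (L : List (List ℤ × List ℤ)) (drop : List Bool) (hL : L.length = cK m n) :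
    Ord baseReg (perProg k m n reps L drop) ∧
    (∀ r ∈ baseReg ∪ wr (perProg k m n reps L drop), r.headD 0 < 40) ∧
    (∀ r ≤ cK m n, ∀ i < cK m n, ∀ j < cK m n, [6, r, i, j] ∈ wr (perProg k m n reps L drop)) ∧
    (∀ k' < cK m n, [10, k'] ∈ wr (perProg k m n reps L drop)) := by
  obtain ⟨o1, o2, o3, o4⟩ := hO1
  obtain ⟨p1, p2, p3⟩ := hO2
  obtain ⟨b1, b2, b3⟩ := o2 k m reps
  have hb0 : ∀ r ∈ baseReg, r.headD 0 < 4 := fun r hr => hr
  obtain ⟨r1, r2, r3⟩ := o4 k (cN k m) L (baseReg ∪ wr (baseProg k m reps)) Set.subset_union_left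
    (fun l hl => Or.inr (b3 l hl)) (by
      rintro r (hr | hr)
      · have := hb0 r hr; omega
      · have := b2 r hr; omega)
  obtain ⟨g1, g2, g3⟩ := p1 m n drop ((baseReg ∪ wr (baseProg k m reps)) ∪ wr (ratProg k (cN k m) L))
    (fun r hr => Or.inl (Or.inl hr)) (fun j hj => Or.inr (r3 j (by rw [hL]; exact hj))) (by
      rintro r ((hr | hr) | hr)
      · have := hb0 r hr; omega
      · have := b2 r hr; omega
      · have := r2 r hr; omega)
  obtain ⟨f1, f2, f3, f4⟩ := p2 (cK m n) (((baseReg ∪ wr (baseProg k m reps)) ∪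
    wr (ratProg k (cN k m) L)) ∪ wr (matProg m n ++ gramProg m n drop))
    (fun r hr => Or.inl (Or.inl (Or.inl hr))) (fun i hi j hj => Or.inr (g3 i hi j hj)) (by
      rintro r (((hr | hr) | hr) | hr)
      · have := hb0 r hr; omega
      · have := b2 r hr; omega
      · have := r2 r hr; omega
      · have := g2 r hr; omega)
  have hE : perProg k m n reps L drop = baseProg k m reps ++ (ratProg k (cN k m) L ++
      ((matProg m n ++ gramProg m n drop) ++ flProg (cK m n))) := by
    unfold perProg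
    rw [List.append_assoc (matProg m n)]
  rw [hE]
  refine ⟨?_, ?_, ?_, ?_⟩
  · rw [o1]
    refine ⟨b1, ?_⟩
    rw [o1]
    refine ⟨r1, ?_⟩
    rw [o1]
    exact ⟨g1, f1⟩
  · rintro r (hr | hr)
    · have := hb0 r hr; omega
    · rw [wr_app, wr_app, wr_app _ (flProg (cK m n))] at hr
      rcases hr with hr | hr | hr | hr
      · have := b2 r hr; omega
      · have := r2 r hr; omega
      · have := g2 r hr; omega
      · have := f2 r hr; omega
  · intro r hr i hi j hj
    rw [wr_app, wr_app, wr_app _ (flProg (cK m n))]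
    exact Or.inr (Or.inr (Or.inr (f3 r hr i hi j hj)))
  · intro k' hk'
    rw [wr_app, wr_app, wr_app _ (flProg (cK m n))]
    exact Or.inr (Or.inr (Or.inr (f4 k' hk')))

end THVP

open THVP in
theorem t_HVP : ∀ k, S_ORD1 → S_ORD2 → S_EQ1 → S_EQ2 → S_EQ3 → S_EQ4 → S_EQ5 → S_SM1 k → S_SM2 k →
    S_SM3 → S_SM4 → S_PLEN k → S_HVP k := by
  intro k hO1 hO2 hE1 hE2 hE3 hE4 hE5 hS1 hS2 hS3 hS4 hPL pB
  obtain ⟨q1, hq1⟩ := hS1
  obtain ⟨q2, hq2⟩ := hS2
  obtain ⟨q3, hq3⟩ := hS3
  obtain ⟨q4, hq4⟩ := hS4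
  obtain ⟨q5, hq5⟩ := hPL pB
  obtain ⟨P1, hP1⟩ : ∃ P : Polynomial ℕ, ∀ x, P.eval x = x + pB.eval x :=
    ⟨Polynomial.X + pB, fun x => by rw [Polynomial.eval_add, Polynomial.eval_X]⟩
  obtain ⟨P3, hP3⟩ : ∃ P : Polynomial ℕ, ∀ x, P.eval x = q2.eval (P1.eval x) + x :=
    ⟨q2.comp P1 + Polynomial.X, fun x => by
      rw [Polynomial.eval_add, Polynomial.eval_X, Polynomial.eval_comp]⟩
  obtain ⟨P4, hP4⟩ : ∃ P : Polynomial ℕ, ∀ x, P.eval x =
      P3.eval x + P3.eval x + q3.eval (x + P3.eval x) :=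
    ⟨P3 + P3 + q3.comp (Polynomial.X + P3), fun x => by
      rw [Polynomial.eval_add, Polynomial.eval_add, Polynomial.eval_comp, Polynomial.eval_add,
        Polynomial.eval_X]⟩
  obtain ⟨KK, hKK⟩ : ∃ P : Polynomial ℕ, ∀ x, P.eval x = x + x + 1 :=
    ⟨Polynomial.X + Polynomial.X + 1, fun x => by
      rw [Polynomial.eval_add, Polynomial.eval_add, Polynomial.eval_X, Polynomial.eval_one]⟩
  obtain ⟨Q, hQ⟩ : ∃ P : Polynomial ℕ, ∀ x, P.eval x =
      q1.eval (P1.eval x) + q3.eval (x + P3.eval x) + q4.eval (x + P4.eval x) +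
        (KK.eval x + (KK.eval x + 1) * KK.eval x) * (q5.eval x + 1) :=
    ⟨q1.comp P1 + q3.comp (Polynomial.X + P3) + q4.comp (Polynomial.X + P4) +
      (KK + (KK + 1) * KK) * (q5 + 1), fun x => by
        rw [Polynomial.eval_add, Polynomial.eval_add, Polynomial.eval_add, Polynomial.eval_comp,
          Polynomial.eval_comp, Polynomial.eval_comp, Polynomial.eval_mul, Polynomial.eval_add,
          Polynomial.eval_add, Polynomial.eval_add, Polynomial.eval_mul, Polynomial.eval_add,
          Polynomial.eval_add, Polynomial.eval_X, Polynomial.eval_one]⟩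
  refine ⟨Q, ?_⟩
  intro m n g reps L drop y hB hSm hLen hev hy
  obtain ⟨hord, hhd, h6, h10⟩ := ord_per hO1 hO2 k m n reps L drop hLen
  -- sizes
  have hsz : ∀ (r j lam : ℕ), r ≤ cK m n → RB lam g →
      (∀ I ∈ perProg k m n reps L drop, QB (Q.eval (m + n + lam))
        (vr ⟨k, m, n, g, reps, L, drop, y, r, j⟩ I.dst)) ∧
      (∀ I ∈ numProg (cT m n) ++ dotProg (cK m n) r j y, QB (Q.eval (m + n + lam))
        (vr ⟨k, m, n, g, reps, L, drop, y, r, j⟩ I.dst)) := by
    intro r j lam hr hRB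
    set p : Par := ⟨k, m, n, g, reps, L, drop, y, r, j⟩ with hp
    set x : ℕ := m + n + lam with hx
    have hxB : m + n + pB.eval (m + n) + lam ≤ P1.eval x := by
      have : pB.eval (m + n) ≤ pB.eval x := pe_mono pB (by omega)
      rw [hP1]
      omega
    obtain ⟨s1, _, s3⟩ := hq1 p (pB.eval (m + n)) lam rfl hB hRB hSm
    obtain ⟨E, hE1', hE2', hE3'⟩ := hq2 p (pB.eval (m + n)) lam rfl hB hRB hSm hLen hev
    have hb2 : q2.eval (m + n + pB.eval (m + n) + lam) ≤ q2.eval (P1.eval x) := pe_mono q2 hxB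
    set β : ℕ := P3.eval x with hβ
    have hβ1 : q2.eval (m + n + pB.eval (m + n) + lam) ≤ β := by
      rw [hβ, hP3]
      omega
    have hβ2 : lam ≤ β := by
      rw [hβ, hP3]
      omega
    have hpow : 2 ^ q2.eval (m + n + pB.eval (m + n) + lam) ≤ 2 ^ β :=
      Nat.pow_le_pow_right (by norm_num) hβ1
    obtain ⟨s4, s5⟩ := hq3 p β E hB (rb_mono hβ2 hRB) hE1' (hE2'.trans hpow) (by
      intro i hi j' hj'
      obtain ⟨z, hz1, hz2⟩ := hE3' i hi j' hj'
      exact ⟨z, hz1.trans hpow, hz2⟩)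
    set β4 : ℕ := P4.eval x with hβ4
    have hβ4e : β4 = β + β + q3.eval (x + β) := by
      rw [hβ4, hP4, hβ]
    have h34 : q3.eval (m + n + β) ≤ q3.eval (x + β) := pe_mono q3 (by omega)
    have hEE : E * E ≤ 2 ^ β4 := by
      have h1 : E ≤ 2 ^ β := hE2'.trans hpow
      calc E * E ≤ 2 ^ β * 2 ^ β := Nat.mul_le_mul h1 h1
        _ = 2 ^ (β + β) := by rw [pow_add]
        _ ≤ 2 ^ β4 := Nat.pow_le_pow_right (by norm_num) (by omega)
    obtain ⟨s6, s7⟩ := hq4 p β4 (E * E) hB (Nat.mul_pos hE1' hE1') hEE (by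
      intro i j'
      obtain ⟨z, hz1, hz2⟩ := s5 i j'
      exact ⟨z, hz1.trans (Nat.pow_le_pow_right (by norm_num) (by
        show q3.eval (m + n + β) ≤ β4
        omega)), hz2⟩) hy
    have hQe := hQ x
    have hQ1 : q1.eval (m + n + pB.eval (m + n) + lam) ≤ Q.eval x := by
      have : q1.eval (m + n + pB.eval (m + n) + lam) ≤ q1.eval (P1.eval x) := pe_mono q1 hxB
      rw [hQe]
      omega
    have hQ3 : q3.eval (m + n + β) ≤ Q.eval x := by
      have : q3.eval (m + n + β) ≤ q3.eval (x + P3.eval x) := pe_mono q3 (by omega)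
      rw [hQe]
      omega
    have hQ4 : q4.eval (m + n + β4) ≤ Q.eval x := by
      have : q4.eval (m + n + β4) ≤ q4.eval (x + P4.eval x) := pe_mono q4 (by omega)
      rw [hQe]
      omega
    constructor
    · intro I hI
      unfold perProg at hI
      rcases List.mem_append.mp hI with hI | hI
      · exact qb_mono hQ1 (s1 I hI)
      · rcases List.mem_append.mp hI with hI | hI
        · exact qb_mono hQ1 (s3 hev I hI)
        · rw [← List.append_assoc] at hI
          rcases List.mem_append.mp hI with hI | hI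
          · exact qb_mono hQ3 (s4 I hI)
          · exact qb_mono hQ4 (s6 I hI)
    · intro I hI
      exact qb_mono hQ4 (s7 hr I hI)
  -- equations
  have heq : ∀ (r j : ℕ), ∀ I ∈ perProg k m n reps L drop,
      Eqn (vr ⟨k, m, n, g, reps, L, drop, y, r, j⟩) I := by
    intro r j I hI
    set p : Par := ⟨k, m, n, g, reps, L, drop, y, r, j⟩ with hp
    unfold perProg at hI
    rcases List.mem_append.mp hI with hI | hI
    · exact hE1 p hB I hI
    · rcases List.mem_append.mp hI with hI | hI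
      · exact (hE2 p hB).2 hev I hI
      · rw [← List.append_assoc] at hI
        rcases List.mem_append.mp hI with hI | hI
        · exact hE3 p hB I hI
        · exact hE4 p hB I hI
  have hc : ∀ k' < cK m n, HasVal g (Gd Q (m + n) g) (cQry k m n reps L drop k')
      (cVal (GMat m n g (fun j => rt (cN k m) (wv k m g reps) (L.getD j ([], []))) drop) k') := by
    intro k' hk'
    refine ⟨hord, vr ⟨k, m, n, g, reps, L, drop, y, 0, 0⟩, vr_base _, ?_, Or.inr (h10 k' hk'), rfl⟩
    intro I hI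
    obtain ⟨e1, e2⟩ := heq 0 0 I hI
    exact ⟨e1, e2, fun lam hlam => (hsz 0 0 lam (Nat.zero_le _) hlam).1 I hI⟩
  have hd : ∀ r < cK m n + 1, ∀ j < cK m n, HasVal g (Gd Q (m + n) g) (dQry k m n reps L drop y r j)
      (dVal (GMat m n g (fun j => rt (cN k m) (wv k m g reps) (L.getD j ([], []))) drop) y r j) := by
    intro r hr j hj
    obtain ⟨t1, t2⟩ := hO2.2.2 (cK m n) (cT m n) r j y (baseReg ∪ wr (perProg k m n reps L drop))
      Set.subset_union_left (fun l hl => Or.inr (h6 r (by omega) j hj l hl)) hy hhd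
    refine ⟨?_, vr ⟨k, m, n, g, reps, L, drop, y, r, j⟩, vr_base _, ?_, Or.inr ?_, rfl⟩
    · show Ord baseReg (perProg k m n reps L drop ++ (numProg (cT m n) ++ dotProg (cK m n) r j y))
      rw [hO1.1]
      exact ⟨hord, t1⟩
    · intro I hI
      have hI' : I ∈ perProg k m n reps L drop ++ (numProg (cT m n) ++ dotProg (cK m n) r j y) := hI
      rcases List.mem_append.mp hI' with h | h
      · obtain ⟨e1, e2⟩ := heq r j I h
        exact ⟨e1, e2, fun lam hlam => (hsz r j lam (by omega) hlam).1 I h⟩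
      · obtain ⟨e1, e2⟩ := hE5 ⟨k, m, n, g, reps, L, drop, y, r, j⟩ hB (cT m n) I h
        exact ⟨e1, e2, fun lam hlam => (hsz r j lam (by omega) hlam).2 I h⟩
    · obtain ⟨I, hI, hd⟩ := t2
      exact ⟨I, List.mem_append.mpr (Or.inr hI), hd⟩
  constructor
  · unfold perQs perVals
    apply fa_app
    · apply fa_map
      intro k' hk'
      exact hc k' (List.mem_range.mp hk')
    · apply fa_flatMap
      intro r hr
      apply fa_map
      intro j hj
      exact hd r (List.mem_range.mp hr) j (List.mem_range.mp hj)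
  · have hlen : ∀ x ∈ (perQs k m n reps L drop y).map fun q => q.1.length + 1,
        x ≤ q5.eval (m + n) + 1 := by
      intro x hx
      obtain ⟨q, hq, rfl⟩ := List.mem_map.mp hx
      unfold perQs at hq
      rcases List.mem_append.mp hq with hq | hq
      · obtain ⟨k', _, rfl⟩ := List.mem_map.mp hq
        have := ((hq5 m n reps).2.2 L drop y k' 0 0 hLen hSm).1
        omega
      · obtain ⟨r, _, hq⟩ := List.mem_flatMap.mp hq
        obtain ⟨j, _, rfl⟩ := List.mem_map.mp hq
        have := ((hq5 m n reps).2.2 L drop y 0 r j hLen hSm).2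
        omega
    have h1 := List.sum_le_card_nsmul _ _ hlen
    have h2 : ((perQs k m n reps L drop y).map fun q => q.1.length + 1).length =
        cK m n + (cK m n + 1) * cK m n := by
      unfold perQs
      simp
    rw [h2, smul_eq_mul] at h1
    refine h1.trans ?_
    have hK : cK m n ≤ KK.eval (m + n) := by
      rw [hKK]
      unfold cK
      omega
    rw [hQ]
    refine le_trans ?_ (Nat.le_add_left _ _)
    gcongr

end Pool.Agent.W920.FC
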