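import Pool.Agent.W920.FC.Stm

set_option autoImplicit false

/-!
The kernel of the Gram matrix, and the step of the perceptron algorithm.
-/

namespace Pool.Agent.W920.FC

open Pool.Agent.NPC Pool.Agent.H558R2 Pool.Agent.H622R3.SM

namespace TKERSTEP

/-- the weighted entry -/
noncomputable def aa (m n : ℕ) (g : Reg → ℝ) (W : ℕ → ℝ) (i j : ℕ) : ℝ := Rv m n g i j * W j

/-- the diagonal term -/
noncomputable def dd (drop : List Bool) (j : ℕ) : ℝ := if drop.getD j false = true then 1 else 0

theorem gmat_eq (m n : ℕ) (g : Reg → ℝ) (W : ℕ → ℝ) (drop : List Bool) (j l : Fin (cK m n)) :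
    GMat m n g W drop j l = ∑ i ∈ Finset.range m, aa m n g W i j * aa m n g W i l +
      if j = l then dd drop j else 0 := by
  unfold GMat aa dd
  congr 1
  by_cases h : j = l
  · subst h
    simp
  · have h' : ¬ ((j : ℕ) = l) := fun e => h (Fin.ext e)
    simp [h, h']

theorem mulVec_eq (m n : ℕ) (g : Reg → ℝ) (W : ℕ → ℝ) (drop : List Bool)
    (x : Fin (cK m n) → ℝ) (j : Fin (cK m n)) :
    (GMat m n g W drop).mulVec x j =
      ∑ i ∈ Finset.range m, aa m n g W i j * (∑ l : Fin (cK m n), aa m n g W i l * x l) +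
        dd drop j * x j := by
  show ∑ l, GMat m n g W drop j l * x l = _
  simp only [gmat_eq, add_mul]
  rw [Finset.sum_add_distrib]
  congr 1
  · simp only [Finset.sum_mul, Finset.mul_sum]
    rw [Finset.sum_comm]
    refine Finset.sum_congr rfl fun i _ => Finset.sum_congr rfl fun l _ => ?_
    ring
  · simp

theorem ker_thm : S_KER := by
  intro m n g W drop
  refine ⟨?_, fun x => ⟨fun h => ?_, fun h => ?_⟩⟩
  · refine Matrix.IsSymm.ext fun j l => ?_
    rw [gmat_eq, gmat_eq]
    congr 1
    · exact Finset.sum_congr rfl fun i _ => mul_comm _ _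
    · by_cases h : j = l
      · subst h; rfl
      · rw [if_neg h, if_neg (fun e => h e.symm)]
  · set s : ℕ → ℝ := fun i => ∑ l : Fin (cK m n), aa m n g W i l * x l with hs
    have hq : ∑ i ∈ Finset.range m, s i ^ 2 + ∑ j : Fin (cK m n), dd drop j * x j ^ 2 = 0 := by
      have h1 : ∑ j, x j * (GMat m n g W drop).mulVec x j = 0 := by
        rw [h]; simp
      rw [← h1]
      simp only [mulVec_eq, mul_add]
      rw [Finset.sum_add_distrib]
      congr 1
      · simp only [Finset.mul_sum]
        rw [Finset.sum_comm]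
        refine Finset.sum_congr rfl fun i _ => ?_
        rw [sq, hs]
        simp only
        rw [Finset.sum_mul]
        refine Finset.sum_congr rfl fun j _ => ?_
        rw [Finset.mul_sum]
        refine Finset.sum_congr rfl fun l _ => ?_
        ring
      · exact Finset.sum_congr rfl fun j _ => by ring
    have hd0 : ∀ j, 0 ≤ dd drop j := by
      intro j; unfold dd; split_ifs <;> norm_num
    have e1 : 0 ≤ ∑ i ∈ Finset.range m, s i ^ 2 := Finset.sum_nonneg fun i _ => sq_nonneg _
    have e2 : 0 ≤ ∑ j : Fin (cK m n), dd drop j * x j ^ 2 :=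
      Finset.sum_nonneg fun j _ => mul_nonneg (hd0 _) (sq_nonneg _)
    have f1 : ∑ i ∈ Finset.range m, s i ^ 2 = 0 := by linarith
    have f2 : ∑ j : Fin (cK m n), dd drop j * x j ^ 2 = 0 := by linarith
    rw [Finset.sum_eq_zero_iff_of_nonneg fun i _ => sq_nonneg _] at f1
    rw [Finset.sum_eq_zero_iff_of_nonneg fun j _ => mul_nonneg (hd0 _) (sq_nonneg _)] at f2
    refine ⟨fun i hi => ?_, fun j hj => ?_⟩
    · have := f1 i (Finset.mem_range.mpr hi)
      exact pow_eq_zero_iff (two_ne_zero) |>.mp this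
    · have h3 := f2 j (Finset.mem_univ j)
      unfold dd at h3
      rw [if_pos hj, one_mul] at h3
      exact pow_eq_zero_iff (two_ne_zero) |>.mp h3
  · funext j
    rw [mulVec_eq]
    have h1 : ∑ i ∈ Finset.range m, aa m n g W i j *
        (∑ l : Fin (cK m n), aa m n g W i l * x l) = 0 := by
      refine Finset.sum_eq_zero fun i hi => ?_
      have := h.1 i (Finset.mem_range.mp hi)
      have h2 : (∑ l : Fin (cK m n), aa m n g W i l * x l) = 0 := this
      rw [h2, mul_zero]
    rw [h1, zero_add]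
    unfold dd
    split_ifs with hj
    · rw [h.2 j hj, mul_zero]; rfl
    · rw [zero_mul]; rfl

theorem step_thm : S_STEP := by
  intro K G y y' z z' j hG hz hz' hy hzj
  obtain ⟨hGz, u, hu⟩ := hz
  obtain ⟨hGz', u', hu'⟩ := hz'
  set p : Fin K → ℝ := z' - z with hp
  have hGp : G.mulVec p = 0 := by rw [hp, Matrix.mulVec_sub, hGz, hGz', sub_zero]
  have hrange : ∀ l, (if l = j then (1 : ℝ) else 0) - p l = G.mulVec (u' - u) l := by
    intro l
    rw [Matrix.mulVec_sub, Pi.sub_apply, ← hu', ← hu, hy l, hp, Pi.sub_apply]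
    ring
  have key : ∀ t : Fin K → ℝ, G.mulVec t = 0 → t j = ∑ l, t l * p l := by
    intro t ht
    have h1 : t ⬝ᵥ G.mulVec (u' - u) = 0 := by
      rw [Matrix.dotProduct_mulVec, ← Matrix.mulVec_transpose, hG.eq, ht, zero_dotProduct]
    have h2 : ∑ l, t l * ((if l = j then (1 : ℝ) else 0) - p l) = 0 := by
      refine Eq.trans ?_ h1
      exact Finset.sum_congr rfl fun l _ => by rw [hrange]
    simp only [mul_sub] at h2
    rw [Finset.sum_sub_distrib] at h2
    simp only [mul_ite, mul_one, mul_zero, Finset.sum_ite_eq', Finset.mem_univ, if_true] at h2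
    linarith
  have h1 := key z hGz
  have h2 := key p hGp
  have h3 : p j ^ 2 ≤ ∑ l, p l * p l := by
    rw [sq]
    exact Finset.single_le_sum (f := fun l => p l * p l) (fun l _ => mul_self_nonneg _)
      (Finset.mem_univ j)
  have h4 : p j ≤ 1 := by nlinarith
  have h5 : ∑ l, z' l ^ 2 = ∑ l, z l ^ 2 + 2 * ∑ l, z l * p l + ∑ l, p l * p l := by
    rw [Finset.mul_sum, ← Finset.sum_add_distrib, ← Finset.sum_add_distrib]
    refine Finset.sum_congr rfl fun l _ => ?_
    rw [hp, Pi.sub_apply]; ring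
  rw [h5, ← h1, ← h2]
  linarith

end TKERSTEP

theorem t_KERSTEP : S_KER ∧ S_STEP := ⟨TKERSTEP.ker_thm, TKERSTEP.step_thm⟩

end Pool.Agent.W920.FC
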