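import Pool.Agent.W920.FC.Stm

set_option autoImplicit false

/-!
# Linear feasibility for matrices with few distinct entries: the ladder before sorting
-/

namespace Pool.Agent.W920.FC

namespace TLAD

/-- The real inequality behind the ladder. -/
theorem step (x x' la lb : ℝ) (H : ℕ) (hx' : 0 < x') (hla : 0 < la) (hlb : 0 < lb)
    (h1 : la ≤ 2 * x) (h2 : x ≤ 2 ^ (H + 1) * la) (h3 : lb ≤ 2 * x') (h4 : x' ≤ 2 ^ (H + 1) * lb) :
    ∃ e ≤ 2 * (H + 3), la / lb * 2 ^ e / 2 ^ (H + 3) / 2 < x / x' ∧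
      x / x' ≤ la / lb * 2 ^ e / 2 ^ (H + 3) := by
  have hp : (0 : ℝ) < 2 ^ (H + 3) := by positivity
  have hp1 : (0 : ℝ) < 2 ^ (H + 1) := by positivity
  have hpp : (2 : ℝ) ^ (H + 3) = 4 * 2 ^ (H + 1) := by ring
  have htop : x / x' ≤ la / lb * 2 ^ (2 * (H + 3)) / 2 ^ (H + 3) := by
    have e1 : la / lb * 2 ^ (2 * (H + 3)) / 2 ^ (H + 3) = la * 2 ^ (H + 3) / lb := by
      rw [two_mul, pow_add]
      field_simp
    rw [e1, div_le_div_iff₀ hx' hlb, hpp]
    have a1 : x * lb ≤ (2 ^ (H + 1) * la) * (2 * x') := by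
      have hxp : 0 ≤ x := by linarith
      calc x * lb ≤ x * (2 * x') := mul_le_mul_of_nonneg_left h3 hxp
        _ ≤ (2 ^ (H + 1) * la) * (2 * x') := mul_le_mul_of_nonneg_right h2 (by positivity)
    have a2 : 0 < la * x' * 2 ^ (H + 1) := by positivity
    nlinarith
  classical
  have hex : ∃ e, x / x' ≤ la / lb * 2 ^ e / 2 ^ (H + 3) := ⟨_, htop⟩
  refine ⟨Nat.find hex, Nat.find_min' hex htop, ?_, Nat.find_spec hex⟩
  rcases Nat.eq_zero_or_pos (Nat.find hex) with h0 | h0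
  · rw [h0]
    have e1 : la / lb * 2 ^ 0 / 2 ^ (H + 3) / 2 = la / (lb * (2 * 2 ^ (H + 3))) := by
      field_simp
    rw [e1, div_lt_div_iff₀ (by positivity) hx', hpp]
    have a1 : la * x' ≤ (2 * x) * (2 ^ (H + 1) * lb) := by
      calc la * x' ≤ la * (2 ^ (H + 1) * lb) := mul_le_mul_of_nonneg_left h4 hla.le
        _ ≤ (2 * x) * (2 ^ (H + 1) * lb) := mul_le_mul_of_nonneg_right h1 (by positivity)
    have hxp : 0 < x := by linarith
    have a2 : 0 < x * lb * 2 ^ (H + 1) := by positivity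
    nlinarith
  · obtain ⟨e', he'⟩ := Nat.exists_eq_succ_of_ne_zero h0.ne'
    have := Nat.find_min hex (m := e') (by omega)
    rw [not_le] at this
    rw [he']
    have e1 : la / lb * 2 ^ (e'.succ) / 2 ^ (H + 3) / 2 = la / lb * 2 ^ e' / 2 ^ (H + 3) := by
      rw [Nat.succ_eq_add_one, pow_succ]
      field_simp
    rw [e1]
    exact this

/-- The membership in the ladder. -/
theorem mem_lad0 (k m : ℕ) (recs : List (List ℤ × ℕ)) (u : List ℤ × List ℤ) :
    u ∈ lad0 k m recs ↔ ∃ a ∈ recs, ∃ b ∈ recs, ∃ e < 2 * cQ k m + 1,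
      (fcomb (cN k m) ((b.2 : ℤ) * 2 ^ e) a.1 0 [],
        fcomb (cN k m) ((a.2 : ℤ) * 2 ^ cQ k m) b.1 0 []) = u := by
  unfold lad0
  simp only [List.mem_flatMap, List.mem_map, List.mem_range]

/-- The length of a `flatMap` of lists of constant length. -/
theorem length_flatMap_const {α β : Type} (L : List α) (f : α → List β) (c : ℕ)
    (h : ∀ a, (f a).length = c) : (L.flatMap f).length = L.length * c := by
  induction L with
  | nil => simp
  | cons a L ih => rw [List.flatMap_cons, List.length_append, h a, ih, List.length_cons]; ring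

/-- The length of the ladder. -/
theorem length_lad0 (k m : ℕ) (recs : List (List ℤ × ℕ)) :
    (lad0 k m recs).length = recs.length * (recs.length * (2 * cQ k m + 1)) := by
  unfold lad0
  apply length_flatMap_const
  intro a
  apply length_flatMap_const
  intro b
  simp

/-- The values of the forms. -/
theorem ev (hL : S_LIN) (N : ℕ) (w : ℕ → ℝ) (c : ℤ) (C : List ℤ) :
    evF N w (fcomb N c C 0 []) = c * evF N w C := by
  have := (hL N w c 0 C []).1
  rw [this]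
  simp

/-- The sizes of the forms. -/
theorem small (hL : S_LIN) (N : ℕ) (w : ℕ → ℝ) (c : ℤ) (C : List ℤ) (B B' : ℕ) (hC : SmallL B C)
    (hc : c.natAbs ≤ 2 ^ B') : SmallL (B + B' + 1) (fcomb N c C 0 []) := by
  refine (hL N w c 0 C []).2.2.2 B B' hC ?_ hc (by simp)
  intro x hx
  simp at hx

/-- The size of a multiplier. -/
theorem mult (p q e Q : ℕ) (hp : p ≤ 2 ^ q) (he : e ≤ 2 * Q) :
    ((p : ℤ) * 2 ^ e).natAbs ≤ 2 ^ (q + 2 * Q) := by
  have h1 : ((p : ℤ) * 2 ^ e).natAbs = p * 2 ^ e := by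
    rw [Int.natAbs_mul, Int.natAbs_pow]
    rfl
  rw [h1, pow_add]
  exact Nat.mul_le_mul hp (Nat.pow_le_pow_right (by norm_num) he)

end TLAD

open TLAD in
/-- The ladder before sorting. -/
theorem t_LAD : S_LIN → S_LAD := by
  intro hL k m w recs hG
  obtain ⟨hlen, hsm, hpos, hsc⟩ := hG
  have hval : ∀ a ∈ recs, ∀ b ∈ recs, ∀ e : ℕ,
      evF (cN k m) w (fcomb (cN k m) ((b.2 : ℤ) * 2 ^ e) a.1 0 []) =
        (b.2 : ℝ) * 2 ^ e * evF (cN k m) w a.1 := by
    intro a _ b _ e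
    rw [ev hL]
    push_cast
    ring
  refine ⟨?_, ?_, ?_, ?_⟩
  · rw [length_lad0]
    exact Nat.mul_le_mul hlen (Nat.mul_le_mul_right _ hlen)
  · intro u hu
    rw [mem_lad0] at hu
    obtain ⟨a, ha, b, hb, e, he, rfl⟩ := hu
    have hbd : bdL k m = bdM k m (cN k m) + (cP k m * cN k m + 2 * cQ k m) + 1 := by
      unfold bdL
      ring
    rw [hbd]
    refine ⟨?_, ?_⟩
    · exact small hL _ w _ _ _ _ (hsm a ha).1 (mult _ _ _ _ (hsm b hb).2 (by omega))
    · exact small hL _ w _ _ _ _ (hsm b hb).1 (mult _ _ _ _ (hsm a ha).2 (by omega))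
  · intro u hu
    rw [mem_lad0] at hu
    obtain ⟨a, ha, b, hb, e, he, rfl⟩ := hu
    have ha2 : (0 : ℝ) < (a.2 : ℝ) := by exact_mod_cast (hpos a ha).1
    have hb2 : (0 : ℝ) < (b.2 : ℝ) := by exact_mod_cast (hpos b hb).1
    have ha1 := (hpos a ha).2
    have hb1 := (hpos b hb).2
    refine ⟨?_, ?_⟩
    · show 0 < evF (cN k m) w (fcomb (cN k m) ((b.2 : ℤ) * 2 ^ e) a.1 0 [])
      rw [hval a ha b hb e]
      positivity
    · show 0 < evF (cN k m) w (fcomb (cN k m) ((a.2 : ℤ) * 2 ^ cQ k m) b.1 0 [])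
      rw [hval b hb a ha (cQ k m)]
      positivity
  · intro y y' hy hy' hne hne'
    obtain ⟨a, ha, ha1, ha2⟩ := (hsc y hy).resolve_left hne
    obtain ⟨b, hb, hb1, hb2⟩ := (hsc y' hy').resolve_left hne'
    have pa2 : (0 : ℝ) < (a.2 : ℝ) := by exact_mod_cast (hpos a ha).1
    have pb2 : (0 : ℝ) < (b.2 : ℝ) := by exact_mod_cast (hpos b hb).1
    have pa1 := (hpos a ha).2
    have pb1 := (hpos b hb).2
    obtain ⟨e, he, hlo, hhi⟩ := step |∑ l ∈ Finset.range (cN k m), (y l : ℝ) * w l|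
      |∑ l ∈ Finset.range (cN k m), (y' l : ℝ) * w l|
      (evF (cN k m) w a.1 / a.2) (evF (cN k m) w b.1 / b.2) (m * m + cP k m)
      (abs_pos.2 hne') (by positivity) (by positivity) ha1 ha2 hb1 hb2
    refine ⟨(fcomb (cN k m) ((b.2 : ℤ) * 2 ^ e) a.1 0 [],
        fcomb (cN k m) ((a.2 : ℤ) * 2 ^ cQ k m) b.1 0 []), ?_, ?_⟩
    · rw [mem_lad0]
      refine ⟨a, ha, b, hb, e, ?_, rfl⟩
      have : cQ k m = m * m + cP k m + 3 := rfl
      omega
    · have hrt : rt (cN k m) w (fcomb (cN k m) ((b.2 : ℤ) * 2 ^ e) a.1 0 [],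
          fcomb (cN k m) ((a.2 : ℤ) * 2 ^ cQ k m) b.1 0 []) =
          evF (cN k m) w a.1 / a.2 / (evF (cN k m) w b.1 / b.2) * 2 ^ e /
            2 ^ (m * m + cP k m + 3) := by
        show evF (cN k m) w (fcomb (cN k m) ((b.2 : ℤ) * 2 ^ e) a.1 0 []) /
          evF (cN k m) w (fcomb (cN k m) ((a.2 : ℤ) * 2 ^ cQ k m) b.1 0 []) = _
        rw [hval a ha b hb e, hval b hb a ha (cQ k m)]
        have : cQ k m = m * m + cP k m + 3 := rfl
        rw [this]
        field_simp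
      rw [hrt]
      exact ⟨hlo, hhi⟩

end Pool.Agent.W920.FC
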