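import Pool.Agent.W920.FC.Stm

set_option autoImplicit false

namespace Pool.Agent.W920.FC

open Pool.Agent.NPC Pool.Agent.H558R2 Pool.Agent.H622R3.SM

namespace TLINPOLYB

lemma getD_fcomb (N : ℕ) (c d : ℤ) (C D : List ℤ) (l : ℕ) (hl : l < N) :
    (fcomb N c C d D).getD l 0 = c * C.getD l 0 + d * D.getD l 0 := by
  unfold fcomb
  rw [List.getD_eq_getElem _ _ (by simpa using hl)]
  simp

lemma evF_fcomb (N : ℕ) (w : ℕ → ℝ) (c d : ℤ) (C D : List ℤ) :
    evF N w (fcomb N c C d D) = c * evF N w C + d * evF N w D := by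
  unfold evF
  rw [Finset.mul_sum, Finset.mul_sum, ← Finset.sum_add_distrib]
  refine Finset.sum_congr rfl fun l hl => ?_
  rw [getD_fcomb N c d C D l (Finset.mem_range.1 hl)]
  push_cast
  ring

lemma evF_unit (N : ℕ) (w : ℕ → ℝ) (l : ℕ) (hl : l < N) : evF N w ((unitF N).getD l []) = w l := by
  unfold evF unitF
  rw [List.getD_eq_getElem _ _ (by simpa using hl), List.getElem_map, List.getElem_range,
    Finset.sum_eq_single l]
  · rw [List.getD_eq_getElem _ _ (by simpa using hl)]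
    simp
  · intro l' hl' hne
    rw [List.getD_eq_getElem _ _ (by simpa using Finset.mem_range.1 hl')]
    simp [hne]
  · intro h
    exact absurd (Finset.mem_range.2 hl) h

lemma getD_small (B : ℕ) (C : List ℤ) (h : SmallL B C) (l : ℕ) : (C.getD l 0).natAbs ≤ 2 ^ B := by
  by_cases hl : l < C.length
  · rw [List.getD_eq_getElem _ _ hl]
    exact h _ (List.getElem_mem hl)
  · rw [List.getD_eq_default _ _ (by omega)]
    simp

lemma small_fcomb (N : ℕ) (c d : ℤ) (C D : List ℤ) (B B' : ℕ) (hC : SmallL B C) (hD : SmallL B D)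
    (hc : c.natAbs ≤ 2 ^ B') (hd : d.natAbs ≤ 2 ^ B') : SmallL (B + B' + 1) (fcomb N c C d D) := by
  intro x hx
  unfold fcomb at hx
  obtain ⟨i, -, rfl⟩ := List.mem_map.1 hx
  refine (Int.natAbs_add_le _ _).trans ?_
  rw [Int.natAbs_mul, Int.natAbs_mul]
  have h1 := Nat.mul_le_mul hc (getD_small B C hC i)
  have h2 := Nat.mul_le_mul hd (getD_small B D hD i)
  have h3 : 2 ^ (B + B' + 1) = 2 ^ B' * 2 ^ B + 2 ^ B' * 2 ^ B := by ring
  omega

/-- bounded by a polynomial -/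
def PB (f : ℕ → ℕ → ℕ) : Prop := ∃ q : Polynomial ℕ, ∀ m n, f m n ≤ q.eval (m + n)

lemma pb_const (c : ℕ) : PB fun _ _ => c := ⟨Polynomial.C c, fun m n => by simp⟩

lemma pb_add {f g : ℕ → ℕ → ℕ} (hf : PB f) (hg : PB g) : PB fun m n => f m n + g m n := by
  obtain ⟨p, hp⟩ := hf
  obtain ⟨q, hq⟩ := hg
  exact ⟨p + q, fun m n => by rw [Polynomial.eval_add]; exact Nat.add_le_add (hp m n) (hq m n)⟩

lemma pb_mul {f g : ℕ → ℕ → ℕ} (hf : PB f) (hg : PB g) : PB fun m n => f m n * g m n := by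
  obtain ⟨p, hp⟩ := hf
  obtain ⟨q, hq⟩ := hg
  exact ⟨p * q, fun m n => by rw [Polynomial.eval_mul]; exact Nat.mul_le_mul (hp m n) (hq m n)⟩

lemma pb_m : PB fun m _ => m := ⟨Polynomial.X, fun m n => by simp⟩

lemma pb_n : PB fun _ n => n := ⟨Polynomial.X, fun m n => by simp⟩

lemma pb_pow {f : ℕ → ℕ → ℕ} (hf : PB f) (k : ℕ) : PB fun m n => f m n ^ k := by
  induction k with
  | zero => simpa using pb_const 1
  | succ k ih =>
    have := pb_mul ih hf
    simpa [pow_succ] using this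

lemma pb_N (k : ℕ) : PB fun m _ => cN k m := pb_pow (pb_add pb_m (pb_const 1)) (k + 1)

lemma pb_E (k : ℕ) : PB fun m _ => cE k m :=
  pb_add (pb_add (pb_mul pb_m pb_m) (pb_mul (pb_const 2) (pb_N k))) (pb_const 4)

lemma pb_P (k : ℕ) : PB fun m _ => cP k m := pb_mul (pb_add (pb_N k) (pb_const 1)) (pb_E k)

lemma pb_Q (k : ℕ) : PB fun m _ => cQ k m :=
  pb_add (pb_add (pb_mul pb_m pb_m) (pb_P k)) (pb_const 3)

lemma pb_Z (k : ℕ) : PB fun m _ => cZ k m :=
  pb_mul (pb_N k) (pb_mul (pb_N k) (pb_add (pb_mul (pb_const 2) (pb_Q k)) (pb_const 1)))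

lemma pb_K : PB fun m n => cK m n := pb_add (pb_add pb_m (pb_add pb_n pb_n)) (pb_const 1)

lemma pb_T : PB fun m n => cT m n := pb_mul (pb_const 4) (pb_mul pb_K (pb_mul pb_K pb_K))

lemma pb_R (k : ℕ) : PB fun m n => cR k m n := pb_add (pb_mul pb_K (pb_Z k)) (pb_const 1)

lemma pb_M (k : ℕ) : PB fun m _ => bdM k m (cN k m) :=
  pb_mul (pb_add (pb_P k) (pb_const 1)) (pb_N k)

lemma pb_L (k : ℕ) : PB fun m _ => bdL k m :=
  pb_add (pb_add (pb_add (pb_M k) (pb_mul (pb_P k) (pb_N k))) (pb_mul (pb_const 2) (pb_Q k)))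
    (pb_const 1)

end TLINPOLYB

open TLINPOLYB

theorem t_LINPOLYB : S_LIN ∧ ∀ k, S_POLYB k := by
  refine ⟨fun N w c d C D => ⟨evF_fcomb N w c d C D, by simp [fcomb], evF_unit N w,
    fun B B' => small_fcomb N c d C D B B'⟩, fun k => ?_⟩
  obtain ⟨q, hq⟩ := pb_add (pb_N k) (pb_add (pb_E k) (pb_add (pb_P k) (pb_add (pb_Q k)
    (pb_add (pb_Z k) (pb_add pb_K (pb_add pb_T (pb_add (pb_R k) (pb_add (pb_M k) (pb_add (pb_L k)
      (pb_add (pb_mul (pb_P k) (pb_N k)) (pb_add pb_m pb_n)))))))))))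
  refine ⟨q, fun m n => ?_⟩
  have h := hq m n
  simp only at h
  refine ⟨?_, ?_, ?_, ?_, ?_, ?_, ?_, ?_, ?_, ?_, ?_, ?_⟩ <;> omega

end Pool.Agent.W920.FC
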