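import Pool.Agent.W920.FC.Stm

set_option autoImplicit false

/-!
# The minors are small integer forms of the monomials
-/

namespace Pool.Agent.W920.FC

open Pool.Agent.NPC Pool.Agent.H558R2 Pool.Agent.H622R3.SM

namespace TMINOR

/-- integer combinations of the numbers `w l` with coefficients of total size at most `c` -/
def Rep (N : ℕ) (w : ℕ → ℝ) (c : ℕ) (x : ℝ) : Prop :=
  ∃ y : ℕ → ℤ, ∑ l ∈ Finset.range N, (y l).natAbs ≤ c ∧
    x = ∑ l ∈ Finset.range N, (y l : ℝ) * w l

variable {N : ℕ} {w : ℕ → ℝ}

theorem Rep.zero (c : ℕ) : Rep N w c 0 := ⟨fun _ => 0, by simp, by simp⟩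

theorem Rep.add {c d : ℕ} {x x' : ℝ} (h : Rep N w c x) (h' : Rep N w d x') :
    Rep N w (c + d) (x + x') := by
  obtain ⟨y, h1, h2⟩ := h
  obtain ⟨y', h1', h2'⟩ := h'
  refine ⟨fun l => y l + y' l, ?_, ?_⟩
  · calc ∑ l ∈ Finset.range N, (y l + y' l).natAbs
        ≤ ∑ l ∈ Finset.range N, ((y l).natAbs + (y' l).natAbs) :=
          Finset.sum_le_sum fun l _ => Int.natAbs_add_le _ _
      _ = _ := Finset.sum_add_distrib
      _ ≤ c + d := add_le_add h1 h1'
  · rw [h2, h2', ← Finset.sum_add_distrib]
    apply Finset.sum_congr rfl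
    intro l _
    push_cast
    ring

theorem Rep.neg {c : ℕ} {x : ℝ} (h : Rep N w c x) : Rep N w c (-x) := by
  obtain ⟨y, h1, h2⟩ := h
  refine ⟨fun l => - y l, by simpa using h1, ?_⟩
  rw [h2, ← Finset.sum_neg_distrib]
  apply Finset.sum_congr rfl
  intro l _
  push_cast
  ring

theorem Rep.mono {c d : ℕ} (hcd : c ≤ d) {x : ℝ} (h : Rep N w c x) : Rep N w d x := by
  obtain ⟨y, h1, h2⟩ := h
  exact ⟨y, h1.trans hcd, h2⟩

theorem Rep.single {l : ℕ} (hl : l < N) : Rep N w 1 (w l) := by
  refine ⟨fun i => if i = l then 1 else 0, ?_, ?_⟩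
  · rw [Finset.sum_eq_single l]
    · simp
    · intro i _ hi; simp [hi]
    · intro h; exact absurd (Finset.mem_range.mpr hl) h
  · rw [Finset.sum_eq_single l]
    · simp
    · intro i _ hi; simp [hi]
    · intro h; exact absurd (Finset.mem_range.mpr hl) h

theorem Rep.sum {ι : Type} (S : Finset ι) (f : ι → ℝ) (h : ∀ i ∈ S, Rep N w 1 (f i)) :
    Rep N w S.card (∑ i ∈ S, f i) := by
  classical
  induction S using Finset.induction_on with
  | empty => simpa using Rep.zero 0
  | insert a S ha ih =>
    rw [Finset.sum_insert ha, Finset.card_insert_of_notMem ha, add_comm S.card 1]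
    exact (h a (Finset.mem_insert_self a S)).add
      (ih fun i hi => h i (Finset.mem_insert_of_mem hi))

/-- products of entries which are `0`, `1` or a power product up to sign -/
theorem prod_form {ι : Type} (k : ℕ) (θ : ℕ → ℝ) (f : ι → ℝ) (S : Finset ι)
    (h : ∀ i ∈ S, f i = 0 ∨ f i = 1 ∨ ∃ r < k, f i = θ r ∨ f i = - θ r) :
    ∏ i ∈ S, f i = 0 ∨ ∃ (e : ℕ → ℕ), (∀ r, e r ≤ S.card) ∧
      (∏ i ∈ S, f i = ∏ r ∈ Finset.range k, θ r ^ e r ∨
        ∏ i ∈ S, f i = - ∏ r ∈ Finset.range k, θ r ^ e r) := by
  classical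
  induction S using Finset.induction_on with
  | empty =>
    right
    exact ⟨fun _ => 0, fun _ => le_rfl, Or.inl (by simp)⟩
  | insert a S ha ih =>
    rw [Finset.prod_insert ha, Finset.card_insert_of_notMem ha]
    rcases ih (fun i hi => h i (Finset.mem_insert_of_mem hi)) with h0 | ⟨e, he, hp⟩
    · left; rw [h0, mul_zero]
    · rcases h a (Finset.mem_insert_self a S) with h1 | h1 | ⟨r, hr, h1⟩
      · left; rw [h1, zero_mul]
      · right
        refine ⟨e, fun r => (he r).trans (Nat.le_succ _), ?_⟩
        rw [h1, one_mul]; exact hp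
      · right
        have hup : ∏ r' ∈ Finset.range k, θ r' ^ (Function.update e r (e r + 1)) r' =
            θ r * ∏ r' ∈ Finset.range k, θ r' ^ e r' := by
          rw [← Finset.mul_prod_erase _ _ (Finset.mem_range.mpr hr),
            ← Finset.mul_prod_erase (Finset.range k) (fun r' => θ r' ^ e r')
              (Finset.mem_range.mpr hr)]
          have h2 : ∏ r' ∈ (Finset.range k).erase r,
              θ r' ^ (Function.update e r (e r + 1)) r' =
              ∏ r' ∈ (Finset.range k).erase r, θ r' ^ e r' := by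
            apply Finset.prod_congr rfl
            intro r' hr'
            rw [Function.update_of_ne (Finset.ne_of_mem_erase hr')]
          rw [h2, Function.update_self, pow_succ]
          ring
        refine ⟨Function.update e r (e r + 1), ?_, ?_⟩
        · intro r'
          by_cases hrr : r' = r
          · rw [hrr, Function.update_self]
            exact Nat.succ_le_succ (he r)
          · rw [Function.update_of_ne hrr]
            exact (he r').trans (Nat.le_succ _)
        · rw [hup]
          rcases h1 with h1 | h1 <;> rcases hp with hp | hp <;> rw [h1, hp]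
          · left; ring
          · right; ring
          · right; ring
          · left; ring

theorem fact_le (m : ℕ) : m.factorial ≤ 2 ^ (m * m) := by
  calc m.factorial ≤ m ^ m := Nat.factorial_le_pow m
    _ ≤ (2 ^ m) ^ m := Nat.pow_le_pow_left Nat.lt_two_pow_self.le m
    _ = 2 ^ (m * m) := by rw [pow_mul]

end TMINOR

open TMINOR

theorem t_MINOR : S_W0 → S_MINOR := by
  intro hW0 k m n A b reps hm hcov β hβ
  classical
  set g := start A b with hg
  have hbase : Base g := ⟨rfl, rfl⟩
  obtain ⟨-, -, -, hW⟩ := hW0 k m g reps hbase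
  have hmono : ∀ (d : ℕ) (e : ℕ → ℕ), d ≤ m → (∀ r, e r ≤ m) → ∃ l < cN k m,
      wv k m g reps l = g (breg d) * ∏ r ∈ Finset.range k, g (thr reps r) ^ e r := by
    intro d e hd he
    obtain ⟨l, hl, hle⟩ := hW (d :: (List.range k).map e) (by simp) (by
      intro x hx
      rcases List.mem_cons.mp hx with hx | hx
      · rw [hx]; exact hd
      · obtain ⟨r, -, rfl⟩ := List.mem_map.mp hx
        exact he r)
    refine ⟨l, hl, ?_⟩
    rw [wv, hle, mono]
    congr 1
    apply Finset.prod_congr rfl
    intro r hr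
    rw [Finset.mem_range] at hr
    congr 1
    simp [hr]
  -- entries
  have hent : ∀ (i : Fin m) (x : Option (Fin (m + (n + n)))), x ≠ none →
      wmat A b i x = 0 ∨ wmat A b i x = 1 ∨
        ∃ r < k, wmat A b i x = g (thr reps r) ∨ wmat A b i x = - g (thr reps r) := by
    intro i x hx
    obtain ⟨kk, rfl⟩ := Option.ne_none_iff_exists'.mp hx
    have hA : ∀ c : Fin n, ∃ r < k, A i c = g (thr reps r) := by
      intro c
      obtain ⟨r, hr, h1⟩ := hcov i i.2 c c.2
      refine ⟨r, hr, ?_⟩
      rw [← h1, hg]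
      simp [start]
    have hw : wmat A b i (some kk) = colEntry A i ((colEquiv m n).symm kk) := rfl
    rw [hw]
    rcases (colEquiv m n).symm kk with r' | c | c
    · by_cases hir : i = r'
      · right; left; simp [colEntry, hir]
      · left; simp [colEntry, hir]
    · right; right
      obtain ⟨r, hr, h1⟩ := hA c
      exact ⟨r, hr, Or.inr (by simp [colEntry, h1])⟩
    · right; right
      obtain ⟨r, hr, h1⟩ := hA c
      exact ⟨r, hr, Or.inl (by simp [colEntry, h1])⟩
  have hterm : ∀ σ : Equiv.Perm (Fin m),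
      Rep (cN k m) (wv k m g reps) 1 (∏ c, wmat A b (σ c) (β c)) := by
    intro σ
    have hfin : ∀ (d : ℕ) (e : ℕ → ℕ) (x : ℝ), d ≤ m → (∀ r, e r ≤ m) →
        (x = g (breg d) * ∏ r ∈ Finset.range k, g (thr reps r) ^ e r ∨
          x = - (g (breg d) * ∏ r ∈ Finset.range k, g (thr reps r) ^ e r)) →
        Rep (cN k m) (wv k m g reps) 1 x := by
      intro d e x hd he hx
      obtain ⟨l, hl, hle⟩ := hmono d e hd he
      rw [← hle] at hx
      rcases hx with hx | hx
      · rw [hx]; exact Rep.single hl
      · rw [hx]; exact (Rep.single hl).neg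
    by_cases hex : ∃ c₀, β c₀ = none
    · obtain ⟨c₀, hc₀⟩ := hex
      rw [← Finset.mul_prod_erase _ _ (Finset.mem_univ c₀), hc₀]
      have h1 : wmat A b (σ c₀) none = - g (breg ((σ c₀ : ℕ) + 1)) := by
        rw [hg]
        simp [wmat, breg, start]
      rcases prod_form k (fun r => g (thr reps r)) (fun c => wmat A b (σ c) (β c))
        (Finset.univ.erase c₀) (fun c hc => hent (σ c) (β c) (fun h2 =>
          Finset.ne_of_mem_erase hc (hβ c c₀ h2 hc₀))) with h3 | ⟨e, he, h3⟩
      · rw [h3, mul_zero]; exact Rep.zero 1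
      · have hcard : (Finset.univ.erase c₀ : Finset (Fin m)).card ≤ m := by
          rw [Finset.card_erase_of_mem (Finset.mem_univ _)]
          simp
        refine hfin ((σ c₀ : ℕ) + 1) e _ (σ c₀).2 (fun r => (he r).trans hcard) ?_
        rw [h1]
        rcases h3 with h3 | h3 <;> rw [h3]
        · right; ring
        · left; ring
    · push Not at hex
      rcases prod_form k (fun r => g (thr reps r)) (fun c => wmat A b (σ c) (β c))
        Finset.univ (fun c _ => hent (σ c) (β c) (hex c)) with h3 | ⟨e, he, h3⟩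
      · rw [h3]; exact Rep.zero 1
      · refine hfin 0 e _ (Nat.zero_le _) (fun r => (he r).trans (by simp)) ?_
        have h1 : g (breg 0) = 1 := by
          rw [hg]; rfl
        rw [h1, one_mul]
        exact h3
  have hdet : Rep (cN k m) (wv k m g reps) (2 ^ (m * m)) (dd (wmat A b) β) := by
    unfold dd
    rw [Matrix.det_apply]
    have h1 : Rep (cN k m) (wv k m g reps) (Finset.univ : Finset (Equiv.Perm (Fin m))).card
        (∑ σ : Equiv.Perm (Fin m), Equiv.Perm.sign σ •
          ∏ i, (Matrix.of fun i j => wmat A b i (β j)) (σ i) i) := by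
      apply Rep.sum
      intro σ _
      simp only [Matrix.of_apply]
      rcases Int.units_eq_one_or (Equiv.Perm.sign σ) with h2 | h2
      · rw [h2, one_smul]; exact hterm σ
      · rw [h2, Units.neg_smul, one_smul]; exact (hterm σ).neg
    refine h1.mono ?_
    rw [Finset.card_univ, Fintype.card_perm, Fintype.card_fin]
    exact fact_le m
  obtain ⟨y, h1, h2⟩ := hdet
  exact ⟨y, h1, h2⟩

end Pool.Agent.W920.FC
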