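import Pool.Agent.W920.FC.Stm

/-!
# The end of a round of the perceptron algorithm
-/

set_option autoImplicit false

namespace Pool.Agent.W920.FC

open Pool.Agent.NPC Pool.Agent.H558R2 Pool.Agent.H622R3.SM

namespace TNEXT

theorem getD_mr {α : Type} (N : ℕ) (f : ℕ → α) (d : α) (j : ℕ) :
    ((List.range N).map f).getD j d = if j < N then f j else d := by
  rw [List.getD_eq_getElem?_getD, List.getElem?_map]
  by_cases h : j < N
  · rw [if_pos h, List.getElem?_range h]
    rfl
  · rw [if_neg h, List.getElem?_eq_none (by simpa using not_lt.1 h)]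
    rfl

theorem getD_mra {α : Type} (N : ℕ) (f : ℕ → α) (c d : α) (j : ℕ) :
    ((List.range N).map f ++ [c]).getD j d = if j < N then f j else if j = N then c else d := by
  rw [List.getD_eq_getElem?_getD]
  by_cases h : j < N
  · rw [if_pos h, List.getElem?_append_left (by simpa using h), List.getElem?_map,
      List.getElem?_range h]
    rfl
  · rw [if_neg h, List.getElem?_append_right (by simpa using not_lt.1 h)]
    by_cases h2 : j = N
    · subst h2
      simp
    · rw [if_neg h2]
      have : 1 ≤ j - ((List.range N).map f).length := by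
        simp only [List.length_map, List.length_range]
        omega
      rw [List.getElem?_eq_none (by simpa using this)]
      rfl

theorem sum_mr (N : ℕ) (f : ℕ → ℕ) : ((List.range N).map f).sum = ∑ l ∈ Finset.range N, f l := by
  induction N with
  | zero => rfl
  | succ N ih => rw [List.range_succ, List.map_append, List.sum_append, ih, Finset.sum_range_succ]; simp

theorem sum_getD (l : List ℕ) : l.sum = ∑ i ∈ Finset.range l.length, l.getD i 0 := by
  rw [← sum_mr]
  congr 1
  apply List.ext_getElem
  · simp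
  · intro i h1 h2
    rw [List.getElem_map, List.getElem_range, List.getD_eq_getElem _ _ h1]

theorem bump_getD (y : List ℕ) (K j l : ℕ) :
    (bump y K j).getD l 0 = if l < K then (if l = j then y.getD l 0 + 1 else y.getD l 0) else 0 := by
  unfold bump
  rw [getD_mr]

theorem bump_length (y : List ℕ) (K j : ℕ) : (bump y K j).length = K := by
  unfold bump
  simp

theorem bump_sum (y : List ℕ) (K j : ℕ) (hy : y.length = K) (hj : j < K) :
    (bump y K j).sum = y.sum + 1 := by
  rw [sum_getD, bump_length, sum_getD y, hy]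
  have : ∀ l ∈ Finset.range K, (bump y K j).getD l 0 = y.getD l 0 + if l = j then 1 else 0 := by
    intro l hl
    rw [bump_getD, if_pos (Finset.mem_range.1 hl)]
    split_ifs <;> rfl
  rw [Finset.sum_congr rfl this, Finset.sum_add_distrib, Finset.sum_ite_eq',
    if_pos (Finset.mem_range.2 hj)]

theorem evF_one {N : ℕ} {w : ℕ → ℝ} (hN : 1 ≤ N) (hw : w 0 = 1) : evF N w [1] = 1 := by
  unfold evF
  rw [Finset.sum_eq_single_of_mem 0 (Finset.mem_range.2 hN)]
  · simp [hw]
  · intro l _ hl
    obtain ⟨l, rfl⟩ := Nat.exists_eq_succ_of_ne_zero hl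
    simp

theorem evF_nil (N : ℕ) (w : ℕ → ℝ) : evF N w [] = 0 := by
  unfold evF
  apply Finset.sum_eq_zero
  intro l _
  simp

theorem Wt_eq (k m n : ℕ) (w : ℕ → ℝ) (Lad : List (List ℤ × List ℤ)) (idx : List ℕ) (j : ℕ)
    (hj : j < m + (n + n)) :
    Wt k m n w Lad idx j = rt (cN k m) w (Lad.getD (idx.getD j 0) ([], [1])) := by
  unfold Wt wts
  rw [getD_mra, if_pos hj]

theorem cN_pos (k m : ℕ) : 1 ≤ cN k m := Nat.one_le_pow _ _ (Nat.succ_pos m)

theorem Wt_last (k m n : ℕ) (w : ℕ → ℝ) (hw : w 0 = 1) (Lad : List (List ℤ × List ℤ))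
    (idx : List ℕ) : Wt k m n w Lad idx (m + (n + n)) = 1 := by
  unfold Wt wts
  rw [getD_mra, if_neg (lt_irrefl _), if_pos rfl, rt, evF_one (cN_pos k m) hw, div_one]

theorem rt_nil (N : ℕ) (w : ℕ → ℝ) (d : List ℤ) : rt N w ([], d) = 0 := by
  rw [rt, evF_nil, zero_div]

theorem rt_getD_nonneg {k m : ℕ} {w : ℕ → ℝ} {Lad : List (List ℤ × List ℤ)}
    (hG : Good3 k m w Lad) (i : ℕ) : 0 ≤ rt (cN k m) w (Lad.getD i ([], [1])) := by
  by_cases h : i < Lad.length
  · rw [List.getD_eq_getElem _ _ h]
    have := hG.2.2.1 _ (List.getElem_mem h)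
    exact (div_pos this.1 this.2).le
  · rw [List.getD_eq_default _ _ (not_lt.1 h), rt_nil]

theorem drops_getD (m n : ℕ) (Lad : List (List ℤ × List ℤ)) (idx : List ℕ) (j : ℕ) :
    (drops m n Lad idx).getD j false = true ↔ j < m + (n + n) ∧ Lad.length ≤ idx.getD j 0 := by
  unfold drops
  rw [getD_mra]
  by_cases h : j < m + (n + n)
  · rw [if_pos h]; simp [h]
  · rw [if_neg h]; simp [h]

theorem Wt_nonneg {k m n : ℕ} {w : ℕ → ℝ} {Lad : List (List ℤ × List ℤ)} (idx : List ℕ)
    (hw : w 0 = 1) (hG : Good3 k m w Lad) (j : ℕ) (hj : j < cK m n) : 0 ≤ Wt k m n w Lad idx j := by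
  unfold cK at hj
  by_cases h : j < m + (n + n)
  · rw [Wt_eq _ _ _ _ _ _ _ h]
    exact rt_getD_nonneg hG _
  · have : j = m + (n + n) := by omega
    rw [this, Wt_last _ _ _ _ hw]
    exact zero_le_one

/-- the ladder is decreasing -/
theorem lad_mono {k m : ℕ} {w : ℕ → ℝ} {Lad : List (List ℤ × List ℤ)} (hG : Good3 k m w Lad)
    {i j : ℕ} (hij : i ≤ j) (hj : j < Lad.length) :
    rt (cN k m) w (Lad.getD j ([], [1])) ≤ rt (cN k m) w (Lad.getD i ([], [1])) := by
  rcases hij.eq_or_lt with h | h
  · rw [h]
  · have h1 := List.pairwise_iff_getElem.1 hG.2.2.2.1 i j (h.trans hj) hj h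
    rw [List.getD_eq_getElem _ _ hj, List.getD_eq_getElem _ _ (h.trans hj)]
    exact h1

end TNEXT

open TNEXT in
theorem t_NEXT : S_KER → S_PERC → S_NEXT := by
  intro hKer hPerc k m n g w Lad idx b t hw hG hidx ht
  obtain ⟨hsymm, hker⟩ := hKer m n g (Wt k m n w Lad idx) (drops m n Lad idx)
  obtain ⟨-, hp2, hp3, hp4, hp5⟩ := hPerc m n (GMat m n g (Wt k m n w Lad idx) (drops m n Lad idx))
    (drops m n Lad idx) b hsymm
  have hK : cK m n = m + (n + n) + 1 := rfl
  have hKK : 0 < 4 * (cK m n * cK m n) := by rw [hK]; positivity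
  have hWn : ∀ j, j < cK m n → 0 ≤ Wt k m n w Lad idx j := fun j hj => Wt_nonneg idx hw hG j hj
  -- the positions which are increased are not dropped
  have hnd : ∀ j, 4 * (cK m n * cK m n) ≤ t.1.getD j 0 →
      (drops m n Lad idx).getD j false = false := by
    intro j hj
    by_contra hcon
    have h1 : (drops m n Lad idx).getD j false = true := by
      simpa using hcon
    have h2 := hp2 (cT m n) j h1
    rw [← ht] at h2
    omega
  -- the form of the next indices
  have hform : nextIdx m n idx t.1 = idx ∨ ∃ j, j < cK m n ∧ 4 * (cK m n * cK m n) ≤ t.1.getD j 0 ∧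
      nextIdx m n idx t.1 = bump idx (m + (n + n)) j := by
    unfold nextIdx
    rcases h : ((List.range (cK m n)).filter
      fun j => decide (4 * (cK m n * cK m n) ≤ t.1.getD j 0)).head? with _ | j
    · left; rfl
    · right
      have h1 := List.mem_of_head? h
      rw [List.mem_filter, List.mem_range, decide_eq_true_iff] at h1
      exact ⟨j, h1.1, h1.2, rfl⟩
  refine ⟨?_, ?_, ?_, ?_⟩
  · rcases hform with h | ⟨j, hj, hj4, h⟩
    · rw [h]; exact hidx
    · rw [h]
      refine ⟨bump_length _ _ _, fun l => ?_⟩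
      rw [bump_getD]
      split_ifs with h1 h2
      · subst h2
        by_contra hcon
        have h3 := hnd l hj4
        have h4 := (drops_getD m n Lad idx l).2 ⟨h1, by omega⟩
        rw [h4] at h3
        exact absurd h3 (by decide)
      · exact hidx.2 l
      · exact Nat.zero_le _
  · intro hb
    rw [ht]
    exact hp3 hb _
  · intro hb ht2
    rw [ht] at ht2
    obtain ⟨z, hz, hzpos⟩ := hp4 hb _ ht2
    obtain ⟨hz1, hz2⟩ := (hker z).1 hz
    have hz0 : ∀ j : Fin (cK m n), 0 ≤ z j := by
      intro j
      rcases hd : (drops m n Lad idx).getD j false with _ | _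
      · exact (hzpos j hd).le
      · exact (hz2 j hd).symm.le
    refine ⟨fun j => Wt k m n w Lad idx j * if h : j < cK m n then z ⟨j, h⟩ else 0, ?_, ?_, ?_⟩
    · intro j hj
      simp only [dif_pos hj]
      exact mul_nonneg (hWn j hj) (hz0 _)
    · have hj : m + (n + n) < cK m n := by omega
      simp only [dif_pos hj]
      rw [Wt_last _ _ _ _ hw, one_mul]
      apply hzpos
      by_contra hcon
      have h1 : (drops m n Lad idx).getD (m + (n + n)) false = true := by
        simpa using hcon
      exact absurd ((drops_getD m n Lad idx _).1 h1).1 (lt_irrefl _)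
    · intro i hi
      rw [Finset.sum_range]
      refine (Finset.sum_congr rfl (fun j _ => ?_)).trans (hz1 i hi)
      simp only [dif_pos j.2]
      ring
  · intro hb ht2 x hx hinv
    rw [ht] at ht2
    obtain ⟨⟨j1, hj1, hj14⟩, hhalf⟩ := hp5 hb ht2
    rw [← ht] at hj14 hhalf
    obtain ⟨hx0, hx1, hxeq, hxlad⟩ := hx
    have hxW : ∀ j, j < cK m n → x j ≤ Wt k m n w Lad idx j := by
      intro j hj
      by_cases h : j < m + (n + n)
      · exact hinv j h
      · have : j = m + (n + n) := by omega
        rw [this, hx1, Wt_last _ _ _ _ hw]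
    have hWx : ∀ j, j < cK m n → Wt k m n w Lad idx j * (x j / Wt k m n w Lad idx j) = x j := by
      intro j hj
      rcases (hWn j hj).eq_or_lt with h | h
      · have h1 := hxW j hj
        rw [← h] at h1
        have h2 := le_antisymm h1 (hx0 j hj)
        rw [h2, zero_div, mul_zero]
      · field_simp
    have hξ : (GMat m n g (Wt k m n w Lad idx) (drops m n Lad idx)).mulVec
        (fun j : Fin (cK m n) => x j / Wt k m n w Lad idx j) = 0 := by
      rw [hker]
      constructor
      · intro i hi
        rw [← hxeq i hi, Finset.sum_range]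
        refine Finset.sum_congr rfl (fun j _ => ?_)
        rw [mul_assoc, hWx j j.2]
      · intro j hj
        obtain ⟨h1, h2⟩ := (drops_getD m n Lad idx j).1 hj
        have h3 : Wt k m n w Lad idx j = 0 := by
          rw [Wt_eq _ _ _ _ _ _ _ h1, List.getD_eq_default _ _ h2, rt_nil]
        show x j / Wt k m n w Lad idx j = 0
        rw [h3, div_zero]
    have hhalf' := hhalf _ hξ (fun j => ⟨div_nonneg (hx0 j j.2) (hWn j j.2),
      div_le_one_of_le₀ (hxW j j.2) (hWn j j.2)⟩)
    -- the new indices
    have hform' : ∃ j, j < cK m n ∧ 4 * (cK m n * cK m n) ≤ t.1.getD j 0 ∧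
        nextIdx m n idx t.1 = bump idx (m + (n + n)) j := by
      rcases h : ((List.range (cK m n)).filter
        fun j => decide (4 * (cK m n * cK m n) ≤ t.1.getD j 0)).head? with _ | j
      · exfalso
        rw [List.head?_eq_none_iff] at h
        have h1 : j1 ∈ ((List.range (cK m n)).filter
            fun j => decide (4 * (cK m n * cK m n) ≤ t.1.getD j 0)) := by
          rw [List.mem_filter, List.mem_range, decide_eq_true_iff]
          exact ⟨hj1, hj14⟩
        rw [h] at h1
        exact absurd h1 (List.not_mem_nil)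
      · have h1 := List.mem_of_head? h
        rw [List.mem_filter, List.mem_range, decide_eq_true_iff] at h1
        refine ⟨j, h1.1, h1.2, ?_⟩
        unfold nextIdx
        rw [h]
        rfl
    obtain ⟨j0, hj0, hj04, hnext⟩ := hform'
    have hh : x j0 / Wt k m n w Lad idx j0 ≤ 1 / 2 := hhalf' ⟨j0, hj0⟩ hj04
    have hj0' : j0 < m + (n + n) := by
      by_contra hcon
      have : j0 = m + (n + n) := by omega
      rw [this, hx1, Wt_last _ _ _ _ hw] at hh
      norm_num at hh
    have hidx0 : idx.getD j0 0 < Lad.length := by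
      by_contra hcon
      have h1 := (drops_getD m n Lad idx j0).2 ⟨hj0', not_lt.1 hcon⟩
      rw [hnd j0 hj04] at h1
      exact absurd h1 (by decide)
    have hxhalf : x j0 ≤ Wt k m n w Lad idx j0 / 2 := by
      rw [← hWx j0 hj0]
      have := mul_le_mul_of_nonneg_left hh (hWn j0 hj0)
      linarith
    rw [hnext]
    refine ⟨?_, bump_sum _ _ _ hidx.1 hj0'⟩
    intro j hj
    rw [Wt_eq _ _ _ _ _ _ _ hj, bump_getD, if_pos hj]
    by_cases hjj : j = j0
    · subst hjj
      rw [if_pos rfl]
      rcases hxlad j hj with h0 | ⟨u, hu, hu1, hu2⟩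
      · rw [h0]
        exact rt_getD_nonneg hG _
      · obtain ⟨i, hi, rfl⟩ := List.mem_iff_getElem.1 hu
        rw [← List.getD_eq_getElem _ ([], [1]) hi] at hu1 hu2
        have hlt : idx.getD j 0 < i := by
          by_contra hcon
          have h1 := lad_mono hG (not_lt.1 hcon) hidx0
          rw [Wt_eq _ _ _ _ _ _ _ hj] at hxhalf
          linarith
        exact hu2.trans (lad_mono hG hlt hi)
    · rw [if_neg hjj]
      have := hinv j hj
      rw [Wt_eq _ _ _ _ _ _ _ hj] at this
      exact this

end Pool.Agent.W920.FC
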