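import Pool.Agent.W920.FC.Stm

set_option autoImplicit false

/-!
# ORD1: the programs are well ordered, first part (helper912)
-/

namespace Pool.Agent.W920.FC

open Pool.Agent.NPC Pool.Agent.H558R2 Pool.Agent.H622R3.SM

namespace TORD1

theorem mem_wr {P : List Instr} {r : Reg} : r ∈ wr P ↔ ∃ I ∈ P, I.dst = r := Iff.rfl

theorem wr_nil : wr [] = ∅ := by
  ext r; simp [mem_wr]

theorem wr_append (P Q : List Instr) : wr (P ++ Q) = wr P ∪ wr Q := by
  ext r
  simp only [mem_wr, List.mem_append, Set.mem_union]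
  constructor
  · rintro ⟨I, hI | hI, rfl⟩
    · exact Or.inl ⟨I, hI, rfl⟩
    · exact Or.inr ⟨I, hI, rfl⟩
  · rintro (⟨I, hI, rfl⟩ | ⟨I, hI, rfl⟩)
    · exact ⟨I, Or.inl hI, rfl⟩
    · exact ⟨I, Or.inr hI, rfl⟩

theorem wr_cons (I : Instr) (P : List Instr) : wr (I :: P) = {I.dst} ∪ wr P := by
  ext r
  simp only [mem_wr, List.mem_cons, Set.mem_union, Set.mem_singleton_iff]
  constructor
  · rintro ⟨J, rfl | hJ, rfl⟩
    · exact Or.inl rfl
    · exact Or.inr ⟨J, hJ, rfl⟩
  · rintro (rfl | ⟨J, hJ, rfl⟩)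
    · exact ⟨I, Or.inl rfl, rfl⟩
    · exact ⟨J, Or.inr hJ, rfl⟩

theorem mem_wr_range {N : ℕ} {B : ℕ → List Instr} {r : Reg} :
    r ∈ wr ((List.range N).flatMap B) ↔ ∃ i < N, r ∈ wr (B i) := by
  simp only [mem_wr, List.mem_flatMap, List.mem_range]
  constructor
  · rintro ⟨I, ⟨i, hi, hI⟩, rfl⟩
    exact ⟨i, hi, I, hI, rfl⟩
  · rintro ⟨i, hi, I, hI, rfl⟩
    exact ⟨I, ⟨i, hi, hI⟩, rfl⟩

theorem ord_append (S : Set Reg) (P Q : List Instr) :
    Ord S (P ++ Q) ↔ Ord S P ∧ Ord (S ∪ wr P) Q := by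
  induction P generalizing S with
  | nil =>
    have h0 : Pool.Agent.H622R3.SM.Ord S [] := trivial
    simp [h0, wr_nil]
  | cons I P ih =>
    simp only [List.cons_append, Pool.Agent.H622R3.SM.Ord, ih, wr_cons]
    have h : insert I.dst S ∪ wr P = S ∪ ({I.dst} ∪ wr P) := by
      ext r; simp only [Set.mem_union, Set.mem_insert_iff, Set.mem_singleton_iff]; tauto
    rw [h]
    tauto

theorem ord_cons (S : Set Reg) (I : Instr) (P : List Instr) :
    Ord S (I :: P) ↔ I.fst ∈ S ∧ I.snd ∈ S ∧ I.dst ∉ S ∧ Ord (S ∪ {I.dst}) P := by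
  rw [Set.union_singleton]
  rfl

/-- programs given by a range -/
theorem ord_range (S : Set Reg) (B : ℕ → List Instr) (N : ℕ)
    (h : ∀ i < N, Ord (S ∪ {r | ∃ j < i, r ∈ wr (B j)}) (B i)) :
    Ord S ((List.range N).flatMap B) := by
  induction N with
  | zero => exact trivial
  | succ N ih =>
    rw [List.range_succ, List.flatMap_append, ord_append]
    refine ⟨ih fun i hi => h i (by omega), ?_⟩
    have h1 : wr ((List.range N).flatMap B) = {r | ∃ j < N, r ∈ wr (B j)} := by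
      ext r; exact mem_wr_range
    rw [h1]
    simpa using h N (by omega)

theorem zipIdx_eq {α β : Type} (l : List α) (d : α) (f : α × ℕ → List β) :
    l.zipIdx.flatMap f = (List.range l.length).flatMap fun i => f (l.getD i d, i) := by
  have h : l.zipIdx = (List.range l.length).map fun i => (l.getD i d, i) := by
    refine List.ext_getElem (by simp) fun i h1 h2 => ?_
    simp only [List.length_zipIdx] at h1
    simp [List.getD_eq_getElem?_getD, List.getElem?_eq_getElem h1]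
  rw [h, List.flatMap_map]

theorem map_range_eq {β : Type} (N : ℕ) (f : ℕ → β) :
    (List.range N).map f = (List.range N).flatMap fun i => [f i] := by
  rw [List.map_eq_flatMap]

/-! ### Powers -/

theorem thr_base (reps : List (ℕ × ℕ)) (r : ℕ) : thr reps r ∈ baseReg := by
  unfold thr baseReg
  simp

theorem breg_base (d : ℕ) : breg d ∈ baseReg := by
  unfold breg baseReg
  split_ifs <;> simp

theorem b2 : ([2] : Reg) ∈ baseReg := by simp [baseReg]
theorem b3 : ([3] : Reg) ∈ baseReg := by simp [baseReg]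

theorem wr_pow (k m : ℕ) (reps : List (ℕ × ℕ)) (r : Reg) :
    r ∈ wr (powProg k m reps) ↔ ∃ a < k, ∃ s ≤ m, r = [30, a, s] := by
  unfold powProg
  rw [mem_wr_range]
  refine exists_congr fun a => and_congr_right fun ha => ?_
  rw [wr_cons, map_range_eq]
  simp only [Set.mem_union, Set.mem_singleton_iff, mem_wr_range]
  constructor
  · rintro (h | ⟨s, hs, h⟩)
    · exact ⟨0, by omega, h⟩
    · refine ⟨s + 1, by omega, ?_⟩
      simpa [mem_wr, eq_comm] using h
  · rintro ⟨s, hs, h⟩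
    rcases s with _ | s
    · exact Or.inl h
    · exact Or.inr ⟨s, by omega, by simpa [mem_wr, eq_comm] using h⟩

theorem ord_pow (k m : ℕ) (reps : List (ℕ × ℕ)) : Ord baseReg (powProg k m reps) := by
  unfold powProg
  refine ord_range _ _ _ fun a ha => ?_
  set X : Set Reg := {r | ∃ j < a, r ∈ wr ((⟨Op.add, [30, j, 0], [2], [3]⟩ : Instr) ::
    (List.range m).map fun s => (⟨Op.mul, [30, j, s + 1], [30, j, s], thr reps j⟩ : Instr))}
    with hX
  have hX' : ∀ s, ([30, a, s] : Reg) ∉ X := by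
    intro s h
    obtain ⟨j, hj, h⟩ := h
    obtain ⟨I, hI, h⟩ := h
    simp only [List.mem_cons, List.mem_map, List.mem_range] at hI
    rcases hI with rfl | ⟨t, ht, rfl⟩
    · simp at h; omega
    · simp at h; omega
  have hb : ∀ s, ([30, a, s] : Reg) ∉ baseReg := by intro s; simp [baseReg]
  rw [ord_cons]
  refine ⟨Or.inl b2, Or.inl b3, ?_, ?_⟩
  · rintro (h | h)
    · exact hb _ h
    · exact hX' _ h
  · rw [map_range_eq]
    refine ord_range _ _ _ fun s hs => ?_
    rw [ord_cons]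
    refine ⟨?_, Or.inl (Or.inl (Or.inl (thr_base reps a))), ?_, trivial⟩
    · rcases s with _ | s
      · exact Or.inl (Or.inr rfl)
      · exact Or.inr ⟨s, by omega, by simp [mem_wr]⟩
    · rintro (((h | h) | h) | h)
      · exact hb _ h
      · exact hX' _ h
      · simp at h
      · obtain ⟨j, hj, h⟩ := h
        simp [mem_wr] at h
        omega

/-! ### Monomials -/

theorem exps_len (m j : ℕ) : (exps m j).length = (m + 1) ^ j := by
  induction j with
  | zero => rfl
  | succ j ih =>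
    unfold exps
    rw [List.length_flatMap]
    simp only [List.length_map, ih]
    simp [pow_succ, mul_comm]

theorem exps_le (m j : ℕ) : ∀ e ∈ exps m j, ∀ i, e.getD i 0 ≤ m := by
  induction j with
  | zero =>
    intro e he i
    simp [exps] at he
    subst he
    simp
  | succ j ih =>
    intro e he i
    simp only [exps, List.mem_flatMap, List.mem_range, List.mem_map] at he
    obtain ⟨d, hd, e', he', rfl⟩ := he
    rcases i with _ | i
    · simp; omega
    · simpa using ih e' he' i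

theorem exps_getD_le (m j l i : ℕ) : ((exps m j).getD l []).getD i 0 ≤ m := by
  by_cases h : l < (exps m j).length
  · rw [List.getD_eq_getElem _ _ h]
    exact exps_le m j _ (List.getElem_mem h) i
  · rw [List.getD_eq_default (exps m j) [] (by omega)]
    simp

/-- a block of the program of the monomials -/
def blk (k m l : ℕ) : List Instr :=
  (⟨Op.add, [31, l, 0], breg (((exps m (k + 1)).getD l []).getD 0 0), [3]⟩ : Instr) ::
    (List.range k).map fun r =>
      (⟨Op.mul, [31, l, r + 1], [31, l, r],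
        [30, r, ((exps m (k + 1)).getD l []).getD (r + 1) 0]⟩ : Instr)

theorem mon_eq (k m : ℕ) : monProg k m = (List.range (cN k m)).flatMap (blk k m) := by
  unfold monProg
  rw [zipIdx_eq _ [], exps_len]
  rfl

theorem wr_blk (k m l : ℕ) (r : Reg) : r ∈ wr (blk k m l) ↔ ∃ s ≤ k, r = [31, l, s] := by
  unfold blk
  rw [wr_cons, map_range_eq]
  simp only [Set.mem_union, Set.mem_singleton_iff, mem_wr_range]
  constructor
  · rintro (h | ⟨s, hs, h⟩)
    · exact ⟨0, by omega, h⟩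
    · refine ⟨s + 1, by omega, ?_⟩
      simpa [mem_wr, eq_comm] using h
  · rintro ⟨s, hs, h⟩
    rcases s with _ | s
    · exact Or.inl h
    · exact Or.inr ⟨s, by omega, by simpa [mem_wr, eq_comm] using h⟩

theorem ord_mon (k m : ℕ) (S : Set Reg) (hb : baseReg ⊆ S) (h30 : ∀ a < k, ∀ s ≤ m, [30, a, s] ∈ S)
    (hS : ∀ l s, ([31, l, s] : Reg) ∉ S) : Ord S (monProg k m) := by
  rw [mon_eq]
  refine ord_range _ _ _ fun l hl => ?_
  have hX : ∀ s, ([31, l, s] : Reg) ∉ {r | ∃ j < l, r ∈ wr (blk k m j)} := by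
    intro s h
    obtain ⟨j, hj, h⟩ := h
    rw [wr_blk] at h
    obtain ⟨t, ht, h⟩ := h
    simp at h
    omega
  unfold blk
  rw [ord_cons]
  refine ⟨Or.inl (hb (breg_base _)), Or.inl (hb b3), ?_, ?_⟩
  · rintro (h | h)
    · exact hS _ _ h
    · exact hX _ h
  · rw [map_range_eq]
    refine ord_range _ _ _ fun s hs => ?_
    rw [ord_cons]
    refine ⟨?_, Or.inl (Or.inl (Or.inl (h30 s hs _ (exps_getD_le _ _ _ _)))), ?_, trivial⟩
    · rcases s with _ | s
      · exact Or.inl (Or.inr rfl)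
      · exact Or.inr ⟨s, by omega, by simp [mem_wr]⟩
    · rintro (((h | h) | h) | h)
      · exact hS _ _ h
      · exact hX _ h
      · simp at h
      · obtain ⟨j, hj, h⟩ := h
        simp [mem_wr] at h
        omega

/-! ### Forms -/

/-- the part of `mulProg` for the bits -/
def mb (k c l : ℕ) (a : ℤ) (t : ℕ) : List Instr :=
  [(⟨Op.add, [34, c, l, t], [33, c, l, t], [33, c, l, t]⟩ : Instr),
    ⟨Op.add, [33, c, l, t + 1], [34, c, l, t],
      if a.natAbs.bits.reverse.getD t false then [31, l, k] else [3]⟩]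

theorem mul_eq (k c l : ℕ) (a : ℤ) : mulProg k c l a =
    (⟨Op.add, [33, c, l, 0], [3], [3]⟩ : Instr) ::
      (List.range a.natAbs.bits.length).flatMap (mb k c l a) := by
  unfold mulProg
  rw [zipIdx_eq _ false, List.length_reverse]
  rfl

theorem wr_mb (k c l : ℕ) (a : ℤ) (t : ℕ) (r : Reg) :
    r ∈ wr (mb k c l a t) ↔ r = [34, c, l, t] ∨ r = [33, c, l, t + 1] := by
  unfold mb
  rw [wr_cons, wr_cons, wr_nil]
  simp [or_comm]

theorem wr_mul (k c l : ℕ) (a : ℤ) (r : Reg) : r ∈ wr (mulProg k c l a) ↔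
    (∃ t ≤ a.natAbs.bits.length, r = [33, c, l, t]) ∨
      ∃ t < a.natAbs.bits.length, r = [34, c, l, t] := by
  rw [mul_eq, wr_cons]
  simp only [Set.mem_union, Set.mem_singleton_iff, mem_wr_range, wr_mb]
  constructor
  · rintro (h | ⟨t, ht, h | h⟩)
    · exact Or.inl ⟨0, by omega, h⟩
    · exact Or.inr ⟨t, ht, h⟩
    · exact Or.inl ⟨t + 1, by omega, h⟩
  · rintro (⟨t, ht, h⟩ | ⟨t, ht, h⟩)
    · rcases t with _ | t
      · exact Or.inl h
      · exact Or.inr ⟨t, by omega, Or.inr h⟩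
    · exact Or.inr ⟨t, ht, Or.inl h⟩

theorem ord_mul (k c l : ℕ) (a : ℤ) (S : Set Reg) (hb : baseReg ⊆ S) (h31 : [31, l, k] ∈ S)
    (h33 : ∀ t, ([33, c, l, t] : Reg) ∉ S) (h34 : ∀ t, ([34, c, l, t] : Reg) ∉ S) :
    Ord S (mulProg k c l a) := by
  rw [mul_eq, ord_cons]
  refine ⟨hb b3, hb b3, h33 0, ?_⟩
  refine ord_range _ _ _ fun t ht => ?_
  have hX3 : ([33, c, l, t + 1] : Reg) ∉ {r | ∃ j < t, r ∈ wr (mb k c l a j)} := by
    rintro ⟨j, hj, h⟩
    rw [wr_mb] at h
    simp at h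
    omega
  have hX4 : ([34, c, l, t] : Reg) ∉ {r | ∃ j < t, r ∈ wr (mb k c l a j)} := by
    rintro ⟨j, hj, h⟩
    rw [wr_mb] at h
    simp at h
    omega
  have hr : ([33, c, l, t] : Reg) ∈ S ∪ {([33, c, l, 0] : Reg)} ∪
      {r | ∃ j < t, r ∈ wr (mb k c l a j)} := by
    rcases t with _ | t
    · exact Or.inl (Or.inr rfl)
    · exact Or.inr ⟨t, by omega, by rw [wr_mb]; exact Or.inr rfl⟩
  unfold mb
  rw [ord_cons, ord_cons]
  refine ⟨hr, hr, ?_, Or.inr rfl, ?_, ?_, trivial⟩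
  · rintro ((h | h) | h)
    · exact h34 _ h
    · simp at h
    · exact hX4 h
  · left; left; left
    split_ifs
    · exact h31
    · exact hb b3
  · rintro (((h | h) | h) | h)
    · exact h33 _ h
    · simp at h
    · exact hX3 h
    · simp at h

/-- a block of `formProg` -/
def fb (k c : ℕ) (C : List ℤ) (l : ℕ) : List Instr :=
  mulProg k c l (C.getD l 0) ++
      [if C.getD l 0 < 0 then
        (⟨Op.sub, [32, c, l + 1], [32, c, l],
          [33, c, l, (C.getD l 0).natAbs.bits.length]⟩ : Instr)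
      else ⟨Op.add, [32, c, l + 1], [32, c, l], [33, c, l, (C.getD l 0).natAbs.bits.length]⟩]

theorem form_eq (k N c : ℕ) (C : List ℤ) : formProg k N c C =
    (⟨Op.add, [32, c, 0], [3], [3]⟩ : Instr) :: (List.range N).flatMap (fb k c C) := rfl

theorem wr_fb (k c : ℕ) (C : List ℤ) (l : ℕ) (r : Reg) : r ∈ wr (fb k c C l) ↔
    r ∈ wr (mulProg k c l (C.getD l 0)) ∨ r = [32, c, l + 1] := by
  unfold fb
  rw [wr_append, wr_cons, wr_nil]
  split_ifs <;> simp [or_comm]

theorem wr_form_sub (k N c : ℕ) (C : List ℤ) (r : Reg) (hr : r ∈ wr (formProg k N c C)) :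
    ∃ t, r = 32 :: c :: t ∨ r = 33 :: c :: t ∨ r = 34 :: c :: t := by
  rw [form_eq, wr_cons] at hr
  simp only [Set.mem_union, Set.mem_singleton_iff, mem_wr_range, wr_fb, wr_mul] at hr
  rcases hr with h | ⟨l, hl, (⟨t, ht, h⟩ | ⟨t, ht, h⟩) | h⟩
  · exact ⟨[0], Or.inl h⟩
  · exact ⟨[l, t], Or.inr (Or.inl h)⟩
  · exact ⟨[l, t], Or.inr (Or.inr h)⟩
  · exact ⟨[l + 1], Or.inl h⟩

theorem wr_form_res (k N c : ℕ) (C : List ℤ) : [32, c, N] ∈ wr (formProg k N c C) := by
  rw [form_eq, wr_cons]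
  simp only [Set.mem_union, Set.mem_singleton_iff, mem_wr_range, wr_fb]
  rcases N with _ | N
  · exact Or.inl rfl
  · exact Or.inr ⟨N, by omega, Or.inr rfl⟩

theorem ord_form (k N c : ℕ) (C : List ℤ) (S : Set Reg) (hb : baseReg ⊆ S)
    (h31 : ∀ l < N, [31, l, k] ∈ S)
    (hS : ∀ r ∈ S, ∀ t, r ≠ 32 :: c :: t ∧ r ≠ 33 :: c :: t ∧ r ≠ 34 :: c :: t) :
    Ord S (formProg k N c C) := by
  have h32' : ∀ t, (32 :: c :: t : Reg) ∉ S := fun t h => (hS _ h t).1 rfl
  have h33' : ∀ t, (33 :: c :: t : Reg) ∉ S := fun t h => (hS _ h t).2.1 rfl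
  have h34' : ∀ t, (34 :: c :: t : Reg) ∉ S := fun t h => (hS _ h t).2.2 rfl
  rw [form_eq, ord_cons]
  refine ⟨hb b3, hb b3, h32' _, ?_⟩
  refine ord_range _ _ _ fun l hl => ?_
  set X : Set Reg := {r | ∃ j < l, r ∈ wr (fb k c C j)} with hX
  have hX3 : ∀ t, ([33, c, l, t] : Reg) ∉ X := by
    rintro t ⟨j, hj, h⟩
    rw [wr_fb, wr_mul] at h
    simp at h
    omega
  have hX4 : ∀ t, ([34, c, l, t] : Reg) ∉ X := by
    rintro t ⟨j, hj, h⟩
    rw [wr_fb, wr_mul] at h
    simp at h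
    omega
  have hX2 : ([32, c, l + 1] : Reg) ∉ X := by
    rintro ⟨j, hj, h⟩
    rw [wr_fb, wr_mul] at h
    simp at h
    omega
  have hr : ([32, c, l] : Reg) ∈ S ∪ {([32, c, 0] : Reg)} ∪ X := by
    rcases l with _ | l
    · exact Or.inl (Or.inr rfl)
    · exact Or.inr ⟨l, by omega, by rw [wr_fb]; exact Or.inr rfl⟩
  unfold fb
  rw [ord_append]
  refine ⟨?_, ?_⟩
  · refine ord_mul k c l _ _ (fun r hr => Or.inl (Or.inl (hb hr))) (Or.inl (Or.inl (h31 l hl)))
      ?_ ?_
    · rintro t ((h | h) | h)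
      · exact h33' _ h
      · simp at h
      · exact hX3 t h
    · rintro t ((h | h) | h)
      · exact h34' _ h
      · simp at h
      · exact hX4 t h
  · have hm : ([33, c, l, (C.getD l 0).natAbs.bits.length] : Reg) ∈
        wr (mulProg k c l (C.getD l 0)) := by
      rw [wr_mul]
      exact Or.inl ⟨_, le_rfl, rfl⟩
    have hd : ([32, c, l + 1] : Reg) ∉ S ∪ {([32, c, 0] : Reg)} ∪ X ∪
        wr (mulProg k c l (C.getD l 0)) := by
      rintro (((h | h) | h) | h)
      · exact h32' _ h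
      · simp at h
      · exact hX2 h
      · rw [wr_mul] at h
        simp at h
    rw [ord_cons]
    split_ifs
    · exact ⟨Or.inl hr, Or.inr hm, hd, trivial⟩
    · exact ⟨Or.inl hr, Or.inr hm, hd, trivial⟩

/-! ### Ratios -/

/-- a block of `ratProg` -/
def rb (k N : ℕ) (L : List (List ℤ × List ℤ)) (j : ℕ) : List Instr :=
  formProg k N (2 * j) (L.getD j ([], [])).1 ++
    (formProg k N (2 * j + 1) (L.getD j ([], [])).2 ++
      [(⟨Op.div, [35, j], [32, 2 * j, N], [32, 2 * j + 1, N]⟩ : Instr)])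

theorem rat_eq (k N : ℕ) (L : List (List ℤ × List ℤ)) :
    ratProg k N L = (List.range L.length).flatMap (rb k N L) := by
  unfold ratProg
  rw [zipIdx_eq _ ([], [])]
  rfl

theorem wr_rb (k N : ℕ) (L : List (List ℤ × List ℤ)) (j : ℕ) (r : Reg)
    (h : r ∈ wr (rb k N L j)) : (∃ c t, (c = 2 * j ∨ c = 2 * j + 1) ∧
      (r = 32 :: c :: t ∨ r = 33 :: c :: t ∨ r = 34 :: c :: t)) ∨ r = [35, j] := by
  unfold rb at h
  rw [wr_append, wr_append, wr_cons, wr_nil] at h
  simp only [Set.mem_union, Set.mem_singleton_iff, Set.mem_empty_iff_false, or_false] at h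
  rcases h with h | h | h
  · obtain ⟨t, ht⟩ := wr_form_sub _ _ _ _ _ h
    exact Or.inl ⟨_, t, Or.inl rfl, ht⟩
  · obtain ⟨t, ht⟩ := wr_form_sub _ _ _ _ _ h
    exact Or.inl ⟨_, t, Or.inr rfl, ht⟩
  · exact Or.inr h

theorem ord_rat (k N : ℕ) (L : List (List ℤ × List ℤ)) (S : Set Reg) (hb : baseReg ⊆ S)
    (h31 : ∀ l < N, [31, l, k] ∈ S) (hS : ∀ r ∈ S, r.headD 0 < 32 ∨ 35 < r.headD 0) :
    Ord S (ratProg k N L) := by
  rw [rat_eq]
  refine ord_range _ _ _ fun j hj => ?_
  set X : Set Reg := {r | ∃ i < j, r ∈ wr (rb k N L i)} with hX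
  have hXc : ∀ r ∈ X, ∀ c t, (c = 2 * j ∨ c = 2 * j + 1) →
      r ≠ 32 :: c :: t ∧ r ≠ 33 :: c :: t ∧ r ≠ 34 :: c :: t := by
    rintro r ⟨i, hi, h⟩ c t hc
    rcases wr_rb k N L i r h with ⟨c', t', hc', h | h | h⟩ | h
    all_goals
      subst h
      refine ⟨?_, ?_, ?_⟩ <;> intro h' <;> simp at h' <;> omega
  have hX5 : ([35, j] : Reg) ∉ X := by
    rintro ⟨i, hi, h⟩
    rcases wr_rb k N L i _ h with ⟨c', t', hc', h | h | h⟩ | h <;> simp at h
    omega
  have hSc : ∀ r ∈ S, ∀ c t, r ≠ 32 :: c :: t ∧ r ≠ 33 :: c :: t ∧ r ≠ 34 :: c :: t := by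
    intro r hr c t
    have h := hS r hr
    refine ⟨?_, ?_, ?_⟩ <;> rintro rfl <;> simp at h
  unfold rb
  rw [ord_append, ord_append, ord_cons]
  refine ⟨?_, ?_, ?_, ?_, ?_, trivial⟩
  · refine ord_form _ _ _ _ _ (fun r hr => Or.inl (hb hr)) (fun l hl => Or.inl (h31 l hl)) ?_
    rintro r (h | h) t
    · exact hSc r h _ t
    · exact hXc r h _ t (Or.inl rfl)
  · refine ord_form _ _ _ _ _ (fun r hr => Or.inl (Or.inl (hb hr)))
      (fun l hl => Or.inl (Or.inl (h31 l hl))) ?_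
    rintro r ((h | h) | h) t
    · exact hSc r h _ t
    · exact hXc r h _ t (Or.inr rfl)
    · obtain ⟨t', ht'⟩ := wr_form_sub _ _ _ _ _ h
      rcases ht' with rfl | rfl | rfl <;> refine ⟨?_, ?_, ?_⟩ <;> intro h' <;> simp at h'
  · exact Or.inl (Or.inr (wr_form_res _ _ _ _))
  · exact Or.inr (wr_form_res _ _ _ _)
  · rintro (((h | h) | h) | h)
    · have := hS _ h
      simp at this
    · exact hX5 h
    · obtain ⟨t', ht'⟩ := wr_form_sub _ _ _ _ _ h
      simp at ht'
    · obtain ⟨t', ht'⟩ := wr_form_sub _ _ _ _ _ h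
      simp at ht'

end TORD1

open TORD1 in
theorem t_ORD1 : S_ORD1 := by
  refine ⟨ord_append, ?_, ?_, ?_⟩
  · intro k m reps
    refine ⟨?_, ?_, ?_⟩
    · unfold baseProg
      rw [ord_append]
      refine ⟨ord_pow k m reps, ord_mon k m _ (fun r hr => Or.inl hr) ?_ ?_⟩
      · intro a ha s hs
        exact Or.inr ((wr_pow k m reps _).2 ⟨a, ha, s, hs, rfl⟩)
      · rintro l s (h | h)
        · simp [baseReg] at h
        · rw [wr_pow] at h
          obtain ⟨a, -, t, -, h⟩ := h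
          simp at h
    · intro r hr
      unfold baseProg at hr
      rw [wr_append] at hr
      rcases hr with h | h
      · rw [wr_pow] at h
        obtain ⟨a, -, t, -, rfl⟩ := h
        exact Or.inl rfl
      · rw [mon_eq, mem_wr_range] at h
        obtain ⟨l, -, h⟩ := h
        rw [wr_blk] at h
        obtain ⟨t, -, rfl⟩ := h
        exact Or.inr rfl
    · intro l hl
      unfold baseProg
      rw [wr_append, mon_eq]
      right
      rw [mem_wr_range]
      exact ⟨l, hl, (wr_blk _ _ _ _).2 ⟨k, le_rfl, rfl⟩⟩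
  · intro k N c C S hb h31 hS
    exact ⟨ord_form k N c C S hb h31 hS, wr_form_sub k N c C, wr_form_res k N c C⟩
  · intro k N L S hb h31 hS
    refine ⟨ord_rat k N L S hb h31 hS, ?_, ?_⟩
    · intro r hr
      rw [rat_eq, mem_wr_range] at hr
      obtain ⟨j, -, hr⟩ := hr
      rcases wr_rb k N L j r hr with ⟨c, t, -, rfl | rfl | rfl⟩ | rfl <;> simp
    · intro j hj
      rw [rat_eq, mem_wr_range]
      refine ⟨j, hj, ?_⟩
      unfold rb
      rw [wr_append, wr_append, wr_cons]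
      exact Or.inr (Or.inr (Or.inl rfl))

end Pool.Agent.W920.FC
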