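import Pool.Agent.W920.FC.Stm

set_option autoImplicit false
set_option linter.unusedSimpArgs false

/-!
# ORD2A: order of the programs for the Gram matrix and for the scalar products (helper756)
-/

namespace Pool.Agent.W920.FC

open Pool.Agent.NPC Pool.Agent.H558R2 Pool.Agent.H622R3.SM

namespace TORD2A

theorem ord_of_sorted (key : Reg → List ℕ) (P : List Instr) : ∀ (S : Set Reg),
    P.Pairwise (fun I J => key I.dst < key J.dst) → (∀ I ∈ P, I.dst ∉ S) →
    (∀ I ∈ P, ∀ r, (r = I.fst ∨ r = I.snd) → r ∈ S ∨ ∃ J ∈ P, J.dst = r ∧ key r < key I.dst) →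
    Ord S P := by
  induction P with
  | nil => exact fun _ _ _ _ => trivial
  | cons I P ih =>
    intro S h1 h2 h3
    rw [List.pairwise_cons] at h1
    have hop : ∀ r, (r = I.fst ∨ r = I.snd) → r ∈ S := by
      intro r hr
      rcases h3 I List.mem_cons_self r hr with h | ⟨J, hJ, hJr, hlt⟩
      · exact h
      · exfalso
        rcases List.mem_cons.1 hJ with rfl | hJ
        · rw [hJr] at hlt
          exact lt_irrefl _ hlt
        · have := h1.1 J hJ
          rw [hJr] at this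
          exact lt_irrefl _ (this.trans hlt)
    refine ⟨hop _ (Or.inl rfl), hop _ (Or.inr rfl), h2 I List.mem_cons_self,
      ih _ h1.2 (fun J hJ => ?_) (fun J hJ r hr => ?_)⟩
    · rintro (h | h)
      · have := h1.1 J hJ
        rw [h] at this
        exact lt_irrefl _ this
      · exact h2 J (List.mem_cons_of_mem _ hJ) h
    · rcases h3 J (List.mem_cons_of_mem _ hJ) r hr with h | ⟨J', hJ', hJr, hlt⟩
      · exact Or.inl (Or.inr h)
      · rcases List.mem_cons.1 hJ' with rfl | hJ'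
        · exact Or.inl (Or.inl hJr.symm)
        · exact Or.inr ⟨J', hJ', hJr, hlt⟩

theorem pwF (R : Instr → Instr → Prop) (m : ℕ) (f : ℕ → List Instr)
    (h1 : ∀ a < m, (f a).Pairwise R)
    (h2 : ∀ a b, a < b → b < m → ∀ x ∈ f a, ∀ y ∈ f b, R x y) :
    ((List.range m).flatMap f).Pairwise R := by
  rw [List.pairwise_flatMap]
  refine ⟨fun a ha => h1 a (List.mem_range.1 ha), ?_⟩
  exact List.Pairwise.imp_of_mem (fun {a b} _ hb hab => h2 a b hab (List.mem_range.1 hb))
    List.pairwise_lt_range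

theorem pwM (R : Instr → Instr → Prop) (m : ℕ) (f : ℕ → Instr)
    (h2 : ∀ a b, a < b → b < m → R (f a) (f b)) : ((List.range m).map f).Pairwise R := by
  rw [List.pairwise_map]
  exact List.Pairwise.imp_of_mem (fun {a b} _ hb hab => h2 a b hab (List.mem_range.1 hb))
    List.pairwise_lt_range

theorem base2 : ([2] : Reg) ∈ baseReg := by
  show (2 : ℕ) < 4
  norm_num

theorem base3 : ([3] : Reg) ∈ baseReg := by
  show (3 : ℕ) < 4
  norm_num

theorem base0 (i j : ℕ) : ([0, i, j] : Reg) ∈ baseReg := by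
  show (0 : ℕ) < 4
  norm_num

theorem base1 (i : ℕ) : ([1, i] : Reg) ∈ baseReg := by
  show (1 : ℕ) < 4
  norm_num

/-! ### the matrix and the Gram matrix -/

/-- the time when a register is written -/
def key : Reg → List ℕ
  | [36, i, j] => [0, i, j, 0]
  | [37, i, j] => [0, i, j, 1]
  | [39, j, l, 0] => [1, j, l, 0, 0, 0]
  | [38, j, l, i] => [1, j, l, 1, i, 0]
  | [39, j, l, i + 1] => [1, j, l, 1, i, 1]
  | [4, j, l] => [1, j, l, 2, 0, 0]
  | _ => []

theorem key36 (i j : ℕ) : key [36, i, j] = [0, i, j, 0] := rfl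
theorem key37 (i j : ℕ) : key [37, i, j] = [0, i, j, 1] := rfl
theorem key390 (j l : ℕ) : key [39, j, l, 0] = [1, j, l, 0, 0, 0] := rfl
theorem key38 (j l i : ℕ) : key [38, j, l, i] = [1, j, l, 1, i, 0] := rfl
theorem key39 (j l i : ℕ) : key [39, j, l, i + 1] = [1, j, l, 1, i, 1] := rfl
theorem key4 (j l : ℕ) : key [4, j, l] = [1, j, l, 2, 0, 0] := rfl

/-- comparison of the times -/
def LT (I J : Instr) : Prop := key I.dst < key J.dst

theorem ent_dst (m n i j : ℕ) : (entProg m n i j).dst = [36, i, j] := by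
  unfold entProg
  split_ifs <;> rfl

theorem ent_ops (m n i j : ℕ) :
    (entProg m n i j).fst ∈ baseReg ∧ (entProg m n i j).snd ∈ baseReg := by
  unfold entProg
  split_ifs
  · exact ⟨base2, base3⟩
  · exact ⟨base3, base3⟩
  · exact ⟨base3, base0 _ _⟩
  · exact ⟨base0 _ _, base3⟩
  · exact ⟨base1 _, base3⟩

theorem mem_mat {m n : ℕ} {I : Instr} (hI : I ∈ matProg m n) : ∃ i j, i < m ∧ j < cK m n ∧
    (I = entProg m n i j ∨ I = ⟨Op.mul, [37, i, j], [36, i, j], [35, j]⟩) := by
  simp only [matProg, List.mem_flatMap, List.mem_range, List.mem_cons, List.not_mem_nil,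
    or_false] at hI
  obtain ⟨i, hi, j, hj, h⟩ := hI
  exact ⟨i, j, hi, hj, h⟩

theorem mem_gram {m n : ℕ} {drop : List Bool} {I : Instr} (hI : I ∈ gramProg m n drop) :
    ∃ j l, j < cK m n ∧ l < cK m n ∧
    (I = ⟨Op.add, [39, j, l, 0], [3], [3]⟩ ∨
      (∃ i, i < m ∧ (I = ⟨Op.mul, [38, j, l, i], [37, i, j], [37, i, l]⟩ ∨
        I = ⟨Op.add, [39, j, l, i + 1], [39, j, l, i], [38, j, l, i]⟩)) ∨
      I = ⟨Op.add, [4, j, l], [39, j, l, m],
        if decide (j = l) && drop.getD j false then [2] else [3]⟩) := by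
  simp only [gramProg, List.mem_flatMap, List.mem_range, List.mem_cons, List.not_mem_nil,
    or_false, List.mem_append] at hI
  obtain ⟨j, hj, l, hl, h⟩ := hI
  refine ⟨j, l, hj, hl, ?_⟩
  rcases h with (h | ⟨i, hi, h⟩) | h
  · exact Or.inl h
  · exact Or.inr (Or.inl ⟨i, hi, h⟩)
  · exact Or.inr (Or.inr h)

theorem pw_mat (m n : ℕ) : (matProg m n).Pairwise LT := by
  refine pwF LT m _ (fun i hi => pwF LT _ _ (fun j hj => ?_) fun j j' hjj hj' x hx y hy => ?_)
    fun i i' hii hi' x hx y hy => ?_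
  · simp only [List.pairwise_cons, List.mem_cons, List.not_mem_nil, or_false, forall_eq,
      List.Pairwise.nil, and_true, implies_true, IsEmpty.forall_iff]
    (simp only [LT, ent_dst, key36, key37, key390, key38, key39, key4]; simp [List.cons_lt_cons_iff] <;> omega)
  · simp only [List.mem_cons, List.not_mem_nil, or_false] at hx hy
    rcases hx with rfl | rfl <;> rcases hy with rfl | rfl <;>
      (simp only [LT, ent_dst, key36, key37, key390, key38, key39, key4]; simp [List.cons_lt_cons_iff] <;> omega)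
  · simp only [List.mem_flatMap, List.mem_range, List.mem_cons, List.not_mem_nil,
      or_false] at hx hy
    obtain ⟨j, hj, rfl | rfl⟩ := hx <;> obtain ⟨j', hj', rfl | rfl⟩ := hy <;>
      (simp only [LT, ent_dst, key36, key37, key390, key38, key39, key4]; simp [List.cons_lt_cons_iff] <;> omega)

/-- the block of an entry of the Gram matrix -/
def blk (m : ℕ) (drop : List Bool) (j l : ℕ) : List Instr :=
  ((⟨Op.add, [39, j, l, 0], [3], [3]⟩ : Instr) :: (List.range m).flatMap fun i =>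
      [(⟨Op.mul, [38, j, l, i], [37, i, j], [37, i, l]⟩ : Instr),
        ⟨Op.add, [39, j, l, i + 1], [39, j, l, i], [38, j, l, i]⟩]) ++
      [(⟨Op.add, [4, j, l], [39, j, l, m],
        if decide (j = l) && drop.getD j false then [2] else [3]⟩ : Instr)]

theorem gram_eq (m n : ℕ) (drop : List Bool) : gramProg m n drop =
    (List.range (cK m n)).flatMap fun j => (List.range (cK m n)).flatMap fun l =>
      blk m drop j l := rfl

theorem mem_blk {m : ℕ} {drop : List Bool} {j l : ℕ} {I : Instr} (hI : I ∈ blk m drop j l) :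
    I = ⟨Op.add, [39, j, l, 0], [3], [3]⟩ ∨
      (∃ i, i < m ∧ (I = ⟨Op.mul, [38, j, l, i], [37, i, j], [37, i, l]⟩ ∨
        I = ⟨Op.add, [39, j, l, i + 1], [39, j, l, i], [38, j, l, i]⟩)) ∨
      I = ⟨Op.add, [4, j, l], [39, j, l, m],
        if decide (j = l) && drop.getD j false then [2] else [3]⟩ := by
  simp only [blk, List.mem_flatMap, List.mem_range, List.mem_cons, List.not_mem_nil,
    or_false, List.mem_append] at hI
  rcases hI with (h | ⟨i, hi, h⟩) | h
  · exact Or.inl h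
  · exact Or.inr (Or.inl ⟨i, hi, h⟩)
  · exact Or.inr (Or.inr h)

theorem pw_blk (m : ℕ) (drop : List Bool) (j l : ℕ) : (blk m drop j l).Pairwise LT := by
  unfold blk
  rw [List.pairwise_append, List.pairwise_cons]
  refine ⟨⟨fun x hx => ?_, pwF LT m _ (fun i hi => ?_) fun i i' hii hi' x hx y hy => ?_⟩,
    List.pairwise_singleton _ _, fun x hx y hy => ?_⟩
  · simp only [List.mem_flatMap, List.mem_cons, List.mem_range, List.not_mem_nil,
      or_false] at hx
    obtain ⟨i, hi, rfl | rfl⟩ := hx <;>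
      (simp only [LT, ent_dst, key36, key37, key390, key38, key39, key4]; simp [List.cons_lt_cons_iff] <;> omega)
  · simp only [List.pairwise_cons, List.mem_cons, List.not_mem_nil, or_false, forall_eq,
      List.Pairwise.nil, and_true, implies_true, IsEmpty.forall_iff]
    (simp only [LT, ent_dst, key36, key37, key390, key38, key39, key4]; simp [List.cons_lt_cons_iff] <;> omega)
  · simp only [List.mem_cons, List.not_mem_nil, or_false] at hx hy
    rcases hx with rfl | rfl <;> rcases hy with rfl | rfl <;>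
      (simp only [LT, ent_dst, key36, key37, key390, key38, key39, key4]; simp [List.cons_lt_cons_iff] <;> omega)
  · rw [List.mem_singleton] at hy
    subst hy
    simp only [List.mem_flatMap, List.mem_cons, List.mem_range, List.not_mem_nil,
      or_false] at hx
    rcases hx with rfl | ⟨i, hi, rfl | rfl⟩ <;>
      (simp only [LT, ent_dst, key36, key37, key390, key38, key39, key4]; simp [List.cons_lt_cons_iff] <;> omega)

theorem key_blk {m : ℕ} {drop : List Bool} {j l : ℕ} {I : Instr} (hI : I ∈ blk m drop j l) :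
    ∃ t : List ℕ, key I.dst = 1 :: j :: l :: t := by
  rcases mem_blk hI with rfl | ⟨i, hi, rfl | rfl⟩ | rfl
  · exact ⟨_, key390 _ _⟩
  · exact ⟨_, key38 _ _ _⟩
  · exact ⟨_, key39 _ _ _⟩
  · exact ⟨_, key4 _ _⟩

theorem pw_gram (m n : ℕ) (drop : List Bool) : (gramProg m n drop).Pairwise LT := by
  rw [gram_eq]
  refine pwF LT _ _ (fun j hj => pwF LT _ _ (fun l hl => pw_blk m drop j l)
    fun l l' hll hl' x hx y hy => ?_) fun j j' hjj hj' x hx y hy => ?_
  · obtain ⟨t, ht⟩ := key_blk hx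
    obtain ⟨t', ht'⟩ := key_blk hy
    unfold LT
    rw [ht, ht']
    simp [List.cons_lt_cons_iff]
    omega
  · simp only [List.mem_flatMap, List.mem_range] at hx hy
    obtain ⟨l, hl, hx⟩ := hx
    obtain ⟨l', hl', hy⟩ := hy
    obtain ⟨t, ht⟩ := key_blk hx
    obtain ⟨t', ht'⟩ := key_blk hy
    unfold LT
    rw [ht, ht']
    simp [List.cons_lt_cons_iff]
    omega

theorem pw_all (m n : ℕ) (drop : List Bool) :
    (matProg m n ++ gramProg m n drop).Pairwise LT := by
  rw [List.pairwise_append]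
  refine ⟨pw_mat m n, pw_gram m n drop, fun x hx y hy => ?_⟩
  rw [gram_eq] at hy
  simp only [List.mem_flatMap, List.mem_range] at hy
  obtain ⟨j', hj', l', hl', hy⟩ := hy
  obtain ⟨t', ht'⟩ := key_blk hy
  obtain ⟨i, j, hi, hj, rfl | rfl⟩ := mem_mat hx
  · unfold LT
    rw [ent_dst, key36, ht']
    simp [List.cons_lt_cons_iff]
  · unfold LT
    rw [ht']
    simp [List.cons_lt_cons_iff, key37]

theorem t36 (m n : ℕ) (drop : List Bool) (i j : ℕ) (hi : i < m) (hj : j < cK m n) :
    ∃ J ∈ matProg m n ++ gramProg m n drop, J.dst = [36, i, j] := by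
  refine ⟨entProg m n i j, List.mem_append_left _ ?_, ent_dst _ _ _ _⟩
  exact List.mem_flatMap.2 ⟨i, List.mem_range.2 hi, List.mem_flatMap.2
    ⟨j, List.mem_range.2 hj, List.mem_cons_self⟩⟩

theorem t37 (m n : ℕ) (drop : List Bool) (i j : ℕ) (hi : i < m) (hj : j < cK m n) :
    ∃ J ∈ matProg m n ++ gramProg m n drop, J.dst = [37, i, j] := by
  refine ⟨⟨Op.mul, [37, i, j], [36, i, j], [35, j]⟩, List.mem_append_left _ ?_, rfl⟩
  exact List.mem_flatMap.2 ⟨i, List.mem_range.2 hi, List.mem_flatMap.2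
    ⟨j, List.mem_range.2 hj, List.mem_cons_of_mem _ List.mem_cons_self⟩⟩

theorem tblk (m n : ℕ) (drop : List Bool) (j l : ℕ) (hj : j < cK m n) (hl : l < cK m n)
    {J : Instr} (hJ : J ∈ blk m drop j l) : J ∈ matProg m n ++ gramProg m n drop := by
  refine List.mem_append_right _ ?_
  rw [gram_eq]
  exact List.mem_flatMap.2 ⟨j, List.mem_range.2 hj, List.mem_flatMap.2
    ⟨l, List.mem_range.2 hl, hJ⟩⟩

theorem t38 (m n : ℕ) (drop : List Bool) (j l i : ℕ) (hj : j < cK m n) (hl : l < cK m n)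
    (hi : i < m) : ∃ J ∈ matProg m n ++ gramProg m n drop, J.dst = [38, j, l, i] := by
  refine ⟨⟨Op.mul, [38, j, l, i], [37, i, j], [37, i, l]⟩, tblk m n drop j l hj hl ?_, rfl⟩
  refine List.mem_append_left _ (List.mem_cons_of_mem _ (List.mem_flatMap.2
    ⟨i, List.mem_range.2 hi, List.mem_cons_self⟩))

theorem t39 (m n : ℕ) (drop : List Bool) (j l i : ℕ) (hj : j < cK m n) (hl : l < cK m n)
    (hi : i ≤ m) : ∃ J ∈ matProg m n ++ gramProg m n drop, J.dst = [39, j, l, i] := by
  rcases i with _ | i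
  · exact ⟨⟨Op.add, [39, j, l, 0], [3], [3]⟩, tblk m n drop j l hj hl
      (List.mem_append_left _ List.mem_cons_self), rfl⟩
  · refine ⟨⟨Op.add, [39, j, l, i + 1], [39, j, l, i], [38, j, l, i]⟩,
      tblk m n drop j l hj hl ?_, rfl⟩
    refine List.mem_append_left _ (List.mem_cons_of_mem _ (List.mem_flatMap.2
      ⟨i, List.mem_range.2 hi, List.mem_cons_of_mem _ List.mem_cons_self⟩))

theorem t4 (m n : ℕ) (drop : List Bool) (j l : ℕ) (hj : j < cK m n) (hl : l < cK m n) :
    ∃ J ∈ matProg m n ++ gramProg m n drop, J.dst = [4, j, l] :=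
  ⟨⟨Op.add, [4, j, l], [39, j, l, m],
    if decide (j = l) && drop.getD j false then [2] else [3]⟩, tblk m n drop j l hj hl
      (List.mem_append_right _ (List.mem_singleton.2 rfl)), rfl⟩

theorem mem_all {m n : ℕ} {drop : List Bool} {I : Instr}
    (hI : I ∈ matProg m n ++ gramProg m n drop) :
    (∃ i j, i < m ∧ j < cK m n ∧
      (I = entProg m n i j ∨ I = ⟨Op.mul, [37, i, j], [36, i, j], [35, j]⟩)) ∨
    ∃ j l, j < cK m n ∧ l < cK m n ∧
    (I = ⟨Op.add, [39, j, l, 0], [3], [3]⟩ ∨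
      (∃ i, i < m ∧ (I = ⟨Op.mul, [38, j, l, i], [37, i, j], [37, i, l]⟩ ∨
        I = ⟨Op.add, [39, j, l, i + 1], [39, j, l, i], [38, j, l, i]⟩)) ∨
      I = ⟨Op.add, [4, j, l], [39, j, l, m],
        if decide (j = l) && drop.getD j false then [2] else [3]⟩) := by
  rcases List.mem_append.1 hI with h | h
  · exact Or.inl (mem_mat h)
  · exact Or.inr (mem_gram h)

theorem heads {m n : ℕ} {drop : List Bool} {I : Instr}
    (hI : I ∈ matProg m n ++ gramProg m n drop) :
    I.dst.headD 0 = 4 ∨ (36 ≤ I.dst.headD 0 ∧ I.dst.headD 0 ≤ 39) := by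
  rcases mem_all hI with ⟨i, j, hi, hj, rfl | rfl⟩ |
    ⟨j, l, hj, hl, rfl | ⟨i, hi, rfl | rfl⟩ | rfl⟩
  · rw [ent_dst]
    simp
  all_goals simp

theorem main1 (m n : ℕ) (drop : List Bool) (S : Set Reg) (hS : baseReg ⊆ S)
    (h35 : ∀ j < cK m n, [35, j] ∈ S)
    (hh : ∀ r ∈ S, r.headD 0 ≠ 4 ∧ (r.headD 0 < 36 ∨ 39 < r.headD 0)) :
    Ord S (matProg m n ++ gramProg m n drop) := by
  refine ord_of_sorted key _ S (pw_all m n drop) (fun I hI hIS => ?_) (fun I hI r hr => ?_)
  · have h1 := heads hI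
    have h2 := hh _ hIS
    omega
  · rcases mem_all hI with ⟨i, j, hi, hj, rfl | rfl⟩ |
      ⟨j, l, hj, hl, rfl | ⟨i, hi, rfl | rfl⟩ | rfl⟩
    · rcases hr with rfl | rfl
      · exact Or.inl (hS (ent_ops m n i j).1)
      · exact Or.inl (hS (ent_ops m n i j).2)
    · rcases hr with rfl | rfl
      · obtain ⟨J, hJ, hJr⟩ := t36 m n drop i j hi hj
        exact Or.inr ⟨J, hJ, hJr, by
          (simp only [key36, key37, key390, key38, key39, key4]; simp [List.cons_lt_cons_iff] <;> omega)⟩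
      · exact Or.inl (h35 j hj)
    · rcases hr with rfl | rfl
      · exact Or.inl (hS base3)
      · exact Or.inl (hS base3)
    · rcases hr with rfl | rfl
      · obtain ⟨J, hJ, hJr⟩ := t37 m n drop i j hi hj
        exact Or.inr ⟨J, hJ, hJr, by
          (simp only [key36, key37, key390, key38, key39, key4]; simp [List.cons_lt_cons_iff] <;> omega)⟩
      · obtain ⟨J, hJ, hJr⟩ := t37 m n drop i l hi hl
        exact Or.inr ⟨J, hJ, hJr, by
          (simp only [key36, key37, key390, key38, key39, key4]; simp [List.cons_lt_cons_iff] <;> omega)⟩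
    · rcases hr with rfl | rfl
      · obtain ⟨J, hJ, hJr⟩ := t39 m n drop j l i hj hl hi.le
        refine Or.inr ⟨J, hJ, hJr, ?_⟩
        rcases i with _ | i
        · (simp only [key36, key37, key390, key38, key39, key4]; simp [List.cons_lt_cons_iff] <;> omega)
        · (simp only [key36, key37, key390, key38, key39, key4]; simp [List.cons_lt_cons_iff] <;> omega)
      · obtain ⟨J, hJ, hJr⟩ := t38 m n drop j l i hj hl hi
        exact Or.inr ⟨J, hJ, hJr, by
          (simp only [key36, key37, key390, key38, key39, key4]; simp [List.cons_lt_cons_iff] <;> omega)⟩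
    · rcases hr with rfl | rfl
      · obtain ⟨J, hJ, hJr⟩ := t39 m n drop j l m hj hl le_rfl
        refine Or.inr ⟨J, hJ, hJr, ?_⟩
        rcases m with _ | m
        · (simp only [key36, key37, key390, key38, key39, key4]; simp [List.cons_lt_cons_iff] <;> omega)
        · (simp only [key36, key37, key390, key38, key39, key4]; simp [List.cons_lt_cons_iff] <;> omega)
      · left
        dsimp only
        split_ifs
        · exact hS base2
        · exact hS base3

/-! ### scalar products -/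

/-- the time when a register is written -/
def key' : Reg → List ℕ
  | [40, t] => [0, t, 0]
  | [42, 0] => [1, 0, 0]
  | [41, l] => [1, l + 1, 0]
  | [42, l + 1] => [1, l + 1, 1]
  | _ => []

theorem k40 (t : ℕ) : key' [40, t] = [0, t, 0] := rfl
theorem k420 : key' [42, 0] = [1, 0, 0] := rfl
theorem k41 (l : ℕ) : key' [41, l] = [1, l + 1, 0] := rfl
theorem k42 (l : ℕ) : key' [42, l + 1] = [1, l + 1, 1] := rfl

/-- comparison of the times -/
def LT' (I J : Instr) : Prop := key' I.dst < key' J.dst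

theorem mem_num {T : ℕ} {I : Instr} (hI : I ∈ numProg T) : I = ⟨Op.add, [40, 0], [3], [3]⟩ ∨
    ∃ t, t < T ∧ I = ⟨Op.add, [40, t + 1], [40, t], [2]⟩ := by
  simp only [numProg, List.mem_cons, List.mem_map, List.mem_range] at hI
  rcases hI with rfl | ⟨t, ht, rfl⟩
  · exact Or.inl rfl
  · exact Or.inr ⟨t, ht, rfl⟩

theorem mem_dot {K r j : ℕ} {y : List ℕ} {I : Instr} (hI : I ∈ dotProg K r j y) :
    I = ⟨Op.add, [42, 0], [3], [3]⟩ ∨ ∃ l, l < K ∧
      (I = ⟨Op.mul, [41, l], [6, r, j, l], [40, y.getD l 0]⟩ ∨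
        I = ⟨Op.add, [42, l + 1], [42, l], [41, l]⟩) := by
  simp only [dotProg, List.mem_cons, List.mem_flatMap, List.mem_range, List.not_mem_nil,
    or_false] at hI
  rcases hI with rfl | ⟨l, hl, h⟩
  · exact Or.inl rfl
  · exact Or.inr ⟨l, hl, h⟩

theorem pw_num (T : ℕ) : (numProg T).Pairwise LT' := by
  unfold numProg
  rw [List.pairwise_cons]
  refine ⟨fun x hx => ?_, pwM LT' T _ fun a b hab hb => ?_⟩
  · simp only [List.mem_map, List.mem_range] at hx
    obtain ⟨t, ht, rfl⟩ := hx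
    (simp only [LT', k40, k420, k41, k42]; simp [List.cons_lt_cons_iff] <;> omega)
  · (simp only [LT', k40, k420, k41, k42]; simp [List.cons_lt_cons_iff] <;> omega)

theorem pw_dot (K r j : ℕ) (y : List ℕ) : (dotProg K r j y).Pairwise LT' := by
  unfold dotProg
  rw [List.pairwise_cons]
  refine ⟨fun x hx => ?_, pwF LT' K _ (fun l hl => ?_) fun l l' hll hl' x hx y hy => ?_⟩
  · simp only [List.mem_flatMap, List.mem_cons, List.mem_range, List.not_mem_nil,
      or_false] at hx
    obtain ⟨l, hl, rfl | rfl⟩ := hx <;>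
      (simp only [LT', k40, k420, k41, k42]; simp [List.cons_lt_cons_iff] <;> omega)
  · simp only [List.pairwise_cons, List.mem_cons, List.not_mem_nil, or_false, forall_eq,
      List.Pairwise.nil, and_true, implies_true, IsEmpty.forall_iff]
    (simp only [LT', k40, k420, k41, k42]; simp [List.cons_lt_cons_iff] <;> omega)
  · simp only [List.mem_cons, List.not_mem_nil, or_false] at hx hy
    rcases hx with rfl | rfl <;> rcases hy with rfl | rfl <;>
      (simp only [LT', k40, k420, k41, k42]; simp [List.cons_lt_cons_iff] <;> omega)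

theorem mem_all' {K T r j : ℕ} {y : List ℕ} {I : Instr}
    (hI : I ∈ numProg T ++ dotProg K r j y) :
    (I = ⟨Op.add, [40, 0], [3], [3]⟩ ∨
      ∃ t, t < T ∧ I = ⟨Op.add, [40, t + 1], [40, t], [2]⟩) ∨
    I = ⟨Op.add, [42, 0], [3], [3]⟩ ∨ ∃ l, l < K ∧
      (I = ⟨Op.mul, [41, l], [6, r, j, l], [40, y.getD l 0]⟩ ∨
        I = ⟨Op.add, [42, l + 1], [42, l], [41, l]⟩) := by
  rcases List.mem_append.1 hI with h | h
  · exact Or.inl (mem_num h)
  · exact Or.inr (mem_dot h)

theorem pw_all' (K T r j : ℕ) (y : List ℕ) :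
    (numProg T ++ dotProg K r j y).Pairwise LT' := by
  rw [List.pairwise_append]
  refine ⟨pw_num T, pw_dot K r j y, fun x hx z hz => ?_⟩
  rcases mem_num hx with rfl | ⟨t, ht, rfl⟩ <;> rcases mem_dot hz with rfl | ⟨l, hl, rfl | rfl⟩ <;>
    (simp only [LT', k40, k420, k41, k42]; simp [List.cons_lt_cons_iff] <;> omega)

theorem t40 (K T r j : ℕ) (y : List ℕ) (t : ℕ) (ht : t ≤ T) :
    ∃ J ∈ numProg T ++ dotProg K r j y, J.dst = [40, t] := by
  rcases t with _ | t
  · exact ⟨⟨Op.add, [40, 0], [3], [3]⟩, List.mem_append_left _ List.mem_cons_self, rfl⟩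
  · exact ⟨⟨Op.add, [40, t + 1], [40, t], [2]⟩, List.mem_append_left _ (List.mem_cons_of_mem _
      (List.mem_map.2 ⟨t, List.mem_range.2 ht, rfl⟩)), rfl⟩

theorem t41 (K T r j : ℕ) (y : List ℕ) (l : ℕ) (hl : l < K) :
    ∃ J ∈ numProg T ++ dotProg K r j y, J.dst = [41, l] :=
  ⟨⟨Op.mul, [41, l], [6, r, j, l], [40, y.getD l 0]⟩, List.mem_append_right _
    (List.mem_cons_of_mem _ (List.mem_flatMap.2 ⟨l, List.mem_range.2 hl, List.mem_cons_self⟩)), rfl⟩

theorem t42 (K T r j : ℕ) (y : List ℕ) (l : ℕ) (hl : l ≤ K) :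
    ∃ J ∈ numProg T ++ dotProg K r j y, J.dst = [42, l] := by
  rcases l with _ | l
  · exact ⟨⟨Op.add, [42, 0], [3], [3]⟩, List.mem_append_right _ List.mem_cons_self, rfl⟩
  · exact ⟨⟨Op.add, [42, l + 1], [42, l], [41, l]⟩, List.mem_append_right _
      (List.mem_cons_of_mem _ (List.mem_flatMap.2 ⟨l, List.mem_range.2 hl,
        List.mem_cons_of_mem _ List.mem_cons_self⟩)), rfl⟩

theorem heads' {K T r j : ℕ} {y : List ℕ} {I : Instr}
    (hI : I ∈ numProg T ++ dotProg K r j y) : 40 ≤ I.dst.headD 0 := by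
  rcases mem_all' hI with (rfl | ⟨t, ht, rfl⟩) | rfl | ⟨l, hl, rfl | rfl⟩ <;> simp

theorem main2 (K T r j : ℕ) (y : List ℕ) (S : Set Reg) (hS : baseReg ⊆ S)
    (h6 : ∀ l < K, [6, r, j, l] ∈ S) (hy : ∀ l < K, y.getD l 0 ≤ T)
    (hh : ∀ r ∈ S, r.headD 0 < 40) : Ord S (numProg T ++ dotProg K r j y) := by
  refine ord_of_sorted key' _ S (pw_all' K T r j y) (fun I hI hIS => ?_) (fun I hI x hx => ?_)
  · have h1 := heads' hI
    have h2 := hh _ hIS
    omega
  · rcases mem_all' hI with (rfl | ⟨t, ht, rfl⟩) | rfl | ⟨l, hl, rfl | rfl⟩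
    · rcases hx with rfl | rfl
      · exact Or.inl (hS base3)
      · exact Or.inl (hS base3)
    · rcases hx with rfl | rfl
      · obtain ⟨J, hJ, hJr⟩ := t40 K T r j y t ht.le
        exact Or.inr ⟨J, hJ, hJr, by
          (simp only [k40, k420, k41, k42]; simp [List.cons_lt_cons_iff] <;> omega)⟩
      · exact Or.inl (hS base2)
    · rcases hx with rfl | rfl
      · exact Or.inl (hS base3)
      · exact Or.inl (hS base3)
    · rcases hx with rfl | rfl
      · exact Or.inl (h6 l hl)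
      · obtain ⟨J, hJ, hJr⟩ := t40 K T r j y _ (hy l hl)
        exact Or.inr ⟨J, hJ, hJr, by
          (simp only [k40, k420, k41, k42]; simp [List.cons_lt_cons_iff] <;> omega)⟩
    · rcases hx with rfl | rfl
      · obtain ⟨J, hJ, hJr⟩ := t42 K T r j y l hl.le
        refine Or.inr ⟨J, hJ, hJr, ?_⟩
        rcases l with _ | l
        · (simp only [k40, k420, k41, k42]; simp [List.cons_lt_cons_iff] <;> omega)
        · (simp only [k40, k420, k41, k42]; simp [List.cons_lt_cons_iff] <;> omega)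
      · obtain ⟨J, hJ, hJr⟩ := t41 K T r j y l hl
        exact Or.inr ⟨J, hJ, hJr, by
          (simp only [k40, k420, k41, k42]; simp [List.cons_lt_cons_iff] <;> omega)⟩

end TORD2A

/-- ORD2A -/
theorem t_ORD2A : S_ORD1 →
  (∀ (m n : ℕ) (drop : List Bool) (S : Set Reg), baseReg ⊆ S → (∀ j < cK m n, [35, j] ∈ S) →
    (∀ r ∈ S, r.headD 0 ≠ 4 ∧ (r.headD 0 < 36 ∨ 39 < r.headD 0)) →
    Ord S (matProg m n ++ gramProg m n drop) ∧
    (∀ r ∈ wr (matProg m n ++ gramProg m n drop),
      r.headD 0 = 4 ∨ (36 ≤ r.headD 0 ∧ r.headD 0 ≤ 39)) ∧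
    ∀ i < cK m n, ∀ j < cK m n, [4, i, j] ∈ wr (matProg m n ++ gramProg m n drop)) ∧
  (∀ (K T r j : ℕ) (y : List ℕ) (S : Set Reg), baseReg ⊆ S → (∀ l < K, [6, r, j, l] ∈ S) →
    (∀ l < K, y.getD l 0 ≤ T) → (∀ r ∈ S, r.headD 0 < 40) →
    Ord S (numProg T ++ dotProg K r j y) ∧ [42, K] ∈ wr (numProg T ++ dotProg K r j y)) := by
  intro _
  refine ⟨fun m n drop S hS h35 hh => ⟨TORD2A.main1 m n drop S hS h35 hh, ?_, ?_⟩,
    fun K T r j y S hS h6 hy hh => ⟨TORD2A.main2 K T r j y S hS h6 hy hh, ?_⟩⟩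
  · rintro r ⟨I, hI, rfl⟩
    exact TORD2A.heads hI
  · intro i hi j hj
    exact TORD2A.t4 m n drop i j hi hj
  · exact TORD2A.t42 K T r j y K le_rfl

end Pool.Agent.W920.FC
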