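import Pool.Agent.W920.FC.Stm
import Pool.Agent.H622R3.SM.T_ORD

set_option autoImplicit false
set_option linter.unusedSimpArgs false

/-!
# ORD2B: the order of the Faddeev-LeVerrier program (helper675, adapting helper77's T_ORD)
-/

namespace Pool.Agent.W920.FC

open Pool.Agent.NPC Pool.Agent.H558R2 Pool.Agent.H622R3.SM

namespace TORD2B

open Pool.Agent.H622R3.SM.TORD

theorem fl_eq (K : ℕ) : flProg K = initProg K ++ (List.range K).flatMap (rnd K) := rfl

theorem mem_fl {K : ℕ} {I : Instr} (hI : I ∈ flProg K) :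
    I ∈ initProg K ∨ ∃ k, k < K ∧ I ∈ rnd K k := by
  rw [fl_eq] at hI
  rcases List.mem_append.1 hI with hI | hI
  · exact Or.inl hI
  · simp only [List.mem_flatMap, List.mem_range] at hI
    exact Or.inr hI

theorem pw_fl (K : ℕ) : (flProg K).Pairwise TORD.LT := by
  rw [fl_eq, List.pairwise_append]
  refine ⟨pw_init K, pwF K _ (fun k hk => pw_rnd K k) ?_, ?_⟩
  · intro k k' hkk hk' x hx y hy
    obtain ⟨l, hl⟩ := key_rnd hx
    obtain ⟨l', hl'⟩ := key_rnd hy
    unfold TORD.LT
    rw [hl, hl']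
    simp [List.cons_lt_cons_iff]
    omega
  · intro x hx y hy
    simp only [List.mem_flatMap, List.mem_range] at hy
    obtain ⟨k, hk, hy⟩ := hy
    obtain ⟨l, hl⟩ := key_rnd hy
    unfold TORD.LT
    rw [hl]
    rcases mem_init hx with rfl | ⟨i, j, hi, hj, rfl⟩
    · rw [key50]
      simp [List.cons_lt_cons_iff]
    · rw [key60]
      simp [List.cons_lt_cons_iff]

/-- `r` is written -/
def Tg (K : ℕ) (r : Reg) : Prop := r ∈ wr (flProg K)

theorem tg_rnd {K k : ℕ} (hk : k < K) {J : Instr} (hJ : J ∈ rnd K k) : Tg K J.dst :=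
  ⟨J, List.mem_append_right _ (List.mem_flatMap.2 ⟨k, List.mem_range.2 hk, hJ⟩), rfl⟩

theorem t7 (K k i j l : ℕ) (hk : k < K) (hi : i < K) (hj : j < K)
    (hl : l < K) : Tg K [7, k, i, j, l] := by
  refine tg_rnd hk (J := ⟨Op.mul, [7, k, i, j, l], [4, i, l], [6, k, l, j]⟩)
    (List.mem_append_left _ ?_)
  refine List.mem_flatMap.2 ⟨i, List.mem_range.2 hi, List.mem_flatMap.2
    ⟨j, List.mem_range.2 hj, List.mem_cons_of_mem _ (List.mem_flatMap.2
      ⟨l, List.mem_range.2 hl, ?_⟩)⟩⟩
  simp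

theorem t8 (K k i j l : ℕ) (hk : k < K) (hi : i < K) (hj : j < K)
    (hl : l ≤ K) : Tg K [8, k, i, j, l] := by
  rcases l with _ | l
  · refine tg_rnd hk (J := ⟨Op.add, [8, k, i, j, 0], [3], [3]⟩)
      (List.mem_append_left _ ?_)
    exact List.mem_flatMap.2 ⟨i, List.mem_range.2 hi, List.mem_flatMap.2
      ⟨j, List.mem_range.2 hj, List.mem_cons_self⟩⟩
  · refine tg_rnd hk (J := ⟨Op.add, [8, k, i, j, l + 1], [8, k, i, j, l], [7, k, i, j, l]⟩)
      (List.mem_append_left _ ?_)
    refine List.mem_flatMap.2 ⟨i, List.mem_range.2 hi, List.mem_flatMap.2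
      ⟨j, List.mem_range.2 hj, List.mem_cons_of_mem _ (List.mem_flatMap.2
        ⟨l, List.mem_range.2 hl, ?_⟩)⟩⟩
    simp

theorem t9 (K k i : ℕ) (hk : k < K) (hi : i ≤ K) : Tg K [9, k, i] := by
  rcases i with _ | i
  · refine tg_rnd hk (J := ⟨Op.add, [9, k, 0], [3], [3]⟩)
      (List.mem_append_right _ (List.mem_append_left _ ?_))
    simp [traceProg]
  · refine tg_rnd hk (J := ⟨Op.add, [9, k, i + 1], [9, k, i], [8, k, i, i, K]⟩)
      (List.mem_append_right _ (List.mem_append_left _ ?_))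
    unfold traceProg
    refine List.mem_append_left _ (List.mem_cons_of_mem _ (List.mem_map.2
      ⟨i, List.mem_range.2 hi, rfl⟩))

theorem t10 (K k : ℕ) (hk : k < K) : Tg K [10, k] := by
  refine tg_rnd hk (J := ⟨Op.div, [10, k], [9, k, K], [5, k + 1]⟩)
      (List.mem_append_right _ (List.mem_append_left _ ?_))
  simp [traceProg]

theorem t5 (K k : ℕ) (hk : k ≤ K) : Tg K [5, k] := by
  rcases k with _ | k
  · exact ⟨⟨Op.add, [5, 0], [3], [3]⟩, List.mem_append_left _ List.mem_cons_self, rfl⟩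
  · refine tg_rnd hk (J := ⟨Op.add, [5, k + 1], [5, k], [2]⟩)
      (List.mem_append_right _ (List.mem_append_left _ ?_))
    simp [traceProg]

theorem t6 (K k i j : ℕ) (hk : k ≤ K) (hi : i < K) (hj : j < K) : Tg K [6, k, i, j] := by
  rcases k with _ | k
  · refine ⟨⟨Op.add, [6, 0, i, j], if i = j then [2] else [3], [3]⟩, ?_, rfl⟩
    refine List.mem_append_left _ (List.mem_cons_of_mem _ ?_)
    exact List.mem_flatMap.2 ⟨i, List.mem_range.2 hi, List.mem_map.2
      ⟨j, List.mem_range.2 hj, rfl⟩⟩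
  · refine tg_rnd hk
      (J := ⟨Op.sub, [6, k + 1, i, j], [8, k, i, j, K], if i = j then [10, k] else [3]⟩)
      (List.mem_append_right _ (List.mem_append_right _ ?_))
    exact List.mem_flatMap.2 ⟨i, List.mem_range.2 hi, List.mem_map.2
      ⟨j, List.mem_range.2 hj, rfl⟩⟩

theorem hd {K : ℕ} {I : Instr} (hI : I ∈ flProg K) :
    5 ≤ I.dst.headD 0 ∧ I.dst.headD 0 ≤ 10 := by
  rcases mem_fl hI with hI | ⟨k, hk, hI⟩
  · rcases mem_init hI with rfl | ⟨i, j, hi, hj, rfl⟩
    · exact ⟨(by norm_num : 5 ≤ 5), (by norm_num : 5 ≤ 10)⟩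
    · exact ⟨(by norm_num : 5 ≤ 6), (by norm_num : 6 ≤ 10)⟩
  · rcases List.mem_append.1 hI with hI | hI
    · obtain ⟨i, j, hi, hj, rfl | ⟨l, hl, rfl | rfl⟩⟩ := mem_prod hI
      · exact ⟨(by norm_num : 5 ≤ 8), (by norm_num : 8 ≤ 10)⟩
      · exact ⟨(by norm_num : 5 ≤ 7), (by norm_num : 7 ≤ 10)⟩
      · exact ⟨(by norm_num : 5 ≤ 8), (by norm_num : 8 ≤ 10)⟩
    · rcases List.mem_append.1 hI with hI | hI
      · rcases mem_trace hI with rfl | ⟨i, hi, rfl⟩ | rfl | rfl
        · exact ⟨(by norm_num : 5 ≤ 9), (by norm_num : 9 ≤ 10)⟩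
        · exact ⟨(by norm_num : 5 ≤ 9), (by norm_num : 9 ≤ 10)⟩
        · exact ⟨(by norm_num : 5 ≤ 5), (by norm_num : 5 ≤ 10)⟩
        · exact ⟨(by norm_num : 5 ≤ 10), (by norm_num : 10 ≤ 10)⟩
      · obtain ⟨i, j, hi, hj, rfl⟩ := mem_next hI
        exact ⟨(by norm_num : 5 ≤ 6), (by norm_num : 6 ≤ 10)⟩

/-- the operands are in `S` or written before -/
theorem ops {K : ℕ} {S : Set Reg} (hS : baseReg ⊆ S) (h4 : ∀ i < K, ∀ j < K, [4, i, j] ∈ S)
    {I : Instr} (hI : I ∈ flProg K) (r : Reg) (hr : r = I.fst ∨ r = I.snd) :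
    r ∈ S ∨ (Tg K r ∧ key r < key I.dst) := by
  have base3 : ([3] : Reg) ∈ S := hS TORD.base3
  have base2 : ([2] : Reg) ∈ S := hS TORD.base2
  rcases mem_fl hI with hI | ⟨k, hk, hI⟩
  · rcases mem_init hI with rfl | ⟨i, j, hi, hj, rfl⟩
    · rcases hr with rfl | rfl
      · exact Or.inl base3
      · exact Or.inl base3
    · rcases hr with rfl | rfl
      · left
        dsimp only
        split_ifs
        · exact base2
        · exact base3
      · exact Or.inl base3
  · rcases List.mem_append.1 hI with hI | hI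
    · obtain ⟨i, j, hi, hj, rfl | ⟨l, hl, rfl | rfl⟩⟩ := mem_prod hI
      · rcases hr with rfl | rfl
        · exact Or.inl base3
        · exact Or.inl base3
      · rcases hr with rfl | rfl
        · exact Or.inl (h4 i hi l hl)
        · refine Or.inr ⟨t6 K k l j hk.le hl hj, ?_⟩
          rcases k with _ | k
          · (simp only [key4, key50, key5, key60, key6, key7, key80, key8, key9, key10, key11]; simp [List.cons_lt_cons_iff])
          · (simp only [key4, key50, key5, key60, key6, key7, key80, key8, key9, key10, key11]; simp [List.cons_lt_cons_iff])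
      · rcases hr with rfl | rfl
        · refine Or.inr ⟨t8 K k i j l hk hi hj hl.le, ?_⟩
          rcases l with _ | l
          · (simp only [key4, key50, key5, key60, key6, key7, key80, key8, key9, key10, key11]; simp [List.cons_lt_cons_iff])
          · (simp only [key4, key50, key5, key60, key6, key7, key80, key8, key9, key10, key11]; simp [List.cons_lt_cons_iff])
        · exact Or.inr ⟨t7 K k i j l hk hi hj hl, by (simp only [key4, key50, key5, key60, key6, key7, key80, key8, key9, key10, key11]; simp [List.cons_lt_cons_iff])⟩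
    · rcases List.mem_append.1 hI with hI | hI
      · rcases mem_trace hI with rfl | ⟨i, hi, rfl⟩ | rfl | rfl
        · rcases hr with rfl | rfl
          · exact Or.inl base3
          · exact Or.inl base3
        · rcases hr with rfl | rfl
          · exact Or.inr ⟨t9 K k i hk hi.le, by (simp only [key4, key50, key5, key60, key6, key7, key80, key8, key9, key10, key11]; simp [List.cons_lt_cons_iff])⟩
          · refine Or.inr ⟨t8 K k i i K hk hi hi le_rfl, ?_⟩
            obtain ⟨m', rfl⟩ : ∃ m', K = m' + 1 := ⟨K - 1, by omega⟩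
            (simp only [key4, key50, key5, key60, key6, key7, key80, key8, key9, key10, key11]; simp [List.cons_lt_cons_iff])
        · rcases hr with rfl | rfl
          · refine Or.inr ⟨t5 K k hk.le, ?_⟩
            rcases k with _ | k
            · (simp only [key4, key50, key5, key60, key6, key7, key80, key8, key9, key10, key11]; simp [List.cons_lt_cons_iff])
            · (simp only [key4, key50, key5, key60, key6, key7, key80, key8, key9, key10, key11]; simp [List.cons_lt_cons_iff])
          · exact Or.inl base2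
        · rcases hr with rfl | rfl
          · exact Or.inr ⟨t9 K k K hk le_rfl, by (simp only [key4, key50, key5, key60, key6, key7, key80, key8, key9, key10, key11]; simp [List.cons_lt_cons_iff])⟩
          · exact Or.inr ⟨t5 K (k + 1) hk, by (simp only [key4, key50, key5, key60, key6, key7, key80, key8, key9, key10, key11]; simp [List.cons_lt_cons_iff])⟩
      · obtain ⟨i, j, hi, hj, rfl⟩ := mem_next hI
        rcases hr with rfl | rfl
        · refine Or.inr ⟨t8 K k i j K hk hi hj le_rfl, ?_⟩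
          obtain ⟨m', rfl⟩ : ∃ m', K = m' + 1 := ⟨K - 1, by omega⟩
          (simp only [key4, key50, key5, key60, key6, key7, key80, key8, key9, key10, key11]; simp [List.cons_lt_cons_iff])
        · dsimp only
          split_ifs
          · exact Or.inr ⟨t10 K k hk, by (simp only [key4, key50, key5, key60, key6, key7, key80, key8, key9, key10, key11]; simp [List.cons_lt_cons_iff])⟩
          · exact Or.inl base3

end TORD2B

/-- ORD2B: the order of the Faddeev-LeVerrier program. -/
theorem t_ORD2B : S_ORD1 → (∀ (K : ℕ) (S : Set Reg), baseReg ⊆ S →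
    (∀ i < K, ∀ j < K, [4, i, j] ∈ S) →
    (∀ r ∈ S, r.headD 0 < 5 ∨ 10 < r.headD 0) →
    Ord S (flProg K) ∧ (∀ r ∈ wr (flProg K), 5 ≤ r.headD 0 ∧ r.headD 0 ≤ 10) ∧
    (∀ r ≤ K, ∀ i < K, ∀ j < K, [6, r, i, j] ∈ wr (flProg K)) ∧
    ∀ k' < K, [10, k'] ∈ wr (flProg K)) := by
  intro _ K S hS h4 hd
  refine ⟨?_, ?_, fun r hr i hi j hj => TORD2B.t6 K r i j hr hi hj, fun k hk => TORD2B.t10 K k hk⟩
  · refine TORD.ord_of_sorted _ _ (TORD2B.pw_fl K) (fun I hI hIS => ?_) (fun I hI r hr => ?_)
    · have h1 := TORD2B.hd hI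
      have h2 := hd _ hIS
      omega
    · rcases TORD2B.ops hS h4 hI r hr with h1 | ⟨⟨J, hJ, hJr⟩, h2⟩
      · exact Or.inl h1
      · exact Or.inr ⟨J, hJ, hJr, h2⟩
  · rintro r ⟨I, hI, rfl⟩
    exact TORD2B.hd hI

end Pool.Agent.W920.FC
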