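import Pool.Agent.W920.FC.Stm

set_option autoImplicit false

/-!
# Task OUT: the results of adaptive computations, and polynomial-time control
-/

namespace Pool.Agent.W920.FC

open Pool.Agent.NPC Pool.Agent.H558R2 Pool.Agent.H622R3.SM

namespace TOUT

theorem ret_out {β : Type} (b c : β) (h : Out (ret b) c) : c = b := by
  obtain ⟨x, y, hxy⟩ := h
  unfold ret at hxy
  have := Sum.inl.inj hxy
  exact (congrArg Prod.fst this).symm

theorem bnd_inl {β γ : Type} {T : TT β} {f : β → TT γ} {h : List Outcome} {c : γ}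
    {h' : List Outcome} (H : bnd T f h = Sum.inl (c, h')) :
    ∃ p : β × List Outcome, T h = Sum.inl p ∧ f p.1 p.2 = Sum.inl (c, h') := by
  unfold bnd at H
  cases hT : T h with
  | inl p => rw [hT] at H; exact ⟨p, rfl, H⟩
  | inr q => rw [hT] at H; simp at H

theorem bnd_out {β γ : Type} (T : TT β) (f : β → TT γ) (c : γ) (h : Out (bnd T f) c) :
    ∃ b, Out T b ∧ Out (f b) c := by
  obtain ⟨x, y, hxy⟩ := h
  obtain ⟨p, h1, h2⟩ := bnd_inl hxy
  exact ⟨p.1, ⟨x, p.2, h1⟩, ⟨p.2, y, h2⟩⟩

theorem ret_shr {β : Type} (b : β) : Shr (ret b) := by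
  intro h b' h' H
  unfold ret at H
  have h2 : h = h' := congrArg Prod.snd (Sum.inl.inj H)
  rw [h2]

theorem bnd_shr {β γ : Type} (T : TT β) (f : β → TT γ) (hT : Shr T) (hf : ∀ b, Shr (f b)) :
    Shr (bnd T f) := by
  intro h c h' H
  obtain ⟨p, h1, h2⟩ := bnd_inl H
  exact (hf _ _ _ _ h2).trans (hT _ _ _ h1)

theorem batch_shr (qs : List Qry) : Shr (batch qs) := by
  intro h b h' H
  unfold batch at H
  split_ifs at H with hc
  have h2 : h.drop qs.length = h' := congrArg Prod.snd (Sum.inl.inj H)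
  rw [← h2]
  simp

theorem iter_shr {σ : Type} (f : σ → TT σ) (n : ℕ) (s : σ) (hf : ∀ s, Shr (f s)) :
    Shr (iter f n s) := by
  induction n with
  | zero => exact ret_shr s
  | succ n ih => exact bnd_shr _ _ ih hf

variable {α : Type} [TEnc α]

theorem poly_sign {r : α → Reg} (h : Poly r) : Poly (fun a => Test.sign (r a)) := by
  have h1 : Poly (fun a => (Sum.inl (r a) : Reg ⊕ (List Bool ⊕ Bool))) := Poly.inl h
  exact h1

theorem poly_answer {r : α → Bool} (h : Poly r) : Poly (fun a => Test.answer (r a)) := by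
  have h1 : Poly (fun a => (Sum.inr (Sum.inr (r a)) : Reg ⊕ (List Bool ⊕ Bool))) :=
    Poly.inr (Poly.inr h)
  exact h1

end TOUT

open TOUT in
theorem t_OUT : S_OUT ∧ S_CTRL := by
  refine ⟨⟨fun β b c => ret_out b c, fun β γ T f c => bnd_out T f c,
    fun σ f n s c h => bnd_out _ _ _ h, fun β b => ret_shr b,
    fun β γ T f => bnd_shr T f, batch_shr, fun σ f n s => iter_shr f n s⟩, ?_⟩
  intro T hT
  unfold PolyControl
  apply t_COMP
  have h1 : Poly (fun p : HistIn => T p.1.1.length p.1.2.length p.2) := hT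
  have hg : Poly (fun p : HistIn × (Bool × List Outcome) =>
      (([] : List Instr), Test.answer p.2.1)) :=
    Poly.pair (NPC.Poly.const _) (poly_answer (NPC.Poly.fst (NPC.Poly.snd NPC.Poly.id)))
  have hh : Poly (fun p : HistIn × Qry => (p.2.1, Test.sign p.2.2)) :=
    Poly.pair (NPC.Poly.fst (NPC.Poly.snd NPC.Poly.id))
      (poly_sign (NPC.Poly.snd (NPC.Poly.snd NPC.Poly.id)))
  have h2 := NPC.Poly.sumCases (g := fun (_ : HistIn) (p : Bool × List Outcome) =>
      (([] : List Instr), Test.answer p.1)) (h := fun (_ : HistIn) (q : Qry) =>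
      (q.1, Test.sign q.2)) h1 hg hh
  refine h2.congr fun p => ?_
  unfold algOf
  cases T p.1.1.length p.1.2.length p.2 <;> rfl

end Pool.Agent.W920.FC
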