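import Pool.Agent.W920.FC.Stm

set_option autoImplicit false

/-! Project FC, part PERC: the perceptron algorithm. -/

namespace Pool.Agent.W920.FC

open Pool.Agent.NPC Pool.Agent.H558R2 Pool.Agent.H622R3.SM

namespace TPERC

theorem getD_bump (y : List ℕ) (K j l : ℕ) :
    (bump y K j).getD l 0 = if l < K then (if l = j then y.getD l 0 + 1 else y.getD l 0) else 0 := by
  unfold bump
  rw [List.getD_eq_getElem?_getD, List.getElem?_map]
  by_cases h : l < K
  · rw [if_pos h, List.getElem?_range h]
    simp
  · rw [if_neg h, List.getElem?_eq_none (by simpa using h)]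
    simp

theorem getD_zero (K l : ℕ) : ((List.range K).map fun _ => 0).getD l 0 = 0 := by
  rw [List.getD_eq_getElem?_getD, List.getElem?_map]
  by_cases h : l < K
  · rw [List.getElem?_range h]
    simp
  · rw [List.getElem?_eq_none (by simpa using h)]
    simp

theorem step (m n : ℕ) (G : Matrix (Fin (cK m n)) (Fin (cK m n)) ℝ) (drop : List Bool)
    (b : Bool) (i : ℕ) :
    (badOf (cK m n) drop ((perVals G (perSt m n G drop b i).1).map signOut) = [] ∧
      perSt m n G drop b (i + 1) = ((perSt m n G drop b i).1, true)) ∨
    ∃ j, j < cK m n ∧ drop.getD j false = false ∧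
      zOf (cK m n) ((perVals G (perSt m n G drop b i).1).map signOut) j ≤ 0 ∧
      perSt m n G drop b (i + 1) =
        (bump (perSt m n G drop b i).1 (cK m n) j, (perSt m n G drop b i).2) := by
  have h0 : perSt m n G drop b (i + 1) = perUpd (cK m n) drop (perSt m n G drop b i)
      ((perVals G (perSt m n G drop b i).1).map signOut) := rfl
  rw [h0]
  set o := (perVals G (perSt m n G drop b i).1).map signOut with ho
  unfold perUpd
  rcases hb : badOf (cK m n) drop o with _ | ⟨j, t⟩
  · left
    exact ⟨rfl, by simp⟩
  · right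
    have hj : j ∈ badOf (cK m n) drop o := by rw [hb]; simp
    unfold badOf at hj
    rw [List.mem_filter, List.mem_range] at hj
    obtain ⟨h1, h2⟩ := hj
    rw [Bool.and_eq_true, decide_eq_true_eq, Bool.not_eq_true'] at h2
    exact ⟨j, h1, h2.1, h2.2, by simp⟩

theorem cK_pos (m n : ℕ) : 1 ≤ cK m n := by unfold cK; omega

theorem flag_mono (m n : ℕ) (G : Matrix (Fin (cK m n)) (Fin (cK m n)) ℝ) (drop : List Bool)
    (b : Bool) (i : ℕ) (h : (perSt m n G drop b i).2 = true) :
    (perSt m n G drop b (i + 1)).2 = true := by
  rcases step m n G drop b i with ⟨-, h1⟩ | ⟨j, -, -, -, h1⟩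
  · rw [h1]
  · rw [h1]; exact h

theorem flag_mono' (m n : ℕ) (G : Matrix (Fin (cK m n)) (Fin (cK m n)) ℝ) (drop : List Bool)
    (b : Bool) (i i' : ℕ) (hii : i ≤ i') (h : (perSt m n G drop b i).2 = true) :
    (perSt m n G drop b i').2 = true := by
  induction i', hii using Nat.le_induction with
  | base => exact h
  | succ i' _ ih => exact flag_mono m n G drop b i' ih

end TPERC

open TPERC in
theorem t_PERC : S_PROJ → S_STEP → S_PERC := by
  intro hproj hstep m n G drop b hG
  refine ⟨?_, ?_, ?_, ?_, ?_⟩
  · -- sizes
    intro i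
    induction i with
    | zero =>
      intro l
      show ((List.range (cK m n)).map fun _ => 0).getD l 0 ≤ 0
      rw [getD_zero]
    | succ i ih =>
      intro l
      rcases step m n G drop b i with ⟨-, h1⟩ | ⟨j, -, -, -, h1⟩
      · rw [h1]
        exact (ih l).trans (by omega)
      · rw [h1]
        show (bump _ _ _).getD l 0 ≤ _
        rw [getD_bump]
        have := ih l
        split_ifs <;> omega
  · intro i
    induction i with
    | zero =>
      intro l _
      exact getD_zero _ _
    | succ i ih =>
      intro l hl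
      rcases step m n G drop b i with ⟨-, h1⟩ | ⟨j, -, hj, -, h1⟩
      · rw [h1]
        exact ih l hl
      · rw [h1]
        show (bump _ _ _).getD l 0 = _
        rw [getD_bump]
        have h2 := ih l hl
        have h3 : l ≠ j := by
          intro h
          rw [h, hj] at hl
          simp at hl
        rw [if_neg h3, h2]
        simp
  · intro hb i
    exact flag_mono' m n G drop b 0 i (Nat.zero_le _) hb
  · intro hb i
    induction i with
    | zero =>
      intro h
      have h1 : (perSt m n G drop b 0).2 = b := rfl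
      rw [h1, hb] at h
      exact absurd h (by simp)
    | succ i ih =>
      intro h
      rcases step m n G drop b i with ⟨h2, h1⟩ | ⟨j, -, -, -, h1⟩
      · obtain ⟨z, hz1, hz2⟩ := hproj (cK m n) G (perSt m n G drop b i).1 hG
        refine ⟨z, hz1.1, ?_⟩
        intro j hj
        rw [← (hz2 j).1]
        by_contra hcon
        push Not at hcon
        have hmem : (j : ℕ) ∈ badOf (cK m n) drop
            ((perVals G (perSt m n G drop b i).1).map signOut) := by
          unfold badOf
          rw [List.mem_filter, List.mem_range]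
          refine ⟨j.2, ?_⟩
          rw [Bool.and_eq_true, decide_eq_true_eq, Bool.not_eq_true']
          exact ⟨hj, hcon⟩
        rw [h2] at hmem
        simp at hmem
      · rw [h1] at h
        exact ih h
  · intro hb hT
    have hflag : ∀ i ≤ cT m n, (perSt m n G drop b i).2 = false := by
      intro i hi
      by_contra hcon
      rw [Bool.not_eq_false] at hcon
      rw [flag_mono' m n G drop b i (cT m n) hi hcon] at hT
      simp at hT
    have hst : ∀ i < cT m n, ∃ j, j < cK m n ∧
        zOf (cK m n) ((perVals G (perSt m n G drop b i).1).map signOut) j ≤ 0 ∧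
        (perSt m n G drop b (i + 1)).1 = bump (perSt m n G drop b i).1 (cK m n) j := by
      intro i hi
      rcases step m n G drop b i with ⟨h2, h1⟩ | ⟨j, h3, -, h4, h1⟩
      · have := hflag (i + 1) hi
        rw [h1] at this
        simp at this
      · exact ⟨j, h3, h4, by rw [h1]⟩
    -- the sum of the coordinates
    have hsum : ∀ i ≤ cT m n,
        ∑ l ∈ Finset.range (cK m n), (perSt m n G drop b i).1.getD l 0 = i := by
      intro i
      induction i with
      | zero =>
        intro _
        refine Finset.sum_eq_zero fun l _ => ?_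
        exact getD_zero _ _
      | succ i ih =>
        intro hi
        obtain ⟨j, hj, -, h1⟩ := hst i hi
        rw [h1]
        have h2 : ∀ l ∈ Finset.range (cK m n),
            (bump (perSt m n G drop b i).1 (cK m n) j).getD l 0 =
              (perSt m n G drop b i).1.getD l 0 + if l = j then 1 else 0 := by
          intro l hl
          rw [Finset.mem_range] at hl
          rw [getD_bump, if_pos hl]
          split_ifs <;> rfl
        rw [Finset.sum_congr rfl h2, Finset.sum_add_distrib, ih (by omega),
          Finset.sum_ite_eq', if_pos (Finset.mem_range.2 hj)]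
    -- norms of the projections
    choose z hz1 hz2 using fun y : List ℕ => hproj (cK m n) G y hG
    have hsymm : ∀ u v : Fin (cK m n) → ℝ, ∑ l, u l * G.mulVec v l = ∑ l, G.mulVec u l * v l := by
      intro u v
      have h1 : u ⬝ᵥ G.mulVec v = G.mulVec u ⬝ᵥ v := by
        rw [Matrix.dotProduct_mulVec, ← Matrix.mulVec_transpose, hG.eq]
      exact h1
    have hnorm : ∀ i ≤ cT m n, ∑ l, z (perSt m n G drop b i).1 l ^ 2 ≤ (i : ℝ) := by
      intro i
      induction i with
      | zero =>
        intro _
        obtain ⟨hk, u, hu⟩ := hz1 (perSt m n G drop b 0).1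
        set Z := z (perSt m n G drop b 0).1 with hZ
        have h1 : ∀ l, G.mulVec u l = - Z l := by
          intro l
          rw [← hu l]
          have h2 : (perSt m n G drop b 0).1.getD l 0 = 0 := getD_zero _ _
          show (((perSt m n G drop b 0).1.getD l 0 : ℕ) : ℝ) - Z l = -Z l
          rw [h2]
          simp
        have h3 := hsymm Z u
        have h4 : ∑ l, G.mulVec Z l * u l = 0 := by
          rw [hk]
          simp
        rw [h4] at h3
        have h5 : ∑ l, Z l * G.mulVec u l = - ∑ l, Z l ^ 2 := by
          rw [← Finset.sum_neg_distrib]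
          exact Finset.sum_congr rfl fun l _ => by rw [h1 l]; ring
        rw [h5] at h3
        simp only [Nat.cast_zero]
        linarith
      | succ i ih =>
        intro hi
        obtain ⟨j, hj, hzj, h1⟩ := hst i hi
        have h2 := hstep (cK m n) G
          (fun l => (((perSt m n G drop b i).1.getD l 0 : ℕ) : ℝ))
          (fun l => (((perSt m n G drop b (i + 1)).1.getD l 0 : ℕ) : ℝ))
          (z (perSt m n G drop b i).1) (z (perSt m n G drop b (i + 1)).1) ⟨j, hj⟩ hG
          (hz1 _) (hz1 _) ?_ ?_
        · have h3 := ih (by omega)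
          push_cast
          linarith
        · intro l
          rw [h1, getD_bump, if_pos l.2]
          by_cases hlj : (l : ℕ) = j
          · rw [if_pos hlj, if_pos (Fin.ext hlj)]
            push_cast
            rfl
          · rw [if_neg hlj, if_neg (fun h => hlj (congrArg Fin.val h)), add_zero]
        · by_contra hcon
          push Not at hcon
          have h4 := ((hz2 (perSt m n G drop b i).1 ⟨j, hj⟩).1).2 hcon
          have h5 : ((⟨j, hj⟩ : Fin (cK m n)) : ℕ) = j := rfl
          rw [h5] at h4
          omega
    have hK := cK_pos m n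
    set Y := (perSt m n G drop b (cT m n)).1 with hY
    have hTval : cT m n = 4 * ((cK m n) * ((cK m n) * (cK m n))) := rfl
    have hsumT := hsum (cT m n) le_rfl
    have hnormT := hnorm (cT m n) le_rfl
    rw [← hY] at hsumT hnormT
    constructor
    · by_contra hcon
      push Not at hcon
      have h1 : ∑ l ∈ Finset.range (cK m n), Y.getD l 0 <
          ∑ l ∈ Finset.range (cK m n), 4 * ((cK m n) * (cK m n)) := by
        refine Finset.sum_lt_sum_of_nonempty ⟨0, Finset.mem_range.2 hK⟩ ?_
        intro l hl
        exact hcon l (Finset.mem_range.1 hl)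
      rw [hsumT, Finset.sum_const, Finset.card_range, smul_eq_mul, hTval] at h1
      have h2 : (cK m n) * (4 * ((cK m n) * (cK m n))) = 4 * ((cK m n) * ((cK m n) * (cK m n))) := by ring
      omega
    · intro x hGx hx01 j hj
      obtain ⟨hk, u, hu⟩ := hz1 Y
      set Z := z Y with hZ
      have h1 : ∑ l : Fin (cK m n), ((Y.getD l 0 : ℕ) : ℝ) * x l = ∑ l, Z l * x l := by
        have h2 : ∑ l, G.mulVec u l * x l = 0 := by
          rw [← hsymm u x, hGx]
          simp
        have h3 : ∀ l : Fin (cK m n), ((Y.getD l 0 : ℕ) : ℝ) * x l = Z l * x l + G.mulVec u l * x l := by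
          intro l
          have := hu l
          rw [← this]
          ring
        rw [Finset.sum_congr rfl fun l _ => h3 l, Finset.sum_add_distrib, h2, add_zero]
      have hKr : (1 : ℝ) ≤ (cK m n) := by exact_mod_cast hK
      have h4 : (∑ l, Z l * x l) ^ 2 ≤ (∑ l, Z l ^ 2) * ∑ l, x l ^ 2 :=
        Finset.sum_mul_sq_le_sq_mul_sq _ _ _
      have h5 : ∑ l, x l ^ 2 ≤ (cK m n) := by
        calc ∑ l, x l ^ 2 ≤ ∑ _l : Fin (cK m n), (1 : ℝ) := Finset.sum_le_sum fun l _ => by
              have := hx01 l
              nlinarith [this.1, this.2]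
          _ = (cK m n) := by simp
      have h6 : (∑ l, Z l * x l) ^ 2 ≤ (2 * (cK m n : ℝ) ^ 2) ^ 2 := by
        refine h4.trans ?_
        have h7 : ((cT m n : ℕ) : ℝ) = 4 * (cK m n : ℝ) ^ 3 := by
          rw [hTval]; push_cast; ring
        rw [h7] at hnormT
        calc (∑ l, Z l ^ 2) * ∑ l, x l ^ 2 ≤ (4 * (cK m n : ℝ) ^ 3) * (cK m n) :=
              mul_le_mul hnormT h5 (Finset.sum_nonneg fun l _ => sq_nonneg _) (by positivity)
          _ = (2 * (cK m n : ℝ) ^ 2) ^ 2 := by ring
      have h8 : ∑ l, Z l * x l ≤ 2 * (cK m n : ℝ) ^ 2 := by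
        refine le_of_sq_le_sq ?_ (by positivity)
        exact h6
      have h9 : ((Y.getD j 0 : ℕ) : ℝ) * x j ≤
          ∑ l : Fin (cK m n), ((Y.getD l 0 : ℕ) : ℝ) * x l :=
        Finset.single_le_sum (f := fun l : Fin (cK m n) => ((Y.getD l 0 : ℕ) : ℝ) * x l)
          (fun l _ => mul_nonneg (Nat.cast_nonneg _) (hx01 l).1) (Finset.mem_univ j)
      have h10 : 4 * (cK m n : ℝ) ^ 2 ≤ ((Y.getD j 0 : ℕ) : ℝ) := by
        have : ((4 * ((cK m n) * (cK m n)) : ℕ) : ℝ) ≤ ((Y.getD j 0 : ℕ) : ℝ) := by exact_mod_cast hj
        push_cast at this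
        linarith
      have h11 : 4 * (cK m n : ℝ) ^ 2 * x j ≤ ((Y.getD j 0 : ℕ) : ℝ) * x j :=
        mul_le_mul_of_nonneg_right h10 (hx01 j).1
      have h12 : 4 * (cK m n : ℝ) ^ 2 * x j ≤ 2 * (cK m n : ℝ) ^ 2 := by
        rw [h1] at h9
        linarith
      have h13 : 0 < (cK m n : ℝ) ^ 2 := by positivity
      by_contra hcon
      push Not at hcon
      nlinarith

end Pool.Agent.W920.FC
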