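import Pool.Agent.W920.FC.Stm

set_option autoImplicit false

/-!
Phase 1: the positions of the representatives.
-/

namespace Pool.Agent.W920.FC

open Pool.Agent.NPC Pool.Agent.H558R2 Pool.Agent.H622R3.SM

namespace TPH1

theorem signOut_none (v : ℝ) : signOut v = none ↔ v = 0 := by
  unfold signOut
  split_ifs with h1 h2
  · simp [h1.ne']
  · simp [h2.ne]
  · simp only [true_iff]
    exact le_antisymm (not_lt.1 h1) (not_lt.1 h2)

theorem forall₂_flat {α β γ δ : Type} (R : γ → δ → Prop) (l : List α) (l' : List β)
    (F : α → β → γ) (F' : α → β → δ) (h : ∀ a b, R (F a b) (F' a b)) :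
    List.Forall₂ R (l.flatMap fun e => l'.map fun f => F e f)
      (l.flatMap fun e => l'.map fun f => F' e f) := by
  have h1 : ∀ a, List.Forall₂ R (l'.map fun f => F a f) (l'.map fun f => F' a f) := by
    intro a
    induction l' with
    | nil => exact List.Forall₂.nil
    | cons b l' ih => exact List.Forall₂.cons (h a b) ih
  induction l with
  | nil => exact List.Forall₂.nil
  | cons a l ih =>
    rw [List.flatMap_cons, List.flatMap_cons]
    exact List.rel_append (h1 a) ih

theorem getD_flat {α β γ : Type} (l : List α) (l' : List β) (F : α → β → γ) (d : γ) :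
    ∀ (x y : ℕ) (hx : x < l.length) (hy : y < l'.length),
    (l.flatMap fun e => l'.map fun f => F e f).getD (x * l'.length + y) d = F l[x] l'[y] := by
  induction l with
  | nil => intro x y hx; exact absurd hx (by simp)
  | cons a l ih =>
    intro x y hx hy
    rw [List.flatMap_cons]
    rcases x with _ | x
    · rw [Nat.zero_mul, Nat.zero_add, List.getD_append _ _ _ _ (by simpa using hy)]
      simp [hy]
    · have e : (x + 1) * l'.length + y = x * l'.length + y + l'.length := by ring
      rw [e, List.getD_append_right _ _ _ _ (by simp)]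
      rw [List.length_map, Nat.add_sub_cancel]
      rw [ih x y (by simpa using hx) hy]
      simp

theorem length_flat {α β γ : Type} (l : List α) (l' : List β) (F : α → β → γ) :
    (l.flatMap fun e => l'.map fun f => F e f).length = l.length * l'.length := by
  induction l with
  | nil => simp
  | cons a l ih =>
    rw [List.flatMap_cons, List.length_append, ih, List.length_map, List.length_cons]
    ring

theorem mem_poss (m n : ℕ) (e : ℕ × ℕ) : e ∈ poss m n ↔ e.1 < m ∧ e.2 < n := by
  obtain ⟨i, j⟩ := e
  unfold poss
  simp only [List.mem_flatMap, List.mem_range, List.mem_map, Prod.mk.injEq]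
  constructor
  · rintro ⟨a, ha, b, hb, rfl, rfl⟩
    exact ⟨ha, hb⟩
  · rintro ⟨h1, h2⟩
    exact ⟨i, h1, j, h2, rfl, rfl⟩

/-- the value at a position -/
def val (g : Reg → ℝ) (e : ℕ × ℕ) : ℝ := g [0, e.1, e.2]

/-- the outcomes -/
noncomputable def outs (m n : ℕ) (g : Reg → ℝ) : List ℝ :=
  (poss m n).flatMap fun e => (poss m n).map fun f => val g e - val g f

theorem hasVal (p : Polynomial ℕ) (S : ℕ) (g : Reg → ℝ) (hp : ∀ lam, lam + 1 ≤ p.eval (S + lam))
    (e f : ℕ × ℕ) : HasVal g (Gd p S g)
      ([(⟨Op.sub, [20], [0, e.1, e.2], [0, f.1, f.2]⟩ : Instr)], [20]) (val g e - val g f) := by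
  have hb : ∀ i j : ℕ, ([0, i, j] : Reg) ∈ baseReg := by
    intro i j
    show ([0, i, j] : Reg).headD 0 < 4
    simp
  have h20 : ([20] : Reg) ∉ baseReg := by
    show ¬ ([20] : Reg).headD 0 < 4
    simp
  refine ⟨⟨hb _ _, hb _ _, h20, trivial⟩, Function.update g [20] (val g e - val g f), ?_, ?_, ?_, ?_⟩
  · intro r hr
    rw [Function.update_of_ne]
    rintro rfl
    exact h20 hr
  · intro I hI
    rw [List.mem_singleton] at hI
    subst hI
    have n1 : ∀ i j : ℕ, ([0, i, j] : Reg) ≠ [20] := by
      intro i j h
      simp at h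
    refine ⟨?_, fun h => absurd h (by simp), ?_⟩
    · show Function.update g [20] (val g e - val g f) [20] = _ - _
      rw [Function.update_self]
      simp only
      rw [Function.update_of_ne (n1 _ _), Function.update_of_ne (n1 _ _)]
      rfl
    · intro lam hRB
      simp only [Function.update_self]
      obtain ⟨D, hD1, hD2, hD⟩ := hRB
      obtain ⟨z, hz, hz2⟩ := hD _ (hb e.1 e.2)
      obtain ⟨z', hz', hz2'⟩ := hD _ (hb f.1 f.2)
      have h1 : 2 ^ lam ≤ 2 ^ p.eval (S + lam) := by
        apply Nat.pow_le_pow_right (by norm_num)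
        have := hp lam
        omega
      have h2 : 2 ^ (lam + 1) ≤ 2 ^ p.eval (S + lam) :=
        Nat.pow_le_pow_right (by norm_num) (hp lam)
      refine ⟨D, z - z', hD1, hD2.trans h1, ?_, ?_⟩
      · refine le_trans ?_ h2
        rw [pow_succ]
        have := Int.natAbs_sub_le z z'
        omega
      · rw [sub_mul]
        show val g e * D - val g f * D = _
        unfold val
        rw [hz2, hz2']
        push_cast
        ring
  · exact Or.inr ⟨_, List.mem_singleton_self _, rfl⟩
  · simp

theorem outs_getD (m n : ℕ) (g : Reg → ℝ) (x y : ℕ) (hx : x < (poss m n).length)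
    (hy : y < (poss m n).length) :
    ((outs m n g).map signOut).getD (x * (poss m n).length + y) none =
      signOut (val g (poss m n)[x] - val g (poss m n)[y]) := by
  have e : (outs m n g).map signOut = (poss m n).flatMap fun e => (poss m n).map fun f =>
      signOut (val g e - val g f) := by
    unfold outs
    rw [List.map_flatMap]
    congr 1
    funext e
    rw [List.map_map]
    rfl
  rw [e]
  exact getD_flat _ _ _ _ x y hx hy

/-- membership in the list of representatives -/
theorem mem_reps (m n : ℕ) (g : Reg → ℝ) (e : ℕ × ℕ) :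
    e ∈ repsOf m n ((outs m n g).map signOut) ↔ ∃ (x : ℕ) (hx : x < (poss m n).length),
      e = (poss m n)[x] ∧ ∀ (y : ℕ) (hy : y < x), val g (poss m n)[x] ≠
        val g ((poss m n)[y]'(hy.trans hx)) := by
  unfold repsOf
  rw [List.mem_flatMap]
  constructor
  · rintro ⟨⟨a, x⟩, hp, hmem⟩
    rw [List.mem_zipIdx_iff_getElem?] at hp
    obtain ⟨hx, hax⟩ := List.getElem?_eq_some_iff.1 hp
    simp only at hx hax
    split_ifs at hmem with h
    · rw [List.mem_singleton] at hmem
      refine ⟨x, hx, hmem.trans hax.symm, fun y hy heq => ?_⟩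
      rw [List.all_eq_true] at h
      have h1 := h y (List.mem_range.2 hy)
      rw [decide_eq_true_iff] at h1
      apply h1
      simp only
      rw [outs_getD m n g x y hx (hy.trans hx), signOut_none, sub_eq_zero]
      exact heq
    · exact absurd hmem (by simp)
  · rintro ⟨x, hx, rfl, h⟩
    refine ⟨((poss m n)[x], x), ?_, ?_⟩
    · rw [List.mem_zipIdx_iff_getElem?]
      exact List.getElem?_eq_getElem hx
    · rw [if_pos]
      · exact List.mem_singleton_self _
      · rw [List.all_eq_true]
        intro y hy
        have hy' : y < x := List.mem_range.1 hy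
        rw [decide_eq_true_iff]
        simp only
        rw [outs_getD m n g x y hx (hy'.trans hx), ne_eq, signOut_none, sub_eq_zero]
        exact h y hy'

theorem pairwise_reps (m n : ℕ) (g : Reg → ℝ) :
    (repsOf m n ((outs m n g).map signOut)).Pairwise fun a b => val g a ≠ val g b := by
  unfold repsOf
  rw [List.pairwise_flatMap]
  constructor
  · intro p _
    split_ifs
    · exact List.pairwise_singleton _ _
    · exact List.Pairwise.nil
  · rw [List.pairwise_iff_getElem]
    intro i j hi hj hij
    rw [List.length_zipIdx] at hi hj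
    rw [List.getElem_zipIdx, List.getElem_zipIdx]
    intro a ha b hb
    simp only [zero_add] at ha hb
    split_ifs at ha with h1
    · split_ifs at hb with h2
      · rw [List.mem_singleton] at ha hb
        rw [ha, hb]
        rw [List.all_eq_true] at h2
        have h3 := h2 i (List.mem_range.2 hij)
        rw [decide_eq_true_iff, outs_getD m n g j i hj hi, ne_eq, signOut_none, sub_eq_zero] at h3
        exact fun h => h3 h.symm
      · exact absurd hb (by simp)
    · exact absurd ha (by simp)

theorem cover (m n : ℕ) (g : Reg → ℝ) (e : ℕ × ℕ) (he : e ∈ poss m n) :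
    ∃ e' ∈ repsOf m n ((outs m n g).map signOut), val g e = val g e' := by
  classical
  have hex : ∃ x : ℕ, ∃ hx : x < (poss m n).length, val g (poss m n)[x] = val g e := by
    obtain ⟨x, hx, h⟩ := List.getElem_of_mem he
    exact ⟨x, hx, by rw [h]⟩
  obtain ⟨hx, hv⟩ := Nat.find_spec hex
  refine ⟨(poss m n)[Nat.find hex], ?_, hv.symm⟩
  rw [mem_reps]
  refine ⟨_, hx, rfl, fun y hy h => ?_⟩
  exact Nat.find_min hex hy ⟨hy.trans hx, by rw [← h, hv]⟩

end TPH1

open TPH1 in
theorem t_PH1 : ∀ k, S_BND → S_BATCH → S_PH1 k := by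
  intro k hBND hBATCH
  refine ⟨2 * Polynomial.X ^ 4 + Polynomial.X + 1, fun m n A b hk => ?_⟩
  set g := start A b with hg
  set reps := repsOf m n ((outs m n g).map signOut) with hreps
  have hev : ∀ t : ℕ, (2 * Polynomial.X ^ 4 + Polynomial.X + 1 : Polynomial ℕ).eval t =
      2 * t ^ 4 + t + 1 := by
    intro t
    simp
  have hval : ∀ e ∈ poss m n, val g e ∈ Set.range fun p : Fin m × Fin n => A p.1 p.2 := by
    intro e he
    rw [mem_poss] at he
    refine ⟨(⟨e.1, he.1⟩, ⟨e.2, he.2⟩), ?_⟩
    show _ = start A b [0, e.1, e.2]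
    simp [start, he]
  have hlen : reps.length ≤ k := by
    have h1 : (reps.map (val g)).Nodup := by
      unfold List.Nodup
      rw [List.pairwise_map]
      exact pairwise_reps m n g
    have h2 : (reps.map (val g)).toFinset.card = reps.length := by
      rw [List.toFinset_card_of_nodup h1, List.length_map]
    rw [← h2, ← Set.ncard_coe_finset]
    refine le_trans (Set.ncard_le_ncard ?_ (Set.finite_range _)) hk
    intro v hv
    rw [Finset.mem_coe, List.mem_toFinset, List.mem_map] at hv
    obtain ⟨e, he, rfl⟩ := hv
    apply hval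
    rw [hreps, mem_reps] at he
    obtain ⟨x, hx, rfl, _⟩ := he
    exact List.getElem_mem hx
  refine ⟨reps, ?_, ?_⟩
  · intro i hi j hj
    obtain ⟨e', he', hv⟩ := cover m n g (i, j) ((mem_poss m n _).2 ⟨hi, hj⟩)
    obtain ⟨r, hr, hre⟩ := List.getElem_of_mem he'
    refine ⟨r, lt_of_lt_of_le hr hlen, ?_⟩
    have h1 : reps.getD r (0, 0) = e' := by
      rw [List.getD_eq_getElem _ _ hr]
      exact hre
    unfold thr
    rw [h1]
    exact hv
  · have h1 := hBATCH g (Gd (2 * Polynomial.X ^ 4 + Polynomial.X + 1) (m + n) g) (eqQs m n)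
      (outs m n g) (forall₂_flat _ _ _ _ _ fun e f => hasVal _ _ g (fun lam => by
        rw [hev]
        omega) e f)
    have h2 : ((eqQs m n).map fun q => q.1.length + 1).sum =
        2 * ((poss m n).length * (poss m n).length) := by
      have e1 : ∀ q ∈ eqQs m n, q.1.length + 1 = 2 := by
        intro q hq
        unfold eqQs at hq
        rw [List.mem_flatMap] at hq
        obtain ⟨e, _, hq⟩ := hq
        rw [List.mem_map] at hq
        obtain ⟨f, _, rfl⟩ := hq
        rfl
      rw [List.map_congr_left e1, List.map_const', List.sum_replicate, smul_eq_mul]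
      unfold eqQs
      rw [length_flat]
      ring
    have h3 : (poss m n).length = m * n := by
      unfold poss
      have := length_flat (List.range m) (List.range n) (fun i j => (i, j))
      rw [this, List.length_range, List.length_range]
    rw [h2, h3] at h1
    have h4 : 2 * (m * n * (m * n)) ≤ 2 * (m + n) ^ 4 + (m + n) + 1 := by
      have h5 : m * n ≤ (m + n) ^ 2 := by nlinarith
      have h6 : m * n * (m * n) ≤ (m + n) ^ 2 * (m + n) ^ 2 := Nat.mul_le_mul h5 h5
      have h7 : (m + n) ^ 2 * (m + n) ^ 2 = (m + n) ^ 4 := by ring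
      rw [h7] at h6
      omega
    have h5 := hBND _ _ g (Gd (2 * Polynomial.X ^ 4 + Polynomial.X + 1) (m + n) g) (batch (eqQs m n))
      (fun o => ret (repsOf m n o)) _ reps _ ((2 * (m + n) ^ 4 + (m + n) + 1) - 2 * (m * n * (m * n)))
      h1 (Runs.done _ _ _ fun h => rfl)
    rw [Nat.add_sub_cancel' h4] at h5
    rw [hev]
    exact h5

end Pool.Agent.W920.FC
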