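import Pool.Agent.W920.FC.Stm

set_option autoImplicit false

/-!
# Linear feasibility for matrices with few distinct entries: phase 2
-/

namespace Pool.Agent.W920.FC

open Pool.Agent.NPC Pool.Agent.H558R2 Pool.Agent.H622R3.SM

namespace TPH2

theorem QB_mono {β β' : ℕ} {v : ℝ} (h : β ≤ β') (hv : QB β v) : QB β' v := by
  obtain ⟨E, z, h1, h2, h3, h4⟩ := hv
  have hp : (2 : ℕ) ^ β ≤ 2 ^ β' := Nat.pow_le_pow_right (by norm_num) h
  exact ⟨E, z, h1, h2.trans hp, h3.trans hp, h4⟩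

theorem Gd_mono {p q : Polynomial ℕ} {S : ℕ} {g : Reg → ℝ} {v : ℝ}
    (h : ∀ x, p.eval x ≤ q.eval x) (hv : Gd p S g v) : Gd q S g v :=
  fun lam hl => QB_mono (h _) (hv lam hl)

end TPH2

open TPH2 in
/-- Phase 2 -/
theorem t_PH2 : ∀ k, S_BND → S_ITER → S_MONO → S_STG k → S_G2 → S_POLYB k → S_PH2 k := by
  intro k hBND hITER hMONO hSTG hG2 hPOLYB
  obtain ⟨q, hq⟩ := hSTG
  obtain ⟨qB, hqB⟩ := hPOLYB
  refine ⟨q + qB * q, fun m n g reps hg => ?_⟩
  classical
  choose! nx hnx1 hnx2 using fun (j : ℕ) (s : S2) (hj : j < cN k m)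
    (hI : Inv2 k m (wv k m g reps) j s) => hq m n g reps j s hg hj hI
  obtain ⟨s, hs0, hs⟩ : ∃ s : ℕ → S2, s 0 = ([], (unitF (cN k m), 1)) ∧
      ∀ i, s (i + 1) = nx i (s i) :=
    ⟨fun i => Nat.rec ([], (unitF (cN k m), 1)) (fun i x => nx i x) i, rfl, fun _ => rfl⟩
  have hI : ∀ i, i ≤ cN k m → Inv2 k m (wv k m g reps) i (s i) := by
    intro i
    induction i with
    | zero =>
      intro _
      rw [hs0]
      exact (hG2 k m (wv k m g reps) (s 0)).1
    | succ i ih =>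
      intro hi
      rw [hs]
      exact hnx1 i (s i) (by omega) (ih (by omega))
  have hR := hITER S2 g (Gd q (m + n) g) (stage k m reps) s (cN k m) (q.eval (m + n))
    (fun i hi => by
      rw [hs]
      exact hnx2 i (s i) hi (hI i hi.le))
  rw [hs0] at hR
  have hR2 := hBND S2 (List (List ℤ × ℕ)) g (Gd q (m + n) g) _ (fun s => ret s.1) _ (s (cN k m)).1
    _ 0 hR (Runs.done _ _ 0 fun _ => rfl)
  refine ⟨(s (cN k m)).1, (hG2 k m (wv k m g reps) (s (cN k m))).2 (hI _ le_rfl), ?_⟩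
  refine hMONO _ g _ _ _ _ _ _ (fun v hv => Gd_mono (fun x => ?_) hv) ?_ hR2
  · rw [Polynomial.eval_add]
    exact Nat.le_add_right _ _
  · rw [Polynomial.eval_add, Polynomial.eval_mul]
    have h1 := Nat.mul_le_mul_right (q.eval (m + n)) (hqB m n).1
    omega

end Pool.Agent.W920.FC
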