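import Pool.Agent.W920.FC.Stm

set_option autoImplicit false
set_option linter.all false

namespace Pool.Agent.W920.FC

open Pool.Agent.NPC Pool.Agent.H558R2 Pool.Agent.H622R3.SM

namespace TPLEN

theorem len_le {α β : Type} (l : List α) (f : α → List β) (c : ℕ)
    (h : ∀ a ∈ l, (f a).length ≤ c) : (l.flatMap f).length ≤ l.length * c := by
  induction l with
  | nil => simp
  | cons a l ih =>
    rw [List.flatMap_cons, List.length_append, List.length_cons]
    have h1 := h a (by simp)
    have h2 := ih (fun b hb => h b (by simp [hb]))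
    have : (l.length + 1) * c = l.length * c + c := by ring
    omega

theorem len_fr {β : Type} (m : ℕ) (f : ℕ → List β) (c : ℕ) (h : ∀ a, (f a).length ≤ c) :
    ((List.range m).flatMap f).length ≤ m * c := by
  have := len_le (List.range m) f c (fun a _ => h a)
  rwa [List.length_range] at this

theorem l_pow (k m : ℕ) (reps : List (ℕ × ℕ)) : (powProg k m reps).length ≤ k * (m + 1) := by
  unfold powProg
  exact len_fr k _ _ (fun a => by simp)

theorem l_exps (m j : ℕ) : (exps m j).length ≤ (m + 1) ^ j := by
  induction j with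
  | zero => simp [exps]
  | succ j ih =>
    unfold exps
    refine (len_fr (m + 1) _ ((m + 1) ^ j) (fun d => ?_)).trans (le_of_eq (by ring))
    rw [List.length_map]
    exact ih

theorem l_mon (k m : ℕ) : (monProg k m).length ≤ cN k m * (k + 1) := by
  unfold monProg cN
  refine (len_le _ _ (k + 1) (fun p _ => by simp)).trans ?_
  rw [List.length_zipIdx]
  exact Nat.mul_le_mul_right _ (l_exps m (k + 1))

theorem l_mul (k c l : ℕ) (a : ℤ) (B : ℕ) (h : a.natAbs ≤ 2 ^ B) :
    (mulProg k c l a).length ≤ 2 * B + 3 := by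
  unfold mulProg
  rw [List.length_cons]
  have h1 : a.natAbs.bits.length ≤ B + 1 := by
    rw [Nat.size_eq_bits_len, Nat.size_le]
    calc a.natAbs ≤ 2 ^ B := h
      _ < 2 ^ (B + 1) := Nat.pow_lt_pow_right (by norm_num) (by omega)
  have h2 := len_le a.natAbs.bits.reverse.zipIdx (fun p =>
      [(⟨Op.add, [34, c, l, p.2], [33, c, l, p.2], [33, c, l, p.2]⟩ : Instr),
        ⟨Op.add, [33, c, l, p.2 + 1], [34, c, l, p.2], if p.1 then [31, l, k] else [3]⟩]) 2
        (fun a _ => by simp)
  rw [List.length_zipIdx, List.length_reverse] at h2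
  omega

theorem getD_small (B : ℕ) (C : List ℤ) (h : SmallL B C) (l : ℕ) : (C.getD l 0).natAbs ≤ 2 ^ B := by
  rcases lt_or_ge l C.length with hl | hl
  · rw [List.getD_eq_getElem _ _ hl]
    exact h _ (List.getElem_mem hl)
  · rw [List.getD_eq_default _ _ hl]
    simp

theorem l_form (k N c : ℕ) (C : List ℤ) (B : ℕ) (h : SmallL B C) :
    (formProg k N c C).length ≤ 1 + N * (2 * B + 4) := by
  unfold formProg
  rw [List.length_cons, add_comm]
  refine Nat.add_le_add_left (len_fr N _ _ (fun l => ?_)) 1
  rw [List.length_append]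
  have h1 := l_mul k c l (C.getD l 0) B (getD_small B C h l)
  simp only [List.length_cons, List.length_nil]
  omega

theorem l_rat (k N : ℕ) (L : List (List ℤ × List ℤ)) (B : ℕ) (h : SmallP B L) :
    (ratProg k N L).length ≤ L.length * (2 * (1 + N * (2 * B + 4)) + 1) := by
  unfold ratProg
  have h1 := len_le L.zipIdx (fun p => formProg k N (2 * p.2) p.1.1 ++ (formProg k N (2 * p.2 + 1) p.1.2 ++
    [(⟨Op.div, [35, p.2], [32, 2 * p.2, N], [32, 2 * p.2 + 1, N]⟩ : Instr)]))
    (2 * (1 + N * (2 * B + 4)) + 1) (fun p hp => by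
      have hm := List.fst_mem_of_mem_zipIdx hp
      have a1 := l_form k N (2 * p.2) p.1.1 B (h _ hm).1
      have a2 := l_form k N (2 * p.2 + 1) p.1.2 B (h _ hm).2
      simp only [List.length_append, List.length_cons, List.length_nil]
      omega)
  rwa [List.length_zipIdx] at h1

theorem l_mat (m n : ℕ) : (matProg m n).length ≤ m * (cK m n * 2) := by
  unfold matProg
  exact len_fr m _ _ (fun i => len_fr _ _ _ (fun j => by simp))

theorem l_gram (m n : ℕ) (drop : List Bool) :
    (gramProg m n drop).length ≤ cK m n * (cK m n * (2 * m + 2)) := by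
  unfold gramProg
  refine len_fr _ _ _ (fun i => len_fr _ _ _ (fun j => ?_))
  rw [List.length_append, List.length_cons]
  have h1 := len_fr m (fun i' =>
      [(⟨Op.mul, [38, i, j, i'], [37, i', i], [37, i', j]⟩ : Instr),
        ⟨Op.add, [39, i, j, i' + 1], [39, i, j, i'], [38, i, j, i']⟩]) 2 (fun a => by simp)
  simp only [List.length_cons, List.length_nil]
  omega

theorem l_fl (K : ℕ) : (flProg K).length ≤ (K * K + 1) + K * (K * (K * (K * 2 + 1)) + (K + 3 + K * K)) := by
  unfold flProg
  rw [List.length_append]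
  refine Nat.add_le_add ?_ (len_fr K _ _ (fun k => ?_))
  · unfold initProg
    rw [List.length_cons]
    exact Nat.add_le_add_right (len_fr K _ K (fun i => by rw [List.length_map, List.length_range])) 1
  · rw [List.length_append, List.length_append]
    refine Nat.add_le_add ?_ (Nat.add_le_add ?_ ?_)
    · unfold prodProg
      refine len_fr K _ _ (fun i => len_fr K _ _ fun j => ?_)
      rw [List.length_cons]
      exact Nat.add_le_add_right (len_fr K _ 2 (fun l => le_rfl)) 1
    · unfold traceProg
      simp only [List.length_append, List.length_cons, List.length_map, List.length_range,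
        List.length_nil]
      omega
    · unfold nextProg
      exact len_fr K _ K (fun i => by rw [List.length_map, List.length_range])

theorem l_num (T : ℕ) : (numProg T).length ≤ T + 1 := by
  unfold numProg
  simp

theorem l_dot (K r j : ℕ) (y : List ℕ) : (dotProg K r j y).length ≤ 2 * K + 1 := by
  unfold dotProg
  rw [List.length_cons]
  have := len_fr K (fun l =>
    [(⟨Op.mul, [41, l], [6, r, j, l], [40, y.getD l 0]⟩ : Instr),
      ⟨Op.add, [42, l + 1], [42, l], [41, l]⟩]) 2 (fun a => by simp)
  omega

/-- the bound -/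
def Gb (k s N K B : ℕ) : ℕ := (k * (s + 1) + N * (k + 1)) + (1 + N * (2 * B + 4)) +
  (2 * (2 * (1 + N * (2 * B + 4)) + 1) + 1) + K * (2 * (1 + N * (2 * B + 4)) + 1) + s * (K * 2) +
  K * (K * (2 * s + 2)) + ((K * K + 1) + K * (K * (K * (K * 2 + 1)) + (K + 3 + K * K))) +
  (4 * (K * (K * K)) + 1) + (2 * K + 1)

theorem Gb_mono (k s N K B s' N' K' : ℕ) (h1 : s ≤ s') (h2 : N ≤ N') (h3 : K ≤ K') :
    Gb k s N K B ≤ Gb k s' N' K' B := by
  unfold Gb
  gcongr

/-- the polynomial -/
noncomputable def Gq (k : ℕ) (pB : Polynomial ℕ) : Polynomial ℕ :=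
  let s : Polynomial ℕ := Polynomial.X
  let N : Polynomial ℕ := (Polynomial.X + 1) ^ (k + 1)
  let K : Polynomial ℕ := 2 * Polynomial.X + 1
  let B : Polynomial ℕ := pB
  ((k : Polynomial ℕ) * (s + 1) + N * ((k : Polynomial ℕ) + 1)) + (1 + N * (2 * B + 4)) +
  (2 * (2 * (1 + N * (2 * B + 4)) + 1) + 1) + K * (2 * (1 + N * (2 * B + 4)) + 1) + s * (K * 2) +
  K * (K * (2 * s + 2)) + ((K * K + 1) + K * (K * (K * (K * 2 + 1)) + (K + 3 + K * K))) +
  (4 * (K * (K * K)) + 1) + (2 * K + 1)

theorem Gq_eval (k : ℕ) (pB : Polynomial ℕ) (s : ℕ) :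
    (Gq k pB).eval s = Gb k s ((s + 1) ^ (k + 1)) (2 * s + 1) (pB.eval s) := by
  simp only [Gq, Gb, Polynomial.eval_add, Polynomial.eval_mul, Polynomial.eval_pow,
    Polynomial.eval_X, Polynomial.eval_one, Polynomial.eval_natCast, Polynomial.eval_ofNat, Nat.cast_id]

end TPLEN

open TPLEN in
theorem t_PLEN : ∀ k, S_PLEN k := by
  intro k pB
  refine ⟨Gq k pB, fun m n reps => ?_⟩
  have hG : Gb k m (cN k m) (cK m n) (pB.eval (m + n)) ≤ (Gq k pB).eval (m + n) := by
    rw [Gq_eval]
    apply Gb_mono
    · omega
    · unfold cN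
      exact Nat.pow_le_pow_left (by omega) _
    · unfold cK
      omega
  have hb : (baseProg k m reps).length ≤ k * (m + 1) + cN k m * (k + 1) := by
    unfold baseProg
    rw [List.length_append]
    exact Nat.add_le_add (l_pow k m reps) (l_mon k m)
  refine ⟨fun C hC => ?_, fun u v huv => ?_, fun L drop y k' r j hL hB => ?_⟩
  · refine le_trans ?_ hG
    show (baseProg k m reps ++ formProg k (cN k m) 0 C).length ≤ _
    rw [List.length_append]
    have h1 := l_form k (cN k m) 0 C _ hC
    unfold Gb
    omega
  · refine le_trans ?_ hG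
    show (baseProg k m reps ++ (ratProg k (cN k m) [u, v] ++
      [(⟨Op.sub, [20], [35, 0], [35, 1]⟩ : Instr)])).length ≤ _
    rw [List.length_append, List.length_append]
    have h1 := l_rat k (cN k m) [u, v] _ huv
    simp only [List.length_cons, List.length_nil] at h1 ⊢
    unfold Gb
    omega
  · have hp : (perProg k m n reps L drop).length ≤ (k * (m + 1) + cN k m * (k + 1)) +
        (cK m n * (2 * (1 + cN k m * (2 * pB.eval (m + n) + 4)) + 1) + (m * (cK m n * 2) +
          (cK m n * (cK m n * (2 * m + 2)) + ((cK m n * cK m n + 1) +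
            cK m n * (cK m n * (cK m n * (cK m n * 2 + 1)) + (cK m n + 3 + cK m n * cK m n)))))) := by
      unfold perProg
      rw [List.length_append, List.length_append, List.length_append, List.length_append]
      have h1 := l_rat k (cN k m) L _ hB
      rw [hL] at h1
      exact Nat.add_le_add hb (Nat.add_le_add h1 (Nat.add_le_add (l_mat m n)
        (Nat.add_le_add (l_gram m n drop) (l_fl _))))
    constructor
    · refine le_trans ?_ hG
      show (perProg k m n reps L drop).length ≤ _
      unfold Gb
      omega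
    · refine le_trans ?_ hG
      show (perProg k m n reps L drop ++ (numProg (cT m n) ++ dotProg (cK m n) r j y)).length ≤ _
      rw [List.length_append, List.length_append]
      have h1 := l_num (cT m n)
      have h2 := l_dot (cK m n) r j y
      have h3 : cT m n = 4 * (cK m n * (cK m n * cK m n)) := rfl
      rw [h3] at h1 ⊢
      unfold Gb
      omega

end Pool.Agent.W920.FC
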