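import Pool.Agent.W920.FC.Stm

set_option autoImplicit false

/-! Polynomial time: queries for forms and ratios (helper162). -/

namespace Pool.Agent.W920.FC

open Pool.Agent.NPC Pool.Agent.H558R2 Pool.Agent.H622R3.SM

namespace TPP1

variable {α : Type} [TEnc α]

theorem pInstr (o : Op) {f g k : α → Reg} (hf : Poly f) (hg : Poly g) (hk : Poly k) :
    Poly (fun a => Instr.mk o (f a) (g a) (k a)) :=
  Pool.Agent.NPC.Poly.of_toT (Pool.Agent.NPC.Poly.toT' (Pool.Agent.NPC.Poly.pair
    (Pool.Agent.NPC.Poly.const (opCode o))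
    (Pool.Agent.NPC.Poly.pair hf (Pool.Agent.NPC.Poly.pair hg hk))))

theorem pNatAbs {f : α → ℤ} (h : Poly f) : Poly (fun a => (f a).natAbs) := Poly.natAbs h

theorem pBits {f : α → ℕ} (h : Poly f) : Poly (fun a => (f a).bits) := Poly.natBits h

theorem pIsNeg {f : α → ℤ} (h : Poly f) : Poly (fun a => decide (f a < 0)) := Poly.isNeg h

attribute [local fun_prop] pInstr Poly.range_length pNatAbs pBits pIsNeg

theorem uN (k : ℕ) {U : α → List Unit} (hU : Poly U) : UPoly (fun a => cN k (U a).length) := by
  have h := UPoly.eval (UPoly.length hU) ((Polynomial.X + 1) ^ (k + 1))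
  simpa [cN] using h

theorem uMM {U : α → List Unit} (hU : Poly U) :
    UPoly (fun a => (U a).length * (U a).length) := UPoly.mul (UPoly.length hU) (UPoly.length hU)

theorem uE (k : ℕ) {U : α → List Unit} (hU : Poly U) : UPoly (fun a => cE k (U a).length) :=
  UPoly.add (UPoly.add (uMM hU) (UPoly.mul (UPoly.const 2) (uN k hU))) (UPoly.const 4)

theorem uP (k : ℕ) {U : α → List Unit} (hU : Poly U) : UPoly (fun a => cP k (U a).length) :=
  UPoly.mul (UPoly.add (uN k hU) (UPoly.const 1)) (uE k hU)

theorem uQ (k : ℕ) {U : α → List Unit} (hU : Poly U) : UPoly (fun a => cQ k (U a).length) :=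
  UPoly.add (UPoly.add (uMM hU) (uP k hU)) (UPoly.const 3)

theorem pExpStep {E : α → List (List ℕ)} {R : α → List ℕ} (hE : Poly E) (hR : Poly R) :
    Poly (fun a => (R a).flatMap fun d => (E a).map fun e => d :: e) := by
  fun_prop

theorem pExps (j : ℕ) {U : α → List Unit} (hU : Poly U) :
    Poly (fun a => exps (U a).length j) := by
  induction j with
  | zero => exact NPC.Poly.const _
  | succ j ih =>
    have h1 : Poly (fun a => List.range ((U a).length + 1)) :=
      (UPoly.add (UPoly.length hU) (UPoly.const 1)).range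
    exact pExpStep ih h1

theorem pThr {reps : α → List (ℕ × ℕ)} {r : α → ℕ} (hr : Poly reps) (h : Poly r) :
    Poly (fun a => thr (reps a) (r a)) := by
  unfold thr
  fun_prop

theorem pBreg {d : α → ℕ} (hd : Poly d) : Poly (fun a => breg (d a)) := by
  unfold breg
  fun_prop

attribute [local fun_prop] pThr pBreg

theorem pPow (k : ℕ) {U : α → List Unit} {reps : α → List (ℕ × ℕ)} (hU : Poly U)
    (hr : Poly reps) : Poly (fun a => powProg k (U a).length (reps a)) := by
  unfold powProg
  fun_prop

theorem pMon (k : ℕ) {U : α → List Unit} (hU : Poly U) :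
    Poly (fun a => monProg k (U a).length) := by
  have h := pExps (k + 1) hU
  unfold monProg
  fun_prop

theorem pBase (k : ℕ) {U : α → List Unit} {reps : α → List (ℕ × ℕ)} (hU : Poly U)
    (hr : Poly reps) : Poly (fun a => baseProg k (U a).length (reps a)) :=
  Poly.append (pPow k hU hr) (pMon k hU)

theorem pMul (k : ℕ) {c l : α → ℕ} {x : α → ℤ} (hc : Poly c) (hl : Poly l) (hx : Poly x) :
    Poly (fun a => mulProg k (c a) (l a) (x a)) := by
  unfold mulProg
  fun_prop

attribute [local fun_prop] pMul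

theorem pForm (k : ℕ) {N c : α → ℕ} {C : α → List ℤ} (hN : UPoly N) (hc : Poly c)
    (hC : Poly C) : Poly (fun a => formProg k (N a) (c a) (C a)) := by
  have h := hN.range
  unfold formProg
  fun_prop

theorem pRat (k : ℕ) {N : α → ℕ} {L : α → List (List ℤ × List ℤ)} (hN : UPoly N)
    (hL : Poly L) : Poly (fun a => ratProg k (N a) (L a)) := by
  have hN' : Poly N := hN.toPoly
  unfold ratProg
  refine Poly.flatMap (by fun_prop) ?_
  refine Poly.append (pForm k (N := fun x : α × ((List ℤ × List ℤ) × ℕ) => N x.1)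
    (UPoly.comp hN (by fun_prop)) (by fun_prop) (by fun_prop)) (Poly.append
    (pForm k (N := fun x : α × ((List ℤ × List ℤ) × ℕ) => N x.1)
    (UPoly.comp hN (by fun_prop)) (by fun_prop) (by fun_prop)) ?_)
  fun_prop

end TPP1

theorem t_PP1 : ∀ k, S_PP1 k := by
  intro k α _ U reps hU hr
  have hN := TPP1.uN k hU
  have hN' : Poly (fun a => cN k (U a).length) := hN.toPoly
  refine ⟨hN, TPP1.uE k hU, TPP1.uP k hU, TPP1.uQ k hU, ?_, ?_⟩
  · intro C hC
    refine Poly.pair (Poly.append (TPP1.pBase k hU hr) (TPP1.pForm k hN (NPC.Poly.const 0) hC)) ?_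
    fun_prop
  · intro u v hu hv
    refine Poly.pair (Poly.append (TPP1.pBase k hU hr) (Poly.append (TPP1.pRat k hN ?_) ?_)) ?_
    · fun_prop
    · exact NPC.Poly.const _
    · exact NPC.Poly.const _

end Pool.Agent.W920.FC
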