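import Pool.Agent.W920.FC.Stm
import Pool.Agent.H687R2.IntPoly
import Pool.Agent.H622R3.SM.T_PM

set_option autoImplicit false

/-! The queries of the perceptron algorithm in polynomial time (helper505). -/

namespace Pool.Agent.W920.FC

open Pool.Agent.NPC Pool.Agent.H558R2 Pool.Agent.H622R3.SM

namespace TPP2

variable {α : Type} [TEnc α]

attribute [local fun_prop] TPM.pInstr NPC.Poly.range_length NPC.Poly.natAbs NPC.Poly.natBits
  NPC.Poly.isNeg NPC.Poly.ilt

theorem pexps (j : ℕ) {U : α → List Unit} (hU : Poly U) :
    Poly (fun a => exps (U a).length j) := by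
  induction j with
  | zero => exact NPC.Poly.const _
  | succ j ih =>
    unfold exps
    have h1 : Poly (fun a => List.range (U a ++ [()]).length) := by fun_prop
    have h2 : Poly (fun a => List.range ((U a).length + 1)) := h1.congr fun a => by simp
    obtain ⟨X, hX⟩ : ∃ X : α → List (List ℕ), X = fun a => exps (U a).length j := ⟨_, rfl⟩
    rw [← hX] at ih
    have e : ∀ a, exps (U a).length j = X a := fun a => by rw [hX]
    simp only [e]
    fun_prop

theorem pthr {reps : α → List (ℕ × ℕ)} {r : α → ℕ} (h1 : Poly reps) (h2 : Poly r) :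
    Poly (fun a => thr (reps a) (r a)) := by
  unfold thr
  fun_prop

theorem pbreg {r : α → ℕ} (h2 : Poly r) : Poly (fun a => breg (r a)) := by
  unfold breg
  fun_prop

attribute [local fun_prop] pthr pbreg

theorem ppow (k : ℕ) {U : α → List Unit} {reps : α → List (ℕ × ℕ)} (hU : Poly U) (h1 : Poly reps) :
    Poly (fun a => powProg k (U a).length (reps a)) := by
  unfold powProg
  fun_prop

theorem pmon (k : ℕ) {U : α → List Unit} (hU : Poly U) :
    Poly (fun a => monProg k (U a).length) := by
  unfold monProg
  obtain ⟨X, hX⟩ : ∃ X : α → List (List ℕ), X = fun a => exps (U a).length (k + 1) := ⟨_, rfl⟩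
  have hP := pexps (k + 1) hU
  rw [← hX] at hP
  have e : ∀ a, exps (U a).length (k + 1) = X a := fun a => by rw [hX]
  simp only [e]
  fun_prop

theorem pbase (k : ℕ) {U : α → List Unit} {reps : α → List (ℕ × ℕ)} (hU : Poly U)
    (h1 : Poly reps) : Poly (fun a => baseProg k (U a).length (reps a)) :=
  NPC.Poly.append (ppow k hU h1) (pmon k hU)

theorem pmul (k : ℕ) {c l : α → ℕ} {a : α → ℤ} (hc : Poly c) (hl : Poly l) (ha : Poly a) :
    Poly (fun x => mulProg k (c x) (l x) (a x)) := by
  unfold mulProg
  fun_prop

attribute [local fun_prop] pmul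

theorem pform (k : ℕ) {c : α → ℕ} {N : α → List Unit} {C : α → List ℤ} (hc : Poly c)
    (hN : Poly N) (hC : Poly C) : Poly (fun x => formProg k (N x).length (c x) (C x)) := by
  unfold formProg
  fun_prop

attribute [local fun_prop] pform

theorem prat (k : ℕ) {N : α → List Unit} {L : α → List (List ℤ × List ℤ)}
    (hN : Poly N) (hL : Poly L) : Poly (fun x => ratProg k (N x).length (L x)) := by
  unfold ratProg
  fun_prop

/-- `cK` in unary -/
def uK (U V : List Unit) : List Unit := U ++ (V ++ V) ++ [()]

theorem uK_length (U V : List Unit) : (uK U V).length = cK U.length V.length := by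
  simp only [uK, cK, List.length_append, List.length_singleton]

theorem puK {U V : α → List Unit} (hU : Poly U) (hV : Poly V) :
    Poly (fun a => uK (U a) (V a)) := by
  unfold uK
  fun_prop

theorem pent {U V : α → List Unit} {i j : α → ℕ} (hU : Poly U) (hV : Poly V) (hi : Poly i)
    (hj : Poly j) : Poly (fun a => entProg (U a).length (V a).length (i a) (j a)) := by
  unfold entProg
  fun_prop

attribute [local fun_prop] pent puK

theorem pmat {U V : α → List Unit} (hU : Poly U) (hV : Poly V) :
    Poly (fun a => matProg (U a).length (V a).length) := by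
  unfold matProg
  simp only [← uK_length]
  fun_prop

theorem pgram {U V : α → List Unit} {drop : α → List Bool} (hU : Poly U) (hV : Poly V)
    (hd : Poly drop) : Poly (fun a => gramProg (U a).length (V a).length (drop a)) := by
  unfold gramProg
  simp only [← uK_length]
  fun_prop

attribute [local fun_prop] TPM.pInitProg TPM.pProdProg TPM.pTraceProg TPM.pNextProg

theorem pfl {U : α → List Unit} (hU : Poly U) : Poly (fun a => flProg (U a).length) := by
  unfold flProg
  fun_prop

theorem pnum {U : α → List Unit} (hU : Poly U) : Poly (fun a => numProg (U a).length) := by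
  unfold numProg
  fun_prop

theorem pdot {U : α → List Unit} {r j : α → ℕ} {y : α → List ℕ} (hU : Poly U) (hr : Poly r)
    (hj : Poly j) (hy : Poly y) : Poly (fun a => dotProg (U a).length (r a) (j a) (y a)) := by
  unfold dotProg
  fun_prop

/-- `cT` in unary -/
theorem pcT {U V : α → List Unit} (hU : Poly U) (hV : Poly V) :
    UPoly (fun a => cT (U a).length (V a).length) := by
  have h1 : UPoly (fun a => cK (U a).length (V a).length) :=
    (UPoly.length (puK hU hV)).congr fun a => by
      beta_reduce
      rw [uK_length]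
  unfold cT
  exact UPoly.mul (UPoly.const 4) (UPoly.mul h1 (UPoly.mul h1 h1))

attribute [local fun_prop] pbase prat pmat pgram pfl pnum pdot

theorem pper (k : ℕ) {U V N : α → List Unit} {reps : α → List (ℕ × ℕ)}
    {L : α → List (List ℤ × List ℤ)} {drop : α → List Bool} (hU : Poly U) (hV : Poly V)
    (hN : Poly N) (hN' : ∀ a, (N a).length = cN k (U a).length) (h1 : Poly reps) (h2 : Poly L)
    (h3 : Poly drop) :
    Poly (fun a => perProg k (U a).length (V a).length (reps a) (L a) (drop a)) := by
  unfold perProg
  simp only [← uK_length, ← hN']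
  fun_prop

end TPP2

theorem t_PP2 : ∀ k, S_PP1 k → S_PP2 k := by
  intro k h α _ U V reps L drop y hU hV hreps hL hdrop hy
  obtain ⟨hN, -⟩ := h α U reps hU hreps
  have hT := TPP2.pcT hU hV
  have hper := TPP2.pper k hU hV hN (fun a => by simp) hreps hL hdrop
  obtain ⟨X, hX⟩ : ∃ X : α → List Instr,
    X = fun a => perProg k (U a).length (V a).length (reps a) (L a) (drop a) := ⟨_, rfl⟩
  have eX : ∀ a, perProg k (U a).length (V a).length (reps a) (L a) (drop a) = X a :=
    fun a => by rw [hX]
  rw [← hX] at hper
  have hnum : Poly (fun a => numProg (cT (U a).length (V a).length)) :=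
    (TPP2.pnum hT).congr fun a => by simp
  obtain ⟨Y, hY⟩ : ∃ Y : α → List Instr, Y = fun a => numProg (cT (U a).length (V a).length) :=
    ⟨_, rfl⟩
  have eY : ∀ a, numProg (cT (U a).length (V a).length) = Y a := fun a => by rw [hY]
  rw [← hY] at hnum
  have hK := TPP2.puK hU hV
  obtain ⟨K, hK'⟩ : ∃ K : α → List Unit, K = fun a => TPP2.uK (U a) (V a) := ⟨_, rfl⟩
  have eK : ∀ a, cK (U a).length (V a).length = (K a).length := fun a => by
    rw [hK', TPP2.uK_length]
  rw [← hK'] at hK
  unfold perQs cQry dQry
  simp only [eX, eY, eK]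
  refine NPC.Poly.append ?_ ?_
  · refine NPC.Poly.map (NPC.Poly.range_length hK) ?_
    exact NPC.Poly.pair (hper.comp (NPC.Poly.fst NPC.Poly.id)) (by fun_prop)
  · have hK1 : Poly (fun a => List.range ((K a).length + 1)) := by
      have h1 : Poly (fun a => List.range (K a ++ [()]).length) :=
        NPC.Poly.range_length (NPC.Poly.append hK (NPC.Poly.const [()]))
      exact h1.congr fun a => by simp
    refine NPC.Poly.flatMap hK1 (NPC.Poly.map (NPC.Poly.range_length
      (hK.comp (NPC.Poly.fst NPC.Poly.id))) ?_)
    refine NPC.Poly.pair (NPC.Poly.append (by fun_prop) (NPC.Poly.append (by fun_prop) ?_))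
      (by fun_prop)
    exact TPP2.pdot (U := fun z : (α × ℕ) × ℕ => K z.1.1) (r := fun z => z.1.2)
      (j := fun z => z.2) (y := fun z => y z.1.1) (by fun_prop) (by fun_prop) (by fun_prop)
      (by fun_prop)

end Pool.Agent.W920.FC
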