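import Pool.Agent.W920.FC.Stm
import Pool.Agent.H687R2.IntPoly

set_option autoImplicit false

/-! Powers of two and integer operations in polynomial time (helper505). -/

namespace Pool.Agent.W920.FC

open Pool.Agent.NPC Pool.Agent.H558R2 Pool.Agent.H622R3.SM

namespace TPP34

variable {α : Type} [TEnc α]

theorem pow2 {n : α → ℕ} (hn : UPoly n) : Poly (fun a => 2 ^ n a) :=
  NPC.Poly.npow (NPC.Poly.const 2) hn

theorem pow4 {n : α → ℕ} (hn : UPoly n) : Poly (fun a => 4 ^ n a) :=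
  NPC.Poly.npow (NPC.Poly.const 4) hn

theorem mapPow {n : α → ℕ} (hn : UPoly n) :
    Poly (fun a => (List.range (n a)).map fun e => 2 ^ e) := by
  have h1 : UPoly (fun p : α × ℕ => min p.2 (n p.1)) :=
    UPoly.of_le (NPC.Poly.min (NPC.Poly.snd NPC.Poly.id) ((hn.toPoly).comp (NPC.Poly.fst NPC.Poly.id)))
      (hn.comp (NPC.Poly.fst NPC.Poly.id)) fun p => Nat.min_le_right _ _
  refine (NPC.Poly.map (F := fun (a : α) (e : ℕ) => 2 ^ min e (n a)) hn.range (pow2 h1)).congr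
    fun a => ?_
  refine List.map_congr_left fun e he => ?_
  rw [List.mem_range] at he
  rw [Nat.min_eq_left he.le]

theorem pfcomb {n : α → ℕ} {c d : α → ℤ} {C D : α → List ℤ} (hn : UPoly n) (hc : Poly c)
    (hd : Poly d) (hC : Poly C) (hD : Poly D) :
    Poly (fun a => fcomb (n a) (c a) (C a) (d a) (D a)) := by
  unfold fcomb
  have f1 : Poly (fun p : α × ℕ => p.1) := NPC.Poly.fst NPC.Poly.id
  refine NPC.Poly.map (F := fun (a : α) (i : ℕ) => c a * (C a).getD i 0 + d a * (D a).getD i 0)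
    hn.range ?_
  refine NPC.Poly.iadd (NPC.Poly.imul (hc.comp f1) (NPC.Poly.getD (hC.comp f1) (NPC.Poly.snd NPC.Poly.id)
    (NPC.Poly.const 0))) (NPC.Poly.imul (hd.comp f1) (NPC.Poly.getD (hD.comp f1) (NPC.Poly.snd NPC.Poly.id)
    (NPC.Poly.const 0)))

end TPP34

theorem t_PP34 : S_PP3 ∧ S_PP4 := by
  refine ⟨fun α _ => ⟨fun n hn => TPP34.pow2 hn, fun n hn => TPP34.mapPow hn,
    fun n hn => TPP34.pow4 hn⟩, fun α _ => ⟨fun x y hx hy => ?_,
    fun n c d C D hn hc hd hC hD => TPP34.pfcomb hn hc hd hC hD⟩⟩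
  exact ⟨NPC.Poly.iadd hx hy, NPC.Poly.imul hx hy, NPC.Poly.ineg hx, NPC.Poly.natAbs hx, NPC.Poly.ilt hx hy,
    NPC.Poly.ile hx hy, NPC.Poly.decide_eq hx hy⟩

end Pool.Agent.W920.FC
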