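import Pool.Agent.W920.FC.Stm

set_option autoImplicit false

/-!
# Simultaneous Diophantine approximation in polynomial time
-/

namespace Pool.Agent.W920.FC

open Pool.Agent.NPC Pool.Agent.H558R2 Pool.Agent.H622R3.SM

namespace TPP5

open Pool.Agent.H687R2.LLL

theorem rows_len (N P : ℕ) (a : List ℕ) : ∀ r ∈ sdaRows N P a, r.length = N := by
  intro r hr
  unfold sdaRows at hr
  rw [List.mem_cons] at hr
  rcases hr with rfl | hr
  · simp
  · rw [List.mem_map] at hr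
    obtain ⟨l, _, rfl⟩ := hr
    simp

theorem rows_abs (N P : ℕ) (a : List ℕ) : ∀ r ∈ sdaRows N P a, ∀ x ∈ r, x.natAbs ≤ 2 ^ P := by
  intro r hr x hx
  unfold sdaRows at hr
  rw [List.mem_cons] at hr
  rcases hr with rfl | hr
  · rw [List.mem_map] at hx
    obtain ⟨l, _, rfl⟩ := hx
    rw [Int.natAbs_natCast]
    exact min_le_right _ _
  · rw [List.mem_map] at hr
    obtain ⟨l, _, rfl⟩ := hr
    rw [List.mem_map] at hx
    obtain ⟨l', _, rfl⟩ := hx
    by_cases h : l' = l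
    · rw [if_pos h, Int.natAbs_neg, Int.natAbs_natCast]
    · rw [if_neg h]
      exact Nat.zero_le _

theorem nrm_le (l : List ℤ) (B : ℕ) (h : ∀ x ∈ l, x.natAbs ≤ B) : nrm l ≤ l.length * B := by
  induction l with
  | nil => simp [nrm]
  | cons x l ih =>
    have h1 := ih fun y hy => h y (List.mem_cons_of_mem _ hy)
    have h2 := h x List.mem_cons_self
    unfold nrm at h1 ⊢
    rw [List.map_cons, List.sum_cons, List.length_cons, Nat.succ_mul]
    omega

theorem rows_nrm (N P : ℕ) (a : List ℕ) : ∀ r ∈ sdaRows N P a, nrm r < 2 ^ (P + N + 1) := by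
  intro r hr
  have h1 := nrm_le r _ (rows_abs N P a r hr)
  rw [rows_len N P a r hr] at h1
  refine lt_of_le_of_lt h1 ?_
  have h2 : N < 2 ^ N := Nat.lt_two_pow_self
  have h3 : 0 < 2 ^ P := Nat.two_pow_pos P
  calc N * 2 ^ P < 2 ^ N * 2 ^ P := Nat.mul_lt_mul_of_pos_right h2 h3
    _ = 2 ^ (P + N) := by rw [← pow_add, Nat.add_comm]
    _ ≤ 2 ^ (P + N + 1) := Nat.pow_le_pow_right (by norm_num) (Nat.le_succ _)

theorem rows_length (N P : ℕ) (a : List ℕ) : (sdaRows N P a).length = N + 1 := by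
  simp [sdaRows]

section

variable {α : Type} [TEnc α]

theorem rows_poly {n p : α → ℕ} {l : α → List ℕ} (hn : UPoly n) (hp : UPoly p) (hl : Poly l) :
    Poly (fun a => sdaRows (n a) (p a) (l a)) := by
  have h2 : Poly (fun a => 2 ^ p a) := NPC.Poly.npow (NPC.Poly.const 2) hp
  have h3 : Poly (fun q : α × ℕ => ((min ((l q.1).getD q.2 0) (2 ^ p q.1) : ℕ) : ℤ)) :=
    NPC.Poly.natCast (NPC.Poly.min (NPC.Poly.getD (hl.comp (NPC.Poly.fst NPC.Poly.id)) (NPC.Poly.snd NPC.Poly.id)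
      (NPC.Poly.const 0)) (h2.comp (NPC.Poly.fst NPC.Poly.id)))
  have h4 : Poly (fun a => (List.range (n a)).map
      fun i => ((min ((l a).getD i 0) (2 ^ p a) : ℕ) : ℤ)) :=
    NPC.Poly.map (F := fun a i => ((min ((l a).getD i 0) (2 ^ p a) : ℕ) : ℤ)) hn.range h3
  have h5 : Poly (fun q : (α × ℕ) × ℕ => if q.2 = q.1.2 then -((2 ^ p q.1.1 : ℕ) : ℤ) else 0) :=
    NPC.Poly.ite (NPC.Poly.decide_eq (NPC.Poly.snd NPC.Poly.id) (NPC.Poly.snd (NPC.Poly.fst NPC.Poly.id)))
      (NPC.Poly.ineg (NPC.Poly.natCast (h2.comp (NPC.Poly.fst (NPC.Poly.fst NPC.Poly.id))))) (NPC.Poly.const 0)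
  have h6 : Poly (fun q : α × ℕ => (List.range (n q.1)).map
      fun i' => if i' = q.2 then -((2 ^ p q.1 : ℕ) : ℤ) else 0) :=
    NPC.Poly.map (F := fun (q : α × ℕ) i' => if i' = q.2 then -((2 ^ p q.1 : ℕ) : ℤ) else 0)
      (UPoly.range (UPoly.comp hn (NPC.Poly.fst NPC.Poly.id))) h5
  have h7 : Poly (fun a => (List.range (n a)).map fun i => (List.range (n a)).map
      fun i' => if i' = i then -((2 ^ p a : ℕ) : ℤ) else 0) :=
    NPC.Poly.map (F := fun a i => (List.range (n a)).map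
      fun i' => if i' = i then -((2 ^ p a : ℕ) : ℤ) else 0) hn.range h6
  exact NPC.Poly.cons h4 h7

end

end TPP5

theorem t_PP5 : S_PP3 → S_PP4 → S_PP5 := by
  intro _ _ α _ n e l hn he hl
  have hn1 : UPoly (fun a => n a + 1) := UPoly.add hn (UPoly.const 1)
  have hP : UPoly (fun a => (n a + 1) * e a) := UPoly.mul hn1 he
  have hX := TPP5.rows_poly hn hP hl
  have hT : UPoly (fun a => (n a + 1) * e a + n a + 1) :=
    UPoly.add (UPoly.add hP hn) (UPoly.const 1)
  have h4 : Poly (fun a => 4 ^ (n a * e a)) := NPC.Poly.npow (NPC.Poly.const 4) (UPoly.mul hn he)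
  have hB : Poly (fun a => (2 * n a + 1) * 4 ^ (n a * e a)) :=
    NPC.Poly.mul (NPC.Poly.add (NPC.Poly.mul (NPC.Poly.const 2) hn.toPoly) (NPC.Poly.const 1)) h4
  have hR := NPC.Poly.relShort hX hT hB (fun a => ⟨n a, TPP5.rows_len _ _ _⟩)
    (fun a => TPP5.rows_nrm _ _ _) (fun a => by
      rw [TPP5.rows_length]
      omega)
  have hF : Poly (fun a => (Pool.Agent.H687R2.LLL.relShort
      (sdaRows (n a) ((n a + 1) * e a) (l a)) ((n a + 1) * e a + n a + 1)
      ((2 * n a + 1) * 4 ^ (n a * e a))).filter fun u => decide (u.getD 0 0 ≠ 0)) :=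
    NPC.Poly.filter (p := fun (_ : α) (u : List ℤ) => decide (u.getD 0 0 ≠ 0)) hR
      (NPC.Poly.decide_not (NPC.Poly.decide_eq (NPC.Poly.getD (NPC.Poly.snd NPC.Poly.id) (NPC.Poly.const 0)
        (NPC.Poly.const 0)) (NPC.Poly.const 0)))
  have hU := NPC.Poly.head?_getD hF ([1] : List ℤ)
  have hU0 : Poly (fun a => (((Pool.Agent.H687R2.LLL.relShort
      (sdaRows (n a) ((n a + 1) * e a) (l a)) ((n a + 1) * e a + n a + 1)
      ((2 * n a + 1) * 4 ^ (n a * e a))).filter fun u => decide (u.getD 0 0 ≠ 0)).head?.getD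
        [1]).getD 0 0) := NPC.Poly.getD hU (NPC.Poly.const 0) (NPC.Poly.const 0)
  generalize hu : (fun a => (((Pool.Agent.H687R2.LLL.relShort
      (sdaRows (n a) ((n a + 1) * e a) (l a)) ((n a + 1) * e a + n a + 1)
      ((2 * n a + 1) * 4 ^ (n a * e a))).filter fun u => decide (u.getD 0 0 ≠ 0)).head?.getD
        [1])) = u at hU
  have hu0 : Poly (fun a => (u a).getD 0 0) := NPC.Poly.getD hU (NPC.Poly.const 0) (NPC.Poly.const 0)
  have hi : Poly (fun p : α × ℕ => (u p.1).getD (p.2 + 1) 0) :=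
    NPC.Poly.getD (hU.comp (NPC.Poly.fst NPC.Poly.id)) (NPC.Poly.succ (NPC.Poly.snd NPC.Poly.id)) (NPC.Poly.const 0)
  have h1 : Poly (fun a => (((u a).getD 0 0).natAbs,
      (List.range (n a)).map fun i => (u a).getD (i + 1) 0)) :=
    NPC.Poly.pair (NPC.Poly.natAbs hu0) (NPC.Poly.map (F := fun a i => (u a).getD (i + 1) 0) hn.range hi)
  have h2 : Poly (fun a => (((u a).getD 0 0).natAbs,
      (List.range (n a)).map fun i => - (u a).getD (i + 1) 0)) :=
    NPC.Poly.pair (NPC.Poly.natAbs hu0) (NPC.Poly.map (F := fun a i => - (u a).getD (i + 1) 0) hn.range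
      (NPC.Poly.ineg hi))
  refine (NPC.Poly.ite (p := fun a => 0 < (u a).getD 0 0) (NPC.Poly.ilt (NPC.Poly.const 0) hu0) h1
    h2).congr fun a => ?_
  rw [← hu]
  rfl

end Pool.Agent.W920.FC
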