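import Pool.Agent.W920.FC.Stm

set_option autoImplicit false

namespace Pool.Agent.W920.FC

open Pool.Agent.NPC Pool.Agent.H558R2 Pool.Agent.H622R3.SM Matrix

namespace TPROJ

lemma length_block {α : Type} (f : ℕ → ℕ → α) (K R : ℕ) :
    ((List.range R).flatMap fun r => (List.range K).map fun j => f r j).length = R * K := by
  induction R with
  | zero => simp
  | succ R ih =>
    rw [List.range_succ, List.flatMap_append, List.length_append, ih]
    simp [Nat.succ_mul]

lemma getD_block {α : Type} (f : ℕ → ℕ → α) (d : α) (K R : ℕ) :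
    ∀ r < R, ∀ j < K,
      ((List.range R).flatMap fun r => (List.range K).map fun j => f r j).getD (r * K + j) d =
        f r j := by
  induction R with
  | zero => intro r hr; omega
  | succ R ih =>
    intro r hr j hj
    rw [List.range_succ, List.flatMap_append]
    rcases Nat.lt_or_ge r R with h | h
    · have hlt : r * K + j < R * K := by
        calc r * K + j < r * K + K := by omega
          _ = (r + 1) * K := by ring
          _ ≤ R * K := Nat.mul_le_mul_right _ h
      rw [List.getD_append _ _ _ _ (by rw [length_block]; exact hlt)]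
      exact ih r h j hj
    · have hr' : r = R := by omega
      subst hr'
      rw [List.getD_append_right _ _ _ _ (by rw [length_block]; omega), length_block]
      have : r * K + j - r * K = j := by omega
      rw [this]
      simp [List.getD, hj]

lemma getD_map_range {α : Type} (f : ℕ → α) (d : α) (K j : ℕ) (hj : j < K) :
    ((List.range K).map f).getD j d = f j := by
  simp [List.getD, hj]

lemma o_c {K : ℕ} (G : Matrix (Fin K) (Fin K) ℝ) (y : List ℕ) (k : ℕ) (hk : k < K) :
    ((perVals G y).map signOut).getD k none = signOut (cVal G k) := by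
  unfold perVals
  rw [List.map_append, List.getD_append _ _ _ _ (by simpa using hk), List.map_map]
  exact getD_map_range _ _ _ _ hk

lemma o_d {K : ℕ} (G : Matrix (Fin K) (Fin K) ℝ) (y : List ℕ) (r j : ℕ) (hr : r < K + 1)
    (hj : j < K) :
    ((perVals G y).map signOut).getD (K + (r * K + j)) none = signOut (dVal G y r j) := by
  unfold perVals
  rw [List.map_append, List.getD_append_right _ _ _ _ (by simp)]
  have : K + (r * K + j) - (List.map signOut ((List.range K).map fun k' => cVal G k')).length =
      r * K + j := by simp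
  rw [this, List.map_flatMap]
  simp only [List.map_map]
  exact getD_block (fun r j => signOut (dVal G y r j)) none K (K + 1) r hr j hj

lemma osg_signOut (v : ℝ) : osg (signOut v) = (SignType.sign v : ℤ) := by
  unfold signOut
  rcases lt_trichotomy v 0 with h | h | h
  · simp [osg, h, h.not_gt, sign_neg h]
  · simp [osg, h]
  · simp [osg, h, sign_pos h]

lemma signOut_ne (v : ℝ) : signOut v ≠ none ↔ v ≠ 0 := by
  unfold signOut
  rcases lt_trichotomy v 0 with h | h | h
  · simp [h, h.not_gt, h.ne]
  · simp [h]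
  · simp [h, h.ne']

lemma rk_spec (p : ℕ → Bool) (K : ℕ) :
    ∃ r, (((((List.range K).reverse.filter p).head?).map fun k' => k' + 1).getD 0) = r ∧ r ≤ K ∧
      (∀ k, r ≤ k → k < K → p k = false) ∧ (r = 0 ∨ (1 ≤ r ∧ p (r - 1) = true)) := by
  induction K with
  | zero => exact ⟨0, by simp, le_rfl, by intro k _ h; omega, Or.inl rfl⟩
  | succ K ih =>
    obtain ⟨r, h1, h2, h3, h4⟩ := ih
    rw [List.range_succ, List.reverse_append, List.reverse_singleton, List.singleton_append,
      List.filter_cons]
    by_cases h : p K = true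
    · refine ⟨K + 1, ?_, le_rfl, by intro k _ _; omega, Or.inr ⟨by omega, ?_⟩⟩
      · simp [h]
      · simpa using h
    · refine ⟨r, ?_, by omega, ?_, h4⟩
      · rw [if_neg h]; exact h1
      · intro k hk hk2
        rcases Nat.lt_or_ge k K with h' | h'
        · exact h3 k hk h'
        · have : k = K := by omega
          subst this
          simpa using h

lemma ent_fin {K : ℕ} (M : Matrix (Fin K) (Fin K) ℝ) (i j : Fin K) : ent M i j = M i j := by
  simp [ent]

lemma cVal_eq {K : ℕ} (G : Matrix (Fin K) (Fin K) ℝ) (k : ℕ) :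
    cVal G k = trace (G * flN G k) / ((k : ℝ) + 1) := by
  unfold cVal
  congr 1
  rw [Finset.sum_range]
  simp only [trace, diag_apply, mul_apply]
  refine Finset.sum_congr rfl fun i _ => ?_
  rw [Finset.sum_range]
  refine Finset.sum_congr rfl fun l _ => ?_
  rw [ent_fin, ent_fin]

lemma dVal_eq {K : ℕ} (G : Matrix (Fin K) (Fin K) ℝ) (y : List ℕ) (r : ℕ) (j : Fin K) :
    dVal G y r j = (flN G r *ᵥ fun l => ((y.getD l 0 : ℕ) : ℝ)) j := by
  unfold dVal
  rw [Finset.sum_range]
  simp only [mulVec, dotProduct]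
  refine Finset.sum_congr rfl fun l _ => ?_
  rw [ent_fin]

lemma flN_top {K : ℕ} (G : Matrix (Fin K) (Fin K) ℝ) : flN G K = 0 := by
  rcases Nat.eq_zero_or_pos K with h | h
  · subst h
    exact Subsingleton.elim _ _
  · obtain ⟨m, rfl⟩ : ∃ m, K = m + 1 := ⟨K - 1, by omega⟩
    have h1 := adjc_zero_rec G
    have h2 := flN_eq G m (by omega)
    rw [show m + 1 - 1 - m = 0 by omega] at h2
    rw [← h2] at h1
    have h3 : G * flN G m = (-G.charpoly.coeff 0) • 1 := by
      rw [neg_smul]
      exact eq_neg_of_add_eq_zero_left h1.symm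
    have hm : ((m : ℝ) + 1) ≠ 0 := by positivity
    rw [flN, h3, trace_smul, trace_one, Fintype.card_fin, smul_eq_mul]
    push_cast
    rw [mul_div_assoc, div_self hm, mul_one, sub_self]

lemma pow_mul_zero {K : ℕ} (G : Matrix (Fin K) (Fin K) ℝ) (hG : G.IsSymm)
    (M : Matrix (Fin K) (Fin K) ℝ) (t : ℕ) (h : G ^ (t + 1) * M = 0) : G * M = 0 := by
  induction t with
  | zero => simpa using h
  | succ t ih =>
    apply ih
    have h1 : (G * (G ^ t * M))ᴴ * (G * (G ^ t * M)) = 0 := by
      rw [conjTranspose_mul, conjTranspose_eq_transpose_of_trivial G, hG.eq, Matrix.mul_assoc]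
      have : G * (G * (G ^ t * M)) = 0 := by
        rw [← Matrix.mul_assoc, ← Matrix.mul_assoc, ← h]
        rw [pow_succ' G (t + 1), pow_succ' G t, Matrix.mul_assoc, Matrix.mul_assoc,
          Matrix.mul_assoc, Matrix.mul_assoc]
      rw [this, Matrix.mul_zero]
    have h2 := conjTranspose_mul_self_eq_zero.1 h1
    rw [pow_succ', Matrix.mul_assoc]
    exact h2

lemma flN_chain {K : ℕ} (G : Matrix (Fin K) (Fin K) ℝ) (r : ℕ)
    (h : ∀ k, r ≤ k → k < K → cVal G k = 0) :
    ∀ d, r + d ≤ K → flN G (r + d) = G ^ d * flN G r := by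
  intro d
  induction d with
  | zero => intro _; simp
  | succ d ih =>
    intro hd
    have h1 := h (r + d) (by omega) (by omega)
    rw [cVal_eq] at h1
    rw [← add_assoc, flN, h1, zero_smul, sub_zero, ih (by omega), pow_succ', Matrix.mul_assoc]

lemma sgn_lem (c d : ℝ) (hc : c ≠ 0) :
    (0 < -(SignType.sign c : ℤ) * (SignType.sign d : ℤ) ↔ 0 < -(1 / c) * d) ∧
      (-(SignType.sign c : ℤ) * (SignType.sign d : ℤ) < 0 ↔ -(1 / c) * d < 0) := by
  rcases lt_or_gt_of_ne hc with h | h
  · have h1 : 0 < -(1 / c) := by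
      have := one_div_neg.2 h
      linarith
    rcases lt_trichotomy d 0 with h' | h' | h'
    · have h2 := mul_neg_of_pos_of_neg h1 h'
      rw [sign_neg h, sign_neg h']
      exact ⟨⟨fun h3 => absurd h3 (by decide), fun h3 => absurd h3 h2.not_gt⟩,
        ⟨fun _ => h2, fun _ => by decide⟩⟩
    · subst h'
      rw [sign_zero, mul_zero]
      exact ⟨⟨fun h3 => absurd h3 (by simp), fun h3 => absurd h3 (lt_irrefl _)⟩,
        ⟨fun h3 => absurd h3 (by simp), fun h3 => absurd h3 (lt_irrefl _)⟩⟩
    · have h2 := mul_pos h1 h'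
      rw [sign_neg h, sign_pos h']
      exact ⟨⟨fun _ => h2, fun _ => by decide⟩,
        ⟨fun h3 => absurd h3 (by decide), fun h3 => absurd h3 h2.not_gt⟩⟩
  · have h1 : -(1 / c) < 0 := by
      have := one_div_pos.2 h
      linarith
    rcases lt_trichotomy d 0 with h' | h' | h'
    · have h2 := mul_pos_of_neg_of_neg h1 h'
      rw [sign_pos h, sign_neg h']
      exact ⟨⟨fun _ => h2, fun _ => by decide⟩,
        ⟨fun h3 => absurd h3 (by decide), fun h3 => absurd h3 h2.not_gt⟩⟩
    · subst h'
      rw [sign_zero, mul_zero]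
      exact ⟨⟨fun h3 => absurd h3 (by simp), fun h3 => absurd h3 (lt_irrefl _)⟩,
        ⟨fun h3 => absurd h3 (by simp), fun h3 => absurd h3 (lt_irrefl _)⟩⟩
    · have h2 := mul_neg_of_neg_of_pos h1 h'
      rw [sign_pos h, sign_pos h']
      exact ⟨⟨fun h3 => absurd h3 (by decide), fun h3 => absurd h3 h2.not_gt⟩,
        ⟨fun _ => h2, fun _ => by decide⟩⟩

end TPROJ

open TPROJ

theorem t_PROJ : S_PROJ := by
  intro K G y hG
  set o := (perVals G y).map signOut with ho
  obtain ⟨r, h1, h2, h3, h4⟩ := rk_spec (fun k' => decide (o.getD k' none ≠ none)) K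
  have hr : rkOf K o = r := h1
  have hz : ∀ k, r ≤ k → k < K → cVal G k = 0 := by
    intro k hk hk2
    have := h3 k hk hk2
    rw [ho, o_c G y k hk2] at this
    simp only [decide_eq_false_iff_not, signOut_ne, not_not] at this
    exact this
  have hker : G * flN G r = 0 := by
    have e := flN_chain G r hz (K - r) (by omega)
    rw [show r + (K - r) = K by omega, flN_top] at e
    rcases Nat.lt_or_ge r K with h | h
    · obtain ⟨t, ht⟩ : ∃ t, K - r = t + 1 := ⟨K - r - 1, by omega⟩
      rw [ht] at e
      exact pow_mul_zero G hG _ t e.symm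
    · have : r = K := by omega
      rw [this, flN_top, Matrix.mul_zero]
  set yy : Fin K → ℝ := fun j => ((y.getD j 0 : ℕ) : ℝ) with hyy
  rcases h4 with h4 | ⟨h4, h5⟩
  · -- the matrix is zero
    subst h4
    have hG0 : G = 0 := by simpa [flN] using hker
    refine ⟨yy, ⟨by rw [hG0]; simp, 0, by intro j; simp⟩, ?_⟩
    intro j
    have hd : zOf K o j = (SignType.sign (yy j) : ℤ) := by
      unfold zOf
      rw [hr, if_pos rfl, one_mul, ho, o_d G y 0 j (by omega) j.2, osg_signOut, dVal_eq]
      simp [flN, hyy]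
    rw [hd]
    rcases lt_trichotomy (yy j) 0 with h | h | h
    · simp [h, sign_neg h, h.not_gt]
    · simp [h]
    · simp [h, sign_pos h, h.not_gt]
  · have hrK : r - 1 < K := by omega
    have hc : cVal G (r - 1) ≠ 0 := by
      rw [ho] at h5
      simp only [o_c G y (r - 1) hrK, decide_eq_true_eq, signOut_ne] at h5
      exact h5
    set c := cVal G (r - 1) with hcdef
    have hfl : flN G r = G * flN G (r - 1) - c • 1 := by
      obtain ⟨s, rfl⟩ : ∃ s, r = s + 1 := ⟨r - 1, by omega⟩
      rw [flN, hcdef, cVal_eq]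
      simp
    refine ⟨fun j => -(1 / c) * (flN G r *ᵥ yy) j, ⟨?_, fun l => (1 / c) * (flN G (r - 1) *ᵥ yy) l,
      ?_⟩, ?_⟩
    · have : (fun j => -(1 / c) * (flN G r *ᵥ yy) j) = (-(1 / c)) • (flN G r *ᵥ yy) := by
        ext j; simp
      rw [this, mulVec_smul, mulVec_mulVec, hker, zero_mulVec, smul_zero]
    · intro j
      have : (fun l => (1 / c) * (flN G (r - 1) *ᵥ yy) l) = (1 / c) • (flN G (r - 1) *ᵥ yy) := by
        ext j; simp
      rw [this, mulVec_smul, mulVec_mulVec]
      simp only [Pi.smul_apply, smul_eq_mul]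
      rw [hfl, sub_mulVec, Pi.sub_apply, smul_mulVec, one_mulVec, Pi.smul_apply, smul_eq_mul]
      field_simp
      ring
    · intro j
      have hd : zOf K o j = - (SignType.sign c : ℤ) * (SignType.sign ((flN G r *ᵥ yy) j) : ℤ) := by
        unfold zOf
        rw [hr, if_neg (by omega), ho, o_c G y (r - 1) hrK, o_d G y r j (by omega) j.2,
          osg_signOut, osg_signOut, dVal_eq]
      rw [hd]
      set d := (flN G r *ᵥ yy) j with hdd
      exact sgn_lem c d hc

end Pool.Agent.W920.FC
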