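import Pool.Agent.W920.FC.Stm

set_option autoImplicit false

/-!
# Polynomial time: the simple constructions
-/

namespace Pool.Agent.W920.FC

open Pool.Agent.NPC Pool.Agent.H558R2 Pool.Agent.H622R3.SM

namespace TPT

theorem tail_iter {β : Type} (l : List β) (k : ℕ) : (fun s : List β => s.tail)^[k] l = l.drop k := by
  induction k with
  | zero => simp
  | succ k ih =>
    rw [Function.iterate_succ_apply', ih]
    simp

theorem drop_length {α β γ : Type} [TEnc α] [TEnc β] [TEnc γ] {l : α → List β} {l' : α → List γ}
    (hl : Poly l) (hl' : Poly l') : Poly (fun a => (l a).drop (l' a).length) := by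
  obtain ⟨q, hq⟩ := hl.sz_le
  refine (Poly.iterLen (F := fun (_ : α) (s : List β) => s.tail) hl' hl
    (Poly.tail (Poly.snd Poly.id)) q fun a k _ => ?_).congr fun a => ?_
  · rw [tail_iter]
    exact (Poly.sz_drop_le _ _).trans (hq a)
  · rw [tail_iter]

end TPT

open TPT

theorem t_PT : S_PT := by
  refine ⟨?_, ?_, ?_⟩
  · intro α β _ _ b hb
    exact Poly.inl (Poly.pair (hb.comp (Poly.fst Poly.id)) (Poly.snd Poly.id))
  · intro α β γ _ _ _ T f hT hf
    refine (Poly.sumCases (o := fun p : α × List Outcome => T p.1 p.2)
      (g := fun p q => f p.1 q.1 q.2) (h := fun _ q => Sum.inr q) hT ?_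
      (Poly.inr (Poly.snd Poly.id))).congr fun p => ?_
    · exact hf.comp (f := fun r : (α × List Outcome) × (β × List Outcome) =>
        ((r.1.1, r.2.1), r.2.2)) (Poly.pair (Poly.pair (Poly.fst (Poly.fst Poly.id))
          (Poly.fst (Poly.snd Poly.id))) (Poly.snd (Poly.snd Poly.id)))
    · show _ = bnd (T p.1) (f p.1) p.2
      unfold bnd
      cases T p.1 p.2 <;> rfl
  · intro α _ qs hqs
    have h1 : Poly (fun p : α × List Outcome => qs p.1) := hqs.comp (Poly.fst Poly.id)
    have h2 : Poly (fun p : α × List Outcome => p.2) := Poly.snd Poly.id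
    have h3 : Poly (fun p : α × List Outcome => (qs p.1).getD p.2.length (([], []) : Qry)) :=
      Poly.getD (d := fun _ => (([], []) : Qry)) h1 (Poly.length h2)
        (Pool.Agent.NPC.Poly.const (([], []) : Qry))
    have h4 : Poly (fun p : α × List Outcome => p.2.take (qs p.1).length) :=
      Poly.take_length h2 h1
    have h5 : Poly (fun p : α × List Outcome => p.2.drop (qs p.1).length) :=
      drop_length h2 h1
    have h6 : Poly (fun p : α × List Outcome =>
        (Sum.inr ((qs p.1).getD p.2.length (([], []) : Qry)) :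
          (List Outcome × List Outcome) ⊕ Qry)) := Poly.inr h3
    have h7 : Poly (fun p : α × List Outcome =>
        (Sum.inl (p.2.take (qs p.1).length, p.2.drop (qs p.1).length) :
          (List Outcome × List Outcome) ⊕ Qry)) := Poly.inl (Poly.pair h4 h5)
    exact Poly.ite (Poly.decide_lt (Poly.length h2) (Poly.length h1)) h6 h7

end Pool.Agent.W920.FC
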