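import Pool.Agent.W920.FC.Stm

set_option autoImplicit false

/-! Phases 1 and 3 are computed in polynomial time (helper903). -/

namespace Pool.Agent.W920.FC

open Pool.Agent.NPC Pool.Agent.NPC.ER Pool.Agent.NPC.H612 Pool.Agent.H558R2
  Pool.Agent.H622R3.SM

namespace TPT13

variable {α : Type} [TEnc α]

theorem pInstr (o : Op) {f g k : α → Reg} (hf : Poly f) (hg : Poly g) (hk : Poly k) :
    Poly (fun a => Instr.mk o (f a) (g a) (k a)) :=
  NPC.Poly.of_toT (NPC.Poly.toT' (NPC.Poly.pair
    (NPC.Poly.const (opCode o))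
    (NPC.Poly.pair hf (NPC.Poly.pair hg hk))))

attribute [local fun_prop] pInstr NPC.Poly.range_length

theorem pPoss {U V : α → List Unit} (hU : Poly U) (hV : Poly V) :
    Poly (fun a => poss (U a).length (V a).length) := by
  unfold poss
  fun_prop

theorem pEqQs {U V : α → List Unit} (hU : Poly U) (hV : Poly V) :
    Poly (fun a => eqQs (U a).length (V a).length) := by
  unfold eqQs
  have h := pPoss hU hV
  obtain ⟨c, hcd⟩ : ∃ c : α → List (ℕ × ℕ), c = fun a => poss (U a).length (V a).length :=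
    ⟨_, rfl⟩
  rw [← hcd] at h
  have e : ∀ a, poss (U a).length (V a).length = c a := fun a => by rw [hcd]
  simp only [e]
  fun_prop

theorem all_range_cut (z i : ℕ) (hi : i ≤ z) (f : ℕ → Bool) :
    ((List.range z).all fun y => decide (i ≤ y) || f y) = (List.range i).all f := by
  rw [Bool.eq_iff_iff]
  simp only [List.all_eq_true, List.mem_range, Bool.or_eq_true, decide_eq_true_eq]
  constructor
  · intro h y hy
    rcases h y (by omega) with h' | h'
    · omega
    · exact h'
  · intro h y _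
    by_cases hy : i ≤ y
    · exact Or.inl hy
    · exact Or.inr (h y (by omega))

theorem pReps {U V : α → List Unit} {o : α → List Outcome} (hU : Poly U) (hV : Poly V)
    (ho : Poly o) : Poly (fun a => repsOf (U a).length (V a).length (o a)) := by
  unfold repsOf
  have h := pPoss hU hV
  obtain ⟨c, hcd⟩ : ∃ c : α → List (ℕ × ℕ), c = fun a => poss (U a).length (V a).length :=
    ⟨_, rfl⟩
  rw [← hcd] at h
  have e : ∀ a, poss (U a).length (V a).length = c a := fun a => by rw [hcd]
  simp only [e]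
  have h1 : Poly (fun a => (c a).zipIdx.flatMap fun p =>
      if (List.range (c a).length).all (fun y => decide (p.2 ≤ y) ||
        decide ((o a).getD (p.2 * (c a).length + y) none ≠ none)) then [p.1] else []) := by
    fun_prop
  refine h1.congr fun a => ?_
  refine List.flatMap_congr fun p hp => ?_
  have hp2 : p.2 ≤ (c a).length := by
    have := List.snd_lt_of_mem_zipIdx (x := p) (by simpa using hp)
    omega
  rw [all_range_cut _ _ hp2 (fun y => decide ((o a).getD (p.2 * (c a).length + y) none ≠ none))]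

theorem pLad0 (k : ℕ) (h1 : S_PP1 k) (h3 : S_PP3) (h4 : S_PP4) {U : α → List Unit}
    {recs : α → List (List ℤ × ℕ)} (hU : Poly U) (hr : Poly recs) :
    Poly (fun a => lad0 k (U a).length (recs a)) := by
  unfold lad0
  have hQ : UPoly (fun a => cQ k (U a).length) := (h1 α U (fun _ => []) hU (NPC.Poly.const _)).2.2.2.1
  have hQ1 : UPoly (fun a => 2 * cQ k (U a).length + 1) :=
    UPoly.add (UPoly.mul (UPoly.const 2) hQ) (UPoly.const 1)
  have hl : Poly (fun a => (List.range (2 * cQ k (U a).length + 1)).map fun e => 2 ^ e) :=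
    (h3 α).2.1 _ hQ1
  obtain ⟨l, hld⟩ : ∃ l : α → List ℕ,
      l = fun a => (List.range (2 * cQ k (U a).length + 1)).map fun e => 2 ^ e := ⟨_, rfl⟩
  rw [← hld] at hl
  have hp : Poly (fun a => 2 ^ cQ k (U a).length) := (h3 α).1 _ hQ
  obtain ⟨q, hqd⟩ : ∃ q : α → ℕ, q = fun a => 2 ^ cQ k (U a).length := ⟨_, rfl⟩
  rw [← hqd] at hp
  have h5 : Poly (fun a => (recs a).flatMap fun u => (recs a).flatMap fun v => (l a).map fun e =>
      (fcomb (cN k (U a).length) (((v.2 : ℕ) : ℤ) * ((e : ℕ) : ℤ)) u.1 0 [],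
        fcomb (cN k (U a).length) (((u.2 : ℕ) : ℤ) * ((q a : ℕ) : ℤ)) v.1 0 [])) := by
    refine NPC.Poly.flatMap hr (NPC.Poly.flatMap (l := fun x : α × (List ℤ × ℕ) => recs x.1)
      (by fun_prop) (NPC.Poly.map (l := fun x : (α × (List ℤ × ℕ)) × (List ℤ × ℕ) => l x.1.1)
        (by fun_prop) (NPC.Poly.pair ?_ ?_)))
    · refine (h4 _).2 (fun x : ((α × (List ℤ × ℕ)) × (List ℤ × ℕ)) × ℕ =>
        cN k (U x.1.1.1).length) _ _ _ _ ?_ ?_ (NPC.Poly.const (0 : ℤ)) ?_ (NPC.Poly.const ([] : List ℤ))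
      · exact (h1 _ (fun x : ((α × (List ℤ × ℕ)) × (List ℤ × ℕ)) × ℕ => U x.1.1.1)
          (fun _ => []) (by fun_prop) (NPC.Poly.const _)).1
      · exact ((h4 _).1 _ _ (by fun_prop) (by fun_prop)).2.1
      · fun_prop
    · refine (h4 _).2 (fun x : ((α × (List ℤ × ℕ)) × (List ℤ × ℕ)) × ℕ =>
        cN k (U x.1.1.1).length) _ _ _ _ ?_ ?_ (NPC.Poly.const (0 : ℤ)) ?_ (NPC.Poly.const ([] : List ℤ))
      · exact (h1 _ (fun x : ((α × (List ℤ × ℕ)) × (List ℤ × ℕ)) × ℕ => U x.1.1.1)
          (fun _ => []) (by fun_prop) (NPC.Poly.const _)).1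
      · exact ((h4 _).1 _ _ (by fun_prop) (by fun_prop)).2.1
      · fun_prop
  refine h5.congr fun a => ?_
  simp only [hld, hqd, List.map_map, Nat.cast_pow, Nat.cast_ofNat]
  rfl

theorem pSortQs (k : ℕ) (h1 : S_PP1 k) {U : α → List Unit} {reps : α → List (ℕ × ℕ)}
    {L : α → List (List ℤ × List ℤ)} (hU : Poly U) (hr : Poly reps) (hL : Poly L) :
    Poly (fun a => sortQs k (U a).length (reps a) (L a)) := by
  unfold sortQs
  refine NPC.Poly.flatMap hL (NPC.Poly.map (l := fun x : α × (List ℤ × List ℤ) => L x.1)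
    (by fun_prop) ?_)
  exact (h1 _ (fun x : (α × (List ℤ × List ℤ)) × (List ℤ × List ℤ) => U x.1.1)
    (fun x => reps x.1.1) (by fun_prop) (by fun_prop)).2.2.2.2.2 (fun x => x.1.2)
      (fun x => x.2) (by fun_prop) (by fun_prop)

theorem pSortL {L : α → List (List ℤ × List ℤ)} {o : α → List Outcome} (hL : Poly L)
    (ho : Poly o) : Poly (fun a => sortL (L a) (o a)) := by
  unfold sortL rankOf
  fun_prop

end TPT13

/-- Phases 1 and 3 in polynomial time. -/
theorem t_PT13 (k : ℕ) : S_PT → S_PP1 k → S_PP3 → S_PP4 → S_PT1 ∧ S_PT3 k := by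
  intro hPT h1 h3 h4
  constructor
  · intro α _ U V hU hV
    unfold T1
    refine hPT.2.1 _ _ _ (fun a => batch (eqQs (U a).length (V a).length))
      (fun a o => ret (repsOf (U a).length (V a).length o))
      (hPT.2.2 _ _ (TPT13.pEqQs hU hV)) ?_
    exact hPT.1 _ _ _ (TPT13.pReps (U := fun p : α × List Outcome => U p.1)
      (V := fun p => V p.1) (o := fun p => p.2) (by fun_prop) (by fun_prop) (by fun_prop))
  · intro α _ U reps recs hU hr hrec
    unfold T3
    have hl := TPT13.pLad0 k h1 h3 h4 hU hrec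
    refine hPT.2.1 _ _ _ (fun a => batch (sortQs k (U a).length (reps a)
      (lad0 k (U a).length (recs a)))) (fun a o => ret (sortL (lad0 k (U a).length (recs a)) o))
      (hPT.2.2 _ _ (TPT13.pSortQs k h1 hU hr hl)) ?_
    exact hPT.1 _ _ _ (TPT13.pSortL (L := fun p : α × List Outcome =>
      lad0 k (U p.1).length (recs p.1)) (o := fun p => p.2)
      (hl.comp (NPC.Poly.fst NPC.Poly.id)) (by fun_prop))

end Pool.Agent.W920.FC
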