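import Pool.Agent.W920.FC.Stm

set_option autoImplicit false

/-!
# Phase 4 in polynomial time
-/

namespace Pool.Agent.W920.FC

open Pool.Agent.NPC Pool.Agent.H558R2 Pool.Agent.H622R3.SM

namespace TPT4

lemma upoly_bound {α : Type} [TEnc α] {n : α → ℕ} (h : UPoly n) :
    ∃ p : Polynomial ℕ, ∀ a, n a ≤ p.eval (sz a) := by
  obtain ⟨p, hp⟩ := NPC.Poly.sz_le h
  refine ⟨p, fun a => ?_⟩
  have h1 := hp a
  have h2 := length_lt_sz (List.replicate (n a) ())
  rw [List.length_replicate] at h2
  omega

/-- Length `K`, entries at most `i`. -/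
def Inv (K i : ℕ) (y : List ℕ) : Prop := y.length = K ∧ ∀ x ∈ y, x ≤ i

lemma getD_le {y : List ℕ} {i : ℕ} (h : ∀ x ∈ y, x ≤ i) (l : ℕ) : y.getD l 0 ≤ i := by
  rw [List.getD_eq_getElem?_getD]
  rcases lt_or_ge l y.length with hl | hl
  · rw [List.getElem?_eq_getElem hl, Option.getD_some]
    exact h _ (List.getElem_mem hl)
  · rw [List.getElem?_eq_none hl]
    exact Nat.zero_le _

lemma inv_bump {K i : ℕ} {y : List ℕ} (h : Inv K i y) (j : ℕ) : Inv K (i + 1) (bump y K j) := by
  refine ⟨by simp [bump], fun x hx => ?_⟩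
  unfold bump at hx
  obtain ⟨l, -, rfl⟩ := List.mem_map.1 hx
  have := getD_le h.2 l
  split_ifs <;> omega

lemma inv_succ {K i : ℕ} {y : List ℕ} (h : Inv K i y) : Inv K (i + 1) y :=
  ⟨h.1, fun x hx => (h.2 x hx).trans (Nat.le_succ i)⟩

lemma inv_zero (K : ℕ) : Inv K 0 ((List.range K).map fun _ => 0) := by
  refine ⟨by simp, fun x hx => ?_⟩
  obtain ⟨l, -, rfl⟩ := List.mem_map.1 hx
  exact le_rfl

lemma inv_perUpd {K i : ℕ} {drop : List Bool} {s : List ℕ × Bool} {o : List Outcome}
    (h : Inv K i s.1) : Inv K (i + 1) (perUpd K drop s o).1 := by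
  unfold perUpd
  cases (badOf K drop o).head? with
  | none => exact inv_succ h
  | some j => exact inv_bump h j

lemma inv_next {m n i : ℕ} {idx y : List ℕ} (h : Inv (m + (n + n)) i idx) :
    Inv (m + (n + n)) (i + 1) (nextIdx m n idx y) := by
  unfold nextIdx
  cases ((List.range (cK m n)).filter
      fun j => decide (4 * (cK m n * cK m n) ≤ y.getD j 0)).head? with
  | none => exact inv_succ h
  | some j => exact inv_bump h j

lemma inv_sz {K i : ℕ} {s : List ℕ × Bool} (h : Inv K i s.1) :
    sz s ≤ K * (4 * i + 2) + 5 := by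
  have h0 : sz s = sz s.1 + sz s.2 + 1 := sz_pair s.1 s.2
  have h1 := sz_le_length_mul s.1 (4 * i + 1) (fun a ha => by
    have h2 := sz_nat_le a
    have h3 := NPC.Poly.size_le_self a
    have h4 := h.2 a ha
    omega)
  rw [h.1] at h1
  have h2 := sz_bool_le s.2
  have h3 : K * (4 * i + 1 + 1) + 1 = K * (4 * i + 2) + 1 := rfl
  omega

lemma out_iter (hO : S_OUT) {f : List ℕ × Bool → TT (List ℕ × Bool)} {s0 : List ℕ × Bool} {K : ℕ}
    (h0 : Inv K 0 s0.1) (hf : ∀ i b c, Inv K i b.1 → Out (f b) c → Inv K (i + 1) c.1) :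
    ∀ i s, Out (iter f i s0) s → Inv K i s.1 := by
  intro i
  induction i with
  | zero =>
    intro s hs
    have := hO.1 _ s0 s hs
    rw [this]
    exact h0
  | succ i ih =>
    intro s hs
    obtain ⟨b, hb, hc⟩ := hO.2.2.1 _ f i s0 s hs
    exact hf i b s (ih b hb) hc

lemma sz_poly {α : Type} [TEnc α] {n K : α → ℕ} (hn : UPoly n) (hK : UPoly K)
    {f : α → List ℕ × Bool → TT (List ℕ × Bool)} {s₀ : α → List ℕ × Bool}
    (h : ∀ (a : α) (i : ℕ) (s : List ℕ × Bool), i ≤ n a → Out (iter (f a) i (s₀ a)) s →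
      Inv (K a) i s.1) :
    ∃ p : Polynomial ℕ, ∀ (a : α) (i : ℕ) (s : List ℕ × Bool), i ≤ n a →
      Out (iter (f a) i (s₀ a)) s → sz s ≤ p.eval (sz a) := by
  obtain ⟨p, hp⟩ := upoly_bound (n := fun a => K a * (4 * n a + 2) + 5)
    (((hK.mul (((UPoly.const 4).mul hn).add (UPoly.const 2))).add (UPoly.const 5)))
  refine ⟨p, fun a i s hi hs => ?_⟩
  refine (inv_sz (h a i s hi hs)).trans (le_trans ?_ (hp a))
  have : K a * (4 * i + 2) ≤ K a * (4 * n a + 2) := Nat.mul_le_mul_left _ (by omega)
  omega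

/-- The result of a round. -/
lemma out_round (hO : S_OUT) {k m n : ℕ} {reps : List (ℕ × ℕ)} {Lad : List (List ℤ × List ℤ)}
    {s c : List ℕ × Bool} (h : Out (round k m n reps Lad s) c) :
    ∃ t : List ℕ × Bool, c = (nextIdx m n s.1 t.1, t.2) := by
  unfold round at h
  obtain ⟨b, -, hb⟩ := hO.2.1 _ _ _ _ _ h
  exact ⟨b, hO.1 _ _ _ hb⟩

lemma shr_round (hO : S_OUT) (k m n : ℕ) (reps : List (ℕ × ℕ)) (Lad : List (List ℤ × List ℤ))
    (s : List ℕ × Bool) : Shr (round k m n reps Lad s) := by
  unfold round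
  apply hO.2.2.2.2.1
  · apply hO.2.2.2.2.2.2
    intro t
    apply hO.2.2.2.2.1
    · exact hO.2.2.2.2.2.1 _
    · intro o
      exact hO.2.2.2.1 _ _
  · intro t
    exact hO.2.2.2.1 _ _

lemma pt_round {k : ℕ} (hO : S_OUT) (hP : S_PT) (hI : S_PTITER) (hP2 : S_PP2 k) (hU4 : S_PU4)
    (γ : Type) [TEnc γ] (U V : γ → List Unit) (reps : γ → List (ℕ × ℕ))
    (Lad : γ → List (List ℤ × List ℤ)) (s : γ → List ℕ × Bool) (hU : Poly U) (hV : Poly V)
    (hreps : Poly reps) (hLad : Poly Lad) (hs : Poly s) :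
    PT (fun a => round k (U a).length (V a).length (reps a) (Lad a) (s a)) := by
  have hcK : UPoly (fun a => cK (U a).length (V a).length) := by
    unfold cK
    exact ((UPoly.length hU).add ((UPoly.length hV).add (UPoly.length hV))).add (UPoly.const 1)
  have hcT : UPoly (fun a => cT (U a).length (V a).length) :=
    (hU4 γ U V Lad (fun _ => []) (fun _ => []) (fun _ => []) (fun _ => false) (fun _ => []) hU hV
      hLad (NPC.Poly.const _) (NPC.Poly.const _) (NPC.Poly.const _) (NPC.Poly.const _) (NPC.Poly.const _)).2.2.2.2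
  -- one step of the perceptron algorithm
  have hstep : PT (fun p : γ × (List ℕ × Bool) =>
      bnd (batch (perQs k (U p.1).length (V p.1).length (reps p.1)
        (wts (U p.1).length (V p.1).length (Lad p.1) (s p.1).1)
        (drops (U p.1).length (V p.1).length (Lad p.1) (s p.1).1) p.2.1))
        fun o => ret (perUpd (cK (U p.1).length (V p.1).length)
          (drops (U p.1).length (V p.1).length (Lad p.1) (s p.1).1) p.2 o)) := by
    refine hP.2.1 (γ × (List ℕ × Bool)) (List Outcome) (List ℕ × Bool)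
      (fun p => batch (perQs k (U p.1).length (V p.1).length (reps p.1)
        (wts (U p.1).length (V p.1).length (Lad p.1) (s p.1).1)
        (drops (U p.1).length (V p.1).length (Lad p.1) (s p.1).1) p.2.1))
      (fun p o => ret (perUpd (cK (U p.1).length (V p.1).length)
          (drops (U p.1).length (V p.1).length (Lad p.1) (s p.1).1) p.2 o)) ?_ ?_
    · apply hP.2.2
      have h1 : Poly (fun p : γ × (List ℕ × Bool) => p.1) := NPC.Poly.fst NPC.Poly.id
      have h2 : Poly (fun p : γ × (List ℕ × Bool) => p.2.1) := NPC.Poly.fst (NPC.Poly.snd NPC.Poly.id)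
      have hUV := hU4 (γ × (List ℕ × Bool)) (fun p => U p.1) (fun p => V p.1) (fun p => Lad p.1)
        (fun p => (s p.1).1) (fun _ => []) (fun _ => []) (fun _ => false) (fun _ => [])
        (hU.comp h1) (hV.comp h1) (hLad.comp h1) (NPC.Poly.fst (hs.comp h1)) (NPC.Poly.const _)
        (NPC.Poly.const _) (NPC.Poly.const _) (NPC.Poly.const _)
      exact hP2 (γ × (List ℕ × Bool)) (fun p => U p.1) (fun p => V p.1) (fun p => reps p.1) _ _
        (fun p => p.2.1) (hU.comp h1) (hV.comp h1) (hreps.comp h1) hUV.1 hUV.2.1 h2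
    · apply hP.1
      have h1 : Poly (fun p : (γ × (List ℕ × Bool)) × List Outcome => p.1.1) :=
        NPC.Poly.fst (NPC.Poly.fst NPC.Poly.id)
      have h2 : Poly (fun p : (γ × (List ℕ × Bool)) × List Outcome => p.1.2.1) :=
        NPC.Poly.fst (NPC.Poly.snd (NPC.Poly.fst NPC.Poly.id))
      have h3 : Poly (fun p : (γ × (List ℕ × Bool)) × List Outcome => p.1.2.2) :=
        NPC.Poly.snd (NPC.Poly.snd (NPC.Poly.fst NPC.Poly.id))
      have h4 : Poly (fun p : (γ × (List ℕ × Bool)) × List Outcome => p.2) :=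
        NPC.Poly.snd NPC.Poly.id
      have hUV := hU4 ((γ × (List ℕ × Bool)) × List Outcome) (fun p => U p.1.1)
        (fun p => V p.1.1) (fun p => Lad p.1.1)
        (fun p => (s p.1.1).1) (fun _ => []) (fun _ => []) (fun _ => false) (fun _ => [])
        (hU.comp h1) (hV.comp h1) (hLad.comp h1) (NPC.Poly.fst (hs.comp h1)) (NPC.Poly.const _)
        (NPC.Poly.const _) (NPC.Poly.const _) (NPC.Poly.const _)
      exact (hU4 ((γ × (List ℕ × Bool)) × List Outcome) (fun p => U p.1.1)
        (fun p => V p.1.1) (fun p => Lad p.1.1)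
        (fun p => (s p.1.1).1) (fun p => p.1.2.1)
        (fun p => drops (U p.1.1).length (V p.1.1).length (Lad p.1.1) (s p.1.1).1)
        (fun p => p.1.2.2) (fun p => p.2)
        (hU.comp h1) (hV.comp h1) (hLad.comp h1) (NPC.Poly.fst (hs.comp h1)) h2
        hUV.2.1 h3 h4).2.2.1
  have hiter : PT (fun a : γ => iter (fun t => bnd (batch (perQs k (U a).length (V a).length
      (reps a) (wts (U a).length (V a).length (Lad a) (s a).1)
      (drops (U a).length (V a).length (Lad a) (s a).1) t.1))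
        fun o => ret (perUpd (cK (U a).length (V a).length)
          (drops (U a).length (V a).length (Lad a) (s a).1) t o))
      (cT (U a).length (V a).length)
      ((List.range (cK (U a).length (V a).length)).map fun _ => 0, (s a).2)) := by
    refine hI γ (List ℕ × Bool) (fun a t => bnd (batch (perQs k (U a).length (V a).length
      (reps a) (wts (U a).length (V a).length (Lad a) (s a).1)
      (drops (U a).length (V a).length (Lad a) (s a).1) t.1))
        fun o => ret (perUpd (cK (U a).length (V a).length)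
          (drops (U a).length (V a).length (Lad a) (s a).1) t o))
      (fun a => cT (U a).length (V a).length)
      (fun a => ((List.range (cK (U a).length (V a).length)).map fun _ => 0, (s a).2))
      hstep hcT ?_ ?_ ?_
    · refine NPC.Poly.pair ?_ (NPC.Poly.snd hs)
      exact NPC.Poly.map (F := fun _ _ => 0) hcK.range (NPC.Poly.const _)
    · intro a t
      apply hO.2.2.2.2.1
      · exact hO.2.2.2.2.2.1 _
      · intro o
        exact hO.2.2.2.1 _ _
    · apply sz_poly hcT hcK
      intro a i t _ ht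
      refine out_iter hO (inv_zero _) ?_ i t ht
      intro i b c hb hc
      obtain ⟨o, -, ho⟩ := hO.2.1 _ _ _ _ _ hc
      rw [hO.1 _ _ _ ho]
      exact inv_perUpd hb
  refine hP.2.1 γ (List ℕ × Bool) (List ℕ × Bool) _
    (fun a t => ret (nextIdx (U a).length (V a).length (s a).1 t.1, t.2)) hiter ?_
  apply hP.1
  have h1 : Poly (fun p : γ × (List ℕ × Bool) => p.1) := NPC.Poly.fst NPC.Poly.id
  refine NPC.Poly.pair ?_ (NPC.Poly.snd (NPC.Poly.snd NPC.Poly.id))
  exact (hU4 (γ × (List ℕ × Bool)) (fun p => U p.1) (fun p => V p.1) (fun p => Lad p.1)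
    (fun p => (s p.1).1) (fun p => p.2.1) (fun _ => []) (fun _ => false) (fun _ => [])
    (hU.comp h1) (hV.comp h1) (hLad.comp h1) (NPC.Poly.fst (hs.comp h1)) (NPC.Poly.fst (NPC.Poly.snd NPC.Poly.id))
    (NPC.Poly.const _) (NPC.Poly.const _) (NPC.Poly.const _)).2.2.2.1

end TPT4

open TPT4 in
theorem t_PT4 : ∀ k, S_OUT → S_PT → S_PTITER → S_PP1 k → S_PP2 k → S_PU4 → S_PT4 k := by
  intro k hO hP hI hP1 hP2 hU4 α _ U V reps Lad hU hV hreps hLad
  obtain ⟨hcN, -, -, hcQ, -, -⟩ := hP1 α U reps hU hreps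
  have hmn : UPoly (fun a => (U a).length + ((V a).length + (V a).length)) :=
    (UPoly.length hU).add ((UPoly.length hV).add (UPoly.length hV))
  have hcR : UPoly (fun a => cR k (U a).length (V a).length) := by
    unfold cR cK cZ
    exact ((hmn.add (UPoly.const 1)).mul
      (hcN.mul (hcN.mul (((UPoly.const 2).mul hcQ).add (UPoly.const 1))))).add (UPoly.const 1)
  unfold T4
  refine hP.2.1 α (List ℕ × Bool) Bool
    (fun a => iter (round k (U a).length (V a).length (reps a) (Lad a))
      (cR k (U a).length (V a).length)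
      ((List.range ((U a).length + ((V a).length + (V a).length))).map fun _ => 0, false))
    (fun _ s => ret s.2) ?_ ?_
  · refine hI α (List ℕ × Bool) (fun a => round k (U a).length (V a).length (reps a) (Lad a))
      (fun a => cR k (U a).length (V a).length)
      (fun a => ((List.range ((U a).length + ((V a).length + (V a).length))).map fun _ => 0,
        false)) ?_ hcR ?_ ?_ ?_
    · have h1 : Poly (fun p : α × (List ℕ × Bool) => p.1) := NPC.Poly.fst NPC.Poly.id
      exact pt_round hO hP hI hP2 hU4 (α × (List ℕ × Bool)) (fun p => U p.1) (fun p => V p.1)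
        (fun p => reps p.1) (fun p => Lad p.1) (fun p => p.2) (hU.comp h1) (hV.comp h1)
        (hreps.comp h1) (hLad.comp h1) (NPC.Poly.snd NPC.Poly.id)
    · exact NPC.Poly.pair (NPC.Poly.map (F := fun _ _ => 0) hmn.range (NPC.Poly.const _)) (NPC.Poly.const _)
    · intro a s
      exact shr_round hO _ _ _ _ _ _
    · apply sz_poly hcR hmn
      intro a i t _ ht
      refine out_iter hO (inv_zero _) ?_ i t ht
      intro i b c hb hc
      obtain ⟨t', rfl⟩ := out_round hO hc
      exact inv_next hb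
  · apply hP.1
    exact NPC.Poly.snd (NPC.Poly.snd NPC.Poly.id)

end Pool.Agent.W920.FC
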