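import Pool.Agent.W920.FC.Stm

set_option autoImplicit false

/-! PTITER: iteration of adaptive computations in polynomial time. -/

namespace Pool.Agent.W920.FC

open Pool.Agent.NPC Pool.Agent.H558R2 Pool.Agent.H622R3.SM

namespace TPTITER

/-- one step of the iteration -/
def stp {σ : Type} (g : σ → TT σ) (x : (σ × List Outcome) ⊕ Qry) : (σ × List Outcome) ⊕ Qry :=
  match x with
  | Sum.inl p => g p.1 p.2
  | Sum.inr q => Sum.inr q

theorem iter_eq {σ : Type} (g : σ → TT σ) (n : ℕ) (s : σ) (h : List Outcome) :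
    iter g n s h = (stp g)^[n] (Sum.inl (s, h)) := by
  induction n with
  | zero => rfl
  | succ n ih =>
    rw [Function.iterate_succ_apply', ← ih]
    rfl

theorem iter_cases {σ : Type} (g : σ → TT σ) (hg : ∀ s, Shr (g s)) (s : σ) (h : List Outcome) :
    ∀ i : ℕ, (∃ s' h', iter g i s h = Sum.inl (s', h') ∧ h'.length ≤ h.length) ∨
      ∃ j < i, ∃ s' h', iter g j s h = Sum.inl (s', h') ∧ h'.length ≤ h.length ∧
        iter g i s h = g s' h' := by
  intro i
  induction i with
  | zero => exact Or.inl ⟨s, h, rfl, le_rfl⟩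
  | succ i ih =>
    have hs : iter g (i + 1) s h = stp g (iter g i s h) := rfl
    rcases ih with ⟨s', h', h1, h2⟩ | ⟨j, hj, s', h', h1, h2, h3⟩
    · right
      refine ⟨i, Nat.lt_succ_self i, s', h', h1, h2, ?_⟩
      rw [hs, h1]
      rfl
    · cases h4 : g s' h' with
      | inl p =>
        rw [h4] at h3
        right
        refine ⟨i, Nat.lt_succ_self i, p.1, p.2, h3, ?_, ?_⟩
        · exact (hg s' h' p.1 p.2 h4).trans h2
        · rw [hs, h3]
          rfl
      | inr q =>
        rw [h4] at h3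
        right
        refine ⟨j, by omega, s', h', h1, h2, ?_⟩
        rw [hs, h3, h4]
        rfl

theorem sz_out (o : Outcome) : sz o ≤ 5 := by
  cases o with
  | none => simp
  | some b =>
    have := sz_bool_le b
    simp
    omega

theorem sz_outs {h h' : List Outcome} (hl : h'.length ≤ h.length) : sz h' ≤ 6 * sz h + 1 := by
  have h1 := sz_le_length_mul h' 5 (fun a _ => sz_out a)
  have h2 := length_lt_sz h
  omega

end TPTITER

open TPTITER in
theorem t_PTITER : S_PTITER := by
  intro α σ _ _ f n s₀ hf hn hs hShr hb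
  obtain ⟨p, hp⟩ := hb
  unfold PT at hf ⊢
  obtain ⟨r, hr⟩ := hf.sz_le
  have hl : Poly (fun x : α × List Outcome => List.replicate (n x.1) ()) :=
    Poly.comp hn (Poly.fst Poly.id)
  have hs' : Poly (fun x : α × List Outcome =>
      (Sum.inl (s₀ x.1, x.2) : (σ × List Outcome) ⊕ Qry)) :=
    Poly.inl (Poly.pair (hs.comp (Poly.fst Poly.id)) (Poly.snd Poly.id))
  have hF : Poly (fun x : (α × List Outcome) × ((σ × List Outcome) ⊕ Qry) =>
      stp (f x.1.1) x.2) := by
    refine (Poly.sumCases (g := fun x y => f x.1.1 y.1 y.2) (h := fun _ q => Sum.inr q)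
      (Poly.snd Poly.id) ?_ ?_).congr ?_
    · exact hf.comp (Poly.pair (Poly.pair (Poly.fst (Poly.fst (Poly.fst Poly.id)))
        (Poly.fst (Poly.snd Poly.id))) (Poly.snd (Poly.snd Poly.id)))
    · exact Poly.inr (Poly.snd Poly.id)
    · rintro ⟨x, y | y⟩ <;> rfl
  set q : Polynomial ℕ := (p + Polynomial.C 6 * Polynomial.X + Polynomial.C 4) +
    r.comp (p + Polynomial.C 7 * Polynomial.X + Polynomial.C 4) with hq
  have hev : ∀ N : ℕ, q.eval N = (p.eval N + 6 * N + 4) + r.eval (p.eval N + 7 * N + 4) := by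
    intro N
    simp only [hq, Polynomial.eval_add, Polynomial.eval_mul, Polynomial.eval_C, Polynomial.eval_X,
      Polynomial.eval_comp]
  refine (Poly.iterLen (F := fun x y => stp (f x.1) y) hl hs' hF q ?_).congr ?_
  · rintro ⟨a, h⟩ k hk
    rw [List.length_replicate] at hk
    simp only at hk ⊢
    rw [← iter_eq, hev]
    have hN1 : sz a ≤ sz (a, h) := by rw [sz_pair]; omega
    have hN2 : sz h ≤ sz (a, h) := by rw [sz_pair]; omega
    have hN3 : sz a + sz h + 1 = sz (a, h) := by rw [sz_pair]
    have key : ∀ i ≤ n a, ∀ s' h', iter (f a) i (s₀ a) h = Sum.inl (s', h') →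
        sz s' ≤ p.eval (sz (a, h)) := by
      intro i hi s' h' h1
      exact (hp a i s' hi ⟨h, h', h1⟩).trans (eval_mono p hN1)
    rcases iter_cases (f a) (hShr a) (s₀ a) h k with ⟨s', h', h1, h2⟩ | ⟨j, hj, s', h', h1, h2, h3⟩
    · rw [h1]
      have e1 := key k hk s' h' h1
      have e2 := sz_outs h2
      simp only [sz_inl, sz_pair] at *
      omega
    · rw [h3]
      have e1 := key j (by omega) s' h' h1
      have e2 := sz_outs h2
      have e3 := hr ((a, s'), h')
      simp only at e3
      refine e3.trans ?_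
      refine (eval_mono r (n := p.eval (sz (a, h)) + 7 * sz (a, h) + 4) ?_).trans (by omega)
      simp only [sz_pair] at *
      omega
  · rintro ⟨a, h⟩
    rw [List.length_replicate]
    exact (iter_eq _ _ _ _).symm

end Pool.Agent.W920.FC
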