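import Pool.Agent.W920.FC.Stm

set_option autoImplicit false

/-!
# Project FC, part PU4: updates of phase 4 in polynomial time
-/

namespace Pool.Agent.W920.FC

open Pool.Agent.NPC Pool.Agent.H558R2 Pool.Agent.H622R3.SM

namespace TPU4

variable {α : Type} [TEnc α]

lemma osg_poly {f : α → Outcome} (hf : Poly f) : Poly (fun a => osg (f a)) := by
  refine (NPC.Poly.optElim (g := fun _ => (0 : ℤ)) (h := fun _ b => bif b then (1 : ℤ) else -1) hf
    (NPC.Poly.const 0) (NPC.Poly.cond (NPC.Poly.snd NPC.Poly.id) (NPC.Poly.const 1) (NPC.Poly.const (-1)))).congr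
      fun a => ?_
  cases h : f a with
  | none => rfl
  | some b => cases b <;> rfl

lemma bump_poly {y : α → List ℕ} {K j : α → ℕ} (hy : Poly y) (hK : UPoly K) (hj : Poly j) :
    Poly (fun a => bump (y a) (K a) (j a)) := by
  unfold bump
  refine NPC.Poly.map (F := fun a l => if l = j a then (y a).getD l 0 + 1 else (y a).getD l 0)
    hK.range ?_
  fun_prop

lemma rk_poly {K : α → ℕ} {o : α → List Outcome} (hK : UPoly K) (ho : Poly o) :
    Poly (fun a => rkOf (K a) (o a)) := by
  unfold rkOf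
  refine NPC.Poly.optGetD (NPC.Poly.optMap_fp (h := fun _ k' => k' + 1) (NPC.Poly.head? (NPC.Poly.filter
    (p := fun a k' => decide ((o a).getD k' none ≠ none)) (NPC.Poly.reverse hK.range) ?_)) ?_)
      (NPC.Poly.const 0)
  · fun_prop
  · fun_prop

lemma z_poly (h : S_PP4) {K j : α → ℕ} {o : α → List Outcome} (hK : UPoly K) (ho : Poly o)
    (hj : Poly j) : Poly (fun a => zOf (K a) (o a) (j a)) := by
  have hr := rk_poly hK ho
  have hKp := hK.toPoly
  unfold zOf
  have h1 : Poly (fun a => osg ((o a).getD (rkOf (K a) (o a) - 1) none)) :=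
    osg_poly (NPC.Poly.getD ho (NPC.Poly.sub hr (NPC.Poly.const 1)) (NPC.Poly.const none))
  have h2 : Poly (fun a => osg ((o a).getD (K a + (rkOf (K a) (o a) * K a + j a)) none)) :=
    osg_poly (NPC.Poly.getD ho (NPC.Poly.add hKp (NPC.Poly.add (NPC.Poly.mul hr hKp) hj)) (NPC.Poly.const none))
  have h3 : Poly (fun a => - osg ((o a).getD (rkOf (K a) (o a) - 1) none)) :=
    (((h α).1 _ _ h1 h1).2.2.1)
  have h4 : Poly (fun a => if rkOf (K a) (o a) = 0 then (1 : ℤ) else
      - osg ((o a).getD (rkOf (K a) (o a) - 1) none)) :=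
    NPC.Poly.ite (NPC.Poly.dec_eq hr (NPC.Poly.const 0)) (NPC.Poly.const 1) h3
  exact ((h α).1 _ _ h4 h2).2.1

lemma bad_poly (h : S_PP4) {K : α → ℕ} {drop : α → List Bool} {o : α → List Outcome}
    (hK : UPoly K) (hd : Poly drop) (ho : Poly o) :
    Poly (fun a => badOf (K a) (drop a) (o a)) := by
  unfold badOf
  refine NPC.Poly.filter (p := fun a j => !((drop a).getD j false) &&
    decide (zOf (K a) (o a) j ≤ 0)) hK.range ?_
  refine NPC.Poly.and (NPC.Poly.not (NPC.Poly.getD (hd.comp (NPC.Poly.fst NPC.Poly.id)) (NPC.Poly.snd NPC.Poly.id)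
    (NPC.Poly.const false))) ?_
  have hz : Poly (fun p : α × ℕ => zOf (K p.1) (o p.1) p.2) :=
    z_poly h (UPoly.comp hK (NPC.Poly.fst NPC.Poly.id)) (ho.comp (NPC.Poly.fst NPC.Poly.id)) (NPC.Poly.snd NPC.Poly.id)
  exact ((h (α × ℕ)).1 _ _ hz (NPC.Poly.const 0)).2.2.2.2.2.1

end TPU4

open TPU4 in
theorem t_PU4 (h : S_PP4) : S_PU4 := by
  intro α _ U V Lad idx y drop b o hU hV hLad hidx hy hdrop hb ho
  have hM : UPoly (fun a => (U a).length + ((V a).length + (V a).length)) :=
    UPoly.add (UPoly.length hU) (UPoly.add (UPoly.length hV) (UPoly.length hV))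
  have hK : UPoly (fun a => cK (U a).length (V a).length) := UPoly.add hM (UPoly.const 1)
  have hK2 : UPoly (fun p : α × ℕ => cK (U p.1).length (V p.1).length) :=
    UPoly.comp (n := fun a => cK (U a).length (V a).length) hK (NPC.Poly.fst NPC.Poly.id)
  have hM2 : UPoly (fun p : α × ℕ => (U p.1).length + ((V p.1).length + (V p.1).length)) :=
    UPoly.comp (n := fun a => (U a).length + ((V a).length + (V a).length)) hM
      (NPC.Poly.fst NPC.Poly.id)
  refine ⟨?_, ?_, ?_, ?_, ?_⟩
  · unfold wts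
    refine NPC.Poly.append (NPC.Poly.map (F := fun a j => (Lad a).getD ((idx a).getD j 0) ([], [1]))
      hM.range ?_) (NPC.Poly.const _)
    exact NPC.Poly.getD (hLad.comp (NPC.Poly.fst NPC.Poly.id)) (NPC.Poly.getD (hidx.comp (NPC.Poly.fst NPC.Poly.id))
      (NPC.Poly.snd NPC.Poly.id) (NPC.Poly.const 0)) (NPC.Poly.const _)
  · unfold drops
    refine NPC.Poly.append (NPC.Poly.map (F := fun a j => decide ((Lad a).length ≤ (idx a).getD j 0))
      hM.range ?_) (NPC.Poly.const _)
    exact NPC.Poly.decide_le (NPC.Poly.length (hLad.comp (NPC.Poly.fst NPC.Poly.id)))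
      (NPC.Poly.getD (hidx.comp (NPC.Poly.fst NPC.Poly.id)) (NPC.Poly.snd NPC.Poly.id) (NPC.Poly.const 0))
  · unfold perUpd
    refine NPC.Poly.optGetD (NPC.Poly.optMap_fp
      (h := fun a j => (bump (y a) (cK (U a).length (V a).length) j, b a))
      (NPC.Poly.head? (bad_poly h hK hdrop ho)) ?_) (NPC.Poly.pair hy (NPC.Poly.const true))
    exact NPC.Poly.pair (bump_poly (hy.comp (NPC.Poly.fst NPC.Poly.id)) hK2
      (NPC.Poly.snd NPC.Poly.id)) (hb.comp (NPC.Poly.fst NPC.Poly.id))
  · unfold nextIdx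
    refine NPC.Poly.optGetD (NPC.Poly.optMap_fp
      (h := fun a j => bump (idx a) ((U a).length + ((V a).length + (V a).length)) j)
      (NPC.Poly.head? (NPC.Poly.filter (p := fun a j => decide (4 * (cK (U a).length (V a).length *
        cK (U a).length (V a).length) ≤ (y a).getD j 0)) hK.range ?_)) ?_) hidx
    · have hKp : Poly (fun p : α × ℕ => cK (U p.1).length (V p.1).length) :=
        hK.toPoly.comp (NPC.Poly.fst NPC.Poly.id)
      exact NPC.Poly.decide_le (NPC.Poly.mul (NPC.Poly.const 4) (NPC.Poly.mul hKp hKp))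
        (NPC.Poly.getD (hy.comp (NPC.Poly.fst NPC.Poly.id)) (NPC.Poly.snd NPC.Poly.id) (NPC.Poly.const 0))
    · exact bump_poly (hidx.comp (NPC.Poly.fst NPC.Poly.id)) hM2
        (NPC.Poly.snd NPC.Poly.id)
  · exact UPoly.mul (UPoly.const 4) (UPoly.mul hK (UPoly.mul hK hK))

end Pool.Agent.W920.FC
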