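import Pool.Agent.W920.FC.Stm

set_option autoImplicit false

/-!
# Linear feasibility for matrices with few distinct entries: a round
-/

namespace Pool.Agent.W920.FC

open Pool.Agent.NPC Pool.Agent.H558R2 Pool.Agent.H622R3.SM

namespace TROUND

theorem qb_mono {β β' : ℕ} (h : β ≤ β') {v : ℝ} (hv : QB β v) : QB β' v := by
  obtain ⟨E, z, h1, h2, h3, h4⟩ := hv
  have hp : (2 : ℕ) ^ β ≤ 2 ^ β' := Nat.pow_le_pow_right (by norm_num) h
  exact ⟨E, z, h1, h2.trans hp, h3.trans hp, h4⟩

theorem gd_mono {p p' : Polynomial ℕ} {S : ℕ} {g : Reg → ℝ} (h : ∀ x : ℕ, p.eval x ≤ p'.eval x)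
    {v : ℝ} (hv : Gd p S g v) : Gd p' S g v :=
  fun lam hlam => qb_mono (h _) (hv lam hlam)

theorem smallL_mono {B B' : ℕ} (h : B ≤ B') {L : List ℤ} (hL : SmallL B L) : SmallL B' L :=
  fun x hx => (hL x hx).trans (Nat.pow_le_pow_right (by norm_num) h)

theorem smallL_nil (B : ℕ) : SmallL B [] := by
  intro x hx
  simp at hx

theorem smallL_one (B : ℕ) : SmallL B [1] := by
  intro x hx
  rw [List.mem_singleton] at hx
  subst hx
  exact Nat.one_le_two_pow

theorem evF_one {N : ℕ} (hN : 0 < N) (w : ℕ → ℝ) : evF N w [1] = w 0 := by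
  unfold evF
  rw [Finset.sum_eq_single 0]
  · simp
  · intro l _ hl
    have : ([1] : List ℤ).getD l 0 = 0 := by
      cases l with
      | zero => exact absurd rfl hl
      | succ l => rfl
    rw [this]
    simp
  · intro h
    exact absurd (Finset.mem_range.2 hN) h

theorem getD_cases {α : Type} (L : List α) (i : ℕ) (d : α) : L.getD i d ∈ L ∨ L.getD i d = d := by
  by_cases h : i < L.length
  · left
    rw [List.getD_eq_getElem _ _ h]
    exact List.getElem_mem h
  · right
    exact List.getD_eq_default _ _ (not_lt.1 h)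

theorem wts_length (m n : ℕ) (Lad : List (List ℤ × List ℤ)) (idx : List ℕ) :
    (wts m n Lad idx).length = cK m n := by
  simp [wts, cK]

theorem mem_wts {m n : ℕ} {Lad : List (List ℤ × List ℤ)} {idx : List ℕ} {u : List ℤ × List ℤ}
    (hu : u ∈ wts m n Lad idx) : u ∈ Lad ∨ u = ([], [1]) ∨ u = ([1], [1]) := by
  unfold wts at hu
  rw [List.mem_append] at hu
  rcases hu with hu | hu
  · rw [List.mem_map] at hu
    obtain ⟨j, _, rfl⟩ := hu
    rcases getD_cases Lad (idx.getD j 0) ([], [1]) with h | h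
    · exact Or.inl h
    · exact Or.inr (Or.inl h)
  · rw [List.mem_singleton] at hu
    exact Or.inr (Or.inr hu)

end TROUND

open TROUND

theorem t_ROUND : ∀ k, S_BND → S_BATCH → S_ITER → S_MONO → S_HVP k → S_KER → S_PERC → S_W0 →
    S_POLYB k → S_ROUND k := by
  intro k hBND hBATCH hITER hMONO hHVP hKER hPERC hW0 hPOLYB
  obtain ⟨pB, hpB⟩ := hPOLYB
  obtain ⟨q, hq⟩ := hHVP pB
  refine ⟨q + pB * q, ?_⟩
  intro m n g reps Lad idx b hg hLad hidx
  obtain ⟨hL1, hL2, hL3, hL4, hL5⟩ := hLad
  have hw0 : wv k m g reps 0 = 1 := (hW0 k m g reps hg).1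
  have hN : 0 < cN k m := by
    unfold cN
    positivity
  obtain ⟨-, -, -, -, -, -, hcT, -, -, hbdL, -, -⟩ := hpB m n
  have hsmall : SmallP (pB.eval (m + n)) (wts m n Lad idx) := by
    intro u hu
    rcases mem_wts hu with h | h | h
    · exact ⟨smallL_mono hbdL (hL2 u h).1, smallL_mono hbdL (hL2 u h).2⟩
    · rw [h]
      exact ⟨smallL_nil _, smallL_one _⟩
    · rw [h]
      exact ⟨smallL_one _, smallL_one _⟩
  have hne : ∀ u ∈ wts m n Lad idx, evF (cN k m) (wv k m g reps) u.2 ≠ 0 := by
    intro u hu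
    rcases mem_wts hu with h | h | h
    · exact (hL3 u h).2.ne'
    · rw [h, evF_one hN, hw0]
      exact one_ne_zero
    · rw [h, evF_one hN, hw0]
      exact one_ne_zero
  set w : ℕ → ℝ := wv k m g reps with hw
  set drop : List Bool := drops m n Lad idx with hdrop
  set G := GMat m n g (Wt k m n w Lad idx) drop with hG
  have hsymm : G.IsSymm := (hKER m n g (Wt k m n w Lad idx) drop).1
  have hper := (hPERC m n G drop b hsymm).1
  have hstep : ∀ i < cT m n, Runs g (Gd q (m + n) g)
      (bnd (batch (perQs k m n reps (wts m n Lad idx) drop (perSt m n G drop b i).1))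
        fun o => ret (perUpd (cK m n) drop (perSt m n G drop b i) o))
      (perSt m n G drop b (i + 1)) (q.eval (m + n)) := by
    intro i hi
    obtain ⟨h1, h2⟩ := hq m n g reps (wts m n Lad idx) drop (perSt m n G drop b i).1 hg hsmall
      (wts_length m n Lad idx) hne (fun l _ => (hper i l).trans hi.le)
    have h3 := hBATCH g (Gd q (m + n) g) _ _ h1
    have h4 := hBND _ _ g (Gd q (m + n) g) _
      (fun o => ret (perUpd (cK m n) drop (perSt m n G drop b i) o)) _
      (perSt m n G drop b (i + 1)) _ 0 h3 (Runs.done _ _ _ (fun h => rfl))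
    exact hMONO _ g _ _ _ _ _ _ (fun v hv => hv) (by simpa using h2) h4
  have hit := hITER (List ℕ × Bool) g (Gd q (m + n) g)
    (fun t => bnd (batch (perQs k m n reps (wts m n Lad idx) drop t.1))
      fun o => ret (perUpd (cK m n) drop t o))
    (perSt m n G drop b) (cT m n) (q.eval (m + n)) hstep
  have hfin := hBND _ _ g (Gd q (m + n) g) _
    (fun t : List ℕ × Bool => ret (nextIdx m n idx t.1, t.2)) _
    (nextIdx m n idx (perSt m n G drop b (cT m n)).1, (perSt m n G drop b (cT m n)).2) _ 0 hit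
    (Runs.done _ _ _ (fun h => rfl))
  refine hMONO _ g _ _ _ _ _ _ (fun v hv => gd_mono (fun x => ?_) hv) ?_ hfin
  · rw [Polynomial.eval_add]
    exact Nat.le_add_right _ _
  · rw [Polynomial.eval_add, Polynomial.eval_mul, add_zero]
    exact (Nat.mul_le_mul_right _ hcT).trans (Nat.le_add_left _ _)

end Pool.Agent.W920.FC
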