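import Pool.Agent.W920.FC.Stm
import Pool.Agent.H622R3.SM.T_EXEC

set_option autoImplicit false

/-!
# The run of the algorithm given by an adaptive computation
-/

namespace Pool.Agent.W920.FC

open Pool.Agent.NPC Pool.Agent.H558R2 Pool.Agent.H622R3.SM

namespace TRUN

theorem run_of {g : Reg → ℝ} {G : ℝ → Prop} (O : Set (List Bool))
    (α : List Outcome → List Instr × Test) {T : TT Bool} {b : Bool} {c : ℕ}
    (hr : Runs g G T b c) : ∀ (h : List Outcome) (ρ : Reg → ℝ) (k : ℕ),
    (∀ h', α (h ++ h') = (match T h' with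
      | Sum.inl p => ([], Test.answer p.1)
      | Sum.inr q => (q.1, Test.sign q.2))) →
    (∀ r ∈ baseReg, ρ r = g r) → c + 1 ≤ k →
    ∃ (nums : List ℝ) (steps : ℕ), run O α k h ρ = some (b, nums, steps) ∧ steps ≤ c ∧
      ∀ v ∈ nums, G v := by
  induction hr with
  | done T b c hT =>
    intro h ρ k hα _ hk
    obtain ⟨k, rfl⟩ : ∃ j, k = j + 1 := ⟨k - 1, by omega⟩
    have h1 := hα []
    rw [List.append_nil, hT []] at h1
    refine ⟨[], 0, ?_, Nat.zero_le _, fun v hv => absurd hv List.not_mem_nil⟩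
    simp only [run, h1, exec, Option.bind_some, List.length_nil]
  | step T b c q v h1 h2 h3 ih =>
    intro h ρ k hα hρ hk
    obtain ⟨k, rfl⟩ : ∃ j, k = j + 1 := ⟨k - 1, by omega⟩
    have e1 := hα []
    rw [List.append_nil, h1] at e1
    obtain ⟨hord, V, hVg, hVI, hq, hv⟩ := h2
    obtain ⟨ρ', x1, x2, x3⟩ := t_EXEC baseReg q.1 V ρ hord
      (fun r hr => by rw [hρ r hr, hVg r hr]) (fun I hI => ⟨(hVI I hI).1, (hVI I hI).2.1⟩)
    have hv' : ρ' q.2 = v := by
      rw [← hv]
      rcases hq with hq | ⟨I, hI, hq⟩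
      · exact x2 _ hq
      · rw [← hq]; exact x3 I hI
    obtain ⟨nums, steps, y1, y2, y3⟩ := ih (h ++ [signOut v]) ρ' k (by
      intro h'
      rw [List.append_assoc, List.singleton_append]
      exact hα _) (fun r hr => by rw [x2 r hr, hVg r hr]) (by omega)
    refine ⟨(q.1.map fun I => V I.dst) ++ nums, (q.1.map fun I => V I.dst).length + 1 + steps,
      ?_, ?_, ?_⟩
    · simp only [run, e1, x1, Option.bind_some, hv', y1, Option.map_some]
    · rw [List.length_map]; omega
    · intro w hw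
      rw [List.mem_append, List.mem_map] at hw
      rcases hw with ⟨I, hI, rfl⟩ | hw
      · exact (hVI I hI).2.2
      · exact y3 w hw

end TRUN

theorem t_RUN : S_RUN := by
  intro T m n g G b c hr O k hk
  exact TRUN.run_of O (algOf T m n) hr [] g k (fun h' => rfl) (fun _ _ => rfl) hk

end Pool.Agent.W920.FC
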