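import Pool.Agent.W920.FC.Stm

set_option autoImplicit false

/-!
# Simultaneous approximation by lattice reduction
-/

namespace Pool.Agent.W920.FC

open Pool.Agent.H687R2.LLL

namespace TSDA

theorem length_rows (N P : ℕ) (a : List ℕ) : (sdaRows N P a).length = N + 1 := by
  simp [sdaRows]

theorem rows_len (N P : ℕ) (a : List ℕ) : ∀ r ∈ sdaRows N P a, r.length = N := by
  intro r hr
  simp only [sdaRows, List.mem_cons, List.mem_map] at hr
  rcases hr with rfl | ⟨l, _, rfl⟩ <;> simp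

theorem nrm_le (M : ℕ) (l : List ℤ) (h : ∀ x ∈ l, x.natAbs ≤ M) : nrm l ≤ l.length * M := by
  induction l with
  | nil => simp
  | cons x l ih =>
    rw [nrm_cons, List.length_cons, add_mul, one_mul, add_comm]
    exact add_le_add (ih fun y hy => h y (List.mem_cons_of_mem _ hy)) (h x List.mem_cons_self)

theorem nrm_rows (N P : ℕ) (a : List ℕ) : ∀ r ∈ sdaRows N P a, nrm r < 2 ^ (P + N + 1) := by
  intro r hr
  have h1 : nrm r ≤ N * 2 ^ P := by
    have h0 := nrm_le (2 ^ P) r (by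
      intro x hx
      simp only [sdaRows, List.mem_cons, List.mem_map, List.mem_range] at hr
      rcases hr with rfl | ⟨l, _, rfl⟩
      · obtain ⟨l, _, rfl⟩ := List.mem_map.1 hx
        rw [Int.natAbs_natCast]
        exact min_le_right _ _
      · obtain ⟨l', _, rfl⟩ := List.mem_map.1 hx
        split_ifs
        · rw [Int.natAbs_neg, Int.natAbs_natCast]
        · simp)
    rwa [rows_len N P a r hr] at h0
  have h2 : N < 2 ^ N := Nat.lt_two_pow_self
  calc nrm r ≤ N * 2 ^ P := h1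
    _ ≤ 2 ^ N * 2 ^ P := Nat.mul_le_mul_right _ h2.le
    _ = 2 ^ (P + N) := by rw [← pow_add, add_comm]
    _ < 2 ^ (P + N + 1) := Nat.pow_lt_pow_right (by norm_num) (by omega)

theorem form_rows (N P : ℕ) (a : List ℕ) (c : ℕ → ℤ) {j : ℕ} (hj : j < N) :
    form (sdaRows N P a) c j =
      c 0 * ((min (a.getD j 0) (2 ^ P) : ℕ) : ℤ) - 2 ^ P * c (j + 1) := by
  have h0 : (((sdaRows N P a).getD 0 []).getD j 0 : ℤ) =
      ((min (a.getD j 0) (2 ^ P) : ℕ) : ℤ) := by
    rw [sdaRows, List.getD_cons_zero, List.getD_eq_getElem _ _ (by simpa using hj)]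
    simp
  have h1 : ∀ i < N, (((sdaRows N P a).getD (i + 1) []).getD j 0 : ℤ) =
      if j = i then -((2 ^ P : ℕ) : ℤ) else 0 := by
    intro i hi
    rw [sdaRows, List.getD_cons_succ, List.getD_eq_getElem (List.map _ _) _ (by simpa using hi),
      List.getElem_map, List.getD_eq_getElem _ _ (by simpa using hj)]
    simp
  rw [form, length_rows, Finset.sum_range_succ', Finset.sum_eq_single j]
  · rw [h0, h1 j hj, if_pos rfl]
    push_cast
    ring
  · intro i hi hij
    rw [h1 i (Finset.mem_range.1 hi), if_neg (Ne.symm hij), mul_zero]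
  · intro h
    exact absurd (Finset.mem_range.2 hj) h

/-- From Dirichlet's theorem: an output with nonzero first coordinate. -/
theorem exists_out (hD : S_DIR) (N E : ℕ) (a : List ℕ) :
    ∃ u ∈ relShort (sdaRows N ((N + 1) * E) a) ((N + 1) * E + N + 1) ((2 * N + 1) * 4 ^ (N * E)),
      u.getD 0 0 ≠ 0 := by
  obtain ⟨q, v, hq1, hq2, hv⟩ := hD N (2 ^ E) (2 ^ ((N + 1) * E))
    (fun l => min (a.getD l 0) (2 ^ ((N + 1) * E))) Nat.one_le_two_pow Nat.one_le_two_pow
    (fun l _ => min_le_right _ _)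
  set X := sdaRows N ((N + 1) * E) a with hX
  have hlen : X.length = N + 1 := length_rows _ _ _
  set c : ℕ → ℤ := fun i => if i = 0 then (q : ℤ) else (v (i - 1) : ℤ) with hc
  have hQ : (2 ^ E) ^ N = 2 ^ (N * E) := by rw [← pow_mul, mul_comm]
  rw [hQ] at hq2
  have h4 : (4 : ℤ) ^ (N * E) = (2 ^ (N * E)) ^ 2 := by
    rw [show (4 : ℤ) = 2 ^ 2 by norm_num, ← pow_mul, ← pow_mul, mul_comm]
  -- the squares
  have b0 : (c 0) ^ 2 ≤ 4 ^ (N * E) := by
    rw [h4]
    have : c 0 = q := by simp [hc]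
    rw [this]
    exact pow_le_pow_left₀ (by positivity) (by exact_mod_cast hq2) 2
  have b1 : ∀ i ∈ Finset.range N, (c (i + 1)) ^ 2 ≤ 4 ^ (N * E) := by
    intro i hi
    rw [h4]
    have : c (i + 1) = v i := by simp [hc]
    rw [this]
    exact pow_le_pow_left₀ (by positivity)
      (by exact_mod_cast ((hv i (Finset.mem_range.1 hi)).1.trans hq2)) 2
  have b2 : ∀ j ∈ Finset.range N, (form X c j) ^ 2 ≤ 4 ^ (N * E) := by
    intro j hj
    have hj' := Finset.mem_range.1 hj
    rw [h4, hX, form_rows N _ a c hj']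
    have e0 : c 0 = q := by simp [hc]
    have e1 : c (j + 1) = v j := by simp [hc]
    rw [e0, e1]
    have e2 := (hv j hj').2
    have e3 : (2 : ℕ) ^ ((N + 1) * E) = 2 ^ E * 2 ^ (N * E) := by
      rw [← pow_add]; congr 1; ring
    have e4 : ((q : ℤ) * ((min (a.getD j 0) (2 ^ ((N + 1) * E)) : ℕ) : ℤ) -
        ((2 ^ ((N + 1) * E) : ℕ) : ℤ) * v j).natAbs ≤ 2 ^ (N * E) := by
      refine Nat.le_of_mul_le_mul_left ?_ (Nat.two_pow_pos E)
      rw [← e3]
      exact e2
    rw [← sq_abs]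
    refine pow_le_pow_left₀ (abs_nonneg _) ?_ 2
    rw [Int.abs_eq_natAbs]
    push_cast at e4
    exact_mod_cast e4
  have hsum : ∑ i ∈ Finset.range X.length, c i ^ 2 +
      ∑ j ∈ Finset.range N, form X c j ^ 2 ≤ (((2 * N + 1) * 4 ^ (N * E) : ℕ) : ℤ) := by
    rw [hlen, Finset.sum_range_succ']
    have s1 := Finset.sum_le_sum b1
    have s2 := Finset.sum_le_sum b2
    rw [Finset.sum_const, Finset.card_range, nsmul_eq_mul] at s1 s2
    push_cast
    nlinarith [s1, s2, b0]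
  have hspan := relShort_span (q := N) (T := (N + 1) * E + N + 1)
    (rows_len N _ a) (nrm_rows N _ a) (by rw [length_rows]; omega)
    ((2 * N + 1) * 4 ^ (N * E)) c hsum
  by_contra hcon
  push Not at hcon
  have key : ∀ y ∈ Submodule.span ℤ {y : Fin X.length → ℤ | ∃ u ∈ relShort X
      ((N + 1) * E + N + 1) ((2 * N + 1) * 4 ^ (N * E)), y = fun i : Fin X.length => ent u i},
      y ⟨0, by omega⟩ = 0 := by
    intro y hy
    refine Submodule.span_induction (p := fun y _ => y ⟨0, by omega⟩ = 0) ?_ ?_ ?_ ?_ hy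
    · rintro _ ⟨u, hu, rfl⟩
      exact hcon u hu
    · rfl
    · intro x y _ _ hx hy
      simp [hx, hy]
    · intro z x _ hx
      simp [hx]
  have h0 := key _ hspan
  simp only [hc] at h0
  simp at h0
  omega

theorem two_mul_add_one_le (N : ℕ) : 2 * N + 1 ≤ 4 ^ N := by
  induction N with
  | zero => simp
  | succ n ih => rw [pow_succ]; omega

/-- The coordinates and forms of the outputs are small. -/
theorem small {N E h : ℕ} (a : List ℕ) (hE : h + 2 * N + 4 ≤ E) {x : ℤ}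
    (hx : x ^ 2 ≤ 4 ^ (N + 1) * (((2 * N + 1) * 4 ^ (N * E) : ℕ) : ℤ)) :
    x.natAbs * 2 ^ (h + 2) ≤ 2 ^ ((N + 1) * E) := by
  have h1 : x ^ 2 ≤ (2 ^ (2 * N + 1 + N * E)) ^ 2 := by
    refine hx.trans ?_
    have e1 : (((2 * N + 1) * 4 ^ (N * E) : ℕ) : ℤ) ≤ 4 ^ N * 4 ^ (N * E) := by
      exact_mod_cast Nat.mul_le_mul_right _ (two_mul_add_one_le N)
    have e2 : ((2 : ℤ) ^ (2 * N + 1 + N * E)) ^ 2 = 4 ^ (N + 1) * (4 ^ N * 4 ^ (N * E)) := by
      rw [← pow_add, ← pow_add, ← pow_mul, mul_comm _ 2, pow_mul]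
      norm_num
      ring
    rw [e2]
    exact mul_le_mul_of_nonneg_left e1 (by positivity)
  have h2 : x.natAbs ≤ 2 ^ (2 * N + 1 + N * E) := by
    have h3 : |x| ≤ 2 ^ (2 * N + 1 + N * E) := abs_le_of_sq_le_sq h1 (by positivity)
    rw [Int.abs_eq_natAbs] at h3
    exact_mod_cast h3
  calc x.natAbs * 2 ^ (h + 2) ≤ 2 ^ (2 * N + 1 + N * E) * 2 ^ (h + 2) := Nat.mul_le_mul_right _ h2
    _ = 2 ^ (2 * N + 1 + N * E + (h + 2)) := by rw [← pow_add]
    _ ≤ 2 ^ ((N + 1) * E) := Nat.pow_le_pow_right (by norm_num) (by nlinarith)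

end TSDA

open TSDA in
theorem t_SDA : S_DIR → S_SDA := by
  intro hD N E h a hN hE
  -- the vector chosen
  obtain ⟨u, hu, hu0, hsda⟩ : ∃ u ∈ relShort (sdaRows N ((N + 1) * E) a) ((N + 1) * E + N + 1)
      ((2 * N + 1) * 4 ^ (N * E)), u.getD 0 0 ≠ 0 ∧ sda N E a =
      if 0 < u.getD 0 0 then ((u.getD 0 0).natAbs, (List.range N).map fun l => u.getD (l + 1) 0)
      else ((u.getD 0 0).natAbs, (List.range N).map fun l => - u.getD (l + 1) 0) := by
    obtain ⟨w, hw, hw0⟩ := exists_out hD N E a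
    rcases hF : ((relShort (sdaRows N ((N + 1) * E) a) ((N + 1) * E + N + 1)
      ((2 * N + 1) * 4 ^ (N * E))).filter fun u => decide (u.getD 0 0 ≠ 0)) with _ | ⟨u, t⟩
    · exfalso
      have : w ∈ ([] : List (List ℤ)) := by
        rw [← hF]
        exact List.mem_filter.2 ⟨hw, by simpa using hw0⟩
      simp at this
    · have hu : u ∈ (relShort (sdaRows N ((N + 1) * E) a) ((N + 1) * E + N + 1)
        ((2 * N + 1) * 4 ^ (N * E))).filter fun u => decide (u.getD 0 0 ≠ 0) := by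
        rw [hF]; exact List.mem_cons_self
      rw [List.mem_filter] at hu
      refine ⟨u, hu.1, by simpa using hu.2, ?_⟩
      rw [sda, hF]
      rfl
  obtain ⟨hul, hus⟩ := relShort_short (q := N) (rows_len N _ a) (nrm_rows N _ a)
    (by rw [length_rows]; omega) _ hu
  rw [length_rows] at hus hul
  have hnn1 : ∀ i ∈ Finset.range (N + 1), (0 : ℤ) ≤ ent u i ^ 2 := fun i _ => sq_nonneg _
  have hnn2 : ∀ j ∈ Finset.range N,
    (0 : ℤ) ≤ form (sdaRows N ((N + 1) * E) a) (ent u) j ^ 2 := fun i _ => sq_nonneg _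
  have hc : ∀ i < N + 1, (ent u i).natAbs * 2 ^ (h + 2) ≤ 2 ^ ((N + 1) * E) := by
    intro i hi
    refine small a hE (le_trans ?_ hus)
    have h1 := Finset.single_le_sum hnn1 (Finset.mem_range.2 hi)
    have h2 := Finset.sum_nonneg hnn2
    linarith
  have hf : ∀ j < N, (form (sdaRows N ((N + 1) * E) a) (ent u) j).natAbs * 2 ^ (h + 2) ≤
      2 ^ ((N + 1) * E) := by
    intro j hj
    refine small a hE (le_trans ?_ hus)
    have h1 := Finset.single_le_sum hnn2 (Finset.mem_range.2 hj)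
    have h2 := Finset.sum_nonneg hnn1
    linarith
  have hc' : ∀ i < N + 1, (ent u i).natAbs ≤ 2 ^ ((N + 1) * E) := fun i hi =>
    le_trans (Nat.le_mul_of_pos_right _ (Nat.two_pow_pos _)) (hc i hi)
  have hu1 : 1 ≤ (u.getD 0 0).natAbs := Int.natAbs_pos.2 hu0
  have hgd : ∀ (f : ℕ → ℤ) (l : ℕ), l < N → ((List.range N).map f).getD l 0 = f l := by
    intro f l hl
    rw [List.getD_eq_getElem _ _ (by simpa using hl)]
    simp
  rw [hsda]
  split_ifs with hpos
  · refine ⟨by simp, fun l hl => ?_, hu1, hc 0 (by omega), fun ha l hl => ?_⟩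
    · rw [hgd _ l hl]
      exact hc' (l + 1) (by omega)
    · have h1 := hf l hl
      rw [form_rows N _ a _ hl, min_eq_left (ha l hl)] at h1
      rw [hgd _ l hl]
      have h2 : (((u.getD 0 0).natAbs : ℕ) : ℤ) = u.getD 0 0 := Int.natAbs_of_nonneg hpos.le
      rw [h2]
      exact h1
  · refine ⟨by simp, fun l hl => ?_, hu1, hc 0 (by omega), fun ha l hl => ?_⟩
    · rw [hgd _ l hl, Int.natAbs_neg]
      exact hc' (l + 1) (by omega)
    · have h1 := hf l hl
      rw [form_rows N _ a _ hl, min_eq_left (ha l hl)] at h1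
      rw [hgd _ l hl]
      have h2 : (((u.getD 0 0).natAbs : ℕ) : ℤ) = -u.getD 0 0 := by omega
      rw [h2]
      have h3 : -u.getD 0 0 * ((a.getD l 0 : ℕ) : ℤ) - 2 ^ ((N + 1) * E) * -u.getD (l + 1) 0 =
        -(ent u 0 * ((a.getD l 0 : ℕ) : ℤ) - 2 ^ ((N + 1) * E) * ent u (l + 1)) := by
        simp only [ent]; ring
      rw [h3, Int.natAbs_neg]
      exact h1

end Pool.Agent.W920.FC
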