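import Pool.Agent.W920.FC.Stm

set_option autoImplicit false

/-! # Sizes: monomials, forms and ratios -/

namespace Pool.Agent.W920.FC

open Pool.Agent.NPC Pool.Agent.H558R2 Pool.Agent.H622R3.SM

namespace TSM1

/-- `v * D ^ e` is an integer of absolute value at most `X * 2 ^ (lam * e)`. -/
def IQ (D lam e X : ℕ) (v : ℝ) : Prop :=
  ∃ z : ℤ, z.natAbs ≤ X * 2 ^ (lam * e) ∧ v * ((D ^ e : ℕ) : ℝ) = z

theorem iq_mul {D lam e f X Y : ℕ} {v w : ℝ} (hv : IQ D lam e X v) (hw : IQ D lam f Y w) :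
    IQ D lam (e + f) (X * Y) (v * w) := by
  obtain ⟨z, hz, hz'⟩ := hv
  obtain ⟨y, hy, hy'⟩ := hw
  refine ⟨z * y, ?_, ?_⟩
  · rw [Int.natAbs_mul, mul_add, pow_add]
    calc z.natAbs * y.natAbs ≤ (X * 2 ^ (lam * e)) * (Y * 2 ^ (lam * f)) := Nat.mul_le_mul hz hy
      _ = X * Y * (2 ^ (lam * e) * 2 ^ (lam * f)) := by ring
  · push_cast at hz' hy' ⊢
    rw [← hz', ← hy', pow_add]
    ring

theorem iq_one {D lam : ℕ} : IQ D lam 0 1 1 := ⟨1, by simp, by simp⟩

theorem iq_pow {D lam e : ℕ} {v : ℝ} (hv : IQ D lam e 1 v) (s : ℕ) : IQ D lam (e * s) 1 (v ^ s) := by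
  induction s with
  | zero => simpa using iq_one
  | succ s ih =>
    have := iq_mul ih hv
    rw [pow_succ, mul_add, mul_one]
    simpa using this

theorem iq_pad {D lam e f X : ℕ} {v : ℝ} (hD : D ≤ 2 ^ lam) (hv : IQ D lam e X v) (h : e ≤ f) :
    IQ D lam f X v := by
  obtain ⟨z, hz, hz'⟩ := hv
  obtain ⟨t, rfl⟩ := Nat.exists_eq_add_of_le h
  refine ⟨z * (D ^ t : ℕ), ?_, ?_⟩
  · rw [Int.natAbs_mul, Int.natAbs_natCast, mul_add, pow_add, ← mul_assoc]
    refine Nat.mul_le_mul hz ?_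
    rw [pow_mul]
    exact Nat.pow_le_pow_left hD t
  · push_cast at hz' ⊢
    rw [← hz', pow_add]
    ring

theorem iq_mono {D lam e X Y : ℕ} {v : ℝ} (hv : IQ D lam e X v) (h : X ≤ Y) : IQ D lam e Y v := by
  obtain ⟨z, hz, hz'⟩ := hv
  exact ⟨z, hz.trans (Nat.mul_le_mul_right _ h), hz'⟩

theorem iq_add {D lam e X Y : ℕ} {v w : ℝ} (hv : IQ D lam e X v) (hw : IQ D lam e Y w) :
    IQ D lam e (X + Y) (v + w) := by
  obtain ⟨z, hz, hz'⟩ := hv
  obtain ⟨y, hy, hy'⟩ := hw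
  refine ⟨z + y, ?_, ?_⟩
  · rw [add_mul]
    exact (Int.natAbs_add_le z y).trans (Nat.add_le_add hz hy)
  · push_cast at hz' hy' ⊢
    rw [← hz', ← hy']
    ring

theorem iq_zero {D lam e X : ℕ} : IQ D lam e X 0 := ⟨0, by simp, by simp⟩

theorem iq_int {D lam e X : ℕ} {v : ℝ} (hv : IQ D lam e X v) (a : ℤ) :
    IQ D lam e (a.natAbs * X) ((a : ℝ) * v) := by
  obtain ⟨z, hz, hz'⟩ := hv
  refine ⟨a * z, ?_, ?_⟩
  · rw [Int.natAbs_mul, mul_assoc]
    exact Nat.mul_le_mul_left _ hz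
  · push_cast at hz' ⊢
    rw [← hz']
    ring

theorem iq_nat {D lam e X : ℕ} {v : ℝ} (hv : IQ D lam e X v) (a : ℕ) :
    IQ D lam e (a * X) ((a : ℝ) * v) := by
  have := iq_int hv (a : ℤ)
  simpa using this

theorem iq_prod {D lam : ℕ} (r : ℕ) (f : ℕ → ℝ) (e : ℕ → ℕ) (h : ∀ i < r, IQ D lam (e i) 1 (f i)) :
    IQ D lam (∑ i ∈ Finset.range r, e i) 1 (∏ i ∈ Finset.range r, f i) := by
  induction r with
  | zero => simpa using iq_one
  | succ r ih =>
    rw [Finset.sum_range_succ, Finset.prod_range_succ]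
    have := iq_mul (ih fun i hi => h i (by omega)) (h r (by omega))
    simpa using this

theorem iq_sum {D lam e X : ℕ} (r : ℕ) (f : ℕ → ℝ) (h : ∀ i < r, IQ D lam e X (f i)) :
    IQ D lam e (r * X) (∑ i ∈ Finset.range r, f i) := by
  induction r with
  | zero => simpa using iq_zero
  | succ r ih =>
    rw [Finset.sum_range_succ, add_mul, one_mul]
    exact iq_add (ih fun i hi => h i (by omega)) (h r (by omega))

theorem iq_qb {D lam e X β : ℕ} {v : ℝ} (hD1 : 1 ≤ D) (hD : D ≤ 2 ^ lam) (hv : IQ D lam e X v)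
    (h1 : 2 ^ (lam * e) ≤ 2 ^ β) (h2 : X * 2 ^ (lam * e) ≤ 2 ^ β) : QB β v := by
  obtain ⟨z, hz, hz'⟩ := hv
  refine ⟨D ^ e, z, Nat.one_le_pow _ _ hD1, ?_, hz.trans h2, hz'⟩
  refine le_trans ?_ h1
  rw [pow_mul]
  exact Nat.pow_le_pow_left hD e

theorem iq_div {D lam e X β : ℕ} {v w : ℝ} (hD1 : 1 ≤ D) (hv : IQ D lam e X v)
    (hw : IQ D lam e X w) (hw0 : w ≠ 0) (h2 : X * 2 ^ (lam * e) ≤ 2 ^ β) : QB β (v / w) := by
  obtain ⟨a, ha, ha'⟩ := hv
  obtain ⟨b, hb, hb'⟩ := hw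
  have hDe : (((D ^ e : ℕ)) : ℝ) ≠ 0 := by
    have : D ^ e ≠ 0 := pow_ne_zero _ (by omega)
    exact_mod_cast this
  have hb0 : b ≠ 0 := by
    intro h
    rw [h, Int.cast_zero] at hb'
    exact (mul_ne_zero hw0 hDe) hb'
  have hb0' : (b : ℝ) ≠ 0 := by exact_mod_cast hb0
  have hvw : v / w = a / b := by
    rw [← ha', ← hb', mul_div_mul_right _ _ hDe]
  refine ⟨b.natAbs, a * b.sign, Int.natAbs_pos.mpr hb0, hb.trans h2, ?_, ?_⟩
  · rw [Int.natAbs_mul, Int.natAbs_sign_of_ne_zero hb0, mul_one]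
    exact ha.trans h2
  · rw [hvw]
    have h0 : ((b.natAbs : ℕ) : ℤ) = b.sign * b := by
      rw [Int.natCast_natAbs, Int.sign_mul_self_eq_abs]
    have h1 : ((b.natAbs : ℕ) : ℝ) = ((b.sign * b : ℤ) : ℝ) := by
      rw [← h0, Int.cast_natCast]
    rw [h1]
    push_cast
    field_simp

/-- the exponents are at most `m` -/
theorem exps_le (m j : ℕ) : ∀ e ∈ exps m j, ∀ i, e.getD i 0 ≤ m := by
  induction j with
  | zero =>
    intro e he i
    simp only [exps, List.mem_singleton] at he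
    subst he
    simp
  | succ j ih =>
    intro e he i
    simp only [exps, List.mem_flatMap, List.mem_map, List.mem_range] at he
    obtain ⟨d, hd, e', he', rfl⟩ := he
    cases i with
    | zero => simpa using (by omega : d ≤ m)
    | succ i => simpa using ih e' he' i

theorem exps_getD_le (m j l i : ℕ) : ((exps m j).getD l []).getD i 0 ≤ m := by
  by_cases h : l < (exps m j).length
  · rw [List.getD_eq_getElem _ _ h]
    exact exps_le m j _ (List.getElem_mem h) i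
  · have h0 : (exps m j).getD l [] = [] := List.getD_eq_default _ _ (by omega)
    rw [h0]
    simp

theorem vr30 (p : Par) (r s : ℕ) : vr p [30, r, s] = p.g (thr p.reps r) ^ s := rfl

theorem vr31 (p : Par) (l r : ℕ) : vr p [31, l, r] =
    p.g (breg (((exps p.m (p.k + 1)).getD l []).getD 0 0)) *
      ∏ i ∈ Finset.range r, p.g (thr p.reps i) ^ ((exps p.m (p.k + 1)).getD l []).getD (i + 1) 0 :=
  rfl

theorem vr32 (p : Par) (c l : ℕ) : vr p [32, c, l] =
    ∑ i ∈ Finset.range l, ((p.fm c).getD i 0 : ℝ) * p.w i := rfl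

theorem vr33 (p : Par) (c l t : ℕ) : vr p [33, c, l, t] = ((((p.fm c).getD l 0).natAbs /
      2 ^ ((((p.fm c).getD l 0).natAbs.bits).length - t) : ℕ) : ℝ) * p.w l := rfl

theorem vr34 (p : Par) (c l t : ℕ) : vr p [34, c, l, t] = 2 * (((((p.fm c).getD l 0).natAbs /
      2 ^ ((((p.fm c).getD l 0).natAbs.bits).length - t) : ℕ) : ℝ) * p.w l) := rfl

theorem vr35 (p : Par) (j : ℕ) : vr p [35, j] = p.W j := rfl

theorem base_iq {D lam : ℕ} {g : Reg → ℝ}
    (h : ∀ r ∈ baseReg, ∃ z : ℤ, z.natAbs ≤ 2 ^ lam ∧ g r * D = z) (r : Reg) (hr : r ∈ baseReg) :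
    IQ D lam 1 1 (g r) := by
  obtain ⟨z, hz, hz'⟩ := h r hr
  exact ⟨z, by simpa using hz, by simpa using hz'⟩

theorem thr_base (reps : List (ℕ × ℕ)) (r : ℕ) : thr reps r ∈ baseReg := by
  simp [thr, baseReg]

theorem breg_base (d : ℕ) : breg d ∈ baseReg := by
  unfold breg
  split_ifs <;> simp [baseReg]

theorem fm_small {p : Par} {B : ℕ} (h : SmallP B p.L) (c i : ℕ) :
    ((p.fm c).getD i 0).natAbs ≤ 2 ^ B := by
  have key : SmallL B (p.fm c) := by
    have h1 : ∀ j, SmallL B (p.L.getD j ([], [])).1 ∧ SmallL B (p.L.getD j ([], [])).2 := by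
      intro j
      by_cases hj : j < p.L.length
      · rw [List.getD_eq_getElem _ _ hj]
        exact h _ (List.getElem_mem hj)
      · rw [List.getD_eq_default _ _ (by omega)]
        constructor <;> intro x hx <;> simp at hx
    unfold Par.fm
    split_ifs
    · exact (h1 _).1
    · exact (h1 _).2
  by_cases hi : i < (p.fm c).length
  · rw [List.getD_eq_getElem _ _ hi]
    exact key _ (List.getElem_mem hi)
  · rw [List.getD_eq_default _ _ (by omega)]
    simp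

section

variable {p : Par} {D lam : ℕ}
  (h : ∀ r ∈ baseReg, ∃ z : ℤ, z.natAbs ≤ 2 ^ lam ∧ p.g r * D = z)

include h

theorem iq30 (r s : ℕ) : IQ D lam s 1 (vr p [30, r, s]) := by
  rw [vr30]
  have := iq_pow (base_iq h _ (thr_base p.reps r)) s
  rwa [one_mul] at this

theorem iq31 (hD : D ≤ 2 ^ lam) (l r : ℕ) (hr : r ≤ p.k) :
    IQ D lam (p.k * p.m + 1) 1 (vr p [31, l, r]) := by
  rw [vr31]
  have h1 := iq_prod (D := D) (lam := lam) r
    (fun i => p.g (thr p.reps i) ^ ((exps p.m (p.k + 1)).getD l []).getD (i + 1) 0)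
    (fun i => ((exps p.m (p.k + 1)).getD l []).getD (i + 1) 0)
    (fun i _ => by
      have := iq_pow (base_iq h _ (thr_base p.reps i))
        (((exps p.m (p.k + 1)).getD l []).getD (i + 1) 0)
      rwa [one_mul] at this)
  have h2 := iq_mul (base_iq h _ (breg_base (((exps p.m (p.k + 1)).getD l []).getD 0 0))) h1
  refine iq_pad hD h2 ?_
  have h3 : ∑ i ∈ Finset.range r, ((exps p.m (p.k + 1)).getD l []).getD (i + 1) 0 ≤ p.k * p.m := by
    calc ∑ i ∈ Finset.range r, ((exps p.m (p.k + 1)).getD l []).getD (i + 1) 0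
        ≤ ∑ i ∈ Finset.range r, p.m := Finset.sum_le_sum fun i _ => exps_getD_le _ _ _ _
      _ = r * p.m := by rw [Finset.sum_const, Finset.card_range, smul_eq_mul]
      _ ≤ p.k * p.m := Nat.mul_le_mul_right _ hr
  omega

theorem iqw (hD : D ≤ 2 ^ lam) (l : ℕ) : IQ D lam (p.k * p.m + 1) 1 (p.w l) := by
  have := iq31 h hD l p.k le_rfl
  rw [vr31] at this
  exact this

theorem iq32 (hD : D ≤ 2 ^ lam) {B : ℕ} (hB : SmallP B p.L) (c l : ℕ) :
    IQ D lam (p.k * p.m + 1) (l * 2 ^ B) (vr p [32, c, l]) := by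
  rw [vr32]
  refine iq_sum l _ fun i _ => ?_
  have := iq_int (iqw h hD i) ((p.fm c).getD i 0)
  refine iq_mono this ?_
  rw [mul_one]
  exact fm_small hB c i

theorem iq33 (hD : D ≤ 2 ^ lam) {B : ℕ} (hB : SmallP B p.L) (c l t : ℕ) :
    IQ D lam (p.k * p.m + 1) (2 ^ B) (vr p [33, c, l, t]) := by
  rw [vr33]
  refine iq_mono (iq_nat (iqw h hD l) _) ?_
  rw [mul_one]
  exact (Nat.div_le_self _ _).trans (fm_small hB c l)

theorem iq34 (hD : D ≤ 2 ^ lam) {B : ℕ} (hB : SmallP B p.L) (c l t : ℕ) :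
    IQ D lam (p.k * p.m + 1) (2 * 2 ^ B) (vr p [34, c, l, t]) := by
  have := iq_nat (iq33 h hD hB c l t) 2
  rw [vr33] at this
  rw [vr34]
  exact_mod_cast this

end

theorem zipIdx_get {α : Type} {l : List α} {p : α × ℕ} (hp : p ∈ l.zipIdx) (d : α) :
    p.2 < l.length ∧ l.getD p.2 d = p.1 := by
  obtain ⟨a, i⟩ := p
  rw [List.mem_zipIdx_iff_getElem?] at hp
  obtain ⟨hi, he⟩ := List.getElem?_eq_some_iff.mp hp
  exact ⟨hi, by rw [List.getD_eq_getElem _ _ hi]; exact he⟩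

/-- the destinations of the base program -/
theorem dst_base (k m : ℕ) (reps : List (ℕ × ℕ)) : ∀ I ∈ baseProg k m reps,
    (∃ r s, r < k ∧ s ≤ m ∧ I.dst = [30, r, s]) ∨ (∃ l r, r ≤ k ∧ I.dst = [31, l, r]) := by
  intro I hI
  unfold baseProg at hI
  rw [List.mem_append] at hI
  rcases hI with hI | hI
  · left
    unfold powProg at hI
    rw [List.mem_flatMap] at hI
    obtain ⟨r, hr, hI⟩ := hI
    rw [List.mem_range] at hr
    rw [List.mem_cons, List.mem_map] at hI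
    rcases hI with rfl | ⟨s, hs, rfl⟩
    · exact ⟨r, 0, hr, Nat.zero_le _, rfl⟩
    · rw [List.mem_range] at hs
      exact ⟨r, s + 1, hr, hs, rfl⟩
  · right
    unfold monProg at hI
    rw [List.mem_flatMap] at hI
    obtain ⟨e, he, hI⟩ := hI
    rw [List.mem_cons, List.mem_map] at hI
    rcases hI with rfl | ⟨r, hr, rfl⟩
    · exact ⟨e.2, 0, Nat.zero_le _, rfl⟩
    · rw [List.mem_range] at hr
      exact ⟨e.2, r + 1, hr, rfl⟩

/-- the destinations of the program of a form -/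
theorem dst_form (k N c : ℕ) (C : List ℤ) : ∀ I ∈ formProg k N c C,
    (∃ l, l ≤ N ∧ I.dst = [32, c, l]) ∨ (∃ l t, I.dst = [33, c, l, t]) ∨
      ∃ l t, I.dst = [34, c, l, t] := by
  intro I hI
  unfold formProg at hI
  rw [List.mem_cons, List.mem_flatMap] at hI
  rcases hI with rfl | ⟨l, hl, hI⟩
  · exact Or.inl ⟨0, Nat.zero_le _, rfl⟩
  · rw [List.mem_range] at hl
    rw [List.mem_append] at hI
    rcases hI with hI | hI
    · right
      unfold mulProg at hI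
      rw [List.mem_cons, List.mem_flatMap] at hI
      rcases hI with rfl | ⟨q, hq, hI⟩
      · exact Or.inl ⟨l, 0, rfl⟩
      · simp only [List.mem_cons, List.not_mem_nil, or_false] at hI
        rcases hI with rfl | rfl
        · exact Or.inr ⟨l, q.2, rfl⟩
        · exact Or.inl ⟨l, q.2 + 1, rfl⟩
    · left
      rw [List.mem_singleton] at hI
      refine ⟨l + 1, hl, ?_⟩
      rw [hI]
      split_ifs <;> rfl

/-- the polynomial -/
noncomputable def pol (k : ℕ) : Polynomial ℕ :=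
  1 + Polynomial.X * Polynomial.C (k + 1) + Polynomial.X +
    Polynomial.X * (Polynomial.C k * Polynomial.X + 1)

theorem pol_eval (k s : ℕ) : (pol k).eval s = 1 + s * (k + 1) + s + s * (k * s + 1) := by
  simp [pol]

theorem bound {k m B lam s X : ℕ} (hm : m ≤ s) (hB : B ≤ s) (hl : lam ≤ s)
    (hX : X ≤ 2 * ((m + 1) ^ (k + 1) * 2 ^ B)) :
    X * 2 ^ (lam * (k * m + 1)) ≤ 2 ^ (1 + s * (k + 1) + s + s * (k * s + 1)) := by
  have h1 : m + 1 ≤ 2 ^ m := Nat.lt_two_pow_self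
  have h2 : (m + 1) ^ (k + 1) ≤ 2 ^ (s * (k + 1)) := by
    calc (m + 1) ^ (k + 1) ≤ (2 ^ m) ^ (k + 1) := Nat.pow_le_pow_left h1 _
      _ = 2 ^ (m * (k + 1)) := by rw [pow_mul]
      _ ≤ 2 ^ (s * (k + 1)) := Nat.pow_le_pow_right (by norm_num) (Nat.mul_le_mul_right _ hm)
  have h3 : 2 ^ B ≤ 2 ^ s := Nat.pow_le_pow_right (by norm_num) hB
  have h4 : 2 ^ (lam * (k * m + 1)) ≤ 2 ^ (s * (k * s + 1)) := by
    refine Nat.pow_le_pow_right (by norm_num) (Nat.mul_le_mul hl ?_)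
    have : k * m ≤ k * s := Nat.mul_le_mul_left _ hm
    omega
  calc X * 2 ^ (lam * (k * m + 1))
      ≤ (2 * ((m + 1) ^ (k + 1) * 2 ^ B)) * 2 ^ (lam * (k * m + 1)) := Nat.mul_le_mul_right _ hX
    _ ≤ (2 * (2 ^ (s * (k + 1)) * 2 ^ s)) * 2 ^ (s * (k * s + 1)) :=
        Nat.mul_le_mul (Nat.mul_le_mul_left _ (Nat.mul_le_mul h2 h3)) h4
    _ = 2 ^ (1 + s * (k + 1) + s + s * (k * s + 1)) := by
        rw [pow_add, pow_add, pow_add, pow_one]
        ring

end TSM1

open TSM1 in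
theorem t_SM1 : ∀ k, S_SM1 k := by
  intro k
  refine ⟨pol k, ?_⟩
  intro p B lam hk hBase hRB hL
  subst hk
  obtain ⟨D, hD1, hD, h⟩ := hRB
  rw [pol_eval]
  set s := p.m + p.n + B + lam with hs
  have hm : p.m ≤ s := by omega
  have hBs : B ≤ s := by omega
  have hls : lam ≤ s := by omega
  have hN1 : 1 ≤ (p.m + 1) ^ (p.k + 1) := Nat.one_le_pow _ _ (by omega)
  have h2B : 1 ≤ 2 ^ B := Nat.one_le_two_pow
  have hNB : 1 ≤ (p.m + 1) ^ (p.k + 1) * 2 ^ B := Nat.mul_pos hN1 h2B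
  have hX1 := bound (k := p.k) (X := 1) hm hBs hls (by omega)
  rw [one_mul] at hX1
  have form : ∀ c, ∀ I ∈ formProg p.k (cN p.k p.m) c (p.fm c),
      QB (1 + s * (p.k + 1) + s + s * (p.k * s + 1)) (vr p I.dst) := by
    intro c I hI
    rcases dst_form p.k (cN p.k p.m) c (p.fm c) I hI with ⟨l, hl, h1⟩ | ⟨l, t, h1⟩ | ⟨l, t, h1⟩
    · rw [h1]
      refine iq_qb hD1 hD (iq32 h hD hL c l) hX1 (bound hm hBs hls ?_)
      unfold cN at hl
      calc l * 2 ^ B ≤ (p.m + 1) ^ (p.k + 1) * 2 ^ B := Nat.mul_le_mul_right _ hl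
        _ ≤ _ := by omega
    · rw [h1]
      refine iq_qb hD1 hD (iq33 h hD hL c l t) hX1 (bound hm hBs hls ?_)
      calc 2 ^ B = 1 * 2 ^ B := (one_mul _).symm
        _ ≤ (p.m + 1) ^ (p.k + 1) * 2 ^ B := Nat.mul_le_mul_right _ hN1
        _ ≤ _ := by omega
    · rw [h1]
      refine iq_qb hD1 hD (iq34 h hD hL c l t) hX1 (bound hm hBs hls ?_)
      refine Nat.mul_le_mul_left _ ?_
      calc 2 ^ B = 1 * 2 ^ B := (one_mul _).symm
        _ ≤ (p.m + 1) ^ (p.k + 1) * 2 ^ B := Nat.mul_le_mul_right _ hN1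
  refine ⟨?_, form, ?_⟩
  · intro I hI
    rcases dst_base p.k p.m p.reps I hI with ⟨r, t, hr, ht, h1⟩ | ⟨l, r, hr, h1⟩
    · rw [h1]
      have h2 : 2 ^ (lam * t) ≤ 2 ^ (1 + s * (p.k + 1) + s + s * (p.k * s + 1)) := by
        refine Nat.pow_le_pow_right (by norm_num) ?_
        have h3 : lam * t ≤ s * (p.k * s) := by
          refine Nat.mul_le_mul hls (ht.trans (hm.trans ?_))
          exact Nat.le_mul_of_pos_left _ (by omega)
        have h4 : s * (p.k * s) ≤ s * (p.k * s + 1) := Nat.mul_le_mul_left _ (Nat.le_succ _)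
        omega
      exact iq_qb hD1 hD (iq30 h r t) h2 (by rwa [one_mul])
    · rw [h1]
      exact iq_qb hD1 hD (iq31 h hD l r hr) hX1 (by rwa [one_mul])
  · intro hne I hI
    unfold ratProg at hI
    rw [List.mem_flatMap] at hI
    obtain ⟨u, hu, hI⟩ := hI
    obtain ⟨hu1, hu2⟩ := zipIdx_get hu ([], [])
    have e1 : p.fm (2 * u.2) = u.1.1 := by
      unfold Par.fm
      rw [if_pos (by omega), show 2 * u.2 / 2 = u.2 by omega, hu2]
    have e2 : p.fm (2 * u.2 + 1) = u.1.2 := by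
      unfold Par.fm
      rw [if_neg (by omega), show (2 * u.2 + 1) / 2 = u.2 by omega, hu2]
    rw [List.mem_append, List.mem_append, List.mem_singleton] at hI
    rcases hI with hI | hI | rfl
    · rw [← e1] at hI
      exact form _ I hI
    · rw [← e2] at hI
      exact form _ I hI
    · have hmem : u.1 ∈ p.L := by
        rw [← hu2, List.getD_eq_getElem _ _ hu1]
        exact List.getElem_mem hu1
      have h3 := iq32 h hD hL (2 * u.2) (cN p.k p.m)
      have h4 := iq32 h hD hL (2 * u.2 + 1) (cN p.k p.m)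
      rw [vr32, e1] at h3
      rw [vr32, e2] at h4
      show QB _ (vr p [35, u.2])
      rw [vr35, Par.W, hu2, rt]
      refine iq_div hD1 h3 h4 (hne _ hmem) (bound hm hBs hls ?_)
      unfold cN
      omega



end Pool.Agent.W920.FC

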