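import Pool.Agent.W920.FC.Stm

set_option autoImplicit false

/-!
# A common denominator of the weighted matrix
-/

namespace Pool.Agent.W920.FC

open Pool.Agent.NPC Pool.Agent.H558R2 Pool.Agent.H622R3.SM

namespace TSM2

/-- `v * D` is an integer at most `2 ^ β` in absolute value. -/
def IB (D β : ℕ) (v : ℝ) : Prop := ∃ z : ℤ, z.natAbs ≤ 2 ^ β ∧ v * D = z

theorem IB.mono {D β β' : ℕ} {v : ℝ} (h : IB D β v) (hb : β ≤ β') : IB D β' v := by
  obtain ⟨z, h1, h2⟩ := h
  exact ⟨z, h1.trans (Nat.pow_le_pow_right (by norm_num) hb), h2⟩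

theorem IB.mul {D D' β β' : ℕ} {v v' : ℝ} (h : IB D β v) (h' : IB D' β' v') :
    IB (D * D') (β + β') (v * v') := by
  obtain ⟨z, h1, h2⟩ := h
  obtain ⟨z', h1', h2'⟩ := h'
  refine ⟨z * z', ?_, ?_⟩
  · rw [Int.natAbs_mul, pow_add]
    exact Nat.mul_le_mul h1 h1'
  · push_cast
    rw [← h2, ← h2']
    ring

theorem IB.one {D β : ℕ} (h : D ≤ 2 ^ β) : IB D β 1 := ⟨D, by simpa using h, by simp⟩

theorem IB.pow {D β : ℕ} {v : ℝ} (h : IB D β v) (hD : D ≤ 2 ^ β) {s m : ℕ} (hs : s ≤ m) :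
    IB (D ^ m) (m * β) (v ^ s) := by
  have h1 : ∀ s : ℕ, IB (D ^ s) (s * β) (v ^ s) := by
    intro s
    induction s with
    | zero => exact ⟨1, by simp, by simp⟩
    | succ s ih =>
      have := ih.mul h
      rw [pow_succ, pow_succ, Nat.succ_mul]
      exact this
  obtain ⟨d, rfl⟩ := Nat.exists_eq_add_of_le hs
  have h2 : IB (D ^ d) (d * β) (1 : ℝ) := by
    apply IB.one
    rw [mul_comm d β, pow_mul]
    exact Nat.pow_le_pow_left hD d
  have h3 := (h1 s).mul h2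
  rw [mul_one, ← pow_add, ← Nat.add_mul] at h3
  exact h3

theorem IB.prod {D β : ℕ} {v : ℕ → ℝ} (h : ∀ i, IB D β (v i)) (k : ℕ) :
    IB (D ^ k) (k * β) (∏ i ∈ Finset.range k, v i) := by
  induction k with
  | zero => exact ⟨1, by simp, by simp⟩
  | succ k ih =>
    have := ih.mul (h k)
    rw [Finset.prod_range_succ, pow_succ, Nat.succ_mul]
    exact this

theorem IB.sum {D β B : ℕ} {c : ℕ → ℤ} {w : ℕ → ℝ} (hc : ∀ i, (c i).natAbs ≤ 2 ^ B)
    (h : ∀ i, IB D β (w i)) (N : ℕ) :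
    ∃ z : ℤ, z.natAbs ≤ N * 2 ^ (B + β) ∧ (∑ i ∈ Finset.range N, (c i : ℝ) * w i) * D = z := by
  induction N with
  | zero => exact ⟨0, by simp, by simp⟩
  | succ N ih =>
    obtain ⟨z, h1, h2⟩ := ih
    obtain ⟨z', h1', h2'⟩ := h N
    refine ⟨z + c N * z', ?_, ?_⟩
    · refine (Int.natAbs_add_le _ _).trans ?_
      rw [Int.natAbs_mul, Nat.succ_mul]
      refine Nat.add_le_add h1 ?_
      rw [pow_add]
      exact Nat.mul_le_mul (hc N) h1'
    · rw [Finset.sum_range_succ]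
      push_cast
      rw [← h2, ← h2']
      ring

theorem exps_le (m : ℕ) : ∀ (j : ℕ), ∀ e ∈ exps m j, ∀ d ∈ e, d ≤ m := by
  intro j
  induction j with
  | zero =>
    intro e he
    simp only [exps, List.mem_singleton] at he
    subst he
    intro d hd
    simp at hd
  | succ j ih =>
    intro e he d hd
    simp only [exps, List.mem_flatMap, List.mem_map, List.mem_range] at he
    obtain ⟨a, ha, e', he', rfl⟩ := he
    rcases List.mem_cons.1 hd with rfl | hd
    · omega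
    · exact ih e' he' d hd

theorem getD_mem {α : Type} (L : List α) (i : ℕ) (d : α) : L.getD i d ∈ L ∨ L.getD i d = d := by
  by_cases h : i < L.length
  · left
    rw [List.getD_eq_getElem _ _ h]
    exact List.getElem_mem h
  · right
    rw [List.getD_eq_default _ _ (by omega)]

theorem exps_getD_le (m j l i : ℕ) : ((exps m j).getD l []).getD i 0 ≤ m := by
  rcases getD_mem (exps m j) l [] with h | h
  · rcases getD_mem ((exps m j).getD l []) i 0 with h' | h'
    · exact exps_le m j _ h _ h'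
    · rw [h']; exact Nat.zero_le _
  · rw [h]; simp

theorem wv_IB {lam D : ℕ} {g : Reg → ℝ} (hD : D ≤ 2 ^ lam)
    (hg : ∀ r ∈ baseReg, IB D lam (g r)) (k m : ℕ) (reps : List (ℕ × ℕ)) (l : ℕ) :
    IB (D ^ (m * k + 1)) ((m * k + 1) * lam) (wv k m g reps l) := by
  unfold wv mono
  have h1 : IB D lam (g (breg (((exps m (k + 1)).getD l []).getD 0 0))) := by
    apply hg
    unfold breg baseReg
    split_ifs <;> simp
  have h2 : IB ((D ^ m) ^ k) (k * (m * lam)) (∏ r ∈ Finset.range k,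
      g (thr reps r) ^ ((exps m (k + 1)).getD l []).getD (r + 1) 0) := by
    apply IB.prod
    intro r
    refine IB.pow (hg _ ?_) hD (exps_getD_le m (k + 1) l (r + 1))
    unfold thr baseReg
    simp
  have h3 := h1.mul h2
  have e1 : D * (D ^ m) ^ k = D ^ (m * k + 1) := by rw [← pow_mul, pow_succ, mul_comm]
  have e2 : lam + k * (m * lam) = (m * k + 1) * lam := by ring
  rw [e1, e2] at h3
  exact h3

theorem evF_IB {lam D B : ℕ} {g : Reg → ℝ} (hD : D ≤ 2 ^ lam)
    (hg : ∀ r ∈ baseReg, IB D lam (g r)) (k m : ℕ) (reps : List (ℕ × ℕ)) (C : List ℤ)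
    (hC : SmallL B C) :
    IB (D ^ (m * k + 1)) (cN k m + (B + (m * k + 1) * lam)) (evF (cN k m) (wv k m g reps) C) := by
  have hc : ∀ i, (C.getD i 0).natAbs ≤ 2 ^ B := by
    intro i
    rcases getD_mem C i 0 with h | h
    · exact hC _ h
    · rw [h]; simp
  obtain ⟨z, h1, h2⟩ := IB.sum (c := fun i => C.getD i 0) hc (wv_IB hD hg k m reps) (cN k m)
  refine ⟨z, h1.trans ?_, h2⟩
  rw [pow_add 2 (cN k m)]
  exact Nat.mul_le_mul_right _ Nat.lt_two_pow_self.le

theorem Rv_IB {lam D : ℕ} {g : Reg → ℝ} (hD : D ≤ 2 ^ lam)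
    (hg : ∀ r ∈ baseReg, IB D lam (g r)) (m n i j : ℕ) : IB D lam (Rv m n g i j) := by
  have h0 : IB D lam (0 : ℝ) := ⟨0, by simp, by simp⟩
  have hneg : ∀ v, IB D lam v → IB D lam (-v) := by
    rintro v ⟨z, h1, h2⟩
    refine ⟨-z, by simpa using h1, ?_⟩
    push_cast
    rw [← h2]
    ring
  unfold Rv
  split_ifs
  · exact IB.one hD
  · exact h0
  · apply hneg
    apply hg
    unfold baseReg
    simp
  · apply hg
    unfold baseReg
    simp
  · apply hg
    unfold baseReg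
    simp

/-- the polynomial for the forms -/
noncomputable def P1 (k : ℕ) : Polynomial ℕ :=
  (Polynomial.X + 1) ^ (k + 1) + (Polynomial.X + (Polynomial.C k * Polynomial.X + 1) *
    Polynomial.X)

theorem P1_eval (k S : ℕ) : (P1 k).eval S = (S + 1) ^ (k + 1) + (S + (k * S + 1) * S) := by
  unfold P1
  simp

end TSM2

open TSM2 in
theorem t_SM2 : ∀ k, S_SM2 k := by
  intro k
  refine ⟨Polynomial.X + (2 * Polynomial.X + 2) * P1 k, ?_⟩
  intro p B lam hk _ hRB hP hlen hne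
  subst hk
  obtain ⟨D, hD1, hD2, hg⟩ := hRB
  set S := p.m + p.n + B + lam with hS
  have hq : (Polynomial.X + (2 * Polynomial.X + 2) * P1 p.k).eval S =
      S + (2 * S + 2) * (P1 p.k).eval S := by simp
  rw [hq]
  set γ := cN p.k p.m + (B + (p.m * p.k + 1) * lam) with hγ
  have hγle : γ ≤ (P1 p.k).eval S := by
    rw [P1_eval, hγ]
    have h1 : cN p.k p.m ≤ (S + 1) ^ (p.k + 1) := Nat.pow_le_pow_left (by omega) _
    have h2 : p.m * p.k + 1 ≤ p.k * S + 1 := by
      have : p.m * p.k ≤ S * p.k := Nat.mul_le_mul_right _ (by omega)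
      rw [mul_comm p.k S]
      omega
    have h3 : (p.m * p.k + 1) * lam ≤ (p.k * S + 1) * S := Nat.mul_le_mul h2 (by omega)
    omega
  -- the forms
  have hu : ∀ j < cK p.m p.n, p.L.getD j ([], []) ∈ p.L := by
    intro j hj
    rcases getD_mem p.L j ([], []) with h | _
    · exact h
    · rw [List.getD_eq_getElem _ _ (by omega)]
      exact List.getElem_mem _
  have hX : ∀ j, ∃ z : ℤ, j < cK p.m p.n → z.natAbs ≤ 2 ^ γ ∧
      evF (cN p.k p.m) p.w (p.L.getD j ([], [])).1 * (D ^ (p.m * p.k + 1) : ℕ) = z := by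
    intro j
    by_cases hj : j < cK p.m p.n
    · obtain ⟨z, h1, h2⟩ := evF_IB hD2 hg p.k p.m p.reps _ (hP _ (hu j hj)).1
      exact ⟨z, fun _ => ⟨h1, h2⟩⟩
    · exact ⟨0, fun h => absurd h hj⟩
  have hY : ∀ j, ∃ z : ℤ, j < cK p.m p.n → z.natAbs ≤ 2 ^ γ ∧ z ≠ 0 ∧
      evF (cN p.k p.m) p.w (p.L.getD j ([], [])).2 * (D ^ (p.m * p.k + 1) : ℕ) = z := by
    intro j
    by_cases hj : j < cK p.m p.n
    · obtain ⟨z, h1, h2⟩ := evF_IB hD2 hg p.k p.m p.reps _ (hP _ (hu j hj)).2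
      refine ⟨z, fun _ => ⟨h1, ?_, h2⟩⟩
      rintro rfl
      have h3 := hne _ (hu j hj)
      have h4 : ((D ^ (p.m * p.k + 1) : ℕ) : ℝ) ≠ 0 := by
        have : 0 < D ^ (p.m * p.k + 1) := by positivity
        exact_mod_cast this.ne'
      apply mul_ne_zero h3 h4
      have h2' : evF (cN p.k p.m) (wv p.k p.m p.g p.reps) (p.L.getD j ([], [])).2 *
        (D ^ (p.m * p.k + 1) : ℕ) = ((0 : ℤ) : ℝ) := h2
      rw [Int.cast_zero] at h2'
      exact h2'
    · exact ⟨0, fun h => absurd h hj⟩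
  choose X hX using hX
  choose Y hY using hY
  have hD' : ((D ^ (p.m * p.k + 1) : ℕ) : ℝ) ≠ 0 := by
    have : 0 < D ^ (p.m * p.k + 1) := by positivity
    exact_mod_cast this.ne'
  -- the denominator
  have hprod : ∀ s : Finset ℕ, s ⊆ Finset.range (cK p.m p.n) →
      ∏ l ∈ s, (Y l).natAbs ≤ 2 ^ (cK p.m p.n * γ) := by
    intro s hs
    calc ∏ l ∈ s, (Y l).natAbs ≤ ∏ _l ∈ s, 2 ^ γ :=
          Finset.prod_le_prod' fun l hl => (hY l (Finset.mem_range.1 (hs hl))).1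
      _ = 2 ^ (γ * s.card) := by rw [Finset.prod_const, ← pow_mul]
      _ ≤ 2 ^ (cK p.m p.n * γ) := by
        apply Nat.pow_le_pow_right (by norm_num)
        rw [mul_comm]
        apply Nat.mul_le_mul_right
        have := Finset.card_le_card hs
        rwa [Finset.card_range] at this
  have hKS : cK p.m p.n ≤ 2 * S + 1 := by unfold cK; omega
  have hfinal : lam + (γ + cK p.m p.n * γ) ≤ S + (2 * S + 2) * (P1 p.k).eval S := by
    have h1 : (cK p.m p.n + 1) * γ ≤ (2 * S + 2) * (P1 p.k).eval S :=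
      Nat.mul_le_mul (by omega) hγle
    have h2 : (cK p.m p.n + 1) * γ = γ + cK p.m p.n * γ := by ring
    omega
  refine ⟨D * ∏ l ∈ Finset.range (cK p.m p.n), (Y l).natAbs, ?_, ?_, ?_⟩
  · have : 0 < ∏ l ∈ Finset.range (cK p.m p.n), (Y l).natAbs :=
      Finset.prod_pos fun l hl => Int.natAbs_pos.2 (hY l (Finset.mem_range.1 hl)).2.1
    exact Nat.mul_pos hD1 this
  · calc D * ∏ l ∈ Finset.range (cK p.m p.n), (Y l).natAbs ≤ 2 ^ lam * 2 ^ (cK p.m p.n * γ) :=
          Nat.mul_le_mul hD2 (hprod _ (Finset.Subset.refl _))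
      _ = 2 ^ (lam + cK p.m p.n * γ) := (pow_add _ _ _).symm
      _ ≤ 2 ^ (S + (2 * S + 2) * (P1 p.k).eval S) :=
          Nat.pow_le_pow_right (by norm_num) (by omega)
  · intro i _ j hj
    obtain ⟨R, hR1, hR2⟩ := Rv_IB hD2 hg p.m p.n i j
    obtain ⟨hx1, hx2⟩ := hX j hj
    obtain ⟨hy1, hy0, hy2⟩ := hY j hj
    refine ⟨R * (X j * ((Y j).sign *
      ∏ l ∈ (Finset.range (cK p.m p.n)).erase j, (((Y l).natAbs : ℕ) : ℤ))), ?_, ?_⟩
    · rw [Int.natAbs_mul, Int.natAbs_mul, Int.natAbs_mul]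
      have hs : (Y j).sign.natAbs = 1 := Int.natAbs_sign_of_ne_zero hy0
      rw [hs, one_mul]
      have hp : (∏ l ∈ (Finset.range (cK p.m p.n)).erase j, (((Y l).natAbs : ℕ) : ℤ)).natAbs ≤
          2 ^ (cK p.m p.n * γ) := by
        have h1 : (∏ l ∈ (Finset.range (cK p.m p.n)).erase j, (((Y l).natAbs : ℕ) : ℤ)) =
            ((∏ l ∈ (Finset.range (cK p.m p.n)).erase j, (Y l).natAbs : ℕ) : ℤ) := by
          push_cast
          rfl
        rw [h1, Int.natAbs_natCast]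
        exact hprod _ (Finset.erase_subset _ _)
      calc R.natAbs * ((X j).natAbs *
            (∏ l ∈ (Finset.range (cK p.m p.n)).erase j, (((Y l).natAbs : ℕ) : ℤ)).natAbs)
          ≤ 2 ^ lam * (2 ^ γ * 2 ^ (cK p.m p.n * γ)) :=
            Nat.mul_le_mul hR1 (Nat.mul_le_mul hx1 hp)
        _ = 2 ^ (lam + (γ + cK p.m p.n * γ)) := by rw [pow_add 2 lam, pow_add 2 γ]
        _ ≤ _ := Nat.pow_le_pow_right (by norm_num) hfinal
    · have hW : p.W j = (X j : ℝ) / (Y j : ℝ) := by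
        rw [← hx2, ← hy2]
        unfold Par.W rt
        rw [mul_div_mul_right _ _ hD']
      have hy0' : ((Y j : ℤ) : ℝ) ≠ 0 := by exact_mod_cast hy0
      have hsgn : (((Y j).natAbs : ℕ) : ℝ) / ((Y j : ℤ) : ℝ) = (((Y j).sign : ℤ) : ℝ) := by
        rw [div_eq_iff hy0']
        have h1 := Int.sign_mul_self_eq_natAbs (Y j)
        have h2 : (((Y j).natAbs : ℕ) : ℝ) = (((((Y j).natAbs : ℕ) : ℤ)) : ℝ) :=
          (Int.cast_natCast _).symm
        rw [h2, ← h1, Int.cast_mul]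
      have hpc : ((∏ l ∈ (Finset.range (cK p.m p.n)).erase j, (((Y l).natAbs : ℕ) : ℤ) : ℤ) : ℝ) =
          ((∏ l ∈ (Finset.range (cK p.m p.n)).erase j, (Y l).natAbs : ℕ) : ℝ) := by
        rw [Int.cast_prod, Nat.cast_prod]
        exact Finset.prod_congr rfl fun _ _ => Int.cast_natCast _
      rw [hW, ← Finset.mul_prod_erase _ _ (Finset.mem_range.2 hj), Int.cast_mul, Int.cast_mul,
        Int.cast_mul, hpc, ← hR2, ← hsgn, Nat.cast_mul, Nat.cast_mul]
      generalize ((∏ l ∈ (Finset.range (cK p.m p.n)).erase j, (Y l).natAbs : ℕ) : ℝ) = b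
      generalize (((Y j).natAbs : ℕ) : ℝ) = a
      field_simp

end Pool.Agent.W920.FC
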