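import Pool.Agent.W920.FC.Stm

/-!
Project FC (helper920), SORT.
-/

set_option autoImplicit false

namespace Pool.Agent.W920.FC

namespace TSORT

open Pool.Agent.H622R3.SM

theorem getFM {α β γ : Type} (M : List β) (g : α → β → γ) : ∀ (L : List α) (u v : ℕ)
    (hu : u < L.length) (hv : v < M.length),
    (L.flatMap fun a => M.map (g a))[u * M.length + v]? = some (g L[u] M[v])
  | [], u, v, hu, hv => absurd hu (Nat.not_lt_zero u)
  | a :: L, 0, v, hu, hv => by
    rw [List.flatMap_cons, Nat.zero_mul, Nat.zero_add, List.getElem?_append_left (by simpa using hv)]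
    simp [List.getElem?_eq_getElem hv]
  | a :: L, u + 1, v, hu, hv => by
    have h1 : (u + 1) * M.length + v = M.length + (u * M.length + v) := by ring
    rw [List.flatMap_cons, h1, List.getElem?_append_right (by simp), List.length_map,
      Nat.add_sub_cancel_left, getFM M g L u v (by simpa using hu) hv]
    rfl

theorem signOut_iff (x : ℝ) : signOut x = some true ↔ 0 < x := by
  unfold signOut
  split_ifs with h1 h2
  · simp [h1]
  · simp [h1]
  · simp [h1]

theorem one_key {β : Type} (k : ℕ) (b : β) : ∀ Z : ℕ,
    ((List.range Z).flatMap fun r => if k = r then [b] else []) = if k < Z then [b] else []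
  | 0 => by simp
  | Z + 1 => by
    rw [List.range_succ, List.flatMap_append, one_key k b Z, List.flatMap_singleton]
    by_cases h1 : k < Z
    · rw [if_pos h1, if_neg (by omega), if_pos (by omega), List.append_nil]
    · rw [if_neg h1, List.nil_append]
      by_cases h2 : k = Z
      · rw [if_pos h2, if_pos (by omega)]
      · rw [if_neg h2, if_neg (by omega)]

theorem perm_keys {α β : Type} (key : α → ℕ) (h : α → β) (Z : ℕ) : ∀ l : List α,
    (∀ p ∈ l, key p < Z) → List.Perm
      ((List.range Z).flatMap fun r => l.flatMap fun p => if key p = r then [h p] else []) (l.map h)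
  | [], _ => by simp
  | p :: l, hl => by
    have h1 := perm_keys key h Z l (fun q hq => hl q (List.mem_cons_of_mem _ hq))
    simp only [List.flatMap_cons, List.map_cons]
    refine (List.flatMap_append_perm (List.range Z) (fun r => if key p = r then [h p] else [])
      (fun r => l.flatMap fun p => if key p = r then [h p] else [])).symm.trans ?_
    rw [one_key, if_pos (hl p List.mem_cons_self)]
    exact h1.cons (h p)

end TSORT

open TSORT Pool.Agent.H622R3.SM in
theorem t_SORT : S_SORT := by
  classical
  intro L f
  obtain ⟨o, ho⟩ : ∃ o, o = (L.flatMap fun u => L.map fun v => f u - f v).map signOut := ⟨_, rfl⟩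
  rw [← ho]
  obtain ⟨Z, hZ⟩ : ∃ Z, Z = L.length := ⟨_, rfl⟩
  obtain ⟨F, hF⟩ : ∃ F : ℕ → ℝ, F = fun u => f (L.getD u ([], [])) := ⟨_, rfl⟩
  have hFi : ∀ i (hi : i < L.length), F i = f L[i] := by
    intro i hi
    rw [hF]
    simp only
    rw [List.getD_eq_getElem _ _ hi]
  have hget : ∀ u v, u < Z → v < Z → (o.getD (u * Z + v) none = some true ↔ F v < F u) := by
    intro u v hu hv
    rw [hZ] at hu hv
    have h1 := getFM L (fun a b => f a - f b) L u v hu hv
    rw [← hZ] at h1
    have h2 : o[u * Z + v]? = some (signOut (f L[u] - f L[v])) := by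
      rw [ho, List.getElem?_map, h1]
      rfl
    rw [List.getD_eq_getElem?_getD, h2, Option.getD_some, signOut_iff, hFi u hu, hFi v hv, sub_pos]
  have hrank : ∀ v, v < Z → rankOf Z o v = ((Finset.range Z).filter fun u => F v < F u).card := by
    intro v hv
    have h1 : ((Finset.range Z).filter fun u => F v < F u).card =
        ((List.range Z).filter fun u => decide (F v < F u)).length := rfl
    rw [h1]
    unfold rankOf
    congr 1
    apply List.filter_congr
    intro u hu
    rw [List.mem_range] at hu
    simp only [hget u v hu hv]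
  have hlt : ∀ v, v < Z → rankOf Z o v < Z := by
    intro v hv
    rw [hrank v hv]
    conv_rhs => rw [← Finset.card_range Z]
    apply Finset.card_lt_card
    rw [Finset.filter_ssubset]
    exact ⟨v, Finset.mem_range.2 hv, lt_irrefl _⟩
  have hmono : ∀ i j, i < Z → j < Z → rankOf Z o i ≤ rankOf Z o j → F j ≤ F i := by
    intro i j hi hj hij
    by_contra hcon
    push Not at hcon
    rw [hrank i hi, hrank j hj] at hij
    have : ((Finset.range Z).filter fun u => F j < F u).card <
        ((Finset.range Z).filter fun u => F i < F u).card := by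
      apply Finset.card_lt_card
      rw [Finset.ssubset_iff_of_subset]
      · exact ⟨j, Finset.mem_filter.2 ⟨Finset.mem_range.2 hj, hcon⟩, fun h =>
          lt_irrefl _ (Finset.mem_filter.1 h).2⟩
      · intro u hu
        rw [Finset.mem_filter] at hu ⊢
        exact ⟨hu.1, hcon.trans hu.2⟩
    omega
  have hzi : ∀ p ∈ L.zipIdx, p.2 < Z ∧ F p.2 = f p.1 := by
    intro p hp
    obtain ⟨h1, h2, h3⟩ := List.mem_zipIdx hp
    have h4 : p.2 < L.length := by omega
    refine ⟨by omega, ?_⟩
    rw [hFi _ h4, h3]
    simp
  unfold sortL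
  rw [← hZ]
  constructor
  · have h1 := perm_keys (fun p : (List ℤ × List ℤ) × ℕ => rankOf Z o p.2) Prod.fst Z L.zipIdx
      (fun p hp => hlt _ (hzi p hp).1)
    rw [List.zipIdx_map_fst] at h1
    exact h1
  · have hmem : ∀ r x, x ∈ (L.zipIdx.flatMap fun p => if rankOf Z o p.2 = r then [p.1] else []) →
        ∃ i, i < Z ∧ rankOf Z o i = r ∧ F i = f x := by
      intro r x hx
      rw [List.mem_flatMap] at hx
      obtain ⟨p, hp, hx⟩ := hx
      obtain ⟨h1, h2⟩ := hzi p hp
      split_ifs at hx with h3
      · rw [List.mem_singleton] at hx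
        exact ⟨p.2, h1, h3, by rw [h2, hx]⟩
      · exact absurd hx List.not_mem_nil
    have hle : ∀ r r' x y, r ≤ r' →
        x ∈ (L.zipIdx.flatMap fun p => if rankOf Z o p.2 = r then [p.1] else []) →
        y ∈ (L.zipIdx.flatMap fun p => if rankOf Z o p.2 = r' then [p.1] else []) → f y ≤ f x := by
      intro r r' x y hr hx hy
      obtain ⟨i, hi, hri, hfi⟩ := hmem r x hx
      obtain ⟨j, hj, hrj, hfj⟩ := hmem r' y hy
      rw [← hfi, ← hfj]
      exact hmono i j hi hj (by omega)
    rw [List.pairwise_flatMap]
    refine ⟨fun r _ => ?_, ?_⟩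
    · exact List.pairwise_of_forall_mem_list fun x hx y hy => hle r r x y le_rfl hx hy
    · refine List.pairwise_lt_range.imp ?_
      intro r r' hr x hx y hy
      exact hle r r' x y hr.le hx hy

end Pool.Agent.W920.FC
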