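import Pool.Agent.W920.FC.Stm

set_option autoImplicit false

/-!
# One stage of phase 2
-/

namespace Pool.Agent.W920.FC

open Pool.Agent.NPC Pool.Agent.H558R2 Pool.Agent.H622R3.SM

namespace TSTG

theorem forall2_flatMap {α β γ : Type} {R : β → γ → Prop} (l : List α) (f : α → List β)
    (g : α → List γ) (h : ∀ a ∈ l, List.Forall₂ R (f a) (g a)) :
    List.Forall₂ R (l.flatMap f) (l.flatMap g) := by
  induction l with
  | nil => simp
  | cons a l ih =>
    rw [List.flatMap_cons, List.flatMap_cons]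
    exact List.rel_append (h a (by simp)) (ih fun b hb => h b (List.mem_cons_of_mem _ hb))

theorem forall2_map {α β γ : Type} {R : β → γ → Prop} (l : List α) (f : α → β) (g : α → γ)
    (h : ∀ a ∈ l, R (f a) (g a)) : List.Forall₂ R (l.map f) (l.map g) := by
  rw [List.forall₂_map_left_iff, List.forall₂_map_right_iff, List.forall₂_same]
  exact h

theorem sum_le (qs : List Qry) (L : ℕ) (h : ∀ q ∈ qs, q.1.length ≤ L) :
    (qs.map fun q => q.1.length + 1).sum ≤ qs.length * (L + 1) := by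
  induction qs with
  | nil => simp
  | cons q qs ih =>
    rw [List.map_cons, List.sum_cons, List.length_cons]
    have h1 := h q (by simp)
    have h2 := ih fun q hq => h q (List.mem_cons_of_mem _ hq)
    nlinarith

theorem len_cmp (k m : ℕ) (reps : List (ℕ × ℕ)) (F : List (List ℤ)) :
    (cmpQs k m reps F).length = cN k m + cN k m * (cN k m * 2) := by
  simp [cmpQs, List.length_flatMap]

theorem len_bis (k m : ℕ) (reps : List (ℕ × ℕ)) (F : List (List ℤ)) (sg : List ℤ) (best : ℕ)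
    (s : ℕ × List ℕ) : (bisQs k m reps F sg best s).length = cN k m := by
  simp [bisQs]

theorem smallL_mono {B B' : ℕ} {L : List ℤ} (h : SmallL B L) (hB : B ≤ B') : SmallL B' L :=
  fun x hx => (h x hx).trans (Nat.pow_le_pow_right (by norm_num) hB)

theorem small_getD {B : ℕ} (F : List (List ℤ)) (h : ∀ C ∈ F, SmallL B C) (l : ℕ) :
    SmallL B (F.getD l []) := by
  by_cases hl : l < F.length
  · rw [List.getD_eq_getElem _ _ hl]
    exact h _ (List.getElem_mem hl)
  · rw [List.getD_eq_default _ _ (by omega)]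
    intro x hx
    simp at hx

theorem runs_ret {β : Type} (g : Reg → ℝ) (G : ℝ → Prop) (b : β) : Runs g G (ret b) b 0 :=
  Runs.done (ret b) b 0 fun _ => rfl

theorem sign_abs (x : ℝ) : ((SignType.sign x : ℤ) : ℝ) * x = |x| := by
  rcases lt_trichotomy x 0 with h | h | h
  · rw [sign_neg h, abs_of_neg h]
    simp
  · rw [h]
    simp
  · rw [sign_pos h, abs_of_pos h]
    simp

theorem sign_le (x : ℝ) : ((SignType.sign x : ℤ)).natAbs ≤ 1 := by
  rcases lt_trichotomy x 0 with h | h | h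
  · rw [sign_neg h]
    simp
  · rw [h]
    simp
  · rw [sign_pos h]
    simp

theorem gd_mono {q1 q : Polynomial ℕ} (h : ∀ x, q1.eval x ≤ q.eval x) (S : ℕ) (g : Reg → ℝ)
    (v : ℝ) (hv : Gd q1 S g v) : Gd q S g v := by
  intro lam hl
  obtain ⟨E, z, h1, h2, h3, h4⟩ := hv lam hl
  have h5 : 2 ^ q1.eval (S + lam) ≤ 2 ^ q.eval (S + lam) :=
    Nat.pow_le_pow_right (by norm_num) (h _)
  exact ⟨E, z, h1, h2.trans h5, h3.trans h5, h4⟩

/-- The comparisons. -/
theorem runs_cmp (hba : S_BATCH) (k m : ℕ) (reps : List (ℕ × ℕ)) (F : List (List ℤ))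
    (g : Reg → ℝ) (G : ℝ → Prop) (L B : ℕ) (hl : S_LIN)
    (hF : ∀ l, SmallL B (F.getD l []))
    (hv : ∀ C : List ℤ, SmallL (B + 1) C →
      HasVal g G (fQry k m reps C) (evF (cN k m) (wv k m g reps) C) ∧
        (fQry k m reps C).1.length ≤ L) :
    ∃ c, c ≤ (cN k m + cN k m * (cN k m * 2)) * (L + 1) ∧
      Runs g G (batch (cmpQs k m reps F)) ((cmpVals (cN k m)
        (fun l => evF (cN k m) (wv k m g reps) (F.getD l []))).map signOut) c := by
  have hcomb : ∀ (l l' : ℕ) (d : ℤ), d.natAbs ≤ 1 →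
      SmallL (B + 1) (fcomb (cN k m) 1 (F.getD l []) d (F.getD l' [])) := by
    intro l l' d hd
    have h := (hl (cN k m) (wv k m g reps) 1 d (F.getD l []) (F.getD l' [])).2.2.2 B 0 (hF l)
      (hF l') (by simp) (by simpa using hd)
    simpa using h
  refine ⟨_, ?_, hba g G (cmpQs k m reps F) _ ?_⟩
  · refine (sum_le _ L ?_).trans (by rw [len_cmp])
    intro q hq
    unfold cmpQs at hq
    rcases List.mem_append.1 hq with hq | hq
    · obtain ⟨l, -, rfl⟩ := List.mem_map.1 hq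
      exact (hv _ (smallL_mono (hF l) (by omega))).2
    · obtain ⟨l, -, hq⟩ := List.mem_flatMap.1 hq
      obtain ⟨l', -, hq⟩ := List.mem_flatMap.1 hq
      rcases List.mem_cons.1 hq with rfl | hq
      · exact (hv _ (hcomb l l' (-1) (by simp))).2
      · rw [List.mem_singleton] at hq
        subst hq
        exact (hv _ (hcomb l l' 1 (by simp))).2
  · unfold cmpQs cmpVals
    refine List.rel_append ?_ ?_
    · exact forall2_map _ _ _ fun l _ => (hv _ (smallL_mono (hF l) (by omega))).1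
    · refine forall2_flatMap _ _ _ fun l _ => forall2_flatMap _ _ _ fun l' _ => ?_
      have h1 := (hv _ (hcomb l l' (-1) (by simp))).1
      have h2 := (hv _ (hcomb l l' 1 (by simp))).1
      rw [(hl (cN k m) (wv k m g reps) 1 (-1) (F.getD l []) (F.getD l' [])).1] at h1
      rw [(hl (cN k m) (wv k m g reps) 1 1 (F.getD l []) (F.getD l' [])).1] at h2
      refine List.Forall₂.cons ?_ (List.Forall₂.cons ?_ List.Forall₂.nil)
      · convert h1 using 1
        push_cast
        ring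
      · convert h2 using 1
        push_cast
        ring

/-- A step of the bisections. -/
theorem runs_bis (hba : S_BATCH) (k m : ℕ) (reps : List (ℕ × ℕ)) (F : List (List ℤ))
    (g : Reg → ℝ) (G : ℝ → Prop) (L B : ℕ) (hl : S_LIN)
    (hF : ∀ l, SmallL B (F.getD l []))
    (hv : ∀ C : List ℤ, SmallL (B + (cP k m + 1) + 1) C →
      HasVal g G (fQry k m reps C) (evF (cN k m) (wv k m g reps) C) ∧
        (fQry k m reps C).1.length ≤ L)
    (sg : List ℤ) (best : ℕ) (hb : best < cN k m)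
    (hsg : ∀ l < cN k m, sg.getD l 0 =
      (SignType.sign (evF (cN k m) (wv k m g reps) (F.getD l [])) : ℤ))
    (t : ℕ × List ℕ) (ht1 : t.1 ≤ 2 ^ cP k m) (ht2 : ∀ l, t.2.getD l 0 ≤ 2 ^ cP k m) :
    ∃ c, c ≤ cN k m * (L + 1) ∧
      Runs g G (batch (bisQs k m reps F sg best t))
        (((List.range (cN k m)).map fun l => 2 ^ cP k m *
          |evF (cN k m) (wv k m g reps) (F.getD l [])| - ((t.2.getD l 0 + t.1 / 2 : ℕ) : ℝ) *
          |evF (cN k m) (wv k m g reps) (F.getD best [])|).map signOut) c := by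
  have hsg1 : ∀ l < cN k m, (sg.getD l 0).natAbs ≤ 1 := by
    intro l hl'
    rw [hsg l hl']
    exact sign_le _
  have hcomb : ∀ l < cN k m, SmallL (B + (cP k m + 1) + 1) (fcomb (cN k m)
      (2 ^ cP k m * sg.getD l 0) (F.getD l [])
      (-(((t.2.getD l 0 + t.1 / 2 : ℕ) : ℤ) * sg.getD best 0)) (F.getD best [])) := by
    intro l hl'
    refine (hl (cN k m) (wv k m g reps) _ _ (F.getD l []) (F.getD best [])).2.2.2 B
      (cP k m + 1) (hF l) (hF best) ?_ ?_
    · rw [Int.natAbs_mul, Int.natAbs_pow]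
      have h1 := hsg1 l hl'
      have h2 : 2 ^ cP k m ≤ 2 ^ (cP k m + 1) := Nat.pow_le_pow_right (by norm_num) (by omega)
      calc (2 : ℤ).natAbs ^ cP k m * (sg.getD l 0).natAbs ≤ 2 ^ cP k m * 1 :=
            Nat.mul_le_mul (le_of_eq rfl) h1
        _ ≤ _ := by omega
    · rw [Int.natAbs_neg, Int.natAbs_mul, Int.natAbs_natCast]
      have h1 := hsg1 best hb
      have h2 : t.2.getD l 0 + t.1 / 2 ≤ 2 ^ (cP k m + 1) := by
        have h3 := ht2 l
        have h4 : 2 ^ (cP k m + 1) = 2 ^ cP k m + 2 ^ cP k m := by ring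
        omega
      calc (t.2.getD l 0 + t.1 / 2) * (sg.getD best 0).natAbs ≤ 2 ^ (cP k m + 1) * 1 :=
            Nat.mul_le_mul h2 h1
        _ = _ := by ring
  refine ⟨_, ?_, hba g G (bisQs k m reps F sg best t) _ ?_⟩
  · refine (sum_le _ L ?_).trans (by rw [len_bis])
    intro q hq
    unfold bisQs at hq
    obtain ⟨l, hlr, rfl⟩ := List.mem_map.1 hq
    exact (hv _ (hcomb l (List.mem_range.1 hlr))).2
  · unfold bisQs
    refine forall2_map _ _ _ fun l hlr => ?_
    have hl' := List.mem_range.1 hlr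
    have h1 := (hv _ (hcomb l hl')).1
    rw [(hl (cN k m) (wv k m g reps) _ _ (F.getD l []) (F.getD best [])).1] at h1
    convert h1 using 1
    rw [← sign_abs (evF (cN k m) (wv k m g reps) (F.getD l [])),
      ← sign_abs (evF (cN k m) (wv k m g reps) (F.getD best [])), ← hsg l hl', ← hsg best hb]
    obtain ⟨M, hM⟩ : ∃ M : ℕ, M = t.2.getD l 0 + t.1 / 2 := ⟨_, rfl⟩
    rw [← hM]
    push_cast
    ring

end TSTG

open TSTG in
theorem t_STG : ∀ k, S_BND → S_BATCH → S_ITER → S_MONO → S_HVF k → S_LIN → S_CMP → S_BIS →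
    S_FIN → S_POLYB k → S_STG k := by
  intro k hbnd hba hit hmo hvf hl hcmp hbis hfin hpol
  obtain ⟨q0, hq0⟩ := hpol
  obtain ⟨q1, hq1⟩ := hvf (q0 + q0 + 2)
  refine ⟨q1 + ((q0 + q0 * (q0 * 2)) * (q1 + 1) + q0 * (q0 * (q1 + 1))), ?_⟩
  intro m n g reps j s hg hj hinv
  obtain ⟨hN, -, hP, -, -, -, -, -, hbd, -⟩ := hq0 m n
  obtain ⟨L, hL⟩ : ∃ L, L = q1.eval (m + n) := ⟨_, rfl⟩
  obtain ⟨x, hx⟩ : ∃ x : ℕ → ℝ, x = fun l => evF (cN k m) (wv k m g reps) (s.2.1.getD l []) :=
    ⟨_, rfl⟩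
  have hF : ∀ l, SmallL (bdM k m (cN k m)) (s.2.1.getD l []) := by
    refine small_getD _ fun C hC => smallL_mono (hinv.1.2.2.2.1 C hC).2 ?_
    exact Nat.mul_le_mul le_rfl hj.le
  have hv : ∀ C : List ℤ, SmallL (bdM k m (cN k m) + (cP k m + 1) + 1) C →
      HasVal g (Gd q1 (m + n) g) (fQry k m reps C) (evF (cN k m) (wv k m g reps) C) ∧
        (fQry k m reps C).1.length ≤ L := by
    intro C hC
    rw [hL]
    refine hq1 m n g reps C hg (smallL_mono hC ?_)
    rw [Polynomial.eval_add, Polynomial.eval_add, Polynomial.eval_ofNat]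
    omega
  obtain ⟨c1, hc1, hr1⟩ := runs_cmp hba k m reps s.2.1 g (Gd q1 (m + n) g) L _ hl hF
    (fun C hC => hv C (smallL_mono hC (by omega)))
  rw [← hx] at hr1
  obtain ⟨o, ho⟩ : ∃ o, o = (cmpVals (cN k m) x).map signOut := ⟨_, rfl⟩
  rw [← ho] at hr1
  obtain ⟨hs1, hs2, hs3, hs4⟩ := hcmp (cN k m) x (by omega)
  rw [← ho] at hs1 hs2 hs3 hs4
  obtain ⟨sg, hsg⟩ : ∃ sg, sg = sgOf (cN k m) o := ⟨_, rfl⟩
  obtain ⟨best, hbest⟩ : ∃ best, best = bestOf (cN k m) o := ⟨_, rfl⟩
  rw [← hsg] at hs1 hs2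
  rw [← hbest] at hs3 hs4
  have hsx : ∀ l < cN k m, sg.getD l 0 =
      (SignType.sign (evF (cN k m) (wv k m g reps) (s.2.1.getD l [])) : ℤ) := by
    intro l hl'
    rw [hs2 l hl', hx]
  obtain ⟨st, hst⟩ : ∃ st : ℕ → ℕ × List ℕ, st = bisSt (cN k m) (cP k m) (fun l => |x l|)
    |x best| := ⟨_, rfl⟩
  have hst0 : st 0 = (2 ^ cP k m, (List.range (cN k m)).map fun _ => 0) := by
    rw [hst]
    rfl
  obtain ⟨hbi1, hbi2⟩ := hbis (cN k m) (cP k m) (fun l => |x l|) |x best|
  rw [← hst] at hbi1 hbi2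
  have hstep : ∀ i < cP k m, Runs g (Gd q1 (m + n) g)
      (bnd (batch (bisQs k m reps s.2.1 sg best (st i))) fun o' =>
        ret (bisUpd (cN k m) (st i) o')) (st (i + 1)) (cN k m * (L + 1)) := by
    intro i hi
    obtain ⟨h1, h2⟩ := hbi1 i hi.le
    obtain ⟨c2, hc2, hr2⟩ := runs_bis hba k m reps s.2.1 g (Gd q1 (m + n) g) L _ hl hF hv sg best
      hs3 hsx (st i) h1 h2
    have h3 := hbnd _ _ g (Gd q1 (m + n) g) (batch (bisQs k m reps s.2.1 sg best (st i)))
      (fun o' => ret (bisUpd (cN k m) (st i) o')) _ _ _ _ hr2 (runs_ret g _ _)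
    have h4 : bisUpd (cN k m) (st i) (((List.range (cN k m)).map fun l => 2 ^ cP k m *
          |evF (cN k m) (wv k m g reps) (s.2.1.getD l [])| -
            (((st i).2.getD l 0 + (st i).1 / 2 : ℕ) : ℝ) *
          |evF (cN k m) (wv k m g reps) (s.2.1.getD best [])|).map signOut) = st (i + 1) := by
      rw [hst, hx]
      rfl
    rw [h4] at h3
    exact hmo _ g _ _ _ _ _ _ (fun v hv => hv) (by omega) h3
  have hiter := hit _ g (Gd q1 (m + n) g) (fun t => bnd (batch (bisQs k m reps s.2.1 sg best t))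
    fun o' => ret (bisUpd (cN k m) t o')) st (cP k m) _ hstep
  rw [hst0] at hiter
  have h5 := hbnd _ _ g (Gd q1 (m + n) g) _ (fun t => ret (finish k m s sg best t.2)) _ _ _ _
    hiter (runs_ret g _ _)
  have h6 := hbnd _ _ g (Gd q1 (m + n) g) (batch (cmpQs k m reps s.2.1)) (fun o =>
    bnd (iter (fun t => bnd (batch (bisQs k m reps s.2.1 (sgOf (cN k m) o) (bestOf (cN k m) o) t))
      fun o' => ret (bisUpd (cN k m) t o')) (cP k m)
        (2 ^ cP k m, (List.range (cN k m)).map fun _ => 0)) fun t =>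
      ret (finish k m s (sgOf (cN k m) o) (bestOf (cN k m) o) t.2)) o
    (finish k m s sg best (st (cP k m)).2) _ _ hr1 (by
      rw [← hsg, ← hbest]
      exact h5)
  refine ⟨finish k m s sg best (st (cP k m)).2, ?_, ?_⟩
  · refine hfin k m (wv k m g reps) j s sg best _ hj hinv hs1 hsx hs3 ?_ ?_
    · intro l hl'
      have h := hs4 l hl'
      rw [hx] at h
      exact h
    · intro hne l hl' _
      have hX : 0 < |x best| := by
        rw [hx]
        exact abs_pos.2 hne
      have h := hbi2 hX l hl' (abs_nonneg _) (hs4 l hl')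
      rw [hx] at h
      exact h
  · refine hmo _ g _ _ _ _ _ _ (fun v hv => gd_mono (fun y => ?_) _ _ _ hv) ?_ h6
    · rw [Polynomial.eval_add]
      omega
    · simp only [Polynomial.eval_add, Polynomial.eval_mul, Polynomial.eval_ofNat,
        Polynomial.eval_one]
      rw [← hL]
      obtain ⟨Q, hQ⟩ : ∃ Q, Q = q0.eval (m + n) := ⟨_, rfl⟩
      rw [← hQ] at hN hP ⊢
      have e1 : (cN k m + cN k m * (cN k m * 2)) * (L + 1) ≤ (Q + Q * (Q * 2)) * (L + 1) := by
        gcongr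
      have e2 : cP k m * (cN k m * (L + 1)) ≤ Q * (Q * (L + 1)) := by
        gcongr
      omega

end Pool.Agent.W920.FC
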