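import Pool.Agent.W920.FC.Stm

set_option autoImplicit false

/-!
# Linear feasibility for matrices with few distinct entries: part TT
-/

namespace Pool.Agent.W920.FC

open Pool.Agent.NPC Pool.Agent.H558R2 Pool.Agent.H622R3.SM

namespace TTT

theorem hasVal_mono {g : Reg → ℝ} {G G' : ℝ → Prop} (hG : ∀ v, G v → G' v) {q : Qry} {v : ℝ}
    (h : HasVal g G q v) : HasVal g G' q v := by
  obtain ⟨h1, V, h2, h3, h4, h5⟩ := h
  exact ⟨h1, V, h2, fun I hI => ⟨(h3 I hI).1, (h3 I hI).2.1, hG _ (h3 I hI).2.2⟩, h4, h5⟩

theorem mono {β : Type} {g : Reg → ℝ} {G G' : ℝ → Prop} {T : TT β} {b : β} {c : ℕ}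
    (hG : ∀ v, G v → G' v) (h : Runs g G T b c) : ∀ c', c ≤ c' → Runs g G' T b c' := by
  induction h with
  | done T b c h => intro c' _; exact Runs.done T b c' h
  | step T b c q v h1 h2 h3 ih =>
    intro c' hc
    obtain ⟨d, rfl⟩ : ∃ d, c' = d + q.1.length + 1 := ⟨c' - q.1.length - 1, by omega⟩
    exact Runs.step T b d q v h1 (hasVal_mono hG h2) (ih d (by omega))

theorem bndRuns {β γ : Type} {g : Reg → ℝ} {G : ℝ → Prop} {T : TT β} {f : β → TT γ} {b : β}
    {b' : γ} {c c' : ℕ} (h : Runs g G T b c) (hf : Runs g G (f b) b' c') :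
    Runs g G (bnd T f) b' (c + c') := by
  induction h with
  | done T b c h =>
    have e : bnd T f = f b := by
      funext h'
      simp [bnd, h h']
    rw [e]
    exact mono (fun _ h => h) hf _ (by omega)
  | step T b c q v h1 h2 h3 ih =>
    have e : c + q.1.length + 1 + c' = (c + c') + q.1.length + 1 := by ring
    rw [e]
    refine Runs.step _ _ _ q v ?_ h2 ?_
    · simp [bnd, h1]
    · exact ih hf

theorem batchRuns {g : Reg → ℝ} {G : ℝ → Prop} {qs1 : List Qry} {vs1 : List ℝ}
    (h : List.Forall₂ (HasVal g G) qs1 vs1) : ∀ (qs0 : List Qry) (o0 : List Outcome),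
    qs0.length = o0.length →
    Runs g G (fun h => batch (qs0 ++ qs1) (o0 ++ h)) (o0 ++ vs1.map signOut)
      ((qs1.map fun q => q.1.length + 1).sum) := by
  induction h with
  | nil =>
    intro qs0 o0 hl
    refine Runs.done _ _ _ fun h => ?_
    have h1 : ¬ (o0 ++ h).length < (qs0 ++ ([] : List Qry)).length := by
      simp [hl]
    simp only [batch, if_neg h1, List.append_nil, List.map_nil]
    rw [hl]
    simp
  | @cons q v qs vs h2 h3 ih =>
    intro qs0 o0 hl
    have e : ((q :: qs).map fun q => q.1.length + 1).sum =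
        (qs.map fun q => q.1.length + 1).sum + q.1.length + 1 := by
      simp; ring
    rw [e]
    refine Runs.step _ _ _ q v ?_ h2 ?_
    · have h1 : (o0 ++ ([] : List Outcome)).length < (qs0 ++ q :: qs).length := by
        simp [hl]
      simp only [batch, if_pos h1]
      congr 1
      simp [← hl]
    · have h4 := ih (qs0 ++ [q]) (o0 ++ [signOut v]) (by simp [hl])
      simpa using h4

end TTT

theorem t_TT : S_BND ∧ S_BATCH ∧ S_ITER ∧ S_MONO := by
  refine ⟨?_, ?_, ?_, ?_⟩
  · intro β γ g G T f b b' c c' h h'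
    exact TTT.bndRuns h h'
  · intro g G qs vs h
    have := TTT.batchRuns h [] [] rfl
    simpa using this
  · intro σ g G f s n
    induction n with
    | zero =>
      intro c _
      exact Runs.done _ _ _ fun h => rfl
    | succ n ih =>
      intro c h
      have h1 := ih c fun i hi => h i (by omega)
      have e : (n + 1) * c = n * c + c := by ring
      rw [e]
      exact TTT.bndRuns h1 (h n (by omega))
  · intro β g G G' T b c c' hG hc h
    exact TTT.mono hG h c' hc

end Pool.Agent.W920.FC
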