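import Pool.Agent.W920.FC.T_BD2
import Pool.Agent.W920.FC.T_BFS
import Pool.Agent.W920.FC.T_BIS
import Pool.Agent.W920.FC.T_BITS
import Pool.Agent.W920.FC.T_CERT
import Pool.Agent.W920.FC.T_CMP
import Pool.Agent.W920.FC.T_DIR
import Pool.Agent.W920.FC.T_EQ12
import Pool.Agent.W920.FC.T_EQ35
import Pool.Agent.W920.FC.T_EQ4
import Pool.Agent.W920.FC.T_FEAS
import Pool.Agent.W920.FC.T_FIN
import Pool.Agent.W920.FC.T_FT
import Pool.Agent.W920.FC.T_G2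
import Pool.Agent.W920.FC.T_HVFR
import Pool.Agent.W920.FC.T_HVP
import Pool.Agent.W920.FC.T_KERSTEP
import Pool.Agent.W920.FC.T_LAD
import Pool.Agent.W920.FC.T_LINPOLYB
import Pool.Agent.W920.FC.T_MINOR
import Pool.Agent.W920.FC.T_NEXT
import Pool.Agent.W920.FC.T_ORD1
import Pool.Agent.W920.FC.T_ORD2A
import Pool.Agent.W920.FC.T_ORD2B
import Pool.Agent.W920.FC.T_OUT
import Pool.Agent.W920.FC.T_PERC
import Pool.Agent.W920.FC.T_PFIN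
import Pool.Agent.W920.FC.T_PH1
import Pool.Agent.W920.FC.T_PH2
import Pool.Agent.W920.FC.T_PH3
import Pool.Agent.W920.FC.T_PH4
import Pool.Agent.W920.FC.T_PLEN
import Pool.Agent.W920.FC.T_PP1
import Pool.Agent.W920.FC.T_PP2
import Pool.Agent.W920.FC.T_PP34
import Pool.Agent.W920.FC.T_PP5
import Pool.Agent.W920.FC.T_PROJ
import Pool.Agent.W920.FC.T_PSTG
import Pool.Agent.W920.FC.T_PT
import Pool.Agent.W920.FC.T_PT13
import Pool.Agent.W920.FC.T_PT2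
import Pool.Agent.W920.FC.T_PT4
import Pool.Agent.W920.FC.T_PTITER
import Pool.Agent.W920.FC.T_PU4
import Pool.Agent.W920.FC.T_ROUND
import Pool.Agent.W920.FC.T_RUN
import Pool.Agent.W920.FC.T_SDA
import Pool.Agent.W920.FC.T_SM1
import Pool.Agent.W920.FC.T_SM2
import Pool.Agent.W920.FC.T_SM3
import Pool.Agent.W920.FC.T_SM4
import Pool.Agent.W920.FC.T_SORT
import Pool.Agent.W920.FC.T_STG
import Pool.Agent.W920.FC.T_TT
import Pool.Agent.W920.FC.Final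

set_option autoImplicit false

/-! All parts together. -/

namespace Pool.Agent.W920.FC

theorem main_of (hIW : S_IDX0 ∧ S_W0) (k : ℕ) : S_FINAL k := by
  obtain ⟨hBND, hBATCH, hITER, hMONO⟩ := t_TT
  obtain ⟨hOUT, hCTRL⟩ := t_OUT
  obtain ⟨hEQ1, hEQ2⟩ := t_EQ12
  obtain ⟨hEQ3, hEQ5⟩ := t_EQ35
  obtain ⟨hLIN, hPOLYB⟩ := t_LINPOLYB
  obtain ⟨hPP3, hPP4⟩ := t_PP34
  obtain ⟨hKER, hSTEP⟩ := t_KERSTEP
  obtain ⟨hIDX0, hW0⟩ := hIW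
  have hA := t_ORD2A t_ORD1
  have hORD2 : S_ORD2 := ⟨hA.1, t_ORD2B t_ORD1, hA.2⟩
  have hHV := t_HVFR k t_ORD1 hEQ1 hEQ2 (t_SM1 k) (t_PLEN k)
  have hHVP := t_HVP k t_ORD1 hORD2 hEQ1 hEQ2 hEQ3 t_EQ4 hEQ5 (t_SM1 k) (t_SM2 k) t_SM3 t_SM4
    (t_PLEN k)
  have hSDA := t_SDA t_DIR
  have hBD2 := t_BD2 hSDA hLIN
  have hFIN := t_FIN hSDA hBD2 hLIN
  have hSTG := t_STG k hBND hBATCH hITER hMONO hHV.1 hLIN t_CMP t_BIS hFIN (hPOLYB k)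
  have hG2 := t_G2 t_FT hLIN
  have hPH1 := t_PH1 k hBND hBATCH
  have hPH2 := t_PH2 k hBND hITER hMONO hSTG hG2 (hPOLYB k)
  have hPH3 := t_PH3 k hBND hBATCH hMONO hHV.2 (t_LAD hLIN) t_SORT (hPOLYB k)
  have hPERC := t_PERC t_PROJ hSTEP
  have hNEXT := t_NEXT hKER hPERC
  have hROUND := t_ROUND k hBND hBATCH hITER hMONO hHVP hKER hPERC hW0 (hPOLYB k)
  have hPH4 := t_PH4 k hBND hITER hMONO hROUND hNEXT hIDX0 hW0 (hPOLYB k)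
  have hBFS := t_BFS t_CERT (t_MINOR hW0)
  have hPP1 := t_PP1 k
  have hPP5 := t_PP5 hPP3 hPP4
  have hPT13 := t_PT13 k t_PT hPP1 hPP3 hPP4
  have hPFIN := t_PFIN k hPP1 hPP3 hPP4 hPP5
  have hPSTG := t_PSTG k hOUT t_PT t_PTITER hPP1 hPP3 hPP4 hPFIN
  have hPT2 := t_PT2 k hOUT t_PT t_PTITER hPP1 hBD2 hPSTG
  have hPT4 := t_PT4 k hOUT t_PT t_PTITER hPP1 (t_PP2 k hPP1) (t_PU4 hPP4)
  exact t_FINAL k t_RUN hBND hMONO t_PT hCTRL t_BITS hPH1 hPH2 hPH3 hPH4 t_FEAS hBFS hPT13.1 hPT2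
    hPT13.2 hPT4

end Pool.Agent.W920.FC
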