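import Pool.Agent.H622R3.SM.Stm
import Pool.Agent.H687R2.Rel

set_option autoImplicit false

/-!
# Linear feasibility for matrices with few distinct entries: the algorithm

Queries and adaptive computations (`TT`), the straight-line programs of the queries, and the
algorithm in four phases:

1. equality tests between the entries of `A` find positions `reps` of `k` entries such that every
   entry equals one of them;
2. with the monomials `w` of these entries, times `1` or an entry of `b`: rounds of simultaneous
   Diophantine approximation find a list of records `(F, D)`, such that the absolute value of a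
   small integer combination of the monomials is zero or within a bounded factor of the scale
   `(F w) / D` of a record;
3. the ratios of the scales, times powers of `2`, are sorted: the ladder;
4. a rescaled perceptron algorithm, the weights being elements of the ladder.
-/

namespace Pool.Agent.W920.FC

open Pool.Agent.NPC Pool.Agent.H558R2 Pool.Agent.H622R3.SM

/-! ### Adaptive computations -/

/-- A query: a straight-line program, and the register whose sign is tested. -/
abbrev Qry : Type := List Instr × Reg

/-- Adaptive computations with a result in `β`: from the outcomes of the tests, either the result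
and the outcomes not used, or the next query. -/
abbrev TT (β : Type) : Type := List Outcome → (β × List Outcome) ⊕ Qry

/-- No query. -/
def ret {β : Type} (b : β) : TT β := fun h => Sum.inl (b, h)

/-- Sequential composition. -/
def bnd {β γ : Type} (T : TT β) (f : β → TT γ) : TT γ := fun h =>
  match T h with
  | Sum.inl p => f p.1 p.2
  | Sum.inr q => Sum.inr q

/-- Several queries, not depending on each other. -/
def batch (qs : List Qry) : TT (List Outcome) := fun h =>
  if h.length < qs.length then Sum.inr (qs.getD h.length ([], []))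
  else Sum.inl (h.take qs.length, h.drop qs.length)

/-- Iteration. -/
def iter {σ : Type} (f : σ → TT σ) : ℕ → σ → TT σ
  | 0, s => ret s
  | n + 1, s => bnd (iter f n s) f

/-- The algorithm given by adaptive computations. -/
def algOf (T : ℕ → ℕ → TT Bool) : Alg := fun m n h =>
  match T m n h with
  | Sum.inl p => ([], Test.answer p.1)
  | Sum.inr q => (q.1, Test.sign q.2)

/-- The query `q` has the value `v`, on the base registers `g`, and all numbers computed satisfy
`G`. -/
def HasVal (g : Reg → ℝ) (G : ℝ → Prop) (q : Qry) (v : ℝ) : Prop :=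
  Ord baseReg q.1 ∧ ∃ V : Reg → ℝ, (∀ r ∈ baseReg, V r = g r) ∧
    (∀ I ∈ q.1, V I.dst = I.op.eval (V I.fst) (V I.snd) ∧ (I.op = Op.div → V I.snd ≠ 0) ∧
      G (V I.dst)) ∧
    (q.2 ∈ baseReg ∨ ∃ I ∈ q.1, I.dst = q.2) ∧ V q.2 = v

/-- On the base registers `g`, the adaptive computation `T` has the result `b`, with at most `c`
elementary steps, all numbers computed satisfying `G`. -/
inductive Runs {β : Type} (g : Reg → ℝ) (G : ℝ → Prop) : TT β → β → ℕ → Prop
  | done (T : TT β) (b : β) (c : ℕ) (h : ∀ h, T h = Sum.inl (b, h)) : Runs g G T b c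
  | step (T : TT β) (b : β) (c : ℕ) (q : Qry) (v : ℝ) (h1 : T [] = Sum.inr q)
      (h2 : HasVal g G q v) (h3 : Runs g G (fun h => T (signOut v :: h)) b c) :
      Runs g G T b (c + q.1.length + 1)

/-! ### Sizes -/

/-- The number of columns: `m` slack variables, `2 n` variables, the right-hand side. -/
def cK (m n : ℕ) : ℕ := m + (n + n) + 1

/-- All lists of `j` numbers at most `m`. -/
def exps (m : ℕ) : ℕ → List (List ℕ)
  | 0 => [[]]
  | j + 1 => (List.range (m + 1)).flatMap fun d => (exps m j).map fun e => d :: e

/-- The number of monomials. -/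
def cN (k m : ℕ) : ℕ := (m + 1) ^ (k + 1)

/-- The precision. -/
def cE (k m : ℕ) : ℕ := m * m + 2 * cN k m + 4

/-- The number of binary digits of an approximation. -/
def cP (k m : ℕ) : ℕ := (cN k m + 1) * cE k m

/-- The exponents of the ladder. -/
def cQ (k m : ℕ) : ℕ := m * m + cP k m + 3

/-- The number of elements of the ladder, at most. -/
def cZ (k m : ℕ) : ℕ := cN k m * (cN k m * (2 * cQ k m + 1))

/-- The number of steps of the perceptron algorithm. -/
def cT (m n : ℕ) : ℕ := 4 * (cK m n * (cK m n * cK m n))

/-- The number of rounds. -/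
def cR (k m n : ℕ) : ℕ := cK m n * cZ k m + 1

/-! ### Monomials -/

/-- The register of the representative number `r`. -/
def thr (reps : List (ℕ × ℕ)) (r : ℕ) : Reg := [0, (reps.getD r (0, 0)).1, (reps.getD r (0, 0)).2]

/-- The register of the factor number `d` in the right-hand side: `1` or an entry of `b`. -/
def breg (d : ℕ) : Reg := if d = 0 then [2] else [1, d - 1]

/-- The monomial with the exponents `e`: the head for the factor in the right-hand side, the tail
for the representatives. -/
noncomputable def mono (g : Reg → ℝ) (reps : List (ℕ × ℕ)) (k : ℕ) (e : List ℕ) : ℝ :=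
  g (breg (e.getD 0 0)) * ∏ r ∈ Finset.range k, g (thr reps r) ^ e.getD (r + 1) 0

/-- The monomial number `l`. -/
noncomputable def wv (k m : ℕ) (g : Reg → ℝ) (reps : List (ℕ × ℕ)) (l : ℕ) : ℝ :=
  mono g reps k ((exps m (k + 1)).getD l [])

/-- The value of an integer form. -/
noncomputable def evF (N : ℕ) (w : ℕ → ℝ) (C : List ℤ) : ℝ :=
  ∑ l ∈ Finset.range N, (C.getD l 0 : ℝ) * w l

/-! ### Programs -/

/-- Powers `[30, r, s]`. -/
def powProg (k m : ℕ) (reps : List (ℕ × ℕ)) : List Instr :=
  (List.range k).flatMap fun r => (⟨Op.add, [30, r, 0], [2], [3]⟩ : Instr) ::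
    (List.range m).map fun s => (⟨Op.mul, [30, r, s + 1], [30, r, s], thr reps r⟩ : Instr)

/-- Monomials `[31, l, k]`, partial products `[31, l, r]`. -/
def monProg (k m : ℕ) : List Instr :=
  (exps m (k + 1)).zipIdx.flatMap fun p =>
    (⟨Op.add, [31, p.2, 0], breg (p.1.getD 0 0), [3]⟩ : Instr) ::
      (List.range k).map fun r =>
        (⟨Op.mul, [31, p.2, r + 1], [31, p.2, r], [30, r, p.1.getD (r + 1) 0]⟩ : Instr)

/-- The multiple `|a|` times the monomial number `l`, in `[33, c, l, t]`, `t` being the number of
binary digits of `|a|`. -/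
def mulProg (k c l : ℕ) (a : ℤ) : List Instr :=
  (⟨Op.add, [33, c, l, 0], [3], [3]⟩ : Instr) ::
    a.natAbs.bits.reverse.zipIdx.flatMap fun p =>
      [(⟨Op.add, [34, c, l, p.2], [33, c, l, p.2], [33, c, l, p.2]⟩ : Instr),
        ⟨Op.add, [33, c, l, p.2 + 1], [34, c, l, p.2], if p.1 then [31, l, k] else [3]⟩]

/-- The form `C`, as number `c`, in `[32, c, N]`, partial sums in `[32, c, l]`. -/
def formProg (k N c : ℕ) (C : List ℤ) : List Instr :=
  (⟨Op.add, [32, c, 0], [3], [3]⟩ : Instr) ::
    (List.range N).flatMap fun l => mulProg k c l (C.getD l 0) ++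
      [if C.getD l 0 < 0 then
        (⟨Op.sub, [32, c, l + 1], [32, c, l],
          [33, c, l, (C.getD l 0).natAbs.bits.length]⟩ : Instr)
      else ⟨Op.add, [32, c, l + 1], [32, c, l], [33, c, l, (C.getD l 0).natAbs.bits.length]⟩]

/-- The ratios of forms, in `[35, j]`. -/
def ratProg (k N : ℕ) (L : List (List ℤ × List ℤ)) : List Instr :=
  L.zipIdx.flatMap fun p => formProg k N (2 * p.2) p.1.1 ++ (formProg k N (2 * p.2 + 1) p.1.2 ++
    [(⟨Op.div, [35, p.2], [32, 2 * p.2, N], [32, 2 * p.2 + 1, N]⟩ : Instr)])

/-- Monomials. -/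
def baseProg (k m : ℕ) (reps : List (ℕ × ℕ)) : List Instr := powProg k m reps ++ monProg k m

/-- The value of a form. -/
def fQry (k m : ℕ) (reps : List (ℕ × ℕ)) (C : List ℤ) : Qry :=
  (baseProg k m reps ++ formProg k (cN k m) 0 C, [32, 0, cN k m])

/-- Comparison of two ratios. -/
def rQry (k m : ℕ) (reps : List (ℕ × ℕ)) (u v : List ℤ × List ℤ) : Qry :=
  (baseProg k m reps ++ (ratProg k (cN k m) [u, v] ++ [(⟨Op.sub, [20], [35, 0], [35, 1]⟩ : Instr)]),
    [20])

/-- The entry of the matrix `[I | -A | A | b]`, in `[36, i, j]`. -/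
def entProg (m n i j : ℕ) : Instr :=
  if j < m then
    (if i = j then ⟨Op.add, [36, i, j], [2], [3]⟩ else ⟨Op.add, [36, i, j], [3], [3]⟩)
  else if j < m + n then ⟨Op.sub, [36, i, j], [3], [0, i, j - m]⟩
  else if j < m + (n + n) then ⟨Op.add, [36, i, j], [0, i, j - m - n], [3]⟩
  else ⟨Op.add, [36, i, j], [1, i], [3]⟩

/-- The matrix with its columns multiplied by the weights, in `[37, i, j]`. -/
def matProg (m n : ℕ) : List Instr :=
  (List.range m).flatMap fun i => (List.range (cK m n)).flatMap fun j =>
    [entProg m n i j, (⟨Op.mul, [37, i, j], [36, i, j], [35, j]⟩ : Instr)]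

/-- The Gram matrix of the columns, plus `1` on the diagonal for the columns dropped, in
`[4, j, l]`. -/
def gramProg (m n : ℕ) (drop : List Bool) : List Instr :=
  (List.range (cK m n)).flatMap fun j => (List.range (cK m n)).flatMap fun l =>
    ((⟨Op.add, [39, j, l, 0], [3], [3]⟩ : Instr) :: (List.range m).flatMap fun i =>
      [(⟨Op.mul, [38, j, l, i], [37, i, j], [37, i, l]⟩ : Instr),
        ⟨Op.add, [39, j, l, i + 1], [39, j, l, i], [38, j, l, i]⟩]) ++
      [(⟨Op.add, [4, j, l], [39, j, l, m],
        if decide (j = l) && drop.getD j false then [2] else [3]⟩ : Instr)]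

/-- The matrices of Faddeev and LeVerrier `[6, k, i, j]` and the coefficients `[10, k]`. -/
def flProg (K : ℕ) : List Instr :=
  initProg K ++ (List.range K).flatMap fun k => prodProg K k ++ (traceProg K k ++ nextProg K k)

/-- The numbers `0, ..., T` in `[40, t]`. -/
def numProg (T : ℕ) : List Instr :=
  (⟨Op.add, [40, 0], [3], [3]⟩ : Instr) ::
    (List.range T).map fun t => (⟨Op.add, [40, t + 1], [40, t], [2]⟩ : Instr)

/-- The scalar product of the row `j` of the matrix number `r` with `y`, in `[42, K]`. -/
def dotProg (K r j : ℕ) (y : List ℕ) : List Instr :=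
  (⟨Op.add, [42, 0], [3], [3]⟩ : Instr) :: (List.range K).flatMap fun l =>
    [(⟨Op.mul, [41, l], [6, r, j, l], [40, y.getD l 0]⟩ : Instr),
      ⟨Op.add, [42, l + 1], [42, l], [41, l]⟩]

/-- The common part of the queries of the perceptron algorithm. -/
def perProg (k m n : ℕ) (reps : List (ℕ × ℕ)) (L : List (List ℤ × List ℤ)) (drop : List Bool) :
    List Instr :=
  baseProg k m reps ++ (ratProg k (cN k m) L ++ (matProg m n ++ (gramProg m n drop ++
    flProg (cK m n))))

/-- The sign of a coefficient. -/
def cQry (k m n : ℕ) (reps : List (ℕ × ℕ)) (L : List (List ℤ × List ℤ)) (drop : List Bool)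
    (k' : ℕ) : Qry :=
  (perProg k m n reps L drop, [10, k'])

/-- The sign of a scalar product. -/
def dQry (k m n : ℕ) (reps : List (ℕ × ℕ)) (L : List (List ℤ × List ℤ)) (drop : List Bool)
    (y : List ℕ) (r j : ℕ) : Qry :=
  (perProg k m n reps L drop ++ (numProg (cT m n) ++ dotProg (cK m n) r j y), [42, cK m n])

/-! ### Phase 1 -/

/-- The sign of an outcome. -/
def osg : Outcome → ℤ
  | some true => 1
  | none => 0
  | some false => -1

/-- The positions of the entries of an `m × n` matrix. -/
def poss (m n : ℕ) : List (ℕ × ℕ) :=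
  (List.range m).flatMap fun i => (List.range n).map fun j => (i, j)

/-- All comparisons of two entries. -/
def eqQs (m n : ℕ) : List Qry :=
  (poss m n).flatMap fun e => (poss m n).map fun f =>
    ([(⟨Op.sub, [20], [0, e.1, e.2], [0, f.1, f.2]⟩ : Instr)], [20])

/-- The positions of the entries which are different from all earlier ones. -/
def repsOf (m n : ℕ) (o : List Outcome) : List (ℕ × ℕ) :=
  (poss m n).zipIdx.flatMap fun p =>
    if (List.range p.2).all fun y => decide (o.getD (p.2 * (poss m n).length + y) none ≠ none) then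
      [p.1] else []

/-- Phase 1. -/
def T1 (m n : ℕ) : TT (List (ℕ × ℕ)) := bnd (batch (eqQs m n)) fun o => ret (repsOf m n o)

/-! ### Phase 2 -/

/-- The combination `c C + d D`. -/
def fcomb (N : ℕ) (c : ℤ) (C : List ℤ) (d : ℤ) (D : List ℤ) : List ℤ :=
  (List.range N).map fun i => c * C.getD i 0 + d * D.getD i 0

/-- Comparison of the absolute values of all forms. -/
def cmpQs (k m : ℕ) (reps : List (ℕ × ℕ)) (F : List (List ℤ)) : List Qry :=
  ((List.range (cN k m)).map fun l => fQry k m reps (F.getD l [])) ++
    (List.range (cN k m)).flatMap fun l => (List.range (cN k m)).flatMap fun l' =>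
      [fQry k m reps (fcomb (cN k m) 1 (F.getD l []) (-1) (F.getD l' [])),
        fQry k m reps (fcomb (cN k m) 1 (F.getD l []) 1 (F.getD l' []))]

/-- The signs of the forms. -/
def sgOf (N : ℕ) (o : List Outcome) : List ℤ := (List.range N).map fun l => osg (o.getD l none)

/-- The form number `l` has maximal absolute value. -/
def isMax (N : ℕ) (o : List Outcome) (l : ℕ) : Bool :=
  (List.range N).all fun l' => decide (0 ≤ osg (o.getD (N + 2 * (l * N + l')) none) *
    osg (o.getD (N + 2 * (l * N + l') + 1) none))

/-- The first form of maximal absolute value. -/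
def bestOf (N : ℕ) (o : List Outcome) : ℕ :=
  (((List.range N).filter fun l => isMax N o l).head?).getD 0

/-- One step of the bisections: for the increment `d` and the lower bounds `a` of
`2 ^ P |F_l w| / |F_best w|`. -/
def bisQs (k m : ℕ) (reps : List (ℕ × ℕ)) (F : List (List ℤ)) (sg : List ℤ) (best : ℕ)
    (s : ℕ × List ℕ) : List Qry :=
  (List.range (cN k m)).map fun l => fQry k m reps (fcomb (cN k m)
    (2 ^ cP k m * sg.getD l 0) (F.getD l [])
    (-(((s.2.getD l 0 + s.1 / 2 : ℕ) : ℤ) * sg.getD best 0)) (F.getD best []))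

/-- The new increment and lower bounds. -/
def bisUpd (N : ℕ) (s : ℕ × List ℕ) (o : List Outcome) : ℕ × List ℕ :=
  (s.1 / 2, (List.range N).map fun l =>
    if o.getD l none = some false then s.2.getD l 0 else s.2.getD l 0 + s.1 / 2)

/-- The rows of the lattice (the numbers `a_l` are cut off at `2 ^ P`). -/
def sdaRows (N P : ℕ) (a : List ℕ) : List (List ℤ) :=
  ((List.range N).map fun l => ((min (a.getD l 0) (2 ^ P) : ℕ) : ℤ)) :: (List.range N).map fun l =>
    (List.range N).map fun l' => if l' = l then -((2 ^ P : ℕ) : ℤ) else 0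

/-- Simultaneous Diophantine approximation of the numbers `a_l / 2 ^ P`: the denominator and the
numerators. -/
def sda (N E : ℕ) (a : List ℕ) : ℕ × List ℤ :=
  let u := (((Pool.Agent.H687R2.LLL.relShort (sdaRows N ((N + 1) * E) a) ((N + 1) * E + N + 1)
    ((2 * N + 1) * 4 ^ (N * E))).filter fun u => decide (u.getD 0 0 ≠ 0)).head?).getD [1]
  if 0 < u.getD 0 0 then ((u.getD 0 0).natAbs, (List.range N).map fun l => u.getD (l + 1) 0)
  else ((u.getD 0 0).natAbs, (List.range N).map fun l => - u.getD (l + 1) 0)

/-- The state of phase 2: the records, the forms, their common denominator. -/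
abbrev S2 : Type := List (List ℤ × ℕ) × (List (List ℤ) × ℕ)

/-- The end of a stage. -/
def finish (k m : ℕ) (s : S2) (sg : List ℤ) (best : ℕ) (a : List ℕ) : S2 :=
  if sg.all fun x => decide (x = 0) then s
  else
    let N := cN k m
    let F := s.2.1
    let r := sda N (cE k m) ((List.range N).map fun l => if l = best then 2 ^ cP k m else a.getD l 0)
    (s.1 ++ [(fcomb N (sg.getD best 0) (F.getD best []) 0 [], s.2.2 * r.1)],
      ((List.range N).map fun l => fcomb N (r.1 : ℤ) (F.getD l [])
        (-(sg.getD l 0 * sg.getD best 0 * r.2.getD l 0)) (F.getD best []), s.2.2 * r.1))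

/-- One stage. -/
def stage (k m : ℕ) (reps : List (ℕ × ℕ)) (s : S2) : TT S2 :=
  bnd (batch (cmpQs k m reps s.2.1)) fun o =>
    bnd (iter (fun t => bnd (batch (bisQs k m reps s.2.1 (sgOf (cN k m) o) (bestOf (cN k m) o) t))
      fun o' => ret (bisUpd (cN k m) t o')) (cP k m)
        (2 ^ cP k m, (List.range (cN k m)).map fun _ => 0)) fun t =>
      ret (finish k m s (sgOf (cN k m) o) (bestOf (cN k m) o) t.2)

/-- The forms at the beginning: the monomials. -/
def unitF (N : ℕ) : List (List ℤ) :=
  (List.range N).map fun l => (List.range N).map fun l' => if l' = l then 1 else 0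

/-- Phase 2. -/
def T2 (k m : ℕ) (reps : List (ℕ × ℕ)) : TT (List (List ℤ × ℕ)) :=
  bnd (iter (stage k m reps) (cN k m) ([], (unitF (cN k m), 1))) fun s => ret s.1

/-! ### Phase 3 -/

/-- The ladder, before sorting: the ratios of forms. -/
def lad0 (k m : ℕ) (recs : List (List ℤ × ℕ)) : List (List ℤ × List ℤ) :=
  recs.flatMap fun a => recs.flatMap fun b => (List.range (2 * cQ k m + 1)).map fun e =>
    (fcomb (cN k m) ((b.2 : ℤ) * 2 ^ e) a.1 0 [], fcomb (cN k m) ((a.2 : ℤ) * 2 ^ cQ k m) b.1 0 [])

/-- Comparison of all pairs. -/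
def sortQs (k m : ℕ) (reps : List (ℕ × ℕ)) (L : List (List ℤ × List ℤ)) : List Qry :=
  L.flatMap fun u => L.map fun v => rQry k m reps u v

/-- The number of elements greater than the element number `v`. -/
def rankOf (Z : ℕ) (o : List Outcome) (v : ℕ) : ℕ :=
  ((List.range Z).filter fun u => decide (o.getD (u * Z + v) none = some true)).length

/-- The elements in decreasing order. -/
def sortL (L : List (List ℤ × List ℤ)) (o : List Outcome) : List (List ℤ × List ℤ) :=
  (List.range L.length).flatMap fun r => L.zipIdx.flatMap fun p =>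
    if rankOf L.length o p.2 = r then [p.1] else []

/-- Phase 3. -/
def T3 (k m : ℕ) (reps : List (ℕ × ℕ)) (recs : List (List ℤ × ℕ)) : TT (List (List ℤ × List ℤ)) :=
  bnd (batch (sortQs k m reps (lad0 k m recs))) fun o => ret (sortL (lad0 k m recs) o)

/-! ### Phase 4 -/

/-- The weights of the columns, as ratios of forms. -/
def wts (m n : ℕ) (Lad : List (List ℤ × List ℤ)) (idx : List ℕ) : List (List ℤ × List ℤ) :=
  ((List.range (m + (n + n))).map fun j => Lad.getD (idx.getD j 0) ([], [1])) ++ [([1], [1])]

/-- The columns dropped. -/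
def drops (m n : ℕ) (Lad : List (List ℤ × List ℤ)) (idx : List ℕ) : List Bool :=
  ((List.range (m + (n + n))).map fun j => decide (Lad.length ≤ idx.getD j 0)) ++ [false]

/-- The queries of a step of the perceptron algorithm. -/
def perQs (k m n : ℕ) (reps : List (ℕ × ℕ)) (L : List (List ℤ × List ℤ)) (drop : List Bool)
    (y : List ℕ) : List Qry :=
  ((List.range (cK m n)).map fun k' => cQry k m n reps L drop k') ++
    (List.range (cK m n + 1)).flatMap fun r => (List.range (cK m n)).map fun j =>
      dQry k m n reps L drop y r j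

/-- The number of nonzero coefficients of the characteristic polynomial, up to the last one. -/
def rkOf (K : ℕ) (o : List Outcome) : ℕ :=
  ((((List.range K).reverse.filter fun k' => decide (o.getD k' none ≠ none)).head?).map
    fun k' => k' + 1).getD 0

/-- The sign of the coordinate `j` of the projection. -/
def zOf (K : ℕ) (o : List Outcome) (j : ℕ) : ℤ :=
  (if rkOf K o = 0 then 1 else - osg (o.getD (rkOf K o - 1) none)) *
    osg (o.getD (K + (rkOf K o * K + j)) none)

/-- The columns which are not dropped, and where the projection is not positive. -/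
def badOf (K : ℕ) (drop : List Bool) (o : List Outcome) : List ℕ :=
  (List.range K).filter fun j => !(drop.getD j false) && decide (zOf K o j ≤ 0)

/-- Adding `1` at the position `j`. -/
def bump (y : List ℕ) (K j : ℕ) : List ℕ :=
  (List.range K).map fun l => if l = j then y.getD l 0 + 1 else y.getD l 0

/-- A step of the perceptron algorithm: the new vector, and success. -/
def perUpd (K : ℕ) (drop : List Bool) (s : List ℕ × Bool) (o : List Outcome) : List ℕ × Bool :=
  (((badOf K drop o).head?).map fun j => (bump s.1 K j, s.2)).getD (s.1, true)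

/-- The next weights, at the end of a round. -/
def nextIdx (m n : ℕ) (idx y : List ℕ) : List ℕ :=
  ((((List.range (cK m n)).filter fun j => decide (4 * (cK m n * cK m n) ≤ y.getD j 0)).head?).map
    fun j => bump idx (m + (n + n)) j).getD idx

/-- A round. -/
def round (k m n : ℕ) (reps : List (ℕ × ℕ)) (Lad : List (List ℤ × List ℤ)) (s : List ℕ × Bool) :
    TT (List ℕ × Bool) :=
  bnd (iter (fun t => bnd (batch (perQs k m n reps (wts m n Lad s.1) (drops m n Lad s.1) t.1))
    fun o => ret (perUpd (cK m n) (drops m n Lad s.1) t o)) (cT m n)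
      ((List.range (cK m n)).map fun _ => 0, s.2)) fun t => ret (nextIdx m n s.1 t.1, t.2)

/-- Phase 4. -/
def T4 (k m n : ℕ) (reps : List (ℕ × ℕ)) (Lad : List (List ℤ × List ℤ)) : TT Bool :=
  bnd (iter (round k m n reps Lad) (cR k m n)
    ((List.range (m + (n + n))).map fun _ => 0, false)) fun s => ret s.2

/-- The computation. -/
def TA (k m n : ℕ) : TT Bool :=
  bnd (T1 m n) fun reps => bnd (T2 k m reps) fun recs => bnd (T3 k m reps recs) fun Lad =>
    T4 k m n reps Lad

/-- The algorithm. -/
def alg (k : ℕ) : Alg := algOf (TA k)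

end Pool.Agent.W920.FC
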