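import Pool.Agent.W920.FC.Stm

set_option autoImplicit false

/-! The final assembly. -/

namespace Pool.Agent.W920.FC

open Pool.Agent.NPC Pool.Agent.H558R2 Pool.Agent.H622R3.SM

namespace TFINAL

theorem gd_mono {p q : Polynomial ℕ} {S : ℕ} {g : Reg → ℝ} (h : ∀ x, p.eval x ≤ q.eval x) :
    ∀ v, Gd p S g v → Gd q S g v := by
  intro v hv lam hl
  obtain ⟨E, z, h1, h2, h3, h4⟩ := hv lam hl
  exact ⟨E, z, h1, h2.trans (Nat.pow_le_pow_right (by norm_num) (h _)),
    h3.trans (Nat.pow_le_pow_right (by norm_num) (h _)), h4⟩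

theorem base_start {m n : ℕ} (A : Matrix (Fin m) (Fin n) ℝ) (b : Fin m → ℝ) :
    Base (start A b) := by
  constructor
  · rfl
  · rfl

theorem two_le_bitLength (q : ℚ) : 2 ≤ bitLength q := by
  unfold bitLength
  have h : 1 ≤ Nat.size q.den := Nat.size_pos.2 q.den_pos
  omega

theorem le_inputLength {m n : ℕ} (hm : 1 ≤ m) (A : Matrix (Fin m) (Fin n) ℚ)
    (b : Fin m → ℚ) : m + n ≤ inputLength A b := by
  unfold inputLength
  have h1 : m * (n * 2) ≤ ∑ i, ∑ j, bitLength (A i j) := by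
    calc m * (n * 2) = ∑ i : Fin m, ∑ j : Fin n, 2 := by simp
      _ ≤ _ := Finset.sum_le_sum fun i _ => Finset.sum_le_sum fun j _ => two_le_bitLength _
  have h2 : m * 2 ≤ ∑ i, bitLength (b i) := by
    calc m * 2 = ∑ i : Fin m, 2 := by simp
      _ ≤ _ := Finset.sum_le_sum fun i _ => two_le_bitLength _
  have h3 : n ≤ m * (n * 2) := by nlinarith
  omega

/-- The context types. -/
abbrev X1 : Type := List Unit × List Unit
/-- The context types. -/
abbrev X2 : Type := X1 × List (ℕ × ℕ)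
/-- The context types. -/
abbrev X3 : Type := X2 × List (List ℤ × ℕ)
/-- The context types. -/
abbrev X4 : Type := X3 × List (List ℤ × List ℤ)

theorem c4 (k : ℕ) (hPT4 : S_PT4 k) :
    PT (fun p : X4 => T4 k p.1.1.1.1.length p.1.1.1.2.length p.1.1.2 p.2) := by
  have i0 : Poly (fun p : X4 => p.1.1.1) :=
    Pool.Agent.NPC.Poly.fst (Pool.Agent.NPC.Poly.fst (Pool.Agent.NPC.Poly.fst
      Pool.Agent.NPC.Poly.id))
  have i1 : Poly (fun p : X4 => p.1.1.1.1) := Pool.Agent.NPC.Poly.fst i0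
  have i2 : Poly (fun p : X4 => p.1.1.1.2) := Pool.Agent.NPC.Poly.snd i0
  have i3 : Poly (fun p : X4 => p.1.1.2) :=
    Pool.Agent.NPC.Poly.snd (Pool.Agent.NPC.Poly.fst (Pool.Agent.NPC.Poly.fst
      Pool.Agent.NPC.Poly.id))
  have i4 : Poly (fun p : X4 => p.2) := Pool.Agent.NPC.Poly.snd Pool.Agent.NPC.Poly.id
  exact hPT4 X4 (fun p => p.1.1.1.1) (fun p => p.1.1.1.2) (fun p => p.1.1.2) (fun p => p.2)
    i1 i2 i3 i4

theorem d3 (k : ℕ) (hPT3 : S_PT3 k) : PT (fun p : X3 => T3 k p.1.1.1.length p.1.2 p.2) := by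
  have i1 : Poly (fun p : X3 => p.1.1.1) :=
    Pool.Agent.NPC.Poly.fst (Pool.Agent.NPC.Poly.fst (Pool.Agent.NPC.Poly.fst
      Pool.Agent.NPC.Poly.id))
  have i2 : Poly (fun p : X3 => p.1.2) :=
    Pool.Agent.NPC.Poly.snd (Pool.Agent.NPC.Poly.fst Pool.Agent.NPC.Poly.id)
  have i3 : Poly (fun p : X3 => p.2) := Pool.Agent.NPC.Poly.snd Pool.Agent.NPC.Poly.id
  exact hPT3 X3 (fun p => p.1.1.1) (fun p => p.1.2) (fun p => p.2) i1 i2 i3

theorem d2 (k : ℕ) (hPT2 : S_PT2 k) : PT (fun p : X2 => T2 k p.1.1.length p.2) := by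
  have i1 : Poly (fun p : X2 => p.1.1) :=
    Pool.Agent.NPC.Poly.fst (Pool.Agent.NPC.Poly.fst Pool.Agent.NPC.Poly.id)
  have i2 : Poly (fun p : X2 => p.2) := Pool.Agent.NPC.Poly.snd Pool.Agent.NPC.Poly.id
  exact hPT2 X2 (fun p => p.1.1) (fun p => p.2) i1 i2

theorem d1 (hPT1 : S_PT1) : PT (fun p : X1 => T1 p.1.length p.2.length) := by
  have i1 : Poly (fun p : X1 => p.1) := Pool.Agent.NPC.Poly.fst Pool.Agent.NPC.Poly.id
  have i2 : Poly (fun p : X1 => p.2) := Pool.Agent.NPC.Poly.snd Pool.Agent.NPC.Poly.id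
  exact hPT1 X1 (fun p => p.1) (fun p => p.2) i1 i2

/-- The last two phases. -/
def T34 (k : ℕ) (m n : ℕ) (reps : List (ℕ × ℕ)) (recs : List (List ℤ × ℕ)) : TT Bool :=
  bnd (T3 k m reps recs) fun Lad => T4 k m n reps Lad

/-- The last three phases. -/
def T234 (k : ℕ) (m n : ℕ) (reps : List (ℕ × ℕ)) : TT Bool :=
  bnd (T2 k m reps) fun recs => T34 k m n reps recs

theorem TA_eq (k m n : ℕ) : TA k m n = bnd (T1 m n) fun reps => T234 k m n reps := rfl

theorem bndPT (hPT : S_PT) {α β γ : Type} [TEnc α] [TEnc β] [TEnc γ] (T : α → TT β)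
    (f : α → β → TT γ) (F : α → TT γ) (hF : ∀ a, F a = bnd (T a) (f a)) (h1 : PT T)
    (h2 : PT (fun p : α × β => f p.1 p.2)) : PT F := by
  have : F = fun a => bnd (T a) (f a) := funext hF
  rw [this]
  exact hPT.2.1 α β γ T f h1 h2

theorem c3 (k : ℕ) (hPT : S_PT) (hPT3 : S_PT3 k) (hPT4 : S_PT4 k) :
    PT (fun p : X3 => T34 k p.1.1.1.length p.1.1.2.length p.1.2 p.2) :=
  bndPT hPT (fun p : X3 => T3 k p.1.1.1.length p.1.2 p.2)
    (fun p Lad => T4 k p.1.1.1.length p.1.1.2.length p.1.2 Lad) _ (fun _ => rfl) (d3 k hPT3)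
    (c4 k hPT4)

theorem c2 (k : ℕ) (hPT : S_PT) (hPT2 : S_PT2 k) (hPT3 : S_PT3 k) (hPT4 : S_PT4 k) :
    PT (fun p : X2 => T234 k p.1.1.length p.1.2.length p.2) :=
  bndPT hPT (fun p : X2 => T2 k p.1.1.length p.2)
    (fun p recs => T34 k p.1.1.length p.1.2.length p.2 recs) _ (fun _ => rfl) (d2 k hPT2)
    (c3 k hPT hPT3 hPT4)

/-- The control is polynomial. -/
theorem ctrl (k : ℕ) (hPT : S_PT) (hPT1 : S_PT1) (hPT2 : S_PT2 k)
    (hPT3 : S_PT3 k) (hPT4 : S_PT4 k) :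
    PT (fun p : List Unit × List Unit => TA k p.1.length p.2.length) :=
  bndPT hPT (fun p : X1 => T1 p.1.length p.2.length)
    (fun p reps => T234 k p.1.length p.2.length reps) _ (fun _ => TA_eq _ _ _) (d1 hPT1)
    (c2 k hPT hPT2 hPT3 hPT4)

end TFINAL

open TFINAL

theorem t_FINAL (k : ℕ) (hRUN : S_RUN) (hBND : S_BND) (hMONO : S_MONO) (hPT : S_PT)
    (hCTRL : S_CTRL) (hBITS : S_BITS) (hPH1 : S_PH1 k) (hPH2 : S_PH2 k) (hPH3 : S_PH3 k)
    (hPH4 : S_PH4 k) (hFEAS : S_FEAS) (hBFS : S_BFS) (hPT1 : S_PT1) (hPT2 : S_PT2 k)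
    (hPT3 : S_PT3 k) (hPT4 : S_PT4 k) : S_FINAL k := by
  refine ⟨?_, ?_, ?_⟩
  · exact hCTRL (TA k) (ctrl k hPT hPT1 hPT2 hPT3 hPT4)
  · -- no oracle
    intro m n h w
    unfold alg algOf
    cases TA k m n h <;> simp
  · obtain ⟨q1, h1⟩ := hPH1
    obtain ⟨q2, h2⟩ := hPH2
    obtain ⟨q3, h3⟩ := hPH3
    obtain ⟨q4, h4⟩ := hPH4
    set qs : Polynomial ℕ := q1 + (q2 + (q3 + q4)) with hqs
    have e1 : ∀ x, q1.eval x ≤ qs.eval x := fun x => by
      simp only [hqs, Polynomial.eval_add]; omega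
    have e2 : ∀ x, q2.eval x ≤ qs.eval x := fun x => by
      simp only [hqs, Polynomial.eval_add]; omega
    have e3 : ∀ x, q3.eval x ≤ qs.eval x := fun x => by
      simp only [hqs, Polynomial.eval_add]; omega
    have e4 : ∀ x, q4.eval x ≤ qs.eval x := fun x => by
      simp only [hqs, Polynomial.eval_add]; omega
    refine ⟨qs + 1 + (2 * qs.comp (3 * Polynomial.X) + 3), ?_⟩
    intro m n hm hn A b hC
    set g : Reg → ℝ := start A b with hg
    have hb : Base g := base_start A b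
    obtain ⟨reps, hcov, r1⟩ := h1 m n A b hC
    obtain ⟨recs, hG2, r2⟩ := h2 m n g reps hb
    obtain ⟨Lad, hG3, r3⟩ := h3 m n g reps recs hb hG2
    obtain ⟨ans, r4, hs, hc⟩ := h4 m n g reps Lad hb hG3
    have r1' := hMONO _ g _ _ _ _ _ _ (gd_mono (S := m + n) (g := g) e1) le_rfl r1
    have r2' := hMONO _ g _ _ _ _ _ _ (gd_mono (S := m + n) (g := g) e2) le_rfl r2
    have r3' := hMONO _ g _ _ _ _ _ _ (gd_mono (S := m + n) (g := g) e3) le_rfl r3
    have r4' := hMONO _ g _ _ _ _ _ _ (gd_mono (S := m + n) (g := g) e4) le_rfl r4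
    have r : Runs g (Gd qs (m + n) g) (TA k m n) ans
        (q1.eval (m + n) + (q2.eval (m + n) + (q3.eval (m + n) + q4.eval (m + n)))) := by
      unfold TA
      refine hBND _ _ g _ _ _ reps ans _ _ r1' ?_
      refine hBND _ _ g _ _ _ recs ans _ _ r2' ?_
      exact hBND _ _ g _ _ _ Lad ans _ _ r3' r4'
    have hfuel : q1.eval (m + n) + (q2.eval (m + n) + (q3.eval (m + n) + q4.eval (m + n))) + 1 ≤
        (qs + 1 + (2 * qs.comp (3 * Polynomial.X) + 3)).eval (m + n) := by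
      simp only [hqs, Polynomial.eval_add, Polynomial.eval_one]
      omega
    obtain ⟨nums, steps, hrun, hsteps, hG⟩ := hRUN (TA k) m n g _ ans _ r ∅ _ hfuel
    refine ⟨ans, nums, steps, hrun, ?_, by omega, ?_⟩
    · rw [← hFEAS m n A b]
      constructor
      · exact hs
      · intro hf
        apply hc
        have hf' := (hFEAS m n A b).1 hf
        exact hBFS k m n A b reps Lad hm hcov hG3.2.2.2.2 hf'
    · intro A' b' hA hb' v hv
      have hA2 : (fun i j => ((A' i j : ℚ) : ℝ)) = (A : Fin m → Fin n → ℝ) := by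
        funext i j
        exact hA i j
      have hb2 : (fun i => ((b' i : ℚ) : ℝ)) = b := by
        funext i
        exact hb' i
      have hRB := hBITS.2 m n A' b'
      rw [hA2, hb2] at hRB
      have hQ := hG v hv _ hRB
      obtain ⟨q, hq, hq2⟩ := hBITS.1 _ _ hQ
      refine ⟨q, hq, hq2.trans ?_⟩
      have hL := le_inputLength hm A' b'
      have hmono := eval_mono qs (show m + n + 2 * inputLength A' b' ≤ 3 * inputLength A' b' by
        omega)
      simp only [Polynomial.eval_add, Polynomial.eval_mul, Polynomial.eval_comp,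
        Polynomial.eval_X, Polynomial.eval_ofNat]
      omega

end Pool.Agent.W920.FC
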