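import Pool.Agent.W920.FC.Stm

set_option autoImplicit false

/-! Initial indices, and the monomial number zero. -/

namespace Pool.Agent.W920.FC

open Pool.Agent.NPC Pool.Agent.H558R2 Pool.Agent.H622R3.SM

namespace IW

theorem length_exps (m : ℕ) : ∀ j, (exps m j).length = (m + 1) ^ j
  | 0 => rfl
  | j + 1 => by
    have ih := length_exps m j
    simp [exps, List.length_flatMap, ih, pow_succ, mul_comm]

theorem mem_exps (m : ℕ) : ∀ (j : ℕ) (e : List ℕ),
    e ∈ exps m j ↔ e.length = j ∧ ∀ d ∈ e, d ≤ m
  | 0, e => by
    simp only [exps, List.mem_singleton, List.length_eq_zero_iff]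
    constructor
    · rintro rfl; simp
    · rintro ⟨h, _⟩; exact h
  | j + 1, e => by
    simp only [exps, List.mem_flatMap, List.mem_range, List.mem_map]
    constructor
    · rintro ⟨d, hd, e', he', rfl⟩
      obtain ⟨h1, h2⟩ := (mem_exps m j e').1 he'
      refine ⟨by simp [h1], ?_⟩
      intro x hx
      rcases List.mem_cons.1 hx with rfl | hx
      · omega
      · exact h2 x hx
    · rintro ⟨h1, h2⟩
      cases e with
      | nil => simp at h1
      | cons d e' =>
        refine ⟨d, by have := h2 d (by simp); omega, e', (mem_exps m j e').2 ⟨by simpa using h1, ?_⟩,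
          rfl⟩
        intro x hx
        exact h2 x (List.mem_cons_of_mem _ hx)

theorem getD_exps_zero (m : ℕ) : ∀ j, (exps m j).getD 0 [] = List.replicate j 0
  | 0 => rfl
  | j + 1 => by
    have ih := getD_exps_zero m j
    have hne : exps m j ≠ [] := by
      intro h
      have := length_exps m j
      rw [h] at this
      have h2 : 0 < (m + 1) ^ j := Nat.pos_of_ne_zero (pow_ne_zero _ (by omega))
      simp only [List.length_nil] at this
      omega
    cases hE : exps m j with
    | nil => exact absurd hE hne
    | cons x xs =>
      rw [hE] at ih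
      have hx : x = List.replicate j 0 := by simpa using ih
      have : exps m (j + 1) = (List.range (m + 1)).flatMap fun d =>
          (exps m j).map fun e => d :: e := rfl
      rw [this, hE, List.range_succ_eq_map, List.flatMap_cons]
      simp [hx, List.replicate_succ]

theorem w0 : S_W0 := by
  intro k m g reps hb
  refine ⟨?_, length_exps m (k + 1), ?_, ?_⟩
  · unfold wv mono
    rw [getD_exps_zero]
    have h1 : ∀ i, (List.replicate (k + 1) 0).getD i 0 = 0 := by
      intro i
      rw [List.getD_eq_getElem?_getD, List.getElem?_replicate]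
      split_ifs <;> rfl
    simp only [h1, pow_zero, Finset.prod_const_one, mul_one]
    exact hb.1
  · intro e he
    exact (mem_exps m (k + 1) e).1 he
  · intro e he1 he2
    have hm := (mem_exps m (k + 1) e).2 ⟨he1, he2⟩
    obtain ⟨l, hl, hle⟩ := List.getElem_of_mem hm
    refine ⟨l, ?_, ?_⟩
    · have := length_exps m (k + 1)
      unfold cN
      omega
    · rw [List.getD_eq_getElem _ _ hl]
      exact hle

theorem sum_le_mul (c : ℕ) : ∀ l : List ℕ, (∀ j, l.getD j 0 ≤ c) → l.sum ≤ l.length * c
  | [], _ => by simp
  | x :: l, h => by
    have h0 := h 0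
    have ih := sum_le_mul c l (fun j => by simpa using h (j + 1))
    simp only [List.getD_cons_zero] at h0
    simp only [List.sum_cons, List.length_cons]
    linarith [Nat.succ_mul l.length c]

theorem getD_zeros (M j : ℕ) : ((List.range M).map fun _ => 0).getD j 0 = 0 := by
  rw [List.getD_eq_getElem?_getD, List.getElem?_map]
  cases (List.range M)[j]? <;> rfl

theorem idx0 : S_IDX0 := by
  intro k m n g w Lad hG
  refine ⟨⟨by simp, fun j => by rw [getD_zeros]; omega⟩, ?_, ?_⟩
  · intro x hx j hj
    have hw : Wt k m n w Lad ((List.range (m + (n + n))).map fun _ => 0) j =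
        rt (cN k m) w (Lad.getD 0 ([], [1])) := by
      unfold Wt wts
      rw [List.getD_append _ _ _ _ (by simpa using hj), List.getD_eq_getElem _ _ (by simpa using hj)]
      simp only [List.getElem_map, List.getElem_range]
      rw [getD_zeros]
    rw [hw]
    rcases hx.2.2.2 j hj with h0 | ⟨u, hu, hu1, hu2⟩
    · rw [h0]
      cases hL : Lad with
      | nil =>
        simp [rt, evF]
      | cons a L =>
        have ha := hG.2.2.1 a (by rw [hL]; simp)
        simp only [List.getD_cons_zero]
        exact (div_pos ha.1 ha.2).le
    · cases hL : Lad with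
      | nil => rw [hL] at hu; simp at hu
      | cons a L =>
        simp only [List.getD_cons_zero]
        refine hu2.trans ?_
        have hp := hG.2.2.2.1
        rw [hL] at hp hu
        rcases List.mem_cons.1 hu with rfl | hu
        · exact le_rfl
        · exact (List.pairwise_cons.1 hp).1 u hu
  · intro idx hidx
    have := sum_le_mul Lad.length idx hidx.2
    rwa [hidx.1] at this

end IW

theorem t_IW : S_IDX0 ∧ S_W0 := ⟨IW.idx0, IW.w0⟩

end Pool.Agent.W920.FC
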