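import Pool.Agent.W920.FC.Defs
import Pool.Agent.H622R3.SM.T_EXEC
import Pool.Agent.H622R3.SM.T_COMP

set_option autoImplicit false

/-!
# Linear feasibility for matrices with few distinct entries: statements of the parts
-/

namespace Pool.Agent.W920.FC

open Pool.Agent.NPC Pool.Agent.H558R2 Pool.Agent.H622R3.SM

/-! ### Adaptive computations -/

/-- The run of the algorithm given by an adaptive computation. -/
def S_RUN : Prop := ∀ (T : ℕ → ℕ → TT Bool) (m n : ℕ) (g : Reg → ℝ) (G : ℝ → Prop) (b : Bool)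
  (c : ℕ), Runs g G (T m n) b c → ∀ (O : Set (List Bool)) (k : ℕ), c + 1 ≤ k →
  ∃ (nums : List ℝ) (steps : ℕ), run O (algOf T m n) k [] g = some (b, nums, steps) ∧ steps ≤ c ∧
    ∀ v ∈ nums, G v

/-- Sequential composition. -/
def S_BND : Prop := ∀ (β γ : Type) (g : Reg → ℝ) (G : ℝ → Prop) (T : TT β) (f : β → TT γ) (b : β)
  (b' : γ) (c c' : ℕ), Runs g G T b c → Runs g G (f b) b' c' → Runs g G (bnd T f) b' (c + c')

/-- A batch of queries. -/
def S_BATCH : Prop := ∀ (g : Reg → ℝ) (G : ℝ → Prop) (qs : List Qry) (vs : List ℝ),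
  List.Forall₂ (HasVal g G) qs vs →
  Runs g G (batch qs) (vs.map signOut) ((qs.map fun q => q.1.length + 1).sum)

/-- Iteration. -/
def S_ITER : Prop := ∀ (σ : Type) (g : Reg → ℝ) (G : ℝ → Prop) (f : σ → TT σ) (s : ℕ → σ)
  (n c : ℕ), (∀ i < n, Runs g G (f (s i)) (s (i + 1)) c) → Runs g G (iter f n (s 0)) (s n) (n * c)

/-- Monotonicity. -/
def S_MONO : Prop := ∀ (β : Type) (g : Reg → ℝ) (G G' : ℝ → Prop) (T : TT β) (b : β) (c c' : ℕ),
  (∀ v, G v → G' v) → c ≤ c' → Runs g G T b c → Runs g G' T b c'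

/-- The possible results of an adaptive computation. -/
def Out {β : Type} (T : TT β) (b : β) : Prop := ∃ h h', T h = Sum.inl (b, h')

/-- An adaptive computation which does not invent outcomes. -/
def Shr {β : Type} (T : TT β) : Prop := ∀ h b h', T h = Sum.inl (b, h') → h'.length ≤ h.length

/-- An adaptive computation computed in polynomial time. -/
def PT {α β : Type} [TEnc α] [TEnc β] (T : α → TT β) : Prop :=
  Poly (fun p : α × List Outcome => T p.1 p.2)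

/-- The results of the constructions. -/
def S_OUT : Prop :=
  (∀ (β : Type) (b c : β), Out (ret b) c → c = b) ∧
  (∀ (β γ : Type) (T : TT β) (f : β → TT γ) (c : γ), Out (bnd T f) c → ∃ b, Out T b ∧ Out (f b) c) ∧
  (∀ (σ : Type) (f : σ → TT σ) (n : ℕ) (s c : σ), Out (iter f (n + 1) s) c →
    ∃ b, Out (iter f n s) b ∧ Out (f b) c) ∧
  (∀ (β : Type) (b : β), Shr (ret b)) ∧
  (∀ (β γ : Type) (T : TT β) (f : β → TT γ), Shr T → (∀ b, Shr (f b)) → Shr (bnd T f)) ∧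
  (∀ qs : List Qry, Shr (batch qs)) ∧
  (∀ (σ : Type) (f : σ → TT σ) (n : ℕ) (s : σ), (∀ s, Shr (f s)) → Shr (iter f n s))

/-- Polynomial time: the simple constructions. -/
def S_PT : Prop :=
  (∀ (α β : Type) [TEnc α] [TEnc β] (b : α → β), Poly b → PT (fun a => ret (b a))) ∧
  (∀ (α β γ : Type) [TEnc α] [TEnc β] [TEnc γ] (T : α → TT β) (f : α → β → TT γ), PT T →
    PT (fun p : α × β => f p.1 p.2) → PT (fun a => bnd (T a) (f a))) ∧
  (∀ (α : Type) [TEnc α] (qs : α → List Qry), Poly qs → PT (fun a => batch (qs a)))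

/-- Polynomial time: iteration. -/
def S_PTITER : Prop := ∀ (α σ : Type) [TEnc α] [TEnc σ] (f : α → σ → TT σ) (n : α → ℕ)
  (s₀ : α → σ), PT (fun p : α × σ => f p.1 p.2) → UPoly n → Poly s₀ → (∀ a s, Shr (f a s)) →
  (∃ p : Polynomial ℕ, ∀ (a : α) (i : ℕ) (s : σ), i ≤ n a → Out (iter (f a) i (s₀ a)) s →
    sz s ≤ p.eval (sz a)) →
  PT (fun a => iter (f a) (n a) (s₀ a))

/-- Polynomial-time control. -/
def S_CTRL : Prop := ∀ T : ℕ → ℕ → TT Bool,
  PT (fun p : List Unit × List Unit => T p.1.length p.2.length) → PolyControl (algOf T)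

/-! ### Small numbers -/

/-- `v` is a rational number with numerator and denominator at most `2 ^ β`. -/
def QB (β : ℕ) (v : ℝ) : Prop := ∃ (E : ℕ) (z : ℤ), 1 ≤ E ∧ E ≤ 2 ^ β ∧ z.natAbs ≤ 2 ^ β ∧ v * E = z

/-- The base registers are rational numbers with a small common denominator. -/
def RB (lam : ℕ) (g : Reg → ℝ) : Prop := ∃ D : ℕ, 1 ≤ D ∧ D ≤ 2 ^ lam ∧ ∀ r ∈ baseReg,
  ∃ z : ℤ, z.natAbs ≤ 2 ^ lam ∧ g r * D = z

/-- `v` is small if the base registers are. -/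
def Gd (p : Polynomial ℕ) (S : ℕ) (g : Reg → ℝ) (v : ℝ) : Prop :=
  ∀ lam : ℕ, RB lam g → QB (p.eval (S + lam)) v

/-- The constants. -/
def Base (g : Reg → ℝ) : Prop := g [2] = 1 ∧ g [3] = 0

/-- All entries are at most `2 ^ B`. -/
def SmallL (B : ℕ) (L : List ℤ) : Prop := ∀ x ∈ L, x.natAbs ≤ 2 ^ B

/-- Both forms are small. -/
def SmallP (B : ℕ) (L : List (List ℤ × List ℤ)) : Prop := ∀ u ∈ L, SmallL B u.1 ∧ SmallL B u.2

/-- encoding lengths -/
def S_BITS : Prop := (∀ (β : ℕ) (v : ℝ), QB β v → ∃ q : ℚ, (q : ℝ) = v ∧ bitLength q ≤ 2 * β + 3) ∧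
  ∀ (m n : ℕ) (A : Matrix (Fin m) (Fin n) ℚ) (b : Fin m → ℚ),
    RB (2 * inputLength A b) (start (fun i j => ((A i j : ℚ) : ℝ)) (fun i => ((b i : ℚ) : ℝ)))

/-! ### Values -/

/-- The entry of the matrix `[I | -A | A | b]`. -/
noncomputable def Rv (m n : ℕ) (g : Reg → ℝ) (i j : ℕ) : ℝ :=
  if j < m then (if i = j then 1 else 0)
  else if j < m + n then - g [0, i, j - m]
  else if j < m + (n + n) then g [0, i, j - m - n]
  else g [1, i]

/-- The ratio of two forms. -/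
noncomputable def rt (N : ℕ) (w : ℕ → ℝ) (u : List ℤ × List ℤ) : ℝ := evF N w u.1 / evF N w u.2

/-- The Gram matrix of the weighted columns, with `1` added on the diagonal for the columns
dropped. -/
noncomputable def GMat (m n : ℕ) (g : Reg → ℝ) (W : ℕ → ℝ) (drop : List Bool) :
    Matrix (Fin (cK m n)) (Fin (cK m n)) ℝ := fun j l =>
  ∑ i ∈ Finset.range m, (Rv m n g i j * W j) * (Rv m n g i l * W l) +
    if decide ((j : ℕ) = l) && drop.getD j false then 1 else 0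

/-- The coefficient number `k`. -/
noncomputable def cVal {K : ℕ} (G : Matrix (Fin K) (Fin K) ℝ) (k : ℕ) : ℝ :=
  (∑ i ∈ Finset.range K, ∑ l ∈ Finset.range K, ent G i l * ent (flN G k) l i) / ((k : ℝ) + 1)

/-- The scalar product of the row `j` of the matrix number `r` with `y`. -/
noncomputable def dVal {K : ℕ} (G : Matrix (Fin K) (Fin K) ℝ) (y : List ℕ) (r j : ℕ) : ℝ :=
  ∑ l ∈ Finset.range K, ent (flN G r) j l * (y.getD l 0 : ℕ)

/-- The values of the queries of a step of the perceptron algorithm. -/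
noncomputable def perVals {K : ℕ} (G : Matrix (Fin K) (Fin K) ℝ) (y : List ℕ) : List ℝ :=
  ((List.range K).map fun k' => cVal G k') ++
    (List.range (K + 1)).flatMap fun r => (List.range K).map fun j => dVal G y r j

/-- The parameters of the programs. -/
structure Par : Type where
  /-- the number of representatives -/
  k : ℕ
  /-- the number of rows -/
  m : ℕ
  /-- the number of variables -/
  n : ℕ
  /-- the base registers -/
  g : Reg → ℝ
  /-- the representatives -/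
  reps : List (ℕ × ℕ)
  /-- the ratios -/
  L : List (List ℤ × List ℤ)
  /-- the columns dropped -/
  drop : List Bool
  /-- the vector -/
  y : List ℕ
  /-- the number of the matrix -/
  r : ℕ
  /-- the row -/
  j : ℕ

/-- The form number `c`. -/
def Par.fm (p : Par) (c : ℕ) : List ℤ :=
  if c % 2 = 0 then (p.L.getD (c / 2) ([], [])).1 else (p.L.getD (c / 2) ([], [])).2

/-- The monomials. -/
noncomputable def Par.w (p : Par) (l : ℕ) : ℝ := wv p.k p.m p.g p.reps l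

/-- The weights. -/
noncomputable def Par.W (p : Par) (j : ℕ) : ℝ := rt (cN p.k p.m) p.w (p.L.getD j ([], []))

/-- The Gram matrix. -/
noncomputable def Par.G (p : Par) : Matrix (Fin (cK p.m p.n)) (Fin (cK p.m p.n)) ℝ :=
  GMat p.m p.n p.g p.W p.drop

/-- The values of all registers. -/
noncomputable def vr (p : Par) : Reg → ℝ
  | [20] => p.W 0 - p.W 1
  | [30, r, s] => p.g (thr p.reps r) ^ s
  | [31, l, r] => p.g (breg (((exps p.m (p.k + 1)).getD l []).getD 0 0)) *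
      ∏ i ∈ Finset.range r, p.g (thr p.reps i) ^ ((exps p.m (p.k + 1)).getD l []).getD (i + 1) 0
  | [32, c, l] => ∑ i ∈ Finset.range l, ((p.fm c).getD i 0 : ℝ) * p.w i
  | [33, c, l, t] => ((((p.fm c).getD l 0).natAbs /
      2 ^ ((((p.fm c).getD l 0).natAbs.bits).length - t) : ℕ) : ℝ) * p.w l
  | [34, c, l, t] => 2 * (((((p.fm c).getD l 0).natAbs /
      2 ^ ((((p.fm c).getD l 0).natAbs.bits).length - t) : ℕ) : ℝ) * p.w l)
  | [35, j] => p.W j
  | [36, i, j] => Rv p.m p.n p.g i j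
  | [37, i, j] => Rv p.m p.n p.g i j * p.W j
  | [38, j, l, i] => (Rv p.m p.n p.g i j * p.W j) * (Rv p.m p.n p.g i l * p.W l)
  | [39, j, l, i] => ∑ i' ∈ Finset.range i,
      (Rv p.m p.n p.g i' j * p.W j) * (Rv p.m p.n p.g i' l * p.W l)
  | [4, i, j] => ent p.G i j
  | [5, k] => (k : ℝ)
  | [6, k, i, j] => ent (flN p.G k) i j
  | [7, k, i, j, l] => ent p.G i l * ent (flN p.G k) l j
  | [8, k, i, j, l] => ∑ l' ∈ Finset.range l, ent p.G i l' * ent (flN p.G k) l' j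
  | [9, k, i] => ∑ i' ∈ Finset.range i, ∑ l ∈ Finset.range (cK p.m p.n),
      ent p.G i' l * ent (flN p.G k) l i'
  | [10, k] => cVal p.G k
  | [40, t] => (t : ℝ)
  | [41, l] => ent (flN p.G p.r) p.j l * (p.y.getD l 0 : ℕ)
  | [42, l] => ∑ l' ∈ Finset.range l, ent (flN p.G p.r) p.j l' * (p.y.getD l' 0 : ℕ)
  | r => p.g r

/-- The equation of an instruction. -/
def Eqn (V : Reg → ℝ) (I : Instr) : Prop :=
  V I.dst = I.op.eval (V I.fst) (V I.snd) ∧ (I.op = Op.div → V I.snd ≠ 0)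

/-- The registers written. -/
def wr (P : List Instr) : Set Reg := {r | ∃ I ∈ P, I.dst = r}

/-! ### Programs: order -/

/-- Order: first part. -/
def S_ORD1 : Prop :=
  (∀ (S : Set Reg) (P Q : List Instr), Ord S (P ++ Q) ↔ Ord S P ∧ Ord (S ∪ wr P) Q) ∧
  (∀ (k m : ℕ) (reps : List (ℕ × ℕ)), Ord baseReg (baseProg k m reps) ∧
    (∀ r ∈ wr (baseProg k m reps), r.headD 0 = 30 ∨ r.headD 0 = 31) ∧
    ∀ l < cN k m, [31, l, k] ∈ wr (baseProg k m reps)) ∧
  (∀ (k N c : ℕ) (C : List ℤ) (S : Set Reg), baseReg ⊆ S → (∀ l < N, [31, l, k] ∈ S) →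
    (∀ r ∈ S, ∀ t, r ≠ 32 :: c :: t ∧ r ≠ 33 :: c :: t ∧ r ≠ 34 :: c :: t) →
    Ord S (formProg k N c C) ∧
    (∀ r ∈ wr (formProg k N c C), ∃ t, r = 32 :: c :: t ∨ r = 33 :: c :: t ∨ r = 34 :: c :: t) ∧
    [32, c, N] ∈ wr (formProg k N c C)) ∧
  (∀ (k N : ℕ) (L : List (List ℤ × List ℤ)) (S : Set Reg), baseReg ⊆ S →
    (∀ l < N, [31, l, k] ∈ S) → (∀ r ∈ S, r.headD 0 < 32 ∨ 35 < r.headD 0) →
    Ord S (ratProg k N L) ∧ (∀ r ∈ wr (ratProg k N L), 32 ≤ r.headD 0 ∧ r.headD 0 ≤ 35) ∧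
    ∀ j < L.length, [35, j] ∈ wr (ratProg k N L))

/-- Order: second part. -/
def S_ORD2 : Prop :=
  (∀ (m n : ℕ) (drop : List Bool) (S : Set Reg), baseReg ⊆ S → (∀ j < cK m n, [35, j] ∈ S) →
    (∀ r ∈ S, r.headD 0 ≠ 4 ∧ (r.headD 0 < 36 ∨ 39 < r.headD 0)) →
    Ord S (matProg m n ++ gramProg m n drop) ∧
    (∀ r ∈ wr (matProg m n ++ gramProg m n drop),
      r.headD 0 = 4 ∨ (36 ≤ r.headD 0 ∧ r.headD 0 ≤ 39)) ∧
    ∀ i < cK m n, ∀ j < cK m n, [4, i, j] ∈ wr (matProg m n ++ gramProg m n drop)) ∧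
  (∀ (K : ℕ) (S : Set Reg), baseReg ⊆ S → (∀ i < K, ∀ j < K, [4, i, j] ∈ S) →
    (∀ r ∈ S, r.headD 0 < 5 ∨ 10 < r.headD 0) →
    Ord S (flProg K) ∧ (∀ r ∈ wr (flProg K), 5 ≤ r.headD 0 ∧ r.headD 0 ≤ 10) ∧
    (∀ r ≤ K, ∀ i < K, ∀ j < K, [6, r, i, j] ∈ wr (flProg K)) ∧
    ∀ k' < K, [10, k'] ∈ wr (flProg K)) ∧
  (∀ (K T r j : ℕ) (y : List ℕ) (S : Set Reg), baseReg ⊆ S → (∀ l < K, [6, r, j, l] ∈ S) →
    (∀ l < K, y.getD l 0 ≤ T) → (∀ r ∈ S, r.headD 0 < 40) →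
    Ord S (numProg T ++ dotProg K r j y) ∧ [42, K] ∈ wr (numProg T ++ dotProg K r j y))

/-! ### Programs: equations -/

/-- Equations: monomials. -/
def S_EQ1 : Prop := ∀ p : Par, Base p.g → ∀ I ∈ baseProg p.k p.m p.reps, Eqn (vr p) I

/-- Equations: forms and ratios. -/
def S_EQ2 : Prop := ∀ p : Par, Base p.g →
  (∀ c, ∀ I ∈ formProg p.k (cN p.k p.m) c (p.fm c), Eqn (vr p) I) ∧
  ((∀ u ∈ p.L, evF (cN p.k p.m) p.w u.2 ≠ 0) → ∀ I ∈ ratProg p.k (cN p.k p.m) p.L, Eqn (vr p) I)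

/-- Equations: Gram matrix. -/
def S_EQ3 : Prop := ∀ p : Par, Base p.g →
  ∀ I ∈ matProg p.m p.n ++ gramProg p.m p.n p.drop, Eqn (vr p) I

/-- Equations: Faddeev-LeVerrier. -/
def S_EQ4 : Prop := ∀ p : Par, Base p.g → ∀ I ∈ flProg (cK p.m p.n), Eqn (vr p) I

/-- Equations: scalar product. -/
def S_EQ5 : Prop := ∀ p : Par, Base p.g → ∀ T : ℕ,
  ∀ I ∈ numProg T ++ dotProg (cK p.m p.n) p.r p.j p.y, Eqn (vr p) I

/-! ### Programs: sizes -/

/-- Sizes: monomials, forms and ratios. -/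
def S_SM1 (k : ℕ) : Prop := ∃ q : Polynomial ℕ, ∀ (p : Par) (B lam : ℕ), p.k = k → Base p.g →
  RB lam p.g → SmallP B p.L →
  (∀ I ∈ baseProg p.k p.m p.reps, QB (q.eval (p.m + p.n + B + lam)) (vr p I.dst)) ∧
  (∀ c, ∀ I ∈ formProg p.k (cN p.k p.m) c (p.fm c),
    QB (q.eval (p.m + p.n + B + lam)) (vr p I.dst)) ∧
  ((∀ u ∈ p.L, evF (cN p.k p.m) p.w u.2 ≠ 0) → ∀ I ∈ ratProg p.k (cN p.k p.m) p.L,
    QB (q.eval (p.m + p.n + B + lam)) (vr p I.dst))

/-- Sizes: a common denominator of the weighted matrix. -/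
def S_SM2 (k : ℕ) : Prop := ∃ q : Polynomial ℕ, ∀ (p : Par) (B lam : ℕ), p.k = k → Base p.g →
  RB lam p.g → SmallP B p.L → p.L.length = cK p.m p.n →
  (∀ u ∈ p.L, evF (cN p.k p.m) p.w u.2 ≠ 0) →
  ∃ E : ℕ, 1 ≤ E ∧ E ≤ 2 ^ q.eval (p.m + p.n + B + lam) ∧ ∀ i < p.m, ∀ j < cK p.m p.n,
    ∃ z : ℤ, z.natAbs ≤ 2 ^ q.eval (p.m + p.n + B + lam) ∧
      (Rv p.m p.n p.g i j * p.W j) * E = z

/-- Sizes: the Gram matrix, from a common denominator of the weighted matrix. -/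
def S_SM3 : Prop := ∃ q : Polynomial ℕ, ∀ (p : Par) (β : ℕ) (E : ℕ), Base p.g → RB β p.g →
  1 ≤ E → E ≤ 2 ^ β →
  (∀ i < p.m, ∀ j < cK p.m p.n, ∃ z : ℤ, z.natAbs ≤ 2 ^ β ∧
    (Rv p.m p.n p.g i j * p.W j) * E = z) →
  (∀ I ∈ matProg p.m p.n ++ gramProg p.m p.n p.drop, QB (q.eval (p.m + p.n + β)) (vr p I.dst)) ∧
  ∀ i j, ∃ z : ℤ, z.natAbs ≤ 2 ^ q.eval (p.m + p.n + β) ∧ p.G i j * ((E * E : ℕ) : ℝ) = z

/-- Sizes: Faddeev-LeVerrier and scalar products, from a common denominator of the matrix. -/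
def S_SM4 : Prop := ∃ q : Polynomial ℕ, ∀ (p : Par) (β : ℕ) (E : ℕ), Base p.g →
  1 ≤ E → E ≤ 2 ^ β → (∀ i j, ∃ z : ℤ, z.natAbs ≤ 2 ^ β ∧ p.G i j * E = z) →
  (∀ l < cK p.m p.n, p.y.getD l 0 ≤ cT p.m p.n) →
  (∀ I ∈ flProg (cK p.m p.n), QB (q.eval (p.m + p.n + β)) (vr p I.dst)) ∧
  (p.r ≤ cK p.m p.n → ∀ I ∈ numProg (cT p.m p.n) ++ dotProg (cK p.m p.n) p.r p.j p.y,
    QB (q.eval (p.m + p.n + β)) (vr p I.dst))

/-! ### Programs: lengths -/

/-- The lengths of the programs are polynomial. -/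
def S_PLEN (k : ℕ) : Prop := ∀ pB : Polynomial ℕ, ∃ q : Polynomial ℕ, ∀ (m n : ℕ)
  (reps : List (ℕ × ℕ)), 
  (∀ C : List ℤ, SmallL (pB.eval (m + n)) C → (fQry k m reps C).1.length ≤ q.eval (m + n)) ∧
  (∀ u v : List ℤ × List ℤ, SmallP (pB.eval (m + n)) [u, v] →
    (rQry k m reps u v).1.length ≤ q.eval (m + n)) ∧
  (∀ (L : List (List ℤ × List ℤ)) (drop : List Bool) (y : List ℕ) (k' r j : ℕ),
    L.length = cK m n → SmallP (pB.eval (m + n)) L →
    (cQry k m n reps L drop k').1.length ≤ q.eval (m + n) ∧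
    (dQry k m n reps L drop y r j).1.length ≤ q.eval (m + n))

/-! ### Programs: polynomial time -/

/-- Polynomial time: queries for forms and ratios. -/
def S_PP1 (k : ℕ) : Prop := ∀ (α : Type) [TEnc α] (U : α → List Unit)
  (reps : α → List (ℕ × ℕ)), Poly U → Poly reps →
  UPoly (fun a => cN k (U a).length) ∧ UPoly (fun a => cE k (U a).length) ∧
  UPoly (fun a => cP k (U a).length) ∧ UPoly (fun a => cQ k (U a).length) ∧
  (∀ C : α → List ℤ, Poly C → Poly (fun a => fQry k (U a).length (reps a) (C a))) ∧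
  (∀ u v : α → List ℤ × List ℤ, Poly u → Poly v →
    Poly (fun a => rQry k (U a).length (reps a) (u a) (v a)))

/-- Polynomial time: queries of the perceptron algorithm. -/
def S_PP2 (k : ℕ) : Prop := ∀ (α : Type) [TEnc α] (U V : α → List Unit)
  (reps : α → List (ℕ × ℕ)) (L : α → List (List ℤ × List ℤ)) (drop : α → List Bool)
  (y : α → List ℕ), Poly U → Poly V → Poly reps → Poly L → Poly drop → Poly y →
  Poly (fun a => perQs k (U a).length (V a).length (reps a) (L a) (drop a) (y a))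

/-- Powers of two. -/
def S_PP3 : Prop := ∀ (α : Type) [TEnc α],
  (∀ n : α → ℕ, UPoly n → Poly (fun a => 2 ^ n a)) ∧
  (∀ n : α → ℕ, UPoly n → Poly (fun a => (List.range (n a)).map fun e => 2 ^ e)) ∧
  (∀ n : α → ℕ, UPoly n → Poly (fun a => 4 ^ n a))

/-- Integer operations. -/
def S_PP4 : Prop := ∀ (α : Type) [TEnc α],
  (∀ x y : α → ℤ, Poly x → Poly y → Poly (fun a => x a + y a) ∧ Poly (fun a => x a * y a) ∧
    Poly (fun a => - x a) ∧ Poly (fun a => (x a).natAbs) ∧ Poly (fun a => decide (x a < y a)) ∧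
    Poly (fun a => decide (x a ≤ y a)) ∧ Poly (fun a => decide (x a = y a))) ∧
  (∀ (n : α → ℕ) (c d : α → ℤ) (C D : α → List ℤ), UPoly n → Poly c → Poly d → Poly C → Poly D →
    Poly (fun a => fcomb (n a) (c a) (C a) (d a) (D a)))

/-- Simultaneous Diophantine approximation in polynomial time. -/
def S_PP5 : Prop := ∀ (α : Type) [TEnc α] (n e : α → ℕ) (l : α → List ℕ), UPoly n → UPoly e →
  Poly l → Poly (fun a => sda (n a) (e a) (l a))

/-! ### Programs: queries have their values -/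

/-- Queries for forms. -/
def S_HVF (k : ℕ) : Prop := ∀ pB : Polynomial ℕ, ∃ q : Polynomial ℕ, ∀ (m n : ℕ) (g : Reg → ℝ)
  (reps : List (ℕ × ℕ)) (C : List ℤ), Base g → SmallL (pB.eval (m + n)) C →
  HasVal g (Gd q (m + n) g) (fQry k m reps C) (evF (cN k m) (wv k m g reps) C) ∧
  (fQry k m reps C).1.length ≤ q.eval (m + n)

/-- Queries for ratios. -/
def S_HVR (k : ℕ) : Prop := ∀ pB : Polynomial ℕ, ∃ q : Polynomial ℕ, ∀ (m n : ℕ) (g : Reg → ℝ)
  (reps : List (ℕ × ℕ)) (u v : List ℤ × List ℤ), Base g → SmallP (pB.eval (m + n)) [u, v] →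
  evF (cN k m) (wv k m g reps) u.2 ≠ 0 → evF (cN k m) (wv k m g reps) v.2 ≠ 0 →
  HasVal g (Gd q (m + n) g) (rQry k m reps u v)
    (rt (cN k m) (wv k m g reps) u - rt (cN k m) (wv k m g reps) v) ∧
  (rQry k m reps u v).1.length ≤ q.eval (m + n)

/-- Queries of the perceptron algorithm. -/
def S_HVP (k : ℕ) : Prop := ∀ pB : Polynomial ℕ, ∃ q : Polynomial ℕ, ∀ (m n : ℕ) (g : Reg → ℝ)
  (reps : List (ℕ × ℕ)) (L : List (List ℤ × List ℤ)) (drop : List Bool) (y : List ℕ), Base g →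
  SmallP (pB.eval (m + n)) L → L.length = cK m n →
  (∀ u ∈ L, evF (cN k m) (wv k m g reps) u.2 ≠ 0) →
  (∀ l < cK m n, y.getD l 0 ≤ cT m n) →
  List.Forall₂ (HasVal g (Gd q (m + n) g)) (perQs k m n reps L drop y)
    (perVals (GMat m n g (fun j => rt (cN k m) (wv k m g reps) (L.getD j ([], []))) drop) y) ∧
  ((perQs k m n reps L drop y).map fun q => q.1.length + 1).sum ≤ q.eval (m + n)

/-! ### Phase 1 -/

/-- Every entry of the matrix equals one of the first `k` representatives. -/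
def Cov (m n k : ℕ) (g : Reg → ℝ) (reps : List (ℕ × ℕ)) : Prop :=
  ∀ i < m, ∀ j < n, ∃ r < k, g [0, i, j] = g (thr reps r)

/-- Phase 1: result. -/
def S_PH1 (k : ℕ) : Prop := ∃ q : Polynomial ℕ, ∀ (m n : ℕ) (A : Matrix (Fin m) (Fin n) ℝ)
  (b : Fin m → ℝ), (Set.range fun p : Fin m × Fin n => A p.1 p.2).ncard ≤ k →
  ∃ reps : List (ℕ × ℕ), Cov m n k (start A b) reps ∧
    Runs (start A b) (Gd q (m + n) (start A b)) (T1 m n) reps (q.eval (m + n))

/-! ### Phase 2 -/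

/-- Clusters: if the vector `w` is a combination of integer vectors `v_i` with rapidly decreasing
coefficients, then the small integer forms have values within a bounded factor of a coefficient. -/
def S_FT : Prop := ∀ (N h P r : ℕ) (lam : ℕ → ℝ) (v : ℕ → ℕ → ℤ) (w : ℕ → ℝ),
  (∀ i < r, 0 < lam i) → (∀ i < r, ∀ l < N, (v i l).natAbs ≤ 2 ^ P) →
  (∀ l < N, w l = ∑ i ∈ Finset.range r, lam i * v i l) →
  (∀ i < r, ∀ l < N, |w l - ∑ i' ∈ Finset.range (i + 1), lam i' * v i' l| ≤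
    lam i / 2 ^ (h + 1)) →
  ∀ y : ℕ → ℤ, ∑ l ∈ Finset.range N, (y l).natAbs ≤ 2 ^ h →
    ∑ l ∈ Finset.range N, (y l : ℝ) * w l = 0 ∨ ∃ i < r,
      lam i ≤ 2 * |∑ l ∈ Finset.range N, (y l : ℝ) * w l| ∧
      |∑ l ∈ Finset.range N, (y l : ℝ) * w l| ≤ 2 ^ (h + P + 1) * lam i

/-- Dirichlet's theorem on simultaneous approximation. -/
def S_DIR : Prop := ∀ (N Q M : ℕ) (a : ℕ → ℕ), 1 ≤ Q → 1 ≤ M → (∀ l < N, a l ≤ M) →
  ∃ (q : ℕ) (v : ℕ → ℕ), 1 ≤ q ∧ q ≤ Q ^ N ∧ ∀ l < N, v l ≤ q ∧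
    Q * ((q : ℤ) * a l - (M : ℤ) * v l).natAbs ≤ M

/-- Simultaneous approximation by lattice reduction. -/
def S_SDA : Prop := ∀ (N E h : ℕ) (a : List ℕ), 1 ≤ N → h + 2 * N + 4 ≤ E →
  (sda N E a).2.length = N ∧ (∀ l < N, ((sda N E a).2.getD l 0).natAbs ≤ 2 ^ ((N + 1) * E)) ∧
  1 ≤ (sda N E a).1 ∧ (sda N E a).1 * 2 ^ (h + 2) ≤ 2 ^ ((N + 1) * E) ∧
  ((∀ l < N, a.getD l 0 ≤ 2 ^ ((N + 1) * E)) → ∀ l < N,
    (((sda N E a).1 : ℤ) * (a.getD l 0 : ℕ) - 2 ^ ((N + 1) * E) * (sda N E a).2.getD l 0).natAbs *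
      2 ^ (h + 2) ≤ 2 ^ ((N + 1) * E))

/-- The bound for the entries of the forms after `j` stages. -/
def bdM (k m j : ℕ) : ℕ := (cP k m + 1) * j

/-- Sizes of the states of phase 2 after `j` stages. -/
def Bd2 (k m j : ℕ) (s : S2) : Prop :=
  s.1.length ≤ j ∧ (∀ a ∈ s.1, a.1.length = cN k m ∧ SmallL (bdM k m (cN k m)) a.1 ∧
    a.2 ≤ 2 ^ (cP k m * cN k m)) ∧
  s.2.1.length = cN k m ∧ (∀ C ∈ s.2.1, C.length = cN k m ∧ SmallL (bdM k m j) C) ∧
  s.2.2 ≤ 2 ^ (cP k m * j)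

/-- Sizes: the end of a stage. -/
def S_BD2 : Prop := ∀ (k m j : ℕ) (s : S2) (sg : List ℤ) (best : ℕ) (a : List ℕ), j < cN k m →
  (∀ x ∈ sg, x.natAbs ≤ 1) → Bd2 k m j s → Bd2 k m (j + 1) (finish k m s sg best a)

/-- The state `s` represents `w`, and at least `j` forms vanish. -/
def Inv2 (k m : ℕ) (w : ℕ → ℝ) (j : ℕ) (s : S2) : Prop :=
  Bd2 k m j s ∧ 1 ≤ s.2.2 ∧ (∀ a ∈ s.1, 1 ≤ a.2 ∧ 0 < evF (cN k m) w a.1) ∧
  (j ≤ ((Finset.range (cN k m)).filter fun l => evF (cN k m) w (s.2.1.getD l []) = 0).card) ∧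
  ∃ v : ℕ → ℕ → ℤ, (∀ i < s.1.length, ∀ l < cN k m, (v i l).natAbs ≤ 2 ^ cP k m) ∧
    (∀ l < cN k m, w l = ∑ i ∈ Finset.range s.1.length,
        evF (cN k m) w (s.1.getD i ([], 0)).1 / (s.1.getD i ([], 0)).2 * v i l +
      evF (cN k m) w (s.2.1.getD l []) / s.2.2) ∧
    ∀ i < s.1.length, ∀ l < cN k m, |w l - ∑ i' ∈ Finset.range (i + 1),
        evF (cN k m) w (s.1.getD i' ([], 0)).1 / (s.1.getD i' ([], 0)).2 * v i' l| ≤
      evF (cN k m) w (s.1.getD i ([], 0)).1 / (s.1.getD i ([], 0)).2 / 2 ^ (m * m + 1)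

/-- The end of a stage, semantically. -/
def S_FIN : Prop := ∀ (k m : ℕ) (w : ℕ → ℝ) (j : ℕ) (s : S2) (sg : List ℤ) (best : ℕ)
  (a : List ℕ), j < cN k m → Inv2 k m w j s →
  sg.length = cN k m → (∀ l < cN k m, (sg.getD l 0 : ℤ) =
    (SignType.sign (evF (cN k m) w (s.2.1.getD l [])) : ℤ)) →
  best < cN k m → (∀ l < cN k m, |evF (cN k m) w (s.2.1.getD l [])| ≤
    |evF (cN k m) w (s.2.1.getD best [])|) →
  (evF (cN k m) w (s.2.1.getD best []) ≠ 0 → ∀ l < cN k m, l ≠ best →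
    a.getD l 0 < 2 ^ cP k m ∧
    (a.getD l 0 : ℝ) * |evF (cN k m) w (s.2.1.getD best [])| ≤
      2 ^ cP k m * |evF (cN k m) w (s.2.1.getD l [])| ∧
    2 ^ cP k m * |evF (cN k m) w (s.2.1.getD l [])| ≤
      ((a.getD l 0 : ℝ) + 1) * |evF (cN k m) w (s.2.1.getD best [])|) →
  Inv2 k m w (j + 1) (finish k m s sg best a)

/-- The values of the queries `cmpQs`. -/
noncomputable def cmpVals (N : ℕ) (x : ℕ → ℝ) : List ℝ :=
  ((List.range N).map fun l => x l) ++ (List.range N).flatMap fun l =>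
    (List.range N).flatMap fun l' => [x l - x l', x l + x l']

/-- Comparison of absolute values. -/
def S_CMP : Prop := ∀ (N : ℕ) (x : ℕ → ℝ), 1 ≤ N →
  (sgOf N ((cmpVals N x).map signOut)).length = N ∧
  (∀ l < N, (sgOf N ((cmpVals N x).map signOut)).getD l 0 = (SignType.sign (x l) : ℤ)) ∧
  bestOf N ((cmpVals N x).map signOut) < N ∧
  ∀ l < N, |x l| ≤ |x (bestOf N ((cmpVals N x).map signOut))|

/-- The state of the bisections after `i` steps: for the nonnegative numbers `x l` and `X`. -/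
noncomputable def bisSt (N P : ℕ) (x : ℕ → ℝ) (X : ℝ) : ℕ → ℕ × List ℕ
  | 0 => (2 ^ P, (List.range N).map fun _ => 0)
  | i + 1 => bisUpd N (bisSt N P x X i) (((List.range N).map fun l => 2 ^ P * x l -
      (((bisSt N P x X i).2.getD l 0 + (bisSt N P x X i).1 / 2 : ℕ) : ℝ) * X).map signOut)

/-- The bisections. -/
def S_BIS : Prop := ∀ (N P : ℕ) (x : ℕ → ℝ) (X : ℝ),
  (∀ i ≤ P, (bisSt N P x X i).1 ≤ 2 ^ P ∧ ∀ l, (bisSt N P x X i).2.getD l 0 ≤ 2 ^ P) ∧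
  (0 < X → ∀ l < N, 0 ≤ x l → x l ≤ X →
    (bisSt N P x X P).2.getD l 0 < 2 ^ P ∧
    ((bisSt N P x X P).2.getD l 0 : ℝ) * X ≤ 2 ^ P * x l ∧
    2 ^ P * x l ≤ (((bisSt N P x X P).2.getD l 0 : ℝ) + 1) * X)

/-- Linearity of the forms. -/
def S_LIN : Prop := ∀ (N : ℕ) (w : ℕ → ℝ) (c d : ℤ) (C D : List ℤ),
  evF N w (fcomb N c C d D) = c * evF N w C + d * evF N w D ∧
  (fcomb N c C d D).length = N ∧
  (∀ l < N, evF N w ((unitF N).getD l []) = w l) ∧
  ∀ B B' : ℕ, SmallL B C → SmallL B D → c.natAbs ≤ 2 ^ B' → d.natAbs ≤ 2 ^ B' →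
    SmallL (B + B' + 1) (fcomb N c C d D)

/-- One stage. -/
def S_STG (k : ℕ) : Prop := ∃ q : Polynomial ℕ, ∀ (m n : ℕ) (g : Reg → ℝ)
  (reps : List (ℕ × ℕ)) (j : ℕ) (s : S2), Base g → j < cN k m → Inv2 k m (wv k m g reps) j s →
  ∃ s' : S2, Inv2 k m (wv k m g reps) (j + 1) s' ∧
    Runs g (Gd q (m + n) g) (stage k m reps s) s' (q.eval (m + n))

/-- The records describe the scales of the small forms. -/
def Good2 (k m : ℕ) (w : ℕ → ℝ) (recs : List (List ℤ × ℕ)) : Prop :=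
  recs.length ≤ cN k m ∧
  (∀ a ∈ recs, SmallL (bdM k m (cN k m)) a.1 ∧ a.2 ≤ 2 ^ (cP k m * cN k m)) ∧
  (∀ a ∈ recs, 1 ≤ a.2 ∧ 0 < evF (cN k m) w a.1) ∧
  ∀ y : ℕ → ℤ, ∑ l ∈ Finset.range (cN k m), (y l).natAbs ≤ 2 ^ (m * m) →
    ∑ l ∈ Finset.range (cN k m), (y l : ℝ) * w l = 0 ∨ ∃ a ∈ recs,
      evF (cN k m) w a.1 / a.2 ≤ 2 * |∑ l ∈ Finset.range (cN k m), (y l : ℝ) * w l| ∧
      |∑ l ∈ Finset.range (cN k m), (y l : ℝ) * w l| ≤
        2 ^ (m * m + cP k m + 1) * (evF (cN k m) w a.1 / a.2)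

/-- From the invariant to the scales. -/
def S_G2 : Prop := ∀ (k m : ℕ) (w : ℕ → ℝ) (s : S2),
  (Inv2 k m w 0 ([], (unitF (cN k m), 1))) ∧ (Inv2 k m w (cN k m) s → Good2 k m w s.1)

/-- Phase 2. -/
def S_PH2 (k : ℕ) : Prop := ∃ q : Polynomial ℕ, ∀ (m n : ℕ) (g : Reg → ℝ)
  (reps : List (ℕ × ℕ)), Base g → ∃ recs, Good2 k m (wv k m g reps) recs ∧
    Runs g (Gd q (m + n) g) (T2 k m reps) recs (q.eval (m + n))

/-! ### Phase 3 -/

/-- The ladder contains an upper bound, within a factor `2`, of every ratio of small forms. -/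
def LadG (k m : ℕ) (w : ℕ → ℝ) (Lad : List (List ℤ × List ℤ)) : Prop :=
  ∀ y y' : ℕ → ℤ, ∑ l ∈ Finset.range (cN k m), (y l).natAbs ≤ 2 ^ (m * m) →
    ∑ l ∈ Finset.range (cN k m), (y' l).natAbs ≤ 2 ^ (m * m) →
    ∑ l ∈ Finset.range (cN k m), (y l : ℝ) * w l ≠ 0 →
    ∑ l ∈ Finset.range (cN k m), (y' l : ℝ) * w l ≠ 0 → ∃ u ∈ Lad,
      rt (cN k m) w u / 2 < |∑ l ∈ Finset.range (cN k m), (y l : ℝ) * w l| /
        |∑ l ∈ Finset.range (cN k m), (y' l : ℝ) * w l| ∧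
      |∑ l ∈ Finset.range (cN k m), (y l : ℝ) * w l| /
        |∑ l ∈ Finset.range (cN k m), (y' l : ℝ) * w l| ≤ rt (cN k m) w u

/-- The bound for the forms of the ladder. -/
def bdL (k m : ℕ) : ℕ := bdM k m (cN k m) + cP k m * cN k m + 2 * cQ k m + 1

/-- The ladder before sorting. -/
def S_LAD : Prop := ∀ (k m : ℕ) (w : ℕ → ℝ) (recs : List (List ℤ × ℕ)), Good2 k m w recs →
  (lad0 k m recs).length ≤ cZ k m ∧ SmallP (bdL k m) (lad0 k m recs) ∧
  (∀ u ∈ lad0 k m recs, 0 < evF (cN k m) w u.1 ∧ 0 < evF (cN k m) w u.2) ∧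
  LadG k m w (lad0 k m recs)

/-- Sorting. -/
def S_SORT : Prop := ∀ (L : List (List ℤ × List ℤ)) (f : List ℤ × List ℤ → ℝ),
  List.Perm (sortL L ((L.flatMap fun u => L.map fun v => f u - f v).map signOut)) L ∧
  (sortL L ((L.flatMap fun u => L.map fun v => f u - f v).map signOut)).Pairwise
    fun u v => f v ≤ f u

/-- The sorted ladder. -/
def Good3 (k m : ℕ) (w : ℕ → ℝ) (Lad : List (List ℤ × List ℤ)) : Prop :=
  Lad.length ≤ cZ k m ∧ SmallP (bdL k m) Lad ∧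
  (∀ u ∈ Lad, 0 < evF (cN k m) w u.1 ∧ 0 < evF (cN k m) w u.2) ∧
  (Lad.Pairwise fun u v => rt (cN k m) w v ≤ rt (cN k m) w u) ∧ LadG k m w Lad

/-- Phase 3. -/
def S_PH3 (k : ℕ) : Prop := ∃ q : Polynomial ℕ, ∀ (m n : ℕ) (g : Reg → ℝ)
  (reps : List (ℕ × ℕ)) (recs : List (List ℤ × ℕ)), Base g → Good2 k m (wv k m g reps) recs →
  ∃ Lad, Good3 k m (wv k m g reps) Lad ∧
    Runs g (Gd q (m + n) g) (T3 k m reps recs) Lad (q.eval (m + n))

/-! ### Phase 4 -/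

/-- `x` is a nonnegative solution of the homogeneous system, positive for the right-hand side. -/
def SolE (m n : ℕ) (g : Reg → ℝ) : Prop := ∃ x : ℕ → ℝ, (∀ j < cK m n, 0 ≤ x j) ∧
  0 < x (m + (n + n)) ∧ ∀ i < m, ∑ j ∈ Finset.range (cK m n), Rv m n g i j * x j = 0

/-- A solution whose coordinates are zero or close to an element of the ladder. -/
def SolB (k m n : ℕ) (g : Reg → ℝ) (w : ℕ → ℝ) (Lad : List (List ℤ × List ℤ)) (x : ℕ → ℝ) : Prop :=
  (∀ j < cK m n, 0 ≤ x j) ∧ x (m + (n + n)) = 1 ∧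
  (∀ i < m, ∑ j ∈ Finset.range (cK m n), Rv m n g i j * x j = 0) ∧
  ∀ j < m + (n + n), x j = 0 ∨ ∃ u ∈ Lad, rt (cN k m) w u / 2 < x j ∧ x j ≤ rt (cN k m) w u

/-- The homogeneous system and linear feasibility. -/
def S_FEAS : Prop := ∀ (m n : ℕ) (A : Matrix (Fin m) (Fin n) ℝ) (b : Fin m → ℝ),
  SolE m n (start A b) ↔ ∃ x : Fin n → ℝ, b ≤ A.mulVec x

/-- A feasible system has a feasible basis. -/
def S_CERT : Prop := ∀ (m n : ℕ) (a : Inp m n), Feas a → ∃ β : Fin m → Fin (m + (n + n)),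
  dd (wmat a.1 a.2) (fun j => some (β j)) ≠ 0 ∧
  ∀ j, 0 ≤ dd (wmat a.1 a.2) (Function.update (fun j => some (β j)) j none) *
    dd (wmat a.1 a.2) (fun j => some (β j))

/-- The minors are small integer forms of the monomials. -/
def S_MINOR : Prop := ∀ (k m n : ℕ) (A : Matrix (Fin m) (Fin n) ℝ) (b : Fin m → ℝ)
  (reps : List (ℕ × ℕ)), 1 ≤ m → Cov m n k (start A b) reps →
  ∀ β : Fin m → Option (Fin (m + (n + n))), (∀ i j, β i = none → β j = none → i = j) →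
  ∃ y : ℕ → ℤ, ∑ l ∈ Finset.range (cN k m), (y l).natAbs ≤ 2 ^ (m * m) ∧
    dd (wmat A b) β = ∑ l ∈ Finset.range (cN k m), (y l : ℝ) * wv k m (start A b) reps l

/-- A feasible system has a solution close to the ladder. -/
def S_BFS : Prop := ∀ (k m n : ℕ) (A : Matrix (Fin m) (Fin n) ℝ) (b : Fin m → ℝ)
  (reps : List (ℕ × ℕ)) (Lad : List (List ℤ × List ℤ)), 1 ≤ m → Cov m n k (start A b) reps →
  LadG k m (wv k m (start A b) reps) Lad → (∃ x : Fin n → ℝ, b ≤ A.mulVec x) →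
  ∃ x : ℕ → ℝ, SolB k m n (start A b) (wv k m (start A b) reps) Lad x

/-- The projection to the kernel of a symmetric matrix, by the Faddeev-LeVerrier recursion: `z` is
the projection of `y` to the kernel of `G`. -/
def IsPr {K : ℕ} (G : Matrix (Fin K) (Fin K) ℝ) (y z : Fin K → ℝ) : Prop :=
  G.mulVec z = 0 ∧ ∃ u : Fin K → ℝ, ∀ j, y j - z j = G.mulVec u j

/-- The signs of the projection are found from the outcomes. -/
def S_PROJ : Prop := ∀ (K : ℕ) (G : Matrix (Fin K) (Fin K) ℝ) (y : List ℕ), G.IsSymm →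
  ∃ z : Fin K → ℝ, IsPr G (fun j => ((y.getD j 0 : ℕ) : ℝ)) z ∧
    ∀ j : Fin K, (0 < zOf K ((perVals G y).map signOut) j ↔ 0 < z j) ∧
      (zOf K ((perVals G y).map signOut) j < 0 ↔ z j < 0)

/-- The kernel of the Gram matrix. -/
def S_KER : Prop := ∀ (m n : ℕ) (g : Reg → ℝ) (W : ℕ → ℝ) (drop : List Bool),
  (GMat m n g W drop).IsSymm ∧ ∀ x : Fin (cK m n) → ℝ, (GMat m n g W drop).mulVec x = 0 ↔
    (∀ i < m, ∑ j : Fin (cK m n), Rv m n g i j * W j * x j = 0) ∧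
    ∀ j : Fin (cK m n), drop.getD j false = true → x j = 0

/-- The step of the perceptron algorithm. -/
def S_STEP : Prop := ∀ (K : ℕ) (G : Matrix (Fin K) (Fin K) ℝ) (y y' z z' : Fin K → ℝ) (j : Fin K),
  G.IsSymm → IsPr G y z → IsPr G y' z' → (∀ l, y' l = y l + if l = j then 1 else 0) → z j ≤ 0 →
  ∑ l, z' l ^ 2 ≤ ∑ l, z l ^ 2 + 1

/-- The states of the perceptron algorithm. -/
noncomputable def perSt (m n : ℕ) (G : Matrix (Fin (cK m n)) (Fin (cK m n)) ℝ) (drop : List Bool)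
    (b : Bool) : ℕ → List ℕ × Bool
  | 0 => ((List.range (cK m n)).map fun _ => 0, b)
  | i + 1 => perUpd (cK m n) drop (perSt m n G drop b i)
      ((perVals G (perSt m n G drop b i).1).map signOut)

/-- The perceptron algorithm: sizes, and its result after all steps. -/
def S_PERC : Prop := ∀ (m n : ℕ) (G : Matrix (Fin (cK m n)) (Fin (cK m n)) ℝ) (drop : List Bool)
  (b : Bool), G.IsSymm →
  (∀ i l, (perSt m n G drop b i).1.getD l 0 ≤ i) ∧
  (∀ i l, drop.getD l false = true → (perSt m n G drop b i).1.getD l 0 = 0) ∧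
  (b = true → ∀ i, (perSt m n G drop b i).2 = true) ∧
  (b = false → ∀ i, (perSt m n G drop b i).2 = true → ∃ z : Fin (cK m n) → ℝ,
    G.mulVec z = 0 ∧ ∀ j : Fin (cK m n), drop.getD j false = false → 0 < z j) ∧
  (b = false → (perSt m n G drop b (cT m n)).2 = false →
    (∃ j < cK m n, 4 * (cK m n * cK m n) ≤ (perSt m n G drop b (cT m n)).1.getD j 0) ∧
    ∀ x : Fin (cK m n) → ℝ, G.mulVec x = 0 → (∀ j, 0 ≤ x j ∧ x j ≤ 1) → ∀ j : Fin (cK m n),
      4 * (cK m n * cK m n) ≤ (perSt m n G drop b (cT m n)).1.getD j 0 → x j ≤ 1 / 2)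

/-- The weights described by `idx`. -/
noncomputable def Wt (k m n : ℕ) (w : ℕ → ℝ) (Lad : List (List ℤ × List ℤ)) (idx : List ℕ)
    (j : ℕ) : ℝ := rt (cN k m) w ((wts m n Lad idx).getD j ([], []))

/-- The solution `x` is bounded by the weights. -/
def InvX (k m n : ℕ) (w : ℕ → ℝ) (Lad : List (List ℤ × List ℤ)) (idx : List ℕ) (x : ℕ → ℝ) : Prop :=
  ∀ j < m + (n + n), x j ≤ Wt k m n w Lad idx j

/-- The indices are valid. -/
def IdxOK (m n : ℕ) (Lad : List (List ℤ × List ℤ)) (idx : List ℕ) : Prop :=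
  idx.length = m + (n + n) ∧ ∀ j, idx.getD j 0 ≤ Lad.length

/-- The end of a round: with the result `t` of the perceptron algorithm. -/
def S_NEXT : Prop := ∀ (k m n : ℕ) (g : Reg → ℝ) (w : ℕ → ℝ) (Lad : List (List ℤ × List ℤ))
  (idx : List ℕ) (b : Bool) (t : List ℕ × Bool), w 0 = 1 → Good3 k m w Lad → IdxOK m n Lad idx →
  t = perSt m n (GMat m n g (Wt k m n w Lad idx) (drops m n Lad idx)) (drops m n Lad idx) b
    (cT m n) →
  IdxOK m n Lad (nextIdx m n idx t.1) ∧ (b = true → t.2 = true) ∧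
  (b = false → t.2 = true → SolE m n g) ∧
  (b = false → t.2 = false → ∀ x : ℕ → ℝ, SolB k m n g w Lad x → InvX k m n w Lad idx x →
    InvX k m n w Lad (nextIdx m n idx t.1) x ∧ (nextIdx m n idx t.1).sum = idx.sum + 1)

/-- The initial weights. -/
def S_IDX0 : Prop := ∀ (k m n : ℕ) (g : Reg → ℝ) (w : ℕ → ℝ) (Lad : List (List ℤ × List ℤ)),
  Good3 k m w Lad →
  IdxOK m n Lad ((List.range (m + (n + n))).map fun _ => 0) ∧
  (∀ x : ℕ → ℝ, SolB k m n g w Lad x →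
    InvX k m n w Lad ((List.range (m + (n + n))).map fun _ => 0) x) ∧
  ∀ idx, IdxOK m n Lad idx → idx.sum ≤ (m + (n + n)) * Lad.length

/-- The monomial number `0` is `1`. -/
def S_W0 : Prop := ∀ (k m : ℕ) (g : Reg → ℝ) (reps : List (ℕ × ℕ)), Base g →
  wv k m g reps 0 = 1 ∧ (exps m (k + 1)).length = cN k m ∧
  (∀ e ∈ exps m (k + 1), e.length = k + 1 ∧ ∀ d ∈ e, d ≤ m) ∧
  ∀ e : List ℕ, e.length = k + 1 → (∀ d ∈ e, d ≤ m) → ∃ l < cN k m, (exps m (k + 1)).getD l [] = e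

/-- A round. -/
def S_ROUND (k : ℕ) : Prop := ∃ q : Polynomial ℕ, ∀ (m n : ℕ) (g : Reg → ℝ)
  (reps : List (ℕ × ℕ)) (Lad : List (List ℤ × List ℤ)) (idx : List ℕ) (b : Bool), Base g →
  Good3 k m (wv k m g reps) Lad → IdxOK m n Lad idx →
  Runs g (Gd q (m + n) g) (round k m n reps Lad (idx, b))
    (nextIdx m n idx (perSt m n (GMat m n g (Wt k m n (wv k m g reps) Lad idx)
        (drops m n Lad idx)) (drops m n Lad idx) b (cT m n)).1,
      (perSt m n (GMat m n g (Wt k m n (wv k m g reps) Lad idx)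
        (drops m n Lad idx)) (drops m n Lad idx) b (cT m n)).2) (q.eval (m + n))

/-- Phase 4. -/
def S_PH4 (k : ℕ) : Prop := ∃ q : Polynomial ℕ, ∀ (m n : ℕ) (g : Reg → ℝ)
  (reps : List (ℕ × ℕ)) (Lad : List (List ℤ × List ℤ)), Base g →
  Good3 k m (wv k m g reps) Lad → ∃ b : Bool,
  Runs g (Gd q (m + n) g) (T4 k m n reps Lad) b (q.eval (m + n)) ∧
  (b = true → SolE m n g) ∧
  ((∃ x, SolB k m n g (wv k m g reps) Lad x) → b = true)

/-! ### Polynomial time -/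

/-- Phase 1 in polynomial time. -/
def S_PT1 : Prop := ∀ (α : Type) [TEnc α] (U V : α → List Unit), Poly U → Poly V →
  PT (fun a => T1 (U a).length (V a).length)

/-- The end of a stage in polynomial time. -/
def S_PFIN (k : ℕ) : Prop := ∀ (α : Type) [TEnc α] (U : α → List Unit) (s : α → S2)
  (sg : α → List ℤ) (best : α → ℕ) (a : α → List ℕ), Poly U → Poly s → Poly sg → Poly best →
  Poly a → Poly (fun x => finish k (U x).length (s x) (sg x) (best x) (a x))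

/-- A stage in polynomial time. -/
def S_PSTG (k : ℕ) : Prop := ∀ (α : Type) [TEnc α] (U : α → List Unit)
  (reps : α → List (ℕ × ℕ)) (s : α → S2), Poly U → Poly reps → Poly s →
  PT (fun a => stage k (U a).length (reps a) (s a))

/-- Phase 2 in polynomial time. -/
def S_PT2 (k : ℕ) : Prop := ∀ (α : Type) [TEnc α] (U : α → List Unit)
  (reps : α → List (ℕ × ℕ)), Poly U → Poly reps → PT (fun a => T2 k (U a).length (reps a))

/-- Phase 3 in polynomial time. -/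
def S_PT3 (k : ℕ) : Prop := ∀ (α : Type) [TEnc α] (U : α → List Unit)
  (reps : α → List (ℕ × ℕ)) (recs : α → List (List ℤ × ℕ)), Poly U → Poly reps → Poly recs →
  PT (fun a => T3 k (U a).length (reps a) (recs a))

/-- Updates of phase 4 in polynomial time. -/
def S_PU4 : Prop := ∀ (α : Type) [TEnc α] (U V : α → List Unit) (Lad : α → List (List ℤ × List ℤ))
  (idx y : α → List ℕ) (drop : α → List Bool) (b : α → Bool) (o : α → List Outcome),
  Poly U → Poly V → Poly Lad → Poly idx → Poly y → Poly drop → Poly b → Poly o →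
  Poly (fun a => wts (U a).length (V a).length (Lad a) (idx a)) ∧
  Poly (fun a => drops (U a).length (V a).length (Lad a) (idx a)) ∧
  Poly (fun a => perUpd (cK (U a).length (V a).length) (drop a) (y a, b a) (o a)) ∧
  Poly (fun a => nextIdx (U a).length (V a).length (idx a) (y a)) ∧
  UPoly (fun a => cT (U a).length (V a).length)

/-- Phase 4 in polynomial time. -/
def S_PT4 (k : ℕ) : Prop := ∀ (α : Type) [TEnc α] (U V : α → List Unit)
  (reps : α → List (ℕ × ℕ)) (Lad : α → List (List ℤ × List ℤ)), Poly U → Poly V → Poly reps →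
  Poly Lad → PT (fun a => T4 k (U a).length (V a).length (reps a) (Lad a))

/-- All sizes are polynomial. -/
def S_POLYB (k : ℕ) : Prop := ∃ q : Polynomial ℕ, ∀ m n : ℕ, cN k m ≤ q.eval (m + n) ∧
  cE k m ≤ q.eval (m + n) ∧ cP k m ≤ q.eval (m + n) ∧ cQ k m ≤ q.eval (m + n) ∧
  cZ k m ≤ q.eval (m + n) ∧ cK m n ≤ q.eval (m + n) ∧ cT m n ≤ q.eval (m + n) ∧
  cR k m n ≤ q.eval (m + n) ∧ bdM k m (cN k m) ≤ q.eval (m + n) ∧ bdL k m ≤ q.eval (m + n) ∧
  cP k m * cN k m ≤ q.eval (m + n) ∧ m + n ≤ q.eval (m + n)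

/-! ### The result -/

/-- The algorithm `α` decides linear feasibility for the instances in the class `C` in strongly
polynomial time: for a polynomial `p`, on every real instance in `C` it answers correctly after at
most `p (m + n)` elementary steps, never dividing by zero, and if the instance is rational, of
encoding length `L`, then all numbers computed have encoding length at most `p (L)`. -/
def StronglyPolynomialOn
    (C : ∀ m n : ℕ, Matrix (Fin m) (Fin n) ℝ → (Fin m → ℝ) → Prop) (α : Alg) : Prop :=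
  ∃ p : Polynomial ℕ, ∀ m n : ℕ, 1 ≤ m → 1 ≤ n →
    ∀ (A : Matrix (Fin m) (Fin n) ℝ) (b : Fin m → ℝ), C m n A b → ∃ ans nums steps,
      run ∅ (α m n) (p.eval (m + n)) [] (start A b) = some (ans, nums, steps) ∧
      (ans = true ↔ ∃ x : Fin n → ℝ, b ≤ A.mulVec x) ∧ steps ≤ p.eval (m + n) ∧
      ∀ (A' : Matrix (Fin m) (Fin n) ℚ) (b' : Fin m → ℚ), (∀ i j, ((A' i j : ℚ) : ℝ) = A i j) →
        (∀ i, ((b' i : ℚ) : ℝ) = b i) →
        ∀ v ∈ nums, ∃ q : ℚ, (q : ℝ) = v ∧ bitLength q ≤ p.eval (inputLength A' b')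

/-- The main theorem. -/
def S_FINAL (k : ℕ) : Prop := PolyControl (alg k) ∧ OracleFree (alg k) ∧
  StronglyPolynomialOn (fun m n A _ =>
    (Set.range fun p : Fin m × Fin n => A p.1 p.2).ncard ≤ k) (alg k)

end Pool.Agent.W920.FC
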