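import Pool.Agent.W920.FC.Stm

set_option autoImplicit false

namespace Pool.Agent.W920.FC

open Pool.Agent.NPC Pool.Agent.H558R2 Pool.Agent.H622R3.SM

namespace TBD2

lemma getD_sg (sg : List ℤ) (h : ∀ x ∈ sg, x.natAbs ≤ 1) (l : ℕ) : (sg.getD l 0).natAbs ≤ 1 := by
  rw [List.getD_eq_getElem?_getD]
  rcases hh : sg[l]? with _ | x
  · simp
  · simpa using h x (List.mem_of_getElem? hh)

lemma getD_F (B : ℕ) (F : List (List ℤ)) (h : ∀ C ∈ F, SmallL B C) (l : ℕ) :
    SmallL B (F.getD l []) := by
  rw [List.getD_eq_getElem?_getD]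
  rcases hh : F[l]? with _ | x
  · intro x hx
    simp at hx
  · simpa using h x (List.mem_of_getElem? hh)

lemma small_mono {B B' : ℕ} (h : B ≤ B') {C : List ℤ} (hC : SmallL B C) : SmallL B' C :=
  fun x hx => (hC x hx).trans (Nat.pow_le_pow_right (by norm_num) h)

lemma cN_pos (k m : ℕ) : 1 ≤ cN k m := Nat.one_le_pow _ _ (by omega)

end TBD2

open TBD2 in
theorem t_BD2 : S_SDA → S_LIN → S_BD2 := by
  intro hSDA hLIN k m j s sg best a hj hsg hBd
  obtain ⟨h1, h2, h3, h4, h5⟩ := hBd
  have hbd1 : bdM k m (j + 1) = bdM k m j + cP k m + 1 := by unfold bdM; ring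
  have hbdm : ∀ i i' : ℕ, i ≤ i' → bdM k m i ≤ bdM k m i' := fun i i' h =>
    Nat.mul_le_mul_left _ h
  have hN1 := cN_pos k m
  unfold finish
  split_ifs with hz
  · refine ⟨by omega, h2, h3, fun C hC => ⟨(h4 C hC).1, small_mono (hbdm _ _ (by omega))
      (h4 C hC).2⟩, h5.trans (Nat.pow_le_pow_right (by norm_num) (Nat.mul_le_mul_left _ (by omega)))⟩
  · obtain ⟨r1, r2, r3, r4, -⟩ := hSDA (cN k m) (cE k m) (m * m)
      ((List.range (cN k m)).map fun l => if l = best then 2 ^ cP k m else a.getD l 0) hN1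
      (by unfold cE; omega)
    have hcP : (cN k m + 1) * cE k m = cP k m := rfl
    rw [hcP] at r2 r4
    dsimp only
    generalize sda (cN k m) (cE k m)
      ((List.range (cN k m)).map fun l => if l = best then 2 ^ cP k m else a.getD l 0) = r
      at r1 r2 r3 r4 ⊢
    have hr1 : r.1 ≤ 2 ^ cP k m :=
      (Nat.le_mul_of_pos_right _ (by positivity)).trans r4
    have hF := getD_F (bdM k m j) s.2.1 fun C hC => (h4 C hC).2
    have hD : s.2.2 * r.1 ≤ 2 ^ (cP k m * (j + 1)) := by
      rw [Nat.mul_succ, pow_add]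
      exact Nat.mul_le_mul h5 hr1
    have hr2 : ∀ l, (r.2.getD l 0).natAbs ≤ 2 ^ cP k m := by
      intro l
      by_cases hl : l < cN k m
      · exact r2 l hl
      · rw [List.getD_eq_default _ _ (by omega)]
        simp
    refine ⟨?_, ?_, ?_, ?_, hD⟩
    · simp only [List.length_append, List.length_singleton]
      omega
    · intro b hb
      rcases List.mem_append.1 hb with hb | hb
      · exact h2 b hb
      · rw [List.mem_singleton] at hb
        subst hb
        obtain ⟨-, l2, -, l4⟩ := hLIN (cN k m) (fun _ => 0) (sg.getD best 0) 0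
          (s.2.1.getD best []) []
        refine ⟨l2, small_mono ?_ (l4 (bdM k m j) 0 (hF best) (fun x hx => by simp at hx)
          (by simpa using getD_sg sg hsg best) (by simp)), hD.trans (Nat.pow_le_pow_right
            (by norm_num) (Nat.mul_le_mul_left _ (by omega)))⟩
        have := hbdm (j + 1) (cN k m) (by omega)
        omega
    · simp
    · intro C hC
      simp only [List.mem_map, List.mem_range] at hC
      obtain ⟨l, -, rfl⟩ := hC
      obtain ⟨-, l2, -, l4⟩ := hLIN (cN k m) (fun _ => 0) (r.1 : ℤ)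
        (-(sg.getD l 0 * sg.getD best 0 * r.2.getD l 0)) (s.2.1.getD l []) (s.2.1.getD best [])
      refine ⟨l2, ?_⟩
      rw [hbd1]
      refine l4 (bdM k m j) (cP k m) (hF l) (hF best) (by simpa using hr1) ?_
      rw [Int.natAbs_neg, Int.natAbs_mul, Int.natAbs_mul]
      calc (sg.getD l 0).natAbs * (sg.getD best 0).natAbs * (r.2.getD l 0).natAbs
          ≤ 1 * 1 * 2 ^ cP k m := Nat.mul_le_mul (Nat.mul_le_mul (getD_sg sg hsg l)
            (getD_sg sg hsg best)) (hr2 l)
        _ = 2 ^ cP k m := by ring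

end Pool.Agent.W920.FC
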