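import Pool.Agent.W920.FC.Stm

set_option autoImplicit false

/-!
# Linear feasibility for matrices with few distinct entries: from the invariant to the scales
-/

namespace Pool.Agent.W920.FC

namespace TG2

open Pool.Agent.NPC Pool.Agent.H558R2 Pool.Agent.H622R3.SM

theorem getD_mem {α : Type} (L : List α) (i : ℕ) (d : α) (h : i < L.length) : L.getD i d ∈ L := by
  rw [List.getD_eq_getElem _ _ h]
  exact List.getElem_mem h

theorem inv0 (hL : S_LIN) (k m : ℕ) (w : ℕ → ℝ) : Inv2 k m w 0 ([], (unitF (cN k m), 1)) := by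
  refine ⟨⟨by simp, by simp, by simp [unitF], ?_, by simp⟩, le_rfl, by simp, Nat.zero_le _,
    fun _ _ => 0, by simp, ?_, by simp⟩
  · intro C hC
    simp only [unitF, List.mem_map, List.mem_range] at hC
    obtain ⟨l, hl, rfl⟩ := hC
    refine ⟨by simp, ?_⟩
    intro x hx
    simp only [List.mem_map, List.mem_range] at hx
    obtain ⟨l', _, rfl⟩ := hx
    by_cases h : l' = l
    · simp [h, bdM]
    · simp [h]
  · intro l hl
    have h := (hL (cN k m) w 0 0 [] []).2.2.1 l hl
    simp only [List.length_nil, Finset.range_zero, Finset.sum_empty, Nat.cast_one, div_one, zero_add]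
    exact h.symm

theorem good (hF : S_FT) (k m : ℕ) (w : ℕ → ℝ) (s : S2) (h : Inv2 k m w (cN k m) s) :
    Good2 k m w s.1 := by
  obtain ⟨⟨hb1, hb2, hb3, hb4, hb5⟩, h1, hrec, hcard, v, hv1, hv2, hv3⟩ := h
  refine ⟨hb1, fun a ha => ⟨(hb2 a ha).2.1, (hb2 a ha).2.2⟩, hrec, ?_⟩
  have hfil : ((Finset.range (cN k m)).filter fun l => evF (cN k m) w (s.2.1.getD l []) = 0)
      = Finset.range (cN k m) := by
    apply Finset.eq_of_subset_of_card_le (Finset.filter_subset _ _)
    rw [Finset.card_range]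
    exact hcard
  have hz : ∀ l < cN k m, evF (cN k m) w (s.2.1.getD l []) = 0 := by
    intro l hl
    have : l ∈ ((Finset.range (cN k m)).filter fun l => evF (cN k m) w (s.2.1.getD l []) = 0) := by
      rw [hfil]; exact Finset.mem_range.mpr hl
    exact (Finset.mem_filter.mp this).2
  have hw : ∀ l < cN k m, w l = ∑ i ∈ Finset.range s.1.length,
        evF (cN k m) w (s.1.getD i ([], 0)).1 / (s.1.getD i ([], 0)).2 * v i l := by
    intro l hl
    have h := hv2 l hl
    rw [hz l hl, zero_div, add_zero] at h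
    exact h
  intro y hy
  rcases hF (cN k m) (m * m) (cP k m) s.1.length
    (fun i => evF (cN k m) w (s.1.getD i ([], 0)).1 / (s.1.getD i ([], 0)).2) v w
    (fun i hi => by
      have hm := getD_mem s.1 i ([], 0) hi
      have h2 := hrec _ hm
      have h3 : (0 : ℝ) < ((s.1.getD i ([], 0)).2 : ℝ) := by exact_mod_cast h2.1
      exact div_pos h2.2 h3)
    hv1 hw hv3 y hy with h0 | ⟨i, hi, h1, h2⟩
  · exact Or.inl h0
  · exact Or.inr ⟨s.1.getD i ([], 0), getD_mem s.1 i ([], 0) hi, h1, h2⟩

end TG2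

theorem t_G2 : S_FT → S_LIN → S_G2 := fun hF hL k m w s =>
  ⟨TG2.inv0 hL k m w, TG2.good hF k m w s⟩

end Pool.Agent.W920.FC
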