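import Pool.Agent.W920.FC.Stm

set_option autoImplicit false

/-!
# The initial weights, and the list of the monomials (FC-IDXW0)
-/

namespace Pool.Agent.W920.FC

open Pool.Agent.NPC Pool.Agent.H558R2 Pool.Agent.H622R3.SM

namespace TIDXW0

theorem exps_length (m : ℕ) : ∀ j : ℕ, (exps m j).length = (m + 1) ^ j
  | 0 => rfl
  | j + 1 => by
    show ((List.range (m + 1)).flatMap fun d => (exps m j).map fun e => d :: e).length = _
    rw [List.length_flatMap]
    have h : (List.map (fun d => ((exps m j).map fun e => d :: e).length) (List.range (m + 1))) =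
        List.map (fun _ => (m + 1) ^ j) (List.range (m + 1)) := by
      refine List.map_congr_left fun d _ => ?_
      rw [List.length_map, exps_length m j]
    rw [h, List.map_const', List.sum_replicate, List.length_range, smul_eq_mul, pow_succ]
    ring

theorem mem_exps (m : ℕ) : ∀ (j : ℕ) (e : List ℕ), e ∈ exps m j ↔ e.length = j ∧ ∀ d ∈ e, d ≤ m
  | 0, e => by
    show e ∈ [[]] ↔ _
    rw [List.mem_singleton]
    constructor
    · rintro rfl
      exact ⟨rfl, by simp⟩
    · rintro ⟨h, -⟩
      exact List.length_eq_zero_iff.1 h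
  | j + 1, e => by
    show e ∈ ((List.range (m + 1)).flatMap fun d => (exps m j).map fun e => d :: e) ↔ _
    rw [List.mem_flatMap]
    constructor
    · rintro ⟨d, hd, he⟩
      rw [List.mem_map] at he
      obtain ⟨e', he', rfl⟩ := he
      rw [mem_exps m j] at he'
      rw [List.mem_range] at hd
      refine ⟨by rw [List.length_cons, he'.1], ?_⟩
      intro x hx
      rcases List.mem_cons.1 hx with rfl | hx
      · omega
      · exact he'.2 x hx
    · rintro ⟨h1, h2⟩
      cases e with
      | nil => simp at h1
      | cons d e' =>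
        refine ⟨d, ?_, ?_⟩
        · have := h2 d List.mem_cons_self
          rw [List.mem_range]
          omega
        · rw [List.mem_map]
          refine ⟨e', ?_, rfl⟩
          rw [mem_exps m j]
          refine ⟨by simpa using h1, fun x hx => h2 x (List.mem_cons_of_mem _ hx)⟩

theorem exps_zero (m : ℕ) : ∀ j : ℕ, ∃ L, exps m j = List.replicate j 0 :: L
  | 0 => ⟨[], rfl⟩
  | j + 1 => by
    obtain ⟨L, hL⟩ := exps_zero m j
    have h : exps m (j + 1) =
        (List.range (m + 1)).flatMap fun d => (exps m j).map fun e => d :: e := rfl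
    rw [h, List.range_succ_eq_map, List.flatMap_cons, hL, List.map_cons, List.cons_append]
    exact ⟨_, rfl⟩

theorem getD_rep (n i : ℕ) : (List.replicate n (0 : ℕ)).getD i 0 = 0 := by
  by_cases h : i < n
  · rw [List.getD_eq_getElem _ _ (by simpa using h), List.getElem_replicate]
  · rw [List.getD_eq_default _ _ (by simpa using h)]

theorem evF_nil (N : ℕ) (w : ℕ → ℝ) : evF N w [] = 0 := by
  unfold evF
  simp

end TIDXW0

open TIDXW0

theorem t_IDXW0 : S_IDX0 ∧ S_W0 := by
  refine ⟨?_, ?_⟩
  · intro k m n g w Lad hG
    obtain ⟨-, -, hpos, hsort, -⟩ := hG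
    have hz : ∀ j, ((List.range (m + (n + n))).map fun _ => (0 : ℕ)).getD j 0 = 0 := by
      intro j
      rw [List.map_const', getD_rep]
    refine ⟨⟨by simp, fun j => by rw [hz]; exact Nat.zero_le _⟩, ?_, ?_⟩
    · rintro x ⟨-, -, -, hx⟩ j hj
      have e : (wts m n Lad ((List.range (m + (n + n))).map fun _ => 0)).getD j ([], []) =
          Lad.getD 0 ([], [1]) := by
        unfold wts
        rw [List.getD_append _ _ _ _ (by simpa using hj)]
        rw [List.getD_eq_getElem _ _ (by simpa using hj), List.getElem_map, hz]
      unfold Wt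
      rw [e]
      cases Lad with
      | nil =>
        rcases hx j hj with h | ⟨u, hu, -⟩
        · rw [h]
          simp [rt, evF_nil]
        · simp at hu
      | cons u0 L =>
        rw [List.getD_cons_zero]
        have h0 := hpos u0 List.mem_cons_self
        have hle : ∀ u ∈ u0 :: L, rt (cN k m) w u ≤ rt (cN k m) w u0 := by
          intro u hu
          rcases List.mem_cons.1 hu with rfl | hu
          · exact le_rfl
          · exact (List.pairwise_cons.1 hsort).1 u hu
        rcases hx j hj with h | ⟨u, hu, -, hu2⟩
        · rw [h]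
          unfold rt
          exact (div_pos h0.1 h0.2).le
        · exact hu2.trans (hle u hu)
    · rintro idx ⟨h1, h2⟩
      have h := List.sum_le_card_nsmul idx Lad.length (fun x hx => by
        obtain ⟨i, hi, rfl⟩ := List.mem_iff_getElem.1 hx
        have := h2 i
        rwa [List.getD_eq_getElem _ _ hi] at this)
      rwa [h1, smul_eq_mul] at h
  · intro k m g reps hB
    refine ⟨?_, ?_, ?_, ?_⟩
    · obtain ⟨L, hL⟩ := exps_zero m (k + 1)
      unfold wv mono
      rw [hL, List.getD_cons_zero]
      have hz : ∀ i, (List.replicate (k + 1) (0 : ℕ)).getD i 0 = 0 := fun i => getD_rep _ _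
      simp only [hz, pow_zero, Finset.prod_const_one, mul_one, breg, if_true]
      exact hB.1
    · exact exps_length m (k + 1)
    · intro e he
      exact (mem_exps m (k + 1) e).1 he
    · intro e h1 h2
      have h := (mem_exps m (k + 1) e).2 ⟨h1, h2⟩
      obtain ⟨i, hi, he⟩ := List.mem_iff_getElem.1 h
      refine ⟨i, ?_, ?_⟩
      · rw [exps_length] at hi
        exact hi
      · rw [List.getD_eq_getElem _ _ hi, he]

end Pool.Agent.W920.FC
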